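import Mathlib

/-!
# MP_18b2cf_co, upper bound, module A1: a Bezout bound for nondegenerate real zeros
-/

set_option autoImplicit false

namespace Pool.Agent.H7.UB

open Finset Matrix

namespace A1

open MvPolynomial

variable {σ : Type} [Fintype σ] [DecidableEq σ]

/-- polynomials are strictly differentiable -/
theorem hasStrictFDerivAt (p : MvPolynomial σ ℝ) (z : σ → ℝ) :
    HasStrictFDerivAt (fun x : σ → ℝ => eval x p)
      (∑ j, eval z (pderiv j p) • (ContinuousLinearMap.proj j : (σ → ℝ) →L[ℝ] ℝ)) z := by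
  induction p using MvPolynomial.induction_on with
  | C a =>
    simp only [eval_C, pderiv_C, map_zero, zero_smul, Finset.sum_const_zero]
    exact hasStrictFDerivAt_const a z
  | add p q hp hq =>
    have h := hp.add hq
    simp only [map_add]
    refine h.congr_fderiv ?_
    rw [← Finset.sum_add_distrib]
    exact Finset.sum_congr rfl (fun j _ => by rw [add_smul])
  | mul_X p i hp =>
    have hX : HasStrictFDerivAt (fun x : σ → ℝ => x i)
        (ContinuousLinearMap.proj i : (σ → ℝ) →L[ℝ] ℝ) z :=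
      (ContinuousLinearMap.proj i : (σ → ℝ) →L[ℝ] ℝ).hasStrictFDerivAt
    have h := hp.mul hX
    simp only [map_mul, eval_X]
    refine h.congr_fderiv ?_
    ext v
    simp only [_root_.add_apply, _root_.smul_apply,
      _root_.sum_apply, ContinuousLinearMap.proj_apply, smul_eq_mul,
      Derivation.leibniz, map_add, map_mul, eval_X, pderiv_X, Pi.single_apply]
    rw [Finset.mul_sum]
    simp only [add_mul, Finset.sum_add_distrib]
    congr 1
    · rw [Finset.sum_eq_single i]
      · simp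
      · intro j _ hj
        simp [hj.symm]
      · intro h; exact absurd (Finset.mem_univ _) h
    · exact Finset.sum_congr rfl (fun j _ => by ring)

/-- the map of a system of polynomials is open at a nondegenerate zero -/
theorem image_mem_nhds (Q : σ → MvPolynomial σ ℝ) (z : σ → ℝ)
    (hz : ∀ j, eval z (Q j) = 0)
    (hJ : Matrix.det (Matrix.of fun i j => eval z (pderiv j (Q i))) ≠ 0)
    (O : Set (σ → ℝ)) (hO : O ∈ nhds z) :
    (fun x : σ → ℝ => fun j => eval x (Q j)) '' O ∈ nhds (0 : σ → ℝ) := by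
  set M : Matrix σ σ ℝ := Matrix.of fun i j => eval z (pderiv j (Q i)) with hM
  have h1 : HasStrictFDerivAt (fun x : σ → ℝ => fun j => eval x (Q j))
      (ContinuousLinearMap.pi (fun i => ∑ j, eval z (pderiv j (Q i)) •
        (ContinuousLinearMap.proj j : (σ → ℝ) →L[ℝ] ℝ))) z :=
    hasStrictFDerivAt_pi.2 (fun i => hasStrictFDerivAt (Q i) z)
  have h2 : (ContinuousLinearMap.pi (fun i => ∑ j, eval z (pderiv j (Q i)) •
        (ContinuousLinearMap.proj j : (σ → ℝ) →L[ℝ] ℝ))).range = ⊤ := by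
    rw [LinearMap.range_eq_top]
    intro y
    refine ⟨M⁻¹ *ᵥ y, ?_⟩
    have h3 : M *ᵥ (M⁻¹ *ᵥ y) = y := by
      rw [Matrix.mulVec_mulVec, Matrix.mul_nonsing_inv _ (isUnit_iff_ne_zero.2 hJ),
        Matrix.one_mulVec]
    conv_rhs => rw [← h3]
    funext i
    simp [Matrix.mulVec, dotProduct, hM]
  have h4 := h1.map_nhds_eq_of_surj h2
  have h5 : (fun j => eval z (Q j)) = 0 := funext hz
  rw [h5] at h4
  rw [← h4]
  exact Filter.image_mem_map hO

/-- the number of monomials of bounded degree -/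
theorem card_monomials (E : ℕ) : Nat.card {s : σ →₀ ℕ | (s.sum fun _ e => e) ≤ E} ≤
    (E + Fintype.card σ).choose (Fintype.card σ) := by
  classical
  -- injection into `Sym (Option σ) E`
  let F : {s : σ →₀ ℕ | (s.sum fun _ e => e) ≤ E} → (univ : Finset (Option σ)).finsuppAntidiag E :=
    fun s => ⟨Finsupp.equivFunOnFinite.symm (fun o => o.elim (E - s.1.sum fun _ e => e) s.1), by
      rw [Finset.mem_finsuppAntidiag]
      refine ⟨?_, Finset.subset_univ _⟩
      rw [Fintype.sum_option]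
      simp only [Finsupp.equivFunOnFinite_symm_apply_apply, Option.elim_none, Option.elim_some]
      have h1 : (s.1.sum fun _ e => e) = ∑ x : σ, s.1 x := Finsupp.sum_fintype _ _ (fun _ => rfl)
      have h2 : (s.1.sum fun _ e => e) ≤ E := s.2
      omega⟩
  have hF : Function.Injective F := by
    intro s t h
    apply Subtype.ext
    ext x
    have h1 := congrArg (fun z => z.1 (some x)) h
    simpa [F] using h1
  have h2 := Nat.card_le_card_of_injective F hF
  refine h2.trans (le_of_eq ?_)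
  rw [Nat.card_eq_fintype_card, Fintype.card_coe, Finset.card_finsuppAntidiag_nat_eq_choose,
    Finset.card_univ, Fintype.card_option]
  rw [show Fintype.card σ + 1 + E - 1 = E + Fintype.card σ by omega]
  rw [← Nat.choose_symm (Nat.le_add_right _ _)]
  congr 1
  omega

/-- linearly independent families of polynomials of bounded degree -/
theorem card_le_of_linearIndependent {ι : Type} [Fintype ι] (v : ι → MvPolynomial σ ℝ) (E : ℕ)
    (hv : ∀ i, (v i).totalDegree ≤ E) (hli : LinearIndependent ℝ v) :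
    Fintype.card ι ≤ (E + Fintype.card σ).choose (Fintype.card σ) := by
  let v' : ι → restrictTotalDegree σ ℝ E := fun i =>
    ⟨v i, (mem_restrictTotalDegree σ E (v i)).2 (hv i)⟩
  have h1 : LinearIndependent ℝ v' := LinearIndependent.of_comp (Submodule.subtype _) hli
  have h2 := h1.fintype_card_le_finrank
  have h3 : Module.finrank ℝ (restrictTotalDegree σ ℝ E) =
      Nat.card {s : σ →₀ ℕ | (s.sum fun _ e => e) ≤ E} :=
    Module.finrank_eq_nat_card_basis (basisRestrictSupport ℝ _)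
  rw [h3] at h2
  exact h2.trans (card_monomials E)

/-- a linear form with distinct values -/
theorem exists_form (Z : Finset (σ → ℝ)) : ∃ w : σ → ℝ,
    ∀ z ∈ Z, ∀ z' ∈ Z, z ≠ z' → w ⬝ᵥ z ≠ w ⬝ᵥ z' := by
  classical
  let P : MvPolynomial σ ℝ := ∏ q ∈ Z.offDiag, ∑ j, C (q.1 j - q.2 j) * X j
  have hP : P ≠ 0 := by
    refine Finset.prod_ne_zero_iff.2 (fun q hq h0 => ?_)
    have h1 : q.1 ≠ q.2 := (Finset.mem_offDiag.1 hq).2.2
    apply h1
    funext j
    have h2 := congrArg (coeff (Finsupp.single j 1)) h0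
    rw [coeff_sum] at h2
    simp only [coeff_C_mul, coeff_X, coeff_zero] at h2
    rw [Finset.sum_eq_single j] at h2
    · simp only [if_true, mul_one] at h2
      exact sub_eq_zero.1 h2
    · intro i _ hi
      rw [if_neg, mul_zero]
      intro h3
      exact hi (Finsupp.single_left_injective one_ne_zero h3)
    · intro h; exact absurd (Finset.mem_univ _) h
  obtain ⟨w, hw⟩ : ∃ w, eval w P ≠ 0 := by
    by_contra h
    push Not at h
    exact hP (MvPolynomial.funext (fun x => by rw [h x, map_zero]))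
  refine ⟨w, fun z hz z' hz' hne h => hw ?_⟩
  rw [map_prod]
  refine Finset.prod_eq_zero (Finset.mem_offDiag.2 ⟨hz, hz', hne⟩ : (z, z') ∈ Z.offDiag) ?_
  rw [map_sum]
  simp only [map_mul, eval_C, eval_X]
  have : ∑ x, (z x - z' x) * w x = w ⬝ᵥ z - w ⬝ᵥ z' := by
    rw [dotProduct, dotProduct, ← Finset.sum_sub_distrib]
    exact Finset.sum_congr rfl (fun x _ => by ring)
  rw [this, h, sub_self]

/-- the linear independence of the products -/
theorem li (Q : σ → MvPolynomial σ ℝ) (Z : Finset (σ → ℝ))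
    (hZ : ∀ z ∈ Z, ∀ j, eval z (Q j) = 0)
    (hJ : ∀ z ∈ Z, Matrix.det (Matrix.of fun i j => eval z (pderiv j (Q i))) ≠ 0)
    (w : σ → ℝ) (hw : ∀ z ∈ Z, ∀ z' ∈ Z, z ≠ z' → w ⬝ᵥ z ≠ w ⬝ᵥ z') (A : σ → ℕ) :
    LinearIndependent ℝ (fun q : (∀ j, Fin (A j)) × Fin Z.card =>
      (∏ j, Q j ^ (q.1 j : ℕ)) * (∑ j, C (w j) * X j : MvPolynomial σ ℝ) ^ (q.2 : ℕ)) := by
  classical
  rw [Fintype.linearIndependent_iff]
  intro c hc
  let m : (∀ j, Fin (A j)) → (σ →₀ ℕ) := fun α =>
    Finsupp.equivFunOnFinite.symm (fun j => (α j : ℕ))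
  have hm : Function.Injective m := by
    intro α β h
    have h1 := Finsupp.equivFunOnFinite.symm.injective h
    funext j
    exact Fin.ext (congrFun h1 j)
  let G : Fin Z.card → MvPolynomial σ ℝ := fun l => ∑ α, monomial (m α) (c (α, l))
  obtain ⟨U, hU, hdis⟩ := (Z.image (fun z => w ⬝ᵥ z)).finite_toSet.t2_separation
  let O : (σ → ℝ) → Set (σ → ℝ) := fun z => (fun x => w ⬝ᵥ x) ⁻¹' (U (w ⬝ᵥ z))
  have hcont : Continuous (fun x : σ → ℝ => w ⬝ᵥ x) := by
    unfold dotProduct
    fun_prop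
  have hO : ∀ z, O z ∈ nhds z := fun z =>
    ((hU (w ⬝ᵥ z)).2.preimage hcont).mem_nhds (hU (w ⬝ᵥ z)).1
  have hV : (⋂ z ∈ Z, (fun x : σ → ℝ => fun j => eval x (Q j)) '' (O z)) ∈
      nhds (0 : σ → ℝ) :=
    (Filter.biInter_finset_mem Z).2 (fun z hz => image_mem_nhds Q z (hZ z hz) (hJ z hz) _ (hO z))
  obtain ⟨ε, hε, hball⟩ := Metric.mem_nhds_iff.1 hV
  have key : ∀ y ∈ Metric.ball (0 : σ → ℝ) ε, ∀ l, eval y (G l) = 0 := by
    intro y hy
    have h1 : ∀ z ∈ Z, ∃ x ∈ O z, (fun j => eval x (Q j)) = y := by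
      intro z hz
      have := Set.mem_iInter₂.1 (hball hy) z hz
      obtain ⟨x, hx, hxy⟩ := this
      exact ⟨x, hx, hxy⟩
    choose! x hx hxy using h1
    let p : Polynomial ℝ := ∑ l : Fin Z.card, Polynomial.C (eval y (G l)) * Polynomial.X ^ (l : ℕ)
    have hp0 : p = 0 := by
      refine Polynomial.eq_zero_of_degree_lt_of_eval_index_eq_zero (s := Z)
        (v := fun z => w ⬝ᵥ x z) ?_ (Polynomial.degree_sum_fin_lt _) ?_
      · intro z hz z' hz' h
        by_contra hne
        have h2 : w ⬝ᵥ z ≠ w ⬝ᵥ z' := hw z hz z' hz' hne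
        have h3 := hdis (Finset.mem_coe.2 (Finset.mem_image_of_mem _ hz))
          (Finset.mem_coe.2 (Finset.mem_image_of_mem _ hz')) h2
        refine Set.disjoint_left.1 h3 (hx z hz) ?_
        have h4 : w ⬝ᵥ x z' ∈ U (w ⬝ᵥ z') := hx z' hz'
        have h5 : w ⬝ᵥ x z = w ⬝ᵥ x z' := h
        show w ⬝ᵥ x z ∈ U (w ⬝ᵥ z')
        rw [h5]
        exact h4
      · intro z hz
        have h2 := congrArg (eval (x z)) hc
        rw [map_sum, map_zero] at h2
        rw [← h2, Polynomial.eval_finsetSum]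
        simp only [Polynomial.eval_mul, Polynomial.eval_C, Polynomial.eval_pow, Polynomial.eval_X,
          smul_eval, map_mul, map_prod, map_pow, map_sum, eval_C, eval_X]
        rw [← Finset.univ_product_univ, Finset.sum_product_right]
        refine Finset.sum_congr rfl (fun l _ => ?_)
        simp only [G, map_sum, eval_monomial]
        rw [Finset.sum_mul]
        refine Finset.sum_congr rfl (fun α _ => ?_)
        have h3 : ((m α).prod fun i e => y i ^ e) = ∏ j, eval (x z) (Q j) ^ (α j : ℕ) := by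
          rw [Finsupp.prod_fintype _ _ (fun i => pow_zero _)]
          refine Finset.prod_congr rfl (fun j _ => ?_)
          have h6 : eval (x z) (Q j) = y j := congrFun (hxy z hz) j
          rw [h6]
          rfl
        rw [h3]
        simp only [dotProduct, mul_assoc]
    intro l
    have h2 := congrArg (fun q => Polynomial.coeff q (l : ℕ)) hp0
    simp only [p, Polynomial.finsetSum_coeff, Polynomial.coeff_C_mul_X_pow,
      Polynomial.coeff_zero] at h2
    rw [Finset.sum_eq_single l] at h2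
    · simpa using h2
    · intro l' _ hl'
      rw [if_neg]
      intro h
      exact hl' (Fin.ext h.symm)
    · intro h; exact absurd (Finset.mem_univ _) h
  have hG : ∀ l, G l = 0 := by
    intro l
    refine MvPolynomial.funext_set (fun _ => Metric.ball (0 : ℝ) ε)
      (fun _ => infinite_of_mem_nhds (0 : ℝ) (Metric.ball_mem_nhds _ hε)) (fun y hy => ?_)
    rw [map_zero]
    refine key y ?_ l
    rw [ball_pi _ hε]
    exact hy
  rintro ⟨α, l⟩
  have h1 := congrArg (coeff (m α)) (hG l)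
  simp only [G, coeff_sum, coeff_monomial, coeff_zero] at h1
  rw [Finset.sum_eq_single α] at h1
  · simpa using h1
  · intro β _ hβ
    rw [if_neg]
    intro h
    exact hβ (hm h)
  · intro h; exact absurd (Finset.mem_univ _) h

/-- the inequality for all exponents -/
theorem ineq (Q : σ → MvPolynomial σ ℝ) (δ : σ → ℕ)
    (hQ : ∀ j, (Q j).totalDegree ≤ δ j) (Z : Finset (σ → ℝ))
    (hZ : ∀ z ∈ Z, ∀ j, eval z (Q j) = 0)
    (hJ : ∀ z ∈ Z, Matrix.det (Matrix.of fun i j => eval z (pderiv j (Q i))) ≠ 0) (A : σ → ℕ) :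
    (∏ j, A j) * Z.card ≤
      ((∑ j, A j * δ j) + Z.card + Fintype.card σ).choose (Fintype.card σ) := by
  classical
  obtain ⟨w, hw⟩ := exists_form Z
  have h1 := card_le_of_linearIndependent _ ((∑ j, A j * δ j) + Z.card) ?_
    (li Q Z hZ hJ w hw A)
  · rw [Fintype.card_prod, Fintype.card_pi, Fintype.card_fin] at h1
    simpa using h1
  · rintro ⟨α, l⟩
    refine (totalDegree_mul _ _).trans (add_le_add ?_ ?_)
    · refine (totalDegree_finsetProd _ _).trans (Finset.sum_le_sum (fun j _ => ?_))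
      refine (totalDegree_pow _ _).trans ?_
      exact Nat.mul_le_mul (α j).2.le (hQ j)
    · refine (totalDegree_pow _ _).trans ?_
      have h2 : (∑ j, C (w j) * X j : MvPolynomial σ ℝ).totalDegree ≤ 1 := by
        refine totalDegree_finsetSum_le (fun j _ => ?_)
        refine (totalDegree_mul _ _).trans ?_
        rw [totalDegree_C, totalDegree_X]
      calc (l : ℕ) * (∑ j, C (w j) * X j : MvPolynomial σ ℝ).totalDegree ≤ (l : ℕ) * 1 :=
            Nat.mul_le_mul le_rfl h2
        _ ≤ Z.card := by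
            rw [mul_one]
            exact l.2.le

end A1

/-- (A1) Bezout bound for nondegenerate real zeros. -/
theorem bezout {σ : Type} [Fintype σ] [DecidableEq σ] (Q : σ → MvPolynomial σ ℝ) (δ : σ → ℕ)
    (hδ : ∀ j, 1 ≤ δ j) (hQ : ∀ j, (Q j).totalDegree ≤ δ j) (Z : Finset (σ → ℝ))
    (hZ : ∀ z ∈ Z, ∀ j, MvPolynomial.eval z (Q j) = 0)
    (hJ : ∀ z ∈ Z, Matrix.det (Matrix.of fun i j =>
      MvPolynomial.eval z (MvPolynomial.pderiv j (Q i))) ≠ 0) :
    (Z.card : ℝ) ≤ Real.exp (Fintype.card σ) * ∏ j, (δ j : ℝ) := by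
  classical
  set D := Fintype.card σ with hD
  set Δ : ℕ := ∏ j, δ j with hΔ
  have hΔ1 : 1 ≤ Δ := Finset.one_le_prod' (fun j _ => hδ j)
  have hΔ0 : (0 : ℝ) < Δ := by exact_mod_cast hΔ1
  have h1 : ∀ a : ℕ, (Z.card : ℝ) ≤
      Δ * ((D + (Z.card + D : ℝ) / ((a + 1 : ℕ) * Δ : ℝ)) ^ D / (D.factorial : ℝ)) := by
    intro a
    have hA : ∀ j, ((a + 1) * ∏ i ∈ univ.erase j, δ i) * δ j = (a + 1) * Δ := by
      intro j
      rw [hΔ, mul_assoc, Finset.prod_erase_mul _ _ (Finset.mem_univ j)]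
    have h2 := A1.ineq Q δ hQ Z hZ hJ (fun j => (a + 1) * ∏ i ∈ univ.erase j, δ i)
    rw [Finset.sum_congr rfl (fun j _ => hA j), Finset.sum_const, Finset.card_univ, ← hD,
      smul_eq_mul] at h2
    have h3 : (((D * ((a + 1) * Δ) + Z.card + D).choose D : ℕ) : ℝ) ≤
        ((D * ((a + 1) * Δ) + Z.card + D : ℕ) : ℝ) ^ D / (D.factorial : ℝ) :=
      Nat.choose_le_pow_div D _
    have h4 : ((∏ j, ((a + 1) * ∏ i ∈ univ.erase j, δ i) : ℕ) : ℝ) * Δ =
        ((a + 1 : ℕ) * Δ : ℝ) ^ D := by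
      have : (∏ j, ((a + 1) * ∏ i ∈ univ.erase j, δ i)) * Δ = ((a + 1) * Δ) ^ D := by
        conv_lhs => rw [hΔ, ← Finset.prod_mul_distrib]
        rw [Finset.prod_congr rfl (fun j _ => hA j), Finset.prod_const, Finset.card_univ]
      exact_mod_cast this
    have h5 : ((∏ j, ((a + 1) * ∏ i ∈ univ.erase j, δ i) : ℕ) : ℝ) * Z.card ≤
        ((D * ((a + 1) * Δ) + Z.card + D : ℕ) : ℝ) ^ D / (D.factorial : ℝ) :=
      le_trans (by exact_mod_cast h2) h3
    set T : ℝ := ((a + 1 : ℕ) * Δ : ℝ) with hT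
    have hT0 : 0 < T := by positivity
    have h6 : T ^ D * Z.card ≤ Δ * (((D * T + Z.card + D : ℝ)) ^ D / (D.factorial : ℝ)) := by
      rw [← h4]
      have := mul_le_mul_of_nonneg_left h5 hΔ0.le
      have e : ((D * ((a + 1) * Δ) + Z.card + D : ℕ) : ℝ) = (D * T + Z.card + D : ℝ) := by
        rw [hT]; push_cast; ring
      rw [e] at this
      calc _ = (Δ : ℝ) * (((∏ j, ((a + 1) * ∏ i ∈ univ.erase j, δ i) : ℕ) : ℝ) * Z.card) := by
            ring
        _ ≤ _ := this
    have e2 : (D * T + Z.card + D : ℝ) = T * (D + (Z.card + D : ℝ) / T) := by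
      field_simp
      ring
    rw [e2, mul_pow T (D + (Z.card + D : ℝ) / T)] at h6
    have h7 : T ^ D * Z.card ≤ T ^ D * (Δ * ((D + (Z.card + D : ℝ) / T) ^ D / (D.factorial : ℝ))) := by
      calc _ ≤ _ := h6
        _ = _ := by ring
    exact le_of_mul_le_mul_left h7 (pow_pos hT0 D)
  have h2 : Filter.Tendsto (fun a : ℕ => (Δ : ℝ) * ((D + (Z.card + D : ℝ) /
      ((a + 1 : ℕ) * Δ : ℝ)) ^ D / (D.factorial : ℝ))) Filter.atTop
      (nhds (Δ * ((D + 0 : ℝ) ^ D / (D.factorial : ℝ)))) := by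
    refine Filter.Tendsto.const_mul _ (Filter.Tendsto.div_const (Filter.Tendsto.pow
      (Filter.Tendsto.const_add _ ?_) _) _)
    have h3 : Filter.Tendsto (fun a : ℕ => ((a + 1 : ℕ) * Δ : ℝ)) Filter.atTop Filter.atTop :=
      Filter.Tendsto.atTop_mul_const hΔ0
        (tendsto_natCast_atTop_atTop.comp (Filter.tendsto_add_atTop_nat 1))
    exact h3.const_div_atTop _
  have h3 := ge_of_tendsto' h2 h1
  rw [add_zero] at h3
  have h4 : (D : ℝ) ^ D / (D.factorial : ℝ) ≤ Real.exp D :=
    Real.pow_div_factorial_le_exp (x := (D : ℝ)) (Nat.cast_nonneg _) D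
  calc (Z.card : ℝ) ≤ Δ * ((D : ℝ) ^ D / (D.factorial : ℝ)) := h3
    _ ≤ Δ * Real.exp D := mul_le_mul_of_nonneg_left h4 hΔ0.le
    _ = Real.exp D * ∏ j, (δ j : ℝ) := by rw [hΔ]; push_cast; ring

end Pool.Agent.H7.UB
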