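import Pool.Agent.H7.UB.Deriv
import Pool.Agent.H7.UB.A1

/-! # Module A2: the sparse Warren bound -/

set_option autoImplicit false
set_option linter.unusedSectionVars false

namespace Pool.Agent.H7.UB

open Finset MeasureTheory Topology Filter

variable {σ : Type} [Fintype σ] [DecidableEq σ] {ι : Type} [Fintype ι] [DecidableEq ι]

section strict

variable (P : ι → MvPolynomial σ ℝ)

/-- The open set where all polynomials are nonzero. -/
def Un : Set (σ → ℝ) := {x | ∀ i, MvPolynomial.eval x (P i) ≠ 0}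

theorem isOpen_Un : IsOpen (Un P) := by
  have : Un P = ⋂ i, {x | MvPolynomial.eval x (P i) ≠ 0} := by
    ext x; simp [Un]
  rw [this]
  exact isOpen_iInter_of_finite (fun i => isOpen_ne_fun (continuous_eval' _) continuous_const)

/-- The logarithmic gradient. -/
noncomputable def Fm (x : σ → ℝ) : σ → ℝ := fun j =>
  ∑ i, MvPolynomial.eval x (MvPolynomial.pderiv j (P i)) / MvPolynomial.eval x (P i)

theorem differentiableAt_Fm {x : σ → ℝ} (hx : x ∈ Un P) : DifferentiableAt ℝ (Fm P) x := by
  rw [differentiableAt_pi]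
  intro j
  unfold Fm
  refine DifferentiableAt.fun_sum (fun i _ => ?_)
  have h1 := (hasFDerivAt_eval (MvPolynomial.pderiv j (P i)) x).differentiableAt
  have h2 := (hasFDerivAt_eval (P i) x).differentiableAt
  simp only [div_eq_mul_inv]
  exact h1.fun_mul (h2.fun_inv (hx i))

/-- Sard. -/
theorem exists_regular : ∃ y : σ → ℝ, ∀ x ∈ Un P, Fm P x = y → (fderiv ℝ (Fm P) x).det ≠ 0 := by
  set s : Set (σ → ℝ) := {x | x ∈ Un P ∧ (fderiv ℝ (Fm P) x).det = 0} with hs
  have h := addHaar_image_eq_zero_of_det_fderivWithin_eq_zero (volume : Measure (σ → ℝ))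
    (s := s) (f := Fm P) (f' := fun x => fderiv ℝ (Fm P) x)
    (fun x hx => (differentiableAt_Fm P hx.1).hasFDerivAt.hasFDerivWithinAt)
    (fun x hx => hx.2)
  have hne : (Fm P '' s)ᶜ.Nonempty := by
    rw [Set.nonempty_iff_ne_empty]
    intro he
    have h1 : (Fm P '' s) = Set.univ := by
      rw [← Set.compl_empty_iff, he]
    rw [h1] at h
    exact (isOpen_univ.measure_pos volume Set.univ_nonempty).ne' h
  obtain ⟨y, hy⟩ := hne
  refine ⟨y, fun x hx hxy hdet => hy ⟨x, ⟨hx, hdet⟩, hxy⟩⟩

/-- The polynomials which contain a variable. -/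
noncomputable def Sv (j : σ) : Finset ι := univ.filter (fun i => j ∈ (P i).vars)

/-- The cleared equations. -/
noncomputable def Qm (y : σ → ℝ) (j : σ) : MvPolynomial σ ℝ :=
  ∑ i ∈ Sv P j, MvPolynomial.pderiv j (P i) * ∏ i' ∈ (Sv P j).erase i, P i' -
    MvPolynomial.C (y j) * ∏ i ∈ Sv P j, P i

theorem eval_Qm (y : σ → ℝ) (j : σ) {x : σ → ℝ} (hx : x ∈ Un P) :
    MvPolynomial.eval x (Qm P y j) =
      (MvPolynomial.eval x (∏ i ∈ Sv P j, P i)) * (Fm P x j - y j) := by
  have h1 : Fm P x j = ∑ i ∈ Sv P j,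
      MvPolynomial.eval x (MvPolynomial.pderiv j (P i)) / MvPolynomial.eval x (P i) := by
    unfold Fm Sv
    rw [Finset.sum_filter]
    refine Finset.sum_congr rfl (fun i _ => ?_)
    split_ifs with h
    · rfl
    · rw [pderiv_eq_zero h]; simp
  rw [h1, mul_sub, Finset.mul_sum, Qm, map_sub, map_sum, map_mul, MvPolynomial.eval_C]
  congr 1
  · refine Finset.sum_congr rfl (fun i hi => ?_)
    rw [map_mul, ← Finset.mul_prod_erase _ _ hi, map_mul]
    have := hx i
    field_simp
  · ring

theorem totalDegree_Qm (D : ι → ℕ) (hD : ∀ i, (P i).totalDegree ≤ D i) (y : σ → ℝ) (j : σ) :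
    (Qm P y j).totalDegree ≤ ∑ i ∈ Sv P j, D i := by
  have hprod : ∀ s : Finset ι, (∏ i ∈ s, P i).totalDegree ≤ ∑ i ∈ s, D i := by
    intro s
    exact (MvPolynomial.totalDegree_finsetProd _ _).trans (Finset.sum_le_sum (fun i _ => hD i))
  unfold Qm
  refine (MvPolynomial.totalDegree_sub _ _).trans (max_le ?_ ?_)
  · refine (MvPolynomial.totalDegree_finsetSum _ _).trans (Finset.sup_le (fun i hi => ?_))
    refine (MvPolynomial.totalDegree_mul _ _).trans ?_
    rw [← Finset.add_sum_erase _ _ hi]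
    exact add_le_add ((totalDegree_pderiv_le _ _).trans (hD i)) (hprod _)
  · refine (MvPolynomial.totalDegree_mul _ _).trans ?_
    rw [MvPolynomial.totalDegree_C, zero_add]
    exact hprod _

theorem det_Qm_ne_zero (y : σ → ℝ) {z : σ → ℝ} (hz : z ∈ Un P) (hy : Fm P z = y)
    (hdet : (fderiv ℝ (Fm P) z).det ≠ 0) :
    Matrix.det (Matrix.of fun i j =>
      MvPolynomial.eval z (MvPolynomial.pderiv j (Qm P y i))) ≠ 0 := by
  have hmat : (Matrix.of fun i j => MvPolynomial.eval z (MvPolynomial.pderiv j (Qm P y i))) =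
      Matrix.diagonal (fun j => MvPolynomial.eval z (∏ i ∈ Sv P j, P i)) *
        LinearMap.toMatrix' (fderiv ℝ (Fm P) z : (σ → ℝ) →ₗ[ℝ] (σ → ℝ)) := by
    ext i j
    rw [Matrix.diagonal_mul, LinearMap.toMatrix'_apply, Matrix.of_apply]
    have hF : HasFDerivAt (fun x => Fm P x i)
        ((ContinuousLinearMap.proj (R := ℝ) (φ := fun _ : σ => ℝ) i).comp (fderiv ℝ (Fm P) z)) z :=
      (hasFDerivAt_pi'.mp (differentiableAt_Fm P hz).hasFDerivAt) i
    have h1 : HasFDerivAt (fun x => MvPolynomial.eval x (Qm P y i))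
        (MvPolynomial.eval z (∏ i' ∈ Sv P i, P i') •
          (ContinuousLinearMap.proj (R := ℝ) (φ := fun _ : σ => ℝ) i).comp
            (fderiv ℝ (Fm P) z) + (Fm P z i - y i) • pD (∏ i' ∈ Sv P i, P i') z) z := by
      refine HasFDerivAt.congr_of_eventuallyEq
        ((hasFDerivAt_eval (∏ i' ∈ Sv P i, P i') z).mul (hF.sub_const (y i))) ?_
      filter_upwards [(isOpen_Un P).mem_nhds hz] with x hx
      exact eval_Qm P y i hx
    rw [hy, sub_self, zero_smul, add_zero] at h1
    have h2 := h1.unique (hasFDerivAt_eval (Qm P y i) z)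
    have h3 := congrArg (fun L : (σ → ℝ) →L[ℝ] ℝ => L (Pi.single j 1)) h2
    simp only [pD_apply, smul_apply, ContinuousLinearMap.comp_apply,
      ContinuousLinearMap.proj_apply, smul_eq_mul] at h3
    rw [Finset.sum_eq_single j] at h3
    · simp only [Pi.single_eq_same, mul_one] at h3
      exact h3.symm
    · intro l _ hl
      rw [Pi.single_eq_of_ne hl, mul_zero]
    · simp
  rw [hmat, Matrix.det_mul, Matrix.det_diagonal]
  refine mul_ne_zero ?_ ?_
  · rw [Finset.prod_ne_zero_iff]
    intro j _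
    rw [map_prod, Finset.prod_ne_zero_iff]
    exact fun i _ => hz i
  · rw [LinearMap.det_toMatrix']
    exact hdet

/-- A critical point in every sign region. -/
theorem exists_crit (o : ι) (ρ : ℝ)
    (ho : ∀ x : σ → ℝ, MvPolynomial.eval x (P o) = ρ - ∑ j, x j ^ 2) (s : ι → SignType)
    (hso : s o = 1) (hs : ∀ i, s i ≠ 0) (x₀ : σ → ℝ)
    (hx₀ : ∀ i, SignType.sign (MvPolynomial.eval x₀ (P i)) = s i) (y : σ → ℝ) :
    ∃ z, (∀ i, SignType.sign (MvPolynomial.eval z (P i)) = s i) ∧ Fm P z = y := by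
  classical
  set Ψ : (σ → ℝ) → ℝ := fun x =>
    (∏ i, max 0 ((s i : ℝ) * MvPolynomial.eval x (P i))) * Real.exp (-∑ j, y j * x j) with hΨ
  have hcont : Continuous Ψ := by
    refine Continuous.mul ?_ ?_
    · exact continuous_finsetProd _ (fun i _ =>
        continuous_const.max (continuous_const.mul (continuous_eval' _)))
    · exact Real.continuous_exp.comp (continuous_finsetSum _ (fun j _ =>
        continuous_const.mul (continuous_apply j))).neg
  have hsign : ∀ x : σ → ℝ, ∀ i, 0 < (s i : ℝ) * MvPolynomial.eval x (P i) ↔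
      SignType.sign (MvPolynomial.eval x (P i)) = s i := by
    intro x i
    have h3 := hs i
    rcases h : s i with _ | _ | _
    · exact absurd h h3
    · rw [show SignType.neg = -1 from rfl, sign_eq_neg_one_iff]; simp
    · rw [show SignType.pos = 1 from rfl, sign_eq_one_iff]; simp
  have hpos : ∀ x : σ → ℝ, 0 < Ψ x ↔ ∀ i, SignType.sign (MvPolynomial.eval x (P i)) = s i := by
    intro x
    constructor
    · intro h i
      rw [← hsign]
      by_contra hc
      have : Ψ x = 0 := by
        have h1 : (∏ i, max 0 ((s i : ℝ) * MvPolynomial.eval x (P i))) = 0 :=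
          Finset.prod_eq_zero (Finset.mem_univ i) (max_eq_left (not_lt.mp hc))
        rw [hΨ]
        simp only
        rw [h1, zero_mul]
      rw [this] at h
      exact lt_irrefl _ h
    · intro h
      refine mul_pos (Finset.prod_pos (fun i _ => ?_)) (Real.exp_pos _)
      exact lt_max_of_lt_right ((hsign x i).mpr (h i))
  -- compactness
  set B : Set (σ → ℝ) := {x | 0 ≤ MvPolynomial.eval x (P o)} with hB
  have hclosed : IsClosed B := isClosed_le continuous_const (continuous_eval' _)
  have hbdd : Bornology.IsBounded B := by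
    refine (Metric.isBounded_closedBall (x := (0 : σ → ℝ)) (r := Real.sqrt ρ)).subset ?_
    intro x hx
    rw [Metric.mem_closedBall, dist_zero_right]
    have h1 : ∑ j, x j ^ 2 ≤ ρ := by
      have : 0 ≤ MvPolynomial.eval x (P o) := hx
      rw [ho] at this
      linarith
    refine (pi_norm_le_iff_of_nonneg (Real.sqrt_nonneg _)).mpr (fun j => ?_)
    rw [Real.norm_eq_abs, ← Real.sqrt_sq_eq_abs]
    refine Real.sqrt_le_sqrt (le_trans ?_ h1)
    exact Finset.single_le_sum (f := fun j => x j ^ 2) (fun i _ => sq_nonneg _) (mem_univ j)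
  have hcomp : IsCompact B := Metric.isCompact_of_isClosed_isBounded hclosed hbdd
  have hx₀B : x₀ ∈ B := by
    have := (hsign x₀ o).mpr (hx₀ o)
    rw [hso] at this
    simpa [hB] using this.le
  obtain ⟨z, hzB, hz⟩ := hcomp.exists_isMaxOn ⟨x₀, hx₀B⟩ hcont.continuousOn
  have hzpos : 0 < Ψ z := lt_of_lt_of_le ((hpos x₀).mpr hx₀) (hz hx₀B)
  have hzs := (hpos z).mp hzpos
  refine ⟨z, hzs, ?_⟩
  -- the logarithm has a local maximum
  set L : (σ → ℝ) → ℝ := fun x => ∑ i, Real.log (MvPolynomial.eval x (P i)) - ∑ j, y j * x j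
    with hL
  have hΨL : ∀ x, (∀ i, SignType.sign (MvPolynomial.eval x (P i)) = s i) →
      L x = Real.log (Ψ x) := by
    intro x hx
    have h1 : ∀ i ∈ (univ : Finset ι), max 0 ((s i : ℝ) * MvPolynomial.eval x (P i)) ≠ 0 := by
      intro i _
      exact (lt_max_of_lt_right ((hsign x i).mpr (hx i))).ne'
    rw [hΨ]
    simp only
    rw [Real.log_mul (Finset.prod_ne_zero_iff.mpr h1) (Real.exp_ne_zero _), Real.log_exp,
      Real.log_prod h1]
    rw [hL]
    simp only
    rw [sub_eq_add_neg]
    congr 1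
    refine Finset.sum_congr rfl (fun i _ => ?_)
    have h2 := (hsign x i).mpr (hx i)
    rw [max_eq_right h2.le]
    have h3 := hs i
    rcases h : s i with _ | _ | _
    · exact absurd h h3
    · simp
    · simp
  have hopen : ∀ᶠ x in 𝓝 z, ∀ i, SignType.sign (MvPolynomial.eval x (P i)) = s i := by
    have : ∀ᶠ x in 𝓝 z, 0 < Ψ x := hcont.continuousAt.eventually (lt_mem_nhds hzpos)
    exact this.mono (fun x hx => (hpos x).mp hx)
  have hmax : IsLocalMax L z := by
    filter_upwards [hopen] with x hx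
    rw [hΨL x hx, hΨL z hzs]
    have hxB : x ∈ B := by
      have := (hsign x o).mpr (hx o)
      rw [hso] at this
      simpa [hB] using this.le
    exact Real.log_le_log ((hpos x).mpr hx) (hz hxB)
  have hne : ∀ i, MvPolynomial.eval z (P i) ≠ 0 := by
    intro i h0
    have := (hsign z i).mpr (hzs i)
    rw [h0, mul_zero] at this
    exact lt_irrefl _ this
  have hder : HasFDerivAt L (∑ i, (MvPolynomial.eval z (P i))⁻¹ • pD (P i) z -
      ∑ j, y j • ContinuousLinearMap.proj (R := ℝ) (φ := fun _ : σ => ℝ) j) z := by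
    refine HasFDerivAt.sub ?_ ?_
    · exact HasFDerivAt.fun_sum (fun i _ => (hasFDerivAt_eval (P i) z).log (hne i))
    · refine HasFDerivAt.fun_sum (fun j _ => ?_)
      exact (ContinuousLinearMap.proj (R := ℝ) (φ := fun _ : σ => ℝ) j).hasFDerivAt.const_mul (y j)
  have h0 := hmax.hasFDerivAt_eq_zero hder
  funext j
  have h1 := congrArg (fun L : (σ → ℝ) →L[ℝ] ℝ => L (Pi.single j 1)) h0
  simp only [sub_apply, _root_.sum_apply, smul_apply, pD_apply,
    ContinuousLinearMap.proj_apply, smul_eq_mul, zero_apply,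
    sub_eq_zero] at h1
  have h2 : ∀ p : σ → ℝ, ∑ l, p l * (Pi.single j 1 : σ → ℝ) l = p j := by
    intro p
    rw [Finset.sum_eq_single j]
    · simp
    · intro l _ hl
      rw [Pi.single_eq_of_ne hl, mul_zero]
    · simp
  rw [h2 y] at h1
  rw [← h1]
  unfold Fm
  refine Finset.sum_congr rfl (fun i _ => ?_)
  rw [h2 (fun l => MvPolynomial.eval z (MvPolynomial.pderiv l (P i))), div_eq_inv_mul]

/-- Strict sign patterns. -/
theorem strict_count (o : ι) (ρ : ℝ)
    (ho : ∀ x : σ → ℝ, MvPolynomial.eval x (P o) = ρ - ∑ j, x j ^ 2) (D : ι → ℕ)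
    (hD : ∀ i, (P i).totalDegree ≤ D i) (S : Finset (ι → SignType))
    (hS : ∀ s ∈ S, s o = 1 ∧ (∀ i, s i ≠ 0) ∧
      ∃ x : σ → ℝ, ∀ i, SignType.sign (MvPolynomial.eval x (P i)) = s i) :
    (S.card : ℝ) ≤ Real.exp (Fintype.card σ) *
      ∏ j : σ, ((max 1 (∑ i ∈ Sv P j, D i) : ℕ) : ℝ) := by
  classical
  obtain ⟨y, hy⟩ := exists_regular P
  have key : ∀ s : ι → SignType, s ∈ S → ∃ z : σ → ℝ,
      (∀ i, SignType.sign (MvPolynomial.eval z (P i)) = s i) ∧ Fm P z = y := by
    intro s hs
    obtain ⟨h1, h2, x, hx⟩ := hS s hs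
    exact exists_crit P o ρ ho s h1 h2 x hx y
  choose! z hz using key
  have hinj : Set.InjOn z S := by
    intro s hs s' hs' h
    funext i
    rw [← (hz s hs).1 i, ← (hz s' hs').1 i, h]
  have hcard : (S.image z).card = S.card := Finset.card_image_of_injOn hinj
  have hUn : ∀ s ∈ S, z s ∈ Un P := by
    intro s hs i h0
    have := (hz s hs).1 i
    rw [h0, sign_zero] at this
    exact (hS s hs).2.1 i this.symm
  have := bezout (Qm P y) (fun j => max 1 (∑ i ∈ Sv P j, D i)) (fun j => le_max_left _ _)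
    (fun j => (totalDegree_Qm P D hD y j).trans (le_max_right _ _)) (S.image z) ?_ ?_
  · rw [hcard] at this
    exact this
  · intro w hw j
    obtain ⟨s, hs, rfl⟩ := Finset.mem_image.mp hw
    rw [eval_Qm P y j (hUn s hs), (hz s hs).2, sub_self, mul_zero]
  · intro w hw
    obtain ⟨s, hs, rfl⟩ := Finset.mem_image.mp hw
    exact det_Qm_ne_zero P y (hUn s hs) (hz s hs).2 (hy _ (hUn s hs) (hz s hs).2)

end strict

/-- The ball polynomial. -/
noncomputable def ballP (σ : Type) [Fintype σ] (ρ : ℝ) : MvPolynomial σ ℝ :=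
  MvPolynomial.C ρ - ∑ j, MvPolynomial.X j ^ 2

theorem totalDegree_ballP (ρ : ℝ) : (ballP σ ρ).totalDegree ≤ 2 := by
  unfold ballP
  refine (MvPolynomial.totalDegree_sub _ _).trans (max_le ?_ ?_)
  · rw [MvPolynomial.totalDegree_C]; exact Nat.zero_le _
  · refine (MvPolynomial.totalDegree_finsetSum _ _).trans (Finset.sup_le (fun j _ => ?_))
    refine (MvPolynomial.totalDegree_pow _ _).trans ?_
    rw [MvPolynomial.totalDegree_X]

theorem vars_add_C (p : MvPolynomial σ ℝ) (a : ℝ) : (p + MvPolynomial.C a).vars ⊆ p.vars := by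
  refine (MvPolynomial.vars_add_subset _ _).trans ?_
  rw [MvPolynomial.vars_C, Finset.union_empty]

/-- (A) Sparse Warren bound. -/
theorem sign_count {σ ι : Type} [Fintype σ] [DecidableEq σ] [Fintype ι]
    (P : ι → MvPolynomial σ ℝ) (D : ℕ) (hD : ∀ i, (P i).totalDegree ≤ D) :
    ((Set.range (fun x : σ → ℝ => fun i => SignType.sign (MvPolynomial.eval x (P i)))).ncard : ℝ) ≤
      Real.exp (Fintype.card σ) *
        ∏ j : σ, (2 * D * (univ.filter (fun i => j ∈ (P i).vars)).card + 3 : ℝ) := by
  classical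
  set T : Set (ι → SignType) :=
    Set.range (fun x : σ → ℝ => fun i => SignType.sign (MvPolynomial.eval x (P i))) with hT
  have hTfin : T.Finite := Set.toFinite T
  have hrep : ∀ s : ι → SignType, s ∈ T → ∃ x : σ → ℝ,
      (fun i => SignType.sign (MvPolynomial.eval x (P i))) = s := fun s hs => hs
  choose! x hx using hrep
  -- the tolerance
  obtain ⟨ε, hε, hεle⟩ : ∃ ε : ℝ, 0 < ε ∧ ∀ s ∈ T, ∀ i,
      MvPolynomial.eval (x s) (P i) ≠ 0 → ε < |MvPolynomial.eval (x s) (P i)| := by
    have hfin : (Set.Finite {a : ℝ | ∃ s ∈ T, ∃ i, a = |MvPolynomial.eval (x s) (P i)| ∧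
        MvPolynomial.eval (x s) (P i) ≠ 0}) := by
      refine (hTfin.prod (Set.finite_univ (α := ι))).image
        (fun p => |MvPolynomial.eval (x p.1) (P p.2)|) |>.subset ?_
      rintro a ⟨s, hs, i, rfl, _⟩
      exact ⟨(s, i), ⟨hs, Set.mem_univ _⟩, rfl⟩
    by_cases hne : ({a : ℝ | ∃ s ∈ T, ∃ i, a = |MvPolynomial.eval (x s) (P i)| ∧
        MvPolynomial.eval (x s) (P i) ≠ 0}).Nonempty
    · obtain ⟨a, ⟨s, hs, i, rfl, h0⟩, hmin⟩ := Set.exists_min_image _ id hfin hne
      refine ⟨|MvPolynomial.eval (x s) (P i)| / 2, by positivity, ?_⟩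
      intro s' hs' i' h'
      have := hmin _ ⟨s', hs', i', rfl, h'⟩
      simp only [id] at this
      have h1 : 0 < |MvPolynomial.eval (x s) (P i)| := abs_pos.mpr h0
      linarith
    · refine ⟨1, one_pos, fun s hs i h => absurd ⟨_, s, hs, i, rfl, h⟩ hne⟩
  -- the radius
  obtain ⟨ρ, hρ⟩ : ∃ ρ : ℝ, ∀ s ∈ T, ∑ j, x s j ^ 2 < ρ := by
    have hfin : (Set.Finite ((fun s => ∑ j, x s j ^ 2) '' T)) := hTfin.image _
    obtain ⟨M, hM⟩ := hfin.bddAbove
    refine ⟨M + 1, fun s hs => ?_⟩
    have := hM ⟨s, hs, rfl⟩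
    simp only at this
    linarith
  -- the family
  set P' : Option (ι × Bool) → MvPolynomial σ ℝ := fun o => o.elim (ballP σ ρ)
    (fun p => P p.1 + MvPolynomial.C (if p.2 then ε else -ε)) with hP'
  set D' : Option (ι × Bool) → ℕ := fun o => o.elim 2 (fun _ => D) with hD'
  have hD'' : ∀ o, (P' o).totalDegree ≤ D' o := by
    rintro (_ | p)
    · exact totalDegree_ballP ρ
    · refine (MvPolynomial.totalDegree_add _ _).trans (max_le (hD _) ?_)
      rw [MvPolynomial.totalDegree_C]; exact Nat.zero_le _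
  have ho : ∀ x : σ → ℝ, MvPolynomial.eval x (P' none) = ρ - ∑ j, x j ^ 2 := by
    intro x
    simp [hP', ballP]
  -- the strict patterns
  set φ : (ι → SignType) → (Option (ι × Bool) → SignType) := fun s o =>
    SignType.sign (MvPolynomial.eval (x s) (P' o)) with hφ
  have hev : ∀ s (p : ι × Bool), MvPolynomial.eval (x s) (P' (some p)) =
      MvPolynomial.eval (x s) (P p.1) + if p.2 then ε else -ε := by
    intro s p
    simp [hP']
  have hsign : ∀ s ∈ T, ∀ i, SignType.sign (MvPolynomial.eval (x s) (P i)) = s i := by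
    intro s hs i
    exact congrFun (hx s hs) i
  have hpat : ∀ s ∈ T, ∀ i, (s i = 1 ↔ φ s (some (i, false)) = 1) ∧
      (s i = -1 ↔ φ s (some (i, true)) = -1) := by
    intro s hs i
    have h1 := hsign s hs i
    have h2 := hεle s hs i
    constructor
    · rw [← h1, sign_eq_one_iff, hφ]
      simp only
      rw [hev, sign_eq_one_iff]
      simp only [Bool.false_eq_true, if_false]
      constructor
      · intro h
        have := h2 h.ne'
        rw [abs_of_pos h] at this
        linarith
      · intro h; linarith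
    · rw [← h1, sign_eq_neg_one_iff, hφ]
      simp only
      rw [hev, sign_eq_neg_one_iff]
      simp only [if_true]
      constructor
      · intro h
        have := h2 h.ne
        rw [abs_of_neg h] at this
        linarith
      · intro h; linarith
  have hinj : Set.InjOn φ T := by
    intro s hs s' hs' h
    funext i
    have a1 := (hpat s hs i).1
    have a2 := (hpat s hs i).2
    have b1 := (hpat s' hs' i).1
    have b2 := (hpat s' hs' i).2
    rw [← h] at b1 b2
    have c1 : s i = 1 ↔ s' i = 1 := a1.trans b1.symm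
    have c2 : s i = -1 ↔ s' i = -1 := a2.trans b2.symm
    revert c1 c2
    generalize s i = u
    generalize s' i = u'
    revert u u'
    decide
  have hne : ∀ s ∈ T, ∀ o, φ s o ≠ 0 := by
    intro s hs o
    rw [hφ]
    simp only
    rw [Ne, sign_eq_zero_iff]
    rcases o with _ | p
    · rw [ho]
      have := hρ s hs
      linarith
    · rw [hev]
      intro h0
      by_cases h : MvPolynomial.eval (x s) (P p.1) = 0
      · rw [h, zero_add] at h0
        split_ifs at h0 <;> linarith
      · have := hεle s hs p.1 h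
        have h3 : |MvPolynomial.eval (x s) (P p.1)| = ε := by
          split_ifs at h0 with h4
          · rw [show MvPolynomial.eval (x s) (P p.1) = -ε by linarith, abs_neg, abs_of_pos hε]
          · rw [show MvPolynomial.eval (x s) (P p.1) = ε by linarith, abs_of_pos hε]
        linarith
  have hmain := strict_count P' none ρ ho D' hD'' (hTfin.toFinset.image φ) (by
    intro s hs
    obtain ⟨s', hs', rfl⟩ := Finset.mem_image.mp hs
    rw [Set.Finite.mem_toFinset] at hs'
    refine ⟨?_, hne s' hs', ⟨x s', fun i => rfl⟩⟩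
    rw [hφ]
    simp only
    rw [ho, sign_eq_one_iff]
    have := hρ s' hs'
    linarith)
  rw [Finset.card_image_of_injOn (by simpa using hinj), ← Set.ncard_eq_toFinset_card _ hTfin]
    at hmain
  refine hmain.trans (mul_le_mul_of_nonneg_left (Finset.prod_le_prod (fun _ _ => by positivity)
    (fun j _ => ?_)) (Real.exp_pos _).le)
  -- the degree
  have hle : ∑ o ∈ Sv P' j, D' o ≤ 2 * D * (univ.filter (fun i => j ∈ (P i).vars)).card + 2 := by
    have h1 : ∑ o ∈ Sv P' j, D' o ≤ ∑ o ∈ insert none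
        (((univ.filter (fun i => j ∈ (P i).vars)) ×ˢ (univ : Finset Bool)).map
          Function.Embedding.some), D' o := by
      refine Finset.sum_le_sum_of_subset (fun o ho => ?_)
      rw [Sv, Finset.mem_filter] at ho
      rcases o with _ | p
      · exact Finset.mem_insert_self _ _
      · refine Finset.mem_insert_of_mem ?_
        rw [Finset.mem_map]
        refine ⟨p, ?_, rfl⟩
        rw [Finset.mem_product]
        refine ⟨?_, Finset.mem_univ _⟩
        rw [Finset.mem_filter]
        exact ⟨Finset.mem_univ _, vars_add_C _ _ ho.2⟩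
    refine h1.trans ?_
    rw [Finset.sum_insert (by simp), Finset.sum_map]
    simp only [hD', Function.Embedding.some_apply, Option.elim_some, Option.elim_none,
      Finset.sum_const, Finset.card_product, Finset.card_univ, Fintype.card_bool, smul_eq_mul]
    apply le_of_eq
    ring
  have h2 : max 1 (∑ o ∈ Sv P' j, D' o) ≤
      2 * D * (univ.filter (fun i => j ∈ (P i).vars)).card + 3 := by
    refine max_le (by omega) (hle.trans (by omega))
  exact_mod_cast h2

end Pool.Agent.H7.UB
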