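import Pool.Agent.H54.Pol.Asym

/-! (ASY) The final asymptotic statement. -/

set_option autoImplicit false

namespace Pool.Agent.H7.UB

open Finset Filter Topology

/-- (ASY) The final asymptotic statement. -/
theorem asymp (d : ℕ) (hd : 4 ≤ d) (B : ℝ)
    (h : ∀ a : ℝ, 0 < a → ∀ᶠ v : ℕ in atTop,
      (Pool.Agent.H4.Pol.numTypes d v : ℝ) ≤ (v : ℝ) ^ ((B + a) * v)) :
    limsup (fun v : ℕ =>
      ((Real.log (Pool.Agent.H4.Pol.numTypes d v) / (v * Real.log v) : ℝ) : EReal)) atTop ≤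
      (B : EReal) := by
  have key : ∀ a : ℝ, 0 < a → limsup (fun v : ℕ =>
      ((Real.log (Pool.Agent.H4.Pol.numTypes d v) / (v * Real.log v) : ℝ) : EReal)) atTop ≤
      ((B + a : ℝ) : EReal) := by
    intro a ha
    refine limsup_le_of_le (by isBoundedDefault) ?_
    have h0 : (0 : ℝ) < (d : ℝ) * (((d / 2 : ℕ) : ℝ) - 1) := by
      have h2 : (2 : ℝ) ≤ ((d / 2 : ℕ) : ℝ) := by exact_mod_cast (by omega : 2 ≤ d / 2)
      have h4 : (4 : ℝ) ≤ (d : ℝ) := by exact_mod_cast hd
      have : (1 : ℝ) ≤ ((d / 2 : ℕ) : ℝ) - 1 := by linarith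
      positivity
    filter_upwards [h _ ha, eventually_ge_atTop 2,
      Pool.Agent.H54.Pol.asymp d hd 0 h0] with v hv hv2 hv1
    have hv2' : (2 : ℝ) ≤ (v : ℝ) := by exact_mod_cast hv2
    have hlog : 0 < Real.log (v : ℝ) := Real.log_pos (by linarith)
    have hpos : (0 : ℝ) < (Pool.Agent.H4.Pol.numTypes d v : ℝ) := by
      simp only [zero_mul, Real.rpow_zero] at hv1
      linarith
    have hle := Real.log_le_log hpos hv
    rw [Real.log_rpow (by linarith)] at hle
    rw [EReal.coe_le_coe_iff, div_le_iff₀ (by positivity)]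
    linarith
  refine le_of_forall_gt_imp_ge_of_dense (fun x hx => ?_)
  obtain ⟨r, hBr, hrx⟩ := EReal.lt_iff_exists_real_btwn.1 hx
  have hr : 0 < r - B := by
    have := EReal.coe_lt_coe_iff.1 hBr
    linarith
  have h1 := key (r - B) hr
  rw [add_sub_cancel] at h1
  exact h1.trans hrx.le

end Pool.Agent.H7.UB
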