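import Pool.Agent.H7.UB.CDefs

/-! (C1) Generic thresholds exist. -/

set_option autoImplicit false

namespace Pool.Agent.H7.UB

open Finset Matrix

/-- For a dependent set of constraints only finitely many parameters are bad. -/
theorem c1_finite {d : ℕ} {I : Type} [Fintype I] (z : I → Fin (d + 1) → ℝ)
    (e : Fin (d + 1) → ℝ) (he : e ≠ 0) (J : Finset I)
    (hJ : ¬ LinearIndependent ℝ (fun o : Option J => o.elim e (fun i => z i.1))) :
    {s : ℝ | ∃ x : Fin (d + 1) → ℝ, e ⬝ᵥ x = 1 ∧
      ∀ i ∈ J, z i ⬝ᵥ x = -(s ^ ((Fintype.equivFin I i : ℕ) + 1))}.Finite := by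
  classical
  rw [Fintype.not_linearIndependent_iff] at hJ
  obtain ⟨g, hg, o, ho⟩ := hJ
  rw [Fintype.sum_option] at hg
  simp only [Option.elim] at hg
  have hex : ∃ i : J, g (some i) ≠ 0 := by
    by_contra hcon
    push Not at hcon
    simp only [hcon, zero_smul, Finset.sum_const_zero, add_zero, smul_eq_zero, he, or_false] at hg
    rcases o with _ | o
    · exact ho hg
    · exact ho (hcon o)
  obtain ⟨i0, hi0⟩ := hex
  let P : Polynomial ℝ := Polynomial.C (g none) -
    ∑ i : J, Polynomial.C (g (some i)) * Polynomial.X ^ ((Fintype.equivFin I i.1 : ℕ) + 1)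
  have hP : P ≠ 0 := by
    intro h0
    have h1 : P.coeff ((Fintype.equivFin I i0.1 : ℕ) + 1) = 0 := by rw [h0]; simp
    simp only [P, Polynomial.coeff_sub, Polynomial.finsetSum_coeff, Polynomial.coeff_C_mul,
      Polynomial.coeff_X_pow, Polynomial.coeff_C_succ, zero_sub, neg_eq_zero] at h1
    rw [Finset.sum_eq_single i0] at h1
    · simp only [if_true, mul_one] at h1
      exact hi0 h1
    · intro b _ hb
      rw [if_neg, mul_zero]
      intro h2
      apply hb
      have : (Fintype.equivFin I b.1) = Fintype.equivFin I i0.1 := by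
        apply Fin.ext
        omega
      exact Subtype.ext ((Fintype.equivFin I).injective this)
    · intro h; exact absurd (Finset.mem_univ _) h
  refine Set.Finite.subset (P.roots.toFinset.finite_toSet) ?_
  rintro s ⟨x, hx1, hx2⟩
  rw [Finset.mem_coe, Multiset.mem_toFinset, Polynomial.mem_roots hP, Polynomial.IsRoot.def]
  have h3 := congrArg (fun v : Fin (d + 1) → ℝ => v ⬝ᵥ x) hg
  simp only [add_dotProduct, smul_dotProduct, sum_dotProduct, zero_dotProduct, hx1,
    smul_eq_mul, mul_one] at h3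
  simp only [P, Polynomial.eval_sub, Polynomial.eval_C, Polynomial.eval_finsetSum,
    Polynomial.eval_mul, Polynomial.eval_pow, Polynomial.eval_X]
  rw [← h3, sub_eq_add_neg, ← Finset.sum_neg_distrib]
  congr 1
  refine Finset.sum_congr rfl fun i _ => ?_
  rw [hx2 i.1 i.2]
  ring

/-- (C1) Generic thresholds exist. -/
theorem exists_gen {d : ℕ} {I : Type} [Fintype I] (z : I → Fin (d + 1) → ℝ)
    (e : Fin (d + 1) → ℝ) (he : e ≠ 0) (ε : ℝ) (hε : 0 < ε) :
    ∃ t : I → ℝ, (∀ i, 0 < t i ∧ t i < ε) ∧ Gen z (fun i => -t i) e := by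
  classical
  have hfin : (⋃ J ∈ {J : Finset I | ¬ LinearIndependent ℝ
      (fun o : Option J => o.elim e (fun i => z i.1))},
      {s : ℝ | ∃ x : Fin (d + 1) → ℝ, e ⬝ᵥ x = 1 ∧
      ∀ i ∈ J, z i ⬝ᵥ x = -(s ^ ((Fintype.equivFin I i : ℕ) + 1))}).Finite := by
    refine Set.Finite.biUnion (Set.toFinite _) ?_
    intro J hJ
    exact c1_finite z e he J hJ
  have hinf : (Set.Ioo (0 : ℝ) (min ε 1)).Infinite :=
    Set.Ioo_infinite (lt_min hε one_pos)
  obtain ⟨s, hs, hsb⟩ := hinf.exists_notMem_finite hfin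
  refine ⟨fun i => s ^ ((Fintype.equivFin I i : ℕ) + 1), fun i => ⟨pow_pos hs.1 _, ?_⟩, ?_⟩
  · have h1 : s < 1 := hs.2.trans_le (min_le_right _ _)
    have h2 : s ^ ((Fintype.equivFin I i : ℕ) + 1) ≤ s := by
      calc s ^ ((Fintype.equivFin I i : ℕ) + 1) ≤ s ^ 1 :=
            pow_le_pow_of_le_one hs.1.le h1.le (by omega)
        _ = s := pow_one s
    exact h2.trans_lt (hs.2.trans_le (min_le_left _ _))
  · intro J hx
    by_contra hJ
    exact hsb (Set.mem_biUnion hJ hx)

end Pool.Agent.H7.UB
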