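import Pool.Agent.H7.UB.Defs

/-! # Module CR: the generalised cross product, Cramer's rule, transfer of simplicial cones -/

set_option autoImplicit false

namespace Pool.Agent.H7.UB

open Finset Matrix

theorem cross_dot {R : Type*} [CommRing R] {d : ℕ} (u : Fin d → Fin (d + 1) → R)
    (x : Fin (d + 1) → R) :
    cross u ⬝ᵥ x = Matrix.det (Matrix.of (Fin.cons x u : Fin (d + 1) → Fin (d + 1) → R)) := by
  have key : ∀ z : Fin (d + 1) → R, ∀ j : Fin (d + 1),
      (Matrix.of (Fin.cons z u : Fin (d + 1) → Fin (d + 1) → R)).submatrix Fin.succ j.succAbove =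
      (Matrix.of u).submatrix id j.succAbove := by
    intro z j
    ext a b
    simp
  rw [Matrix.det_succ_row_zero]
  unfold dotProduct cross
  refine Finset.sum_congr rfl fun j _ => ?_
  rw [Matrix.det_succ_row_zero, Finset.sum_eq_single j]
  · rw [key, key]
    simp
    ring
  · intro b _ hb
    simp [Pi.single_eq_of_ne hb]
  · intro h
    exact absurd (Finset.mem_univ _) h

/-- Ring homomorphisms commute with the cross product. -/
theorem cross_map {R S : Type*} [CommRing R] [CommRing S] (φ : R →+* S) {d : ℕ}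
    (u : Fin d → Fin (d + 1) → R) (j : Fin (d + 1)) :
    φ (cross u j) = cross (fun a i => φ (u a i)) j := by
  unfold cross
  rw [RingHom.map_det]
  congr 1
  ext a b
  refine Fin.cases ?_ (fun i => ?_) a
  · simp [Pi.single_apply, apply_ite φ]
  · simp

/-- Ring homomorphisms commute with signed cross products. -/
theorem cvec_map {R S : Type*} [CommRing R] [CommRing S] (φ : R →+* S) {d : ℕ} {I J : Type}
    (y : I → Fin (d + 1) → R) (β : J → Fin (d + 1) → R) (p : (Fin d → I ⊕ J) × Bool)
    (j : Fin (d + 1)) :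
    φ (cvec y β p j) = cvec (fun i l => φ (y i l)) (fun i l => φ (β i l)) p j := by
  have h : (fun (a : Fin d) (i : Fin (d + 1)) => φ (Sum.elim y β (p.1 a) i)) =
      (fun a => Sum.elim (fun i l => φ (y i l)) (fun i l => φ (β i l)) (p.1 a)) := by
    funext a i
    rcases p.1 a with b | b <;> rfl
  unfold cvec sgn
  split_ifs
  · rw [cross_map, h]
  · rw [Pi.neg_apply, map_neg, cross_map, h, Pi.neg_apply]

/-- The cross product is orthogonal to its arguments. -/
theorem cross_dot_self {R : Type*} [CommRing R] {d : ℕ} (u : Fin d → Fin (d + 1) → R)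
    (i : Fin d) : cross u ⬝ᵥ u i = 0 := by
  rw [cross_dot]
  refine Matrix.det_zero_of_row_eq (i := 0) (j := i.succ) (Fin.succ_ne_zero i).symm ?_
  show (Fin.cons (u i) u : Fin (d + 1) → Fin (d + 1) → R) 0 =
    (Fin.cons (u i) u : Fin (d + 1) → Fin (d + 1) → R) i.succ
  rw [Fin.cons_zero, Fin.cons_succ]

theorem dot_cross_self {R : Type*} [CommRing R] {d : ℕ} (u : Fin d → Fin (d + 1) → R)
    (i : Fin d) : u i ⬝ᵥ cross u = 0 := by
  rw [dotProduct_comm, cross_dot_self]

theorem dot_cross {R : Type*} [CommRing R] {d : ℕ} (u : Fin d → Fin (d + 1) → R)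
    (x : Fin (d + 1) → R) :
    x ⬝ᵥ cross u = Matrix.det (Matrix.of (Fin.cons x u : Fin (d + 1) → Fin (d + 1) → R)) := by
  rw [dotProduct_comm, cross_dot]

/-- Sign version for `cvec`. -/
theorem dot_sgn {R : Type*} [CommRing R] {d : ℕ} (b : Bool) (u x : Fin d → R) :
    x ⬝ᵥ sgn b u = if b then x ⬝ᵥ u else -(x ⬝ᵥ u) := by
  unfold sgn
  split_ifs
  · rfl
  · rw [dotProduct_neg]

/-- `det` as a dot product with a cross product of the other rows. -/
theorem det_update {R : Type*} [CommRing R] {d : ℕ} (b : Fin (d + 1) → Fin (d + 1) → R)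
    (a : Fin (d + 1)) (x : Fin (d + 1) → R) :
    Matrix.det (Matrix.of (Function.update b a x)) =
      (-1) ^ (a : ℕ) * (cross (fun i : Fin d => b (a.succAbove i)) ⬝ᵥ x) := by
  have h1 : Matrix.of (Function.update b a x) = (Matrix.of
      (Fin.cons x (fun i : Fin d => b (a.succAbove i)) : Fin (d + 1) → Fin (d + 1) → R)).submatrix
        (a.cycleRange) (Equiv.refl _) := by
    ext i j
    rw [Matrix.submatrix_apply, Matrix.of_apply, Matrix.of_apply]
    rcases eq_or_ne i a with rfl | hi
    · simp [Fin.cycleRange_self]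
    · obtain ⟨k, rfl⟩ := Fin.exists_succAbove_eq hi
      rw [Fin.cycleRange_succAbove, Function.update_of_ne hi, Fin.cons_succ]
      rfl
  rw [cross_dot, h1]
  have h2 := Matrix.det_permute (a.cycleRange) (Matrix.of
      (Fin.cons x (fun i : Fin d => b (a.succAbove i)) : Fin (d + 1) → Fin (d + 1) → R))
  rw [Fin.sign_cycleRange] at h2
  have h3 : ((((-1 : ℤˣ) ^ (a : ℕ) : ℤˣ) : ℤ) : R) = (-1) ^ (a : ℕ) := by
    push_cast
    rfl
  rw [h3] at h2
  exact h2

theorem det_eq {R : Type*} [CommRing R] {d : ℕ} (b : Fin (d + 1) → Fin (d + 1) → R)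
    (a : Fin (d + 1)) :
    Matrix.det (Matrix.of b) =
      (-1) ^ (a : ℕ) * (cross (fun i : Fin d => b (a.succAbove i)) ⬝ᵥ b a) := by
  have h := det_update b a (b a)
  rwa [Function.update_eq_self] at h

/-- Coefficients by Cramer's rule. -/
theorem cross_dot_sum {R : Type*} [CommRing R] {d : ℕ} (b : Fin (d + 1) → Fin (d + 1) → R)
    (c : Fin (d + 1) → R) (a : Fin (d + 1)) :
    cross (fun i : Fin d => b (a.succAbove i)) ⬝ᵥ (∑ k, c k • b k) =
      c a * (cross (fun i : Fin d => b (a.succAbove i)) ⬝ᵥ b a) := by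
  rw [dotProduct_sum, Finset.sum_eq_single a]
  · rw [dotProduct_smul, smul_eq_mul]
  · intro k _ hk
    obtain ⟨l, rfl⟩ := Fin.exists_succAbove_eq hk
    rw [dotProduct_smul, cross_dot_self (fun i : Fin d => b (a.succAbove i)) l, smul_zero]
  · intro h
    exact absurd (Finset.mem_univ _) h

/-- The cross product is nonzero exactly for independent vectors. -/
theorem cross_ne_zero_of_li {K : Type*} [Field K] {d : ℕ} (u : Fin d → Fin (d + 1) → K)
    (hu : LinearIndependent K u) : cross u ≠ 0 := by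
  -- extend by a vector outside of the span
  have hne : Submodule.span K (Set.range u) ≠ ⊤ := by
    intro h
    have h1 := finrank_span_eq_card hu
    rw [h, finrank_top] at h1
    simp at h1
  obtain ⟨x, hx⟩ : ∃ x, x ∉ Submodule.span K (Set.range u) := by
    by_contra hcon
    push Not at hcon
    exact hne (Submodule.eq_top_iff'.2 hcon)
  have hli : LinearIndependent K (Fin.cons x u : Fin (d + 1) → Fin (d + 1) → K) :=
    linearIndependent_finCons.2 ⟨hu, hx⟩
  intro h0
  have h1 := cross_dot u x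
  rw [h0, zero_dotProduct] at h1
  have h2 : IsUnit (Matrix.of (Fin.cons x u : Fin (d + 1) → Fin (d + 1) → K)) :=
    Matrix.linearIndependent_rows_iff_isUnit.1 hli
  rw [Matrix.isUnit_iff_isUnit_det, ← h1] at h2
  simp at h2

theorem li_of_cross_ne_zero {K : Type*} [Field K] {d : ℕ} (u : Fin d → Fin (d + 1) → K)
    (hu : cross u ≠ 0) : LinearIndependent K u := by
  obtain ⟨j, hj⟩ := Function.ne_iff.1 hu
  have h2 : IsUnit (Matrix.of (Fin.cons (Pi.single j 1) u : Fin (d + 1) → Fin (d + 1) → K)) := by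
    rw [Matrix.isUnit_iff_isUnit_det]
    exact isUnit_iff_ne_zero.2 hj
  have h3 : LinearIndependent K (Fin.cons (Pi.single j 1) u : Fin (d + 1) → Fin (d + 1) → K) :=
    Matrix.linearIndependent_rows_iff_isUnit.2 h2
  exact (linearIndependent_finCons.1 h3).1

/-- A vector orthogonal to `d` independent vectors is a multiple of the cross product. -/
theorem eq_smul_cross {K : Type*} [Field K] {d : ℕ} (u : Fin d → Fin (d + 1) → K)
    (hu : LinearIndependent K u) (b : Fin (d + 1) → K) (hb : ∀ i, u i ⬝ᵥ b = 0) :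
    ∃ c : K, b = c • cross u := by
  -- complete to a basis by a vector `x`, `det (x, u) ≠ 0`
  obtain ⟨j, hj⟩ := Function.ne_iff.1 (cross_ne_zero_of_li u hu)
  set x : Fin (d + 1) → K := Pi.single j 1 with hx
  have hd : Matrix.det (Matrix.of (Fin.cons x u : Fin (d + 1) → Fin (d + 1) → K)) ≠ 0 := hj
  refine ⟨(x ⬝ᵥ b) / (x ⬝ᵥ cross u), ?_⟩
  have hc : x ⬝ᵥ cross u ≠ 0 := by
    rw [dot_cross]
    exact hd
  -- both vectors have the same products with the rows
  have h1 : (Matrix.of (Fin.cons x u : Fin (d + 1) → Fin (d + 1) → K)) *ᵥ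
      (b - ((x ⬝ᵥ b) / (x ⬝ᵥ cross u)) • cross u) = 0 := by
    funext a
    refine Fin.cases ?_ (fun i => ?_) a
    · show (Fin.cons x u : Fin (d + 1) → Fin (d + 1) → K) 0 ⬝ᵥ _ = 0
      rw [Fin.cons_zero, dotProduct_sub, dotProduct_smul, smul_eq_mul, div_mul_cancel₀ _ hc,
        sub_self]
    · show (Fin.cons x u : Fin (d + 1) → Fin (d + 1) → K) i.succ ⬝ᵥ _ = 0
      rw [Fin.cons_succ, dotProduct_sub, dotProduct_smul, dot_cross_self, hb, smul_zero, sub_zero]
  have h2 := Matrix.eq_zero_of_mulVec_eq_zero hd h1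
  exact sub_eq_zero.1 h2

/-- (CT) Transfer of membership in a simplicial cone. -/
theorem cone_transfer {d : ℕ} (b b' : Fin (d + 1) → Fin (d + 1) → ℝ) (x x' : Fin (d + 1) → ℝ)
    (hb : Matrix.det (Matrix.of b) ≠ 0)
    (hdet : sg (Matrix.det (Matrix.of b)) = sg (Matrix.det (Matrix.of b')))
    (h : ∀ a : Fin (d + 1), sg (cross (fun i : Fin d => b (a.succAbove i)) ⬝ᵥ x) =
      sg (cross (fun i : Fin d => b' (a.succAbove i)) ⬝ᵥ x'))
    (c : Fin (d + 1) → ℝ) (hc : x = ∑ a, c a • b a) :
    ∃ c' : Fin (d + 1) → ℝ, (∀ a, sg (c' a) = sg (c a)) ∧ x' = ∑ a, c' a • b' a := by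
  have hb' : Matrix.det (Matrix.of b') ≠ 0 := by
    intro h0
    rw [h0] at hdet
    simp only [sg, sign_zero, sign_eq_zero_iff] at hdet
    exact hb hdet
  have hli : LinearIndependent ℝ b' := by
    have h2 : IsUnit (Matrix.of b') := by
      rw [Matrix.isUnit_iff_isUnit_det]
      exact isUnit_iff_ne_zero.2 hb'
    exact Matrix.linearIndependent_rows_iff_isUnit.2 h2
  let B := basisOfLinearIndependentOfCardEqFinrank hli (by simp)
  refine ⟨fun a => B.repr x' a, ?_, ?_⟩
  · intro a
    have e1 : x' = ∑ k, (B.repr x' k) • b' k := by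
      conv_lhs => rw [← B.sum_repr x']
      simp [B]
    have e2 := h a
    rw [hc, cross_dot_sum] at e2
    rw [e1, cross_dot_sum] at e2
    have e3 := hdet
    rw [det_eq b a, det_eq b' a] at e3
    simp only [sg, sign_mul] at e2 e3
    -- cancel the common sign
    have hne : SignType.sign (cross (fun i : Fin d => b (a.succAbove i)) ⬝ᵥ b a) ≠ 0 := by
      intro h0
      rw [sign_eq_zero_iff] at h0
      exact hb (by rw [det_eq b a, h0, mul_zero])
    have hs : SignType.sign ((-1 : ℝ) ^ (a : ℕ)) ≠ 0 := by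
      intro h0
      rw [sign_eq_zero_iff] at h0
      exact pow_ne_zero _ (by norm_num) h0
    have e4 : SignType.sign (cross (fun i : Fin d => b (a.succAbove i)) ⬝ᵥ b a) =
        SignType.sign (cross (fun i : Fin d => b' (a.succAbove i)) ⬝ᵥ b' a) :=
      mul_left_cancel₀ hs e3
    rw [← e4] at e2
    exact (mul_right_cancel₀ hne e2).symm
  · conv_lhs => rw [← B.sum_repr x']
    simp [B]

end Pool.Agent.H7.UB
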