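import Pool.Agent.H7.UB.CDefs

/-! (C2) Asymptotic upper bound theorem (Seidel). -/

set_option autoImplicit false

namespace Pool.Agent.H7.UB

open Finset Matrix

theorem h86_seidel_li {d : ℕ} {I : Type} (u : I → Fin (d + 1) → ℝ)
    (c : I → ℝ) (e : Fin (d + 1) → ℝ) (hg : Gen u c e) (J : Finset I) (x : Fin (d + 1) → ℝ)
    (hx : e ⬝ᵥ x = 1) (hJ : ∀ i ∈ J, u i ⬝ᵥ x = c i) : J.card ≤ d := by
  have h := (hg J ⟨x, hx, hJ⟩).fintype_card_le_finrank
  rw [Fintype.card_option, Fintype.card_coe, Module.finrank_fin_fun] at h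
  omega

/-- (C2) Asymptotic upper bound theorem (Seidel). -/
theorem seidel {d : ℕ} {I : Type} [Fintype I] [DecidableEq I] (u : I → Fin (d + 1) → ℝ)
    (c : I → ℝ) (e : Fin (d + 1) → ℝ) (hg : Gen u c e) :
    (Bas u c e).ncard ≤ 2 * (univ.filter (fun A : Finset I => A.card ≤ d / 2)).card := by
  classical
  let 𝒥 := {J : Finset I // J ∈ Bas u c e}
  have hcard : ∀ J : 𝒥, J.1.card = d := fun J => J.2.1
  choose pt hpt using fun J : 𝒥 => J.2.2
  have li : ∀ J : 𝒥, LinearIndependent ℝ (fun o : Option J.1 => o.elim e (fun i => u i.1)) :=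
    fun J => hg J.1 ⟨pt J, (hpt J).1.1, (hpt J).2⟩
  let b : ∀ J : 𝒥, Module.Basis (Option J.1) ℝ (Fin (d + 1) → ℝ) := fun J =>
    basisOfLinearIndependentOfCardEqFinrank (li J) (by
      rw [Fintype.card_option, Fintype.card_coe, Module.finrank_fin_fun, hcard J])
  have hb : ∀ (J : 𝒥) (o : Option J.1), b J o = o.elim e (fun i => u i.1) := fun J o => by
    simp only [b, coe_basisOfLinearIndependentOfCardEqFinrank]
  -- a generic direction
  obtain ⟨ω, hω⟩ := Module.Dual.exists_forall_ne_zero_of_forall_exists (K := ℝ)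
    (M := Fin (d + 1) → ℝ) (ι := Σ J : 𝒥, {i // i ∈ J.1})
    (fun p => (b p.1).coord (some p.2)) (fun p => ⟨b p.1 (some p.2), by
      simp⟩)
  let a : ∀ J : 𝒥, {i // i ∈ J.1} → ℝ := fun J i => (b J).coord (some i) ω
  have ha : ∀ J i, a J i ≠ 0 := fun J i => hω ⟨J, i⟩
  -- the expansion of the direction
  have hexp : ∀ (J : 𝒥) (y : Fin (d + 1) → ℝ), e ⬝ᵥ y = 1 →
      ω ⬝ᵥ (y - pt J) = ∑ i : {i // i ∈ J.1}, a J i * (u i.1 ⬝ᵥ y - c i.1) := by
    intro J y hy
    have h1 : ω = ∑ o, (b J).coord o ω • b J o := ((b J).sum_repr ω).symm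
    have h2 : ω ⬝ᵥ (y - pt J) = ∑ o, (b J).coord o ω * (b J o ⬝ᵥ (y - pt J)) := by
      conv_lhs => rw [h1]
      rw [sum_dotProduct]
      refine Finset.sum_congr rfl (fun o _ => ?_)
      rw [smul_dotProduct, smul_eq_mul]
    rw [h2, Fintype.sum_option, hb]
    have h3 : e ⬝ᵥ (y - pt J) = 0 := by
      rw [dotProduct_sub, hy, (hpt J).1.1, sub_self]
    simp only [Option.elim]
    rw [h3, mul_zero, zero_add]
    refine Finset.sum_congr rfl (fun i _ => ?_)
    rw [hb]
    simp only [Option.elim, a]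
    rw [dotProduct_sub, (hpt J).2 i.1 i.2]
  -- positive and negative part
  let pos : 𝒥 → Finset I := fun J => (univ.filter (fun i : {i // i ∈ J.1} => 0 < a J i)).map
    (Function.Embedding.subtype _)
  have hpos : ∀ (J : 𝒥) (i : I) (hi : i ∈ J.1), i ∈ pos J ↔ 0 < a J ⟨i, hi⟩ := by
    intro J i hi
    simp [pos, hi]
  have hsub : ∀ J, pos J ⊆ J.1 := by
    intro J i hi
    simp only [pos, Finset.mem_map, Function.Embedding.coe_subtype] at hi
    obtain ⟨k, -, rfl⟩ := hi
    exact k.2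
  -- key inequality
  have key : ∀ (J K : 𝒥) (A : Finset I), A ⊆ K.1 →
      (∀ (i : I) (hi : i ∈ J.1), i ∉ A → 0 < a J ⟨i, hi⟩) → 0 ≤ ω ⬝ᵥ (pt K - pt J) ∧
      (ω ⬝ᵥ (pt K - pt J) = 0 → ∀ i ∈ J.1, u i ⬝ᵥ pt K = c i) := by
    intro J K A hAK hA
    rw [hexp J (pt K) (hpt K).1.1]
    have hnn : ∀ i ∈ (univ : Finset {i // i ∈ J.1}), 0 ≤ a J i * (u i.1 ⬝ᵥ pt K - c i.1) := by
      intro i _
      by_cases hi : i.1 ∈ A
      · rw [(hpt K).2 i.1 (hAK hi), sub_self, mul_zero]
      · exact mul_nonneg (hA i.1 i.2 hi).le (sub_nonneg.mpr ((hpt K).1.2 i.1))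
    refine ⟨Finset.sum_nonneg hnn, ?_⟩
    intro h0 i hi
    have h1 := (Finset.sum_eq_zero_iff_of_nonneg hnn).mp h0 ⟨i, hi⟩ (Finset.mem_univ _)
    rcases mul_eq_zero.mp h1 with h2 | h2
    · exact absurd h2 (ha _ _)
    · exact sub_eq_zero.mp h2
  have keyneg : ∀ (J K : 𝒥) (A : Finset I), A ⊆ K.1 →
      (∀ (i : I) (hi : i ∈ J.1), i ∉ A → a J ⟨i, hi⟩ < 0) → ω ⬝ᵥ (pt K - pt J) ≤ 0 ∧
      (ω ⬝ᵥ (pt K - pt J) = 0 → ∀ i ∈ J.1, u i ⬝ᵥ pt K = c i) := by
    intro J K A hAK hA
    rw [hexp J (pt K) (hpt K).1.1]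
    have hnn : ∀ i ∈ (univ : Finset {i // i ∈ J.1}), a J i * (u i.1 ⬝ᵥ pt K - c i.1) ≤ 0 := by
      intro i _
      by_cases hi : i.1 ∈ A
      · rw [(hpt K).2 i.1 (hAK hi), sub_self, mul_zero]
      · exact mul_nonpos_of_nonpos_of_nonneg (hA i.1 i.2 hi).le
          (sub_nonneg.mpr ((hpt K).1.2 i.1))
    refine ⟨Finset.sum_nonpos hnn, ?_⟩
    intro h0 i hi
    have h1 := (Finset.sum_eq_zero_iff_of_nonpos hnn).mp h0 ⟨i, hi⟩ (Finset.mem_univ _)
    rcases mul_eq_zero.mp h1 with h2 | h2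
    · exact absurd h2 (ha _ _)
    · exact sub_eq_zero.mp h2
  -- two bases with a common point are equal
  have hfin : ∀ J K : 𝒥, (∀ i ∈ J.1, u i ⬝ᵥ pt K = c i) → J = K := by
    intro J K h
    have h1 : (J.1 ∪ K.1).card ≤ d := by
      refine h86_seidel_li u c e hg _ (pt K) (hpt K).1.1 ?_
      intro i hi
      rcases Finset.mem_union.mp hi with hi | hi
      · exact h i hi
      · exact (hpt K).2 i hi
    have h2 : J.1 = J.1 ∪ K.1 := Finset.eq_of_subset_of_card_le Finset.subset_union_left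
      (by rw [hcard J]; exact h1)
    have h3 : K.1 = J.1 ∪ K.1 := Finset.eq_of_subset_of_card_le Finset.subset_union_right
      (by rw [hcard K]; exact h1)
    exact Subtype.ext (h2.trans h3.symm)
  have hpt_neg : ∀ J K : 𝒥, ω ⬝ᵥ (pt K - pt J) = -(ω ⬝ᵥ (pt J - pt K)) := by
    intro J K
    rw [← dotProduct_neg, neg_sub]
  -- the map
  let Φ : 𝒥 → Bool × {A : Finset I // A.card ≤ d / 2} := fun J =>
    if h : (J.1 \ pos J).card ≤ d / 2 then (true, ⟨J.1 \ pos J, h⟩)
    else (false, ⟨pos J, by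
      have h1 := Finset.card_sdiff_add_card_eq_card (hsub J)
      rw [hcard J] at h1
      omega⟩)
  have hΦ : Function.Injective Φ := by
    intro J K hJK
    simp only [Φ] at hJK
    by_cases h1 : (J.1 \ pos J).card ≤ d / 2
    · by_cases h2 : (K.1 \ pos K).card ≤ d / 2
      · rw [dif_pos h1, dif_pos h2] at hJK
        have hA : J.1 \ pos J = K.1 \ pos K := congrArg (fun p => p.2.1) hJK
        have k1 := key J K (J.1 \ pos J) (by rw [hA]; exact Finset.sdiff_subset) (by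
          intro i hi hn
          rw [← hpos J i hi]
          by_contra h
          exact hn (Finset.mem_sdiff.mpr ⟨hi, h⟩))
        have k2 := key K J (J.1 \ pos J) Finset.sdiff_subset (by
          intro i hi hn
          rw [← hpos K i hi]
          by_contra h
          rw [hA] at hn
          exact hn (Finset.mem_sdiff.mpr ⟨hi, h⟩))
        refine hfin J K (k1.2 ?_)
        rw [hpt_neg K J] at k2
        linarith [k1.1, k2.1]
      · rw [dif_pos h1, dif_neg h2] at hJK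
        exact absurd (congrArg Prod.fst hJK) (by simp)
    · by_cases h2 : (K.1 \ pos K).card ≤ d / 2
      · rw [dif_neg h1, dif_pos h2] at hJK
        exact absurd (congrArg Prod.fst hJK) (by simp)
      · rw [dif_neg h1, dif_neg h2] at hJK
        have hA : pos J = pos K := congrArg (fun p => p.2.1) hJK
        have k1 := keyneg J K (pos J) (by rw [hA]; exact hsub K) (by
          intro i hi hn
          rw [hpos J i hi] at hn
          exact lt_of_le_of_ne (not_lt.mp hn) (ha _ _))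
        have k2 := keyneg K J (pos J) (hsub J) (by
          intro i hi hn
          rw [hA, hpos K i hi] at hn
          exact lt_of_le_of_ne (not_lt.mp hn) (ha _ _))
        refine hfin J K (k1.2 ?_)
        rw [hpt_neg K J] at k2
        linarith [k1.1, k2.1]
  have h1 : (Bas u c e).ncard = Nat.card 𝒥 := rfl
  rw [h1]
  refine (Nat.card_le_card_of_injective Φ hΦ).trans (le_of_eq ?_)
  rw [Nat.card_prod, Nat.card_eq_fintype_card, Fintype.card_bool, Nat.card_eq_fintype_card,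
    Fintype.card_subtype]

end Pool.Agent.H7.UB
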