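import Pool.Agent.H7.UB.CDefs
import Pool.Agent.H7.UB.CR
import Pool.Agent.H7.UB.Seidel

/-! # Module C5: low level cover of an arrangement by simplicial cones -/

set_option autoImplicit false

namespace Pool.Agent.H7.UB

open Finset Matrix Filter Topology

/-- Statement of C1. -/
def GenStmt : Prop := ∀ (d : ℕ) (I : Type) [Fintype I] (z : I → Fin (d + 1) → ℝ)
    (e : Fin (d + 1) → ℝ) (_ : e ≠ 0) (ε : ℝ) (_ : 0 < ε),
    ∃ t : I → ℝ, (∀ i, 0 < t i ∧ t i < ε) ∧ Gen z (fun i => -t i) e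

/-- Statement of C3. -/
def PullStmt : Prop := ∀ (d : ℕ) (_ : 1 ≤ d) (I : Type) [Fintype I] [DecidableEq I]
    (u : I → Fin (d + 1) → ℝ) (c : I → ℝ) (e : Fin (d + 1) → ℝ) (_ : Gen u c e)
    (_ : Bornology.IsBounded (Poly u c e)),
    ∃ F : (Fin d → I) → Fin (d + 1) → Finset I,
      ∀ x ∈ Poly u c e, ∃ s : Fin d → I, Function.Injective s ∧ univ.image s ∈ Bas u c e ∧
        (∀ a, F s a ∈ Bas u c e) ∧
        ∃ p : Fin (d + 1) → Fin (d + 1) → ℝ,
          (∀ a, p a ∈ Poly u c e ∧ ∀ i ∈ F s a, u i ⬝ᵥ p a = c i) ∧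
          ∃ w : Fin (d + 1) → ℝ, (∀ a, 0 ≤ w a) ∧ x = ∑ a, w a • p a

/-- Statement of C4. -/
def LowStmt : Prop := ∀ (d : ℕ) (_ : 1 ≤ d), ∃ C : ℕ, ∀ (I : Type) [Fintype I] [DecidableEq I]
    (y : I → Fin (d + 1) → ℝ) (β : Fin (d + 1) → Fin (d + 1) → ℝ) (e : Fin (d + 1) → ℝ)
    (t : I ⊕ Fin (d + 1) → ℝ) (_ : Gen (Sum.elim y β) (fun i => -t i) e) (j : ℕ),
    {J : Finset (I ⊕ Fin (d + 1)) | J.card = d ∧ ∃ x, e ⬝ᵥ x = 1 ∧
      (∀ i ∈ J, Sum.elim y β i ⬝ᵥ x = -t i) ∧ (∀ l, -t (Sum.inr l) ≤ β l ⬝ᵥ x) ∧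
      (univ.filter (fun i => y i ⬝ᵥ x < -t (Sum.inl i))).card ≤ j}.ncard ≤
      C * (Fintype.card I + 1) ^ (d / 2) * (j + 1) ^ d

section signs

variable {d : ℕ} {I : Type} (y : I → Fin (d + 1) → ℝ) (β : Fin (d + 1) → Fin (d + 1) → ℝ)
  (e : Fin (d + 1) → ℝ) (t : I ⊕ Fin (d + 1) → ℝ) (τ : I → Bool)

/-- Functionals with signs. -/
def su : I ⊕ Fin (d + 1) → Fin (d + 1) → ℝ := Sum.elim (fun i => if τ i then y i else -y i) β

/-- Thresholds with signs. -/
def sc : I ⊕ Fin (d + 1) → ℝ :=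
  Sum.elim (fun i => if τ i then -t (Sum.inl i) else t (Sum.inl i)) (fun l => -t (Sum.inr l))

theorem su_tight (i : I ⊕ Fin (d + 1)) (x : Fin (d + 1) → ℝ) :
    su y β τ i ⬝ᵥ x = sc t τ i ↔ Sum.elim y β i ⬝ᵥ x = -t i := by
  rcases i with i | l
  · simp only [su, sc, Sum.elim_inl]
    split_ifs
    · rfl
    · rw [neg_dotProduct, neg_eq_iff_eq_neg]
  · rfl

theorem su_gen (hg : Gen (Sum.elim y β) (fun i => -t i) e) : Gen (su y β τ) (sc t τ) e := by
  rintro J ⟨x, hx, hJ⟩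
  have h := hg J ⟨x, hx, fun i hi => (su_tight y β t τ i x).1 (hJ i hi)⟩
  let w : Option J → ℝˣ := fun o => o.elim 1 (fun i => Sum.elim (fun i => if τ i then 1 else -1)
    (fun _ => 1) i.1)
  have h2 := h.units_smul w
  convert h2 using 1
  funext o
  rcases o with _ | ⟨i, hi⟩
  · simp [w]
  · rcases i with i | l
    · simp only [su, w, Pi.smul_apply', Option.elim_some, Sum.elim_inl]
      split_ifs
      · simp
      · simp [Units.smul_def]
    · simp [su, w, Pi.smul_apply']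

end signs

theorem su_bounded {d : ℕ} {I : Type} (y : I → Fin (d + 1) → ℝ)
    (β : Fin (d + 1) → Fin (d + 1) → ℝ) (hβ : LinearIndependent ℝ β)
    (t : I ⊕ Fin (d + 1) → ℝ) (τ : I → Bool) :
    Bornology.IsBounded (Poly (su y β τ) (sc t τ) (∑ l, β l)) := by
  have hu : IsUnit (Matrix.of β) := Matrix.linearIndependent_rows_iff_isUnit.1 hβ
  have hdet : IsUnit (Matrix.of β).det := (Matrix.isUnit_iff_isUnit_det _).1 hu
  set M : ℝ := 1 + ∑ l, |t (Sum.inr l)| with hM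
  have hcpt : IsCompact ((fun z : Fin (d + 1) → ℝ => (Matrix.of β)⁻¹ *ᵥ z) ''
      Metric.closedBall (0 : Fin (d + 1) → ℝ) M) := by
    refine (isCompact_closedBall _ _).image ?_
    exact Continuous.matrix_mulVec continuous_const continuous_id
  refine hcpt.isBounded.subset ?_
  rintro x ⟨hx1, hx2⟩
  refine ⟨Matrix.of β *ᵥ x, ?_, ?_⟩
  · rw [mem_closedBall_zero_iff, pi_norm_le_iff_of_nonneg (by positivity)]
    intro l
    have hlow : ∀ l, -t (Sum.inr l) ≤ β l ⬝ᵥ x := fun l => hx2 (Sum.inr l)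
    have hsum : ∑ l, β l ⬝ᵥ x = 1 := by rw [← hx1, sum_dotProduct]
    have hval : (Matrix.of β *ᵥ x) l = β l ⬝ᵥ x := rfl
    rw [hval, Real.norm_eq_abs, abs_le]
    have h1 : |t (Sum.inr l)| ≤ ∑ l, |t (Sum.inr l)| :=
      Finset.single_le_sum (f := fun l => |t (Sum.inr l)|) (fun _ _ => abs_nonneg _)
        (Finset.mem_univ l)
    constructor
    · have := hlow l
      have := le_abs_self (t (Sum.inr l))
      linarith
    · have h2 : β l ⬝ᵥ x = 1 - ∑ k ∈ univ.erase l, β k ⬝ᵥ x := by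
        rw [← hsum, ← Finset.add_sum_erase _ _ (Finset.mem_univ l)]
        ring
      have h3 : -∑ k ∈ univ.erase l, |t (Sum.inr k)| ≤ ∑ k ∈ univ.erase l, β k ⬝ᵥ x := by
        rw [← Finset.sum_neg_distrib]
        refine Finset.sum_le_sum fun k _ => ?_
        have := hlow k
        have := le_abs_self (t (Sum.inr k))
        linarith
      have h4 : ∑ k ∈ univ.erase l, |t (Sum.inr k)| ≤ ∑ l, |t (Sum.inr l)| :=
        Finset.sum_le_sum_of_subset_of_nonneg (Finset.erase_subset _ _)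
          (fun _ _ _ => abs_nonneg _)
      linarith
  · show (Matrix.of β)⁻¹ *ᵥ (Matrix.of β *ᵥ x) = x
    rw [Matrix.mulVec_mulVec, Matrix.nonsing_inv_mul _ hdet, Matrix.one_mulVec]

section points

variable {d : ℕ} {L : Type} (z : L → Fin (d + 1) → ℝ) (e : Fin (d + 1) → ℝ)

/-- The matrix of a descriptor. -/
def dmat (f : Fin d → L) : Matrix (Fin (d + 1)) (Fin (d + 1)) ℝ :=
  Matrix.of (Fin.cons e (fun a => z (f a)) : Fin (d + 1) → Fin (d + 1) → ℝ)

/-- The point of a descriptor. -/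
noncomputable def dpt (t : L → ℝ) (f : Fin d → L) : Fin (d + 1) → ℝ :=
  (dmat z e f)⁻¹ *ᵥ (Fin.cons 1 (fun a => -t (f a)) : Fin (d + 1) → ℝ)

variable {z e}

theorem dmat_mulVec (f : Fin d → L) (x : Fin (d + 1) → ℝ) :
    dmat z e f *ᵥ x = (Fin.cons (e ⬝ᵥ x) (fun a => z (f a) ⬝ᵥ x) : Fin (d + 1) → ℝ) := by
  funext a
  refine Fin.cases ?_ (fun i => ?_) a
  · show (Fin.cons e (fun a => z (f a)) : Fin (d + 1) → Fin (d + 1) → ℝ) 0 ⬝ᵥ x = _
    rw [Fin.cons_zero, Fin.cons_zero]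
  · show (Fin.cons e (fun a => z (f a)) : Fin (d + 1) → Fin (d + 1) → ℝ) i.succ ⬝ᵥ x = _
    rw [Fin.cons_succ, Fin.cons_succ]

theorem dmat_inj (f : Fin d → L) (hf : (dmat z e f).det ≠ 0) (x x' : Fin (d + 1) → ℝ)
    (h0 : e ⬝ᵥ x = e ⬝ᵥ x') (h1 : ∀ a, z (f a) ⬝ᵥ x = z (f a) ⬝ᵥ x') : x = x' := by
  have h2 : dmat z e f *ᵥ (x - x') = 0 := by
    rw [dmat_mulVec]
    funext a
    refine Fin.cases ?_ (fun i => ?_) a
    · rw [Fin.cons_zero, dotProduct_sub, h0, sub_self]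
      rfl
    · rw [Fin.cons_succ, dotProduct_sub, h1, sub_self]
      rfl
  exact sub_eq_zero.1 (Matrix.eq_zero_of_mulVec_eq_zero hf h2)

theorem eq_dpt (t : L → ℝ) (f : Fin d → L) (hf : (dmat z e f).det ≠ 0) (x : Fin (d + 1) → ℝ)
    (h0 : e ⬝ᵥ x = 1) (h1 : ∀ a, z (f a) ⬝ᵥ x = -t (f a)) : x = dpt z e t f := by
  unfold dpt
  have h2 := dmat_mulVec (z := z) (e := e) f x
  have h3 : (Fin.cons (e ⬝ᵥ x) (fun a => z (f a) ⬝ᵥ x) : Fin (d + 1) → ℝ) =
      Fin.cons 1 (fun a => -t (f a)) := by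
    rw [h0]
    congr 1
    funext a
    exact h1 a
  rw [← h3, ← h2, Matrix.mulVec_mulVec, Matrix.nonsing_inv_mul _ (isUnit_iff_ne_zero.2 hf),
    Matrix.one_mulVec]

/-- Convergence of the points. -/
theorem tendsto_dpt (t : ℕ → L → ℝ) (ht : ∀ i, Tendsto (fun n => t n i) atTop (𝓝 0))
    (f : Fin d → L) : Tendsto (fun n => dpt z e (t n) f) atTop (𝓝 (dpt z e (fun _ => 0) f)) := by
  unfold dpt
  have hc : Continuous (fun v : Fin (d + 1) → ℝ => (dmat z e f)⁻¹ *ᵥ v) :=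
    Continuous.matrix_mulVec continuous_const continuous_id
  refine (hc.tendsto _).comp ?_
  rw [tendsto_pi_nhds]
  intro a
  refine Fin.cases ?_ (fun i => ?_) a
  · simp only [Fin.cons_zero]
    exact tendsto_const_nhds
  · simp only [Fin.cons_succ]
    exact (ht (f i)).neg

end points

section cv

variable {d : ℕ} {I : Type} (y : I → Fin (d + 1) → ℝ) (β : Fin (d + 1) → Fin (d + 1) → ℝ)
  (e : Fin (d + 1) → ℝ)

theorem dot_cvec (p : (Fin d → I ⊕ Fin (d + 1)) × Bool) (x : Fin (d + 1) → ℝ) :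
    x ⬝ᵥ cvec y β p = if p.2 then x ⬝ᵥ cross (fun a => Sum.elim y β (p.1 a))
      else -(x ⬝ᵥ cross (fun a => Sum.elim y β (p.1 a))) := by
  unfold cvec
  rw [dot_sgn]

theorem dot_cvec_self (p : (Fin d → I ⊕ Fin (d + 1)) × Bool) (a : Fin d) :
    Sum.elim y β (p.1 a) ⬝ᵥ cvec y β p = 0 := by
  rw [dot_cvec, dot_cross_self (fun a => Sum.elim y β (p.1 a)) a]
  simp

theorem det_ne_of_pos (p : (Fin d → I ⊕ Fin (d + 1)) × Bool) (hp : 0 < e ⬝ᵥ cvec y β p) :
    (dmat (Sum.elim y β) e p.1).det ≠ 0 := by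
  intro h0
  rw [dot_cvec, dot_cross] at hp
  unfold dmat at h0
  rw [h0] at hp
  simp at hp

/-- The limit point of a descriptor. -/
theorem dpt_zero (p : (Fin d → I ⊕ Fin (d + 1)) × Bool) (hp : 0 < e ⬝ᵥ cvec y β p) :
    dpt (Sum.elim y β) e (fun _ => 0) p.1 = (e ⬝ᵥ cvec y β p)⁻¹ • cvec y β p := by
  symm
  refine eq_dpt _ _ (det_ne_of_pos y β e p hp) _ ?_ ?_
  · rw [dotProduct_smul, smul_eq_mul, inv_mul_cancel₀ hp.ne']
  · intro a
    rw [dotProduct_smul, dot_cvec_self, smul_zero, neg_zero]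

/-- Existence of a descriptor of a basis. -/
theorem exists_desc [DecidableEq I] {t : I ⊕ Fin (d + 1) → ℝ}
    (hg : Gen (Sum.elim y β) (fun i => -t i) e)
    (J : Finset (I ⊕ Fin (d + 1))) (hJ : J.card = d) (x : Fin (d + 1) → ℝ) (hx : e ⬝ᵥ x = 1)
    (hJx : ∀ i ∈ J, Sum.elim y β i ⬝ᵥ x = -t i) :
    ∃ p : (Fin d → I ⊕ Fin (d + 1)) × Bool, univ.image p.1 = J ∧ 0 < e ⬝ᵥ cvec y β p := by
  have hli := hg J ⟨x, hx, hJx⟩
  let E : Fin d ≃ J := (Finset.equivFinOfCardEq hJ).symm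
  let φ : Fin (d + 1) → Option J := Fin.cons none (fun a => some (E a))
  have hφ : Function.Injective φ := by
    refine Fin.cons_injective_iff.2 ⟨?_, ?_⟩
    · rintro ⟨a, ha⟩
      simp at ha
    · intro a b hab
      exact E.injective (Option.some_injective _ hab)
  have hli2 := hli.comp φ hφ
  let f : Fin d → I ⊕ Fin (d + 1) := fun a => (E a).1
  have hfun : ((fun o : Option J => o.elim e (fun i => Sum.elim y β i.1)) ∘ φ) =
      (Fin.cons e (fun a => Sum.elim y β (f a)) : Fin (d + 1) → Fin (d + 1) → ℝ) := by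
    funext a
    refine Fin.cases ?_ (fun i => ?_) a
    · rfl
    · rfl
  rw [hfun] at hli2
  have hdet : Matrix.det (Matrix.of
      (Fin.cons e (fun a => Sum.elim y β (f a)) : Fin (d + 1) → Fin (d + 1) → ℝ)) ≠ 0 := by
    have h2 := Matrix.linearIndependent_rows_iff_isUnit.1 hli2
    exact ((Matrix.isUnit_iff_isUnit_det _).1 h2).ne_zero
  rw [← dot_cross] at hdet
  have himg : univ.image f = J := by
    ext i
    simp only [Finset.mem_image, Finset.mem_univ, true_and]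
    constructor
    · rintro ⟨a, rfl⟩
      exact (E a).2
    · intro hi
      refine ⟨E.symm ⟨i, hi⟩, ?_⟩
      simp [f]
  rcases lt_or_gt_of_ne hdet with h | h
  · refine ⟨(f, false), himg, ?_⟩
    rw [dot_cvec]
    simpa using h
  · refine ⟨(f, true), himg, ?_⟩
    rw [dot_cvec]
    simpa using h

end cv

/-- The situation for one choice of the thresholds. -/
theorem level (hP : PullStmt) {d : ℕ} (hd : 1 ≤ d) {C : ℕ} {I : Type} [Fintype I] [DecidableEq I]
    (y : I → Fin (d + 1) → ℝ) (β : Fin (d + 1) → Fin (d + 1) → ℝ)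
    (hβ : LinearIndependent ℝ β) (t : I ⊕ Fin (d + 1) → ℝ)
    (hg : Gen (Sum.elim y β) (fun i => -t i) (∑ l, β l)) (ht : ∀ i, 0 < t i) (j : ℕ)
    (hC : {J : Finset (I ⊕ Fin (d + 1)) | J.card = d ∧ ∃ x, (∑ l, β l) ⬝ᵥ x = 1 ∧
      (∀ i ∈ J, Sum.elim y β i ⬝ᵥ x = -t i) ∧ (∀ l, -t (Sum.inr l) ≤ β l ⬝ᵥ x) ∧
      (univ.filter (fun i => y i ⬝ᵥ x < -t (Sum.inl i))).card ≤ j}.ncard ≤
      C * (Fintype.card I + 1) ^ (d / 2) * (j + 1) ^ d) :
    ∃ G : Finset (Fin (d + 1) → (Fin d → I ⊕ Fin (d + 1)) × Bool),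
      G.card ≤ 2 ^ d * (d ^ d * (C * (Fintype.card I + 1) ^ (d / 2) * (j + 1) ^ d)) ∧
      (∀ Δ ∈ G, ∃ τ : I → Bool, (univ.filter (fun i => τ i = false)).card ≤ j ∧
        ∀ a, 0 < (∑ l, β l) ⬝ᵥ cvec y β (Δ a) ∧
          dpt (Sum.elim y β) (∑ l, β l) t (Δ a).1 ∈
            Poly (su y β τ) (sc t τ) (∑ l, β l)) ∧
      ∀ x, (∑ l, β l) ⬝ᵥ x = 1 → (∀ l, 0 ≤ β l ⬝ᵥ x) →
        (univ.filter (fun i => y i ⬝ᵥ x < 0)).card ≤ j →
        ∃ Δ ∈ G, ∃ w : Fin (d + 1) → ℝ, (∀ a, 0 ≤ w a) ∧ ∑ a, w a = 1 ∧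
          x = ∑ a, w a • dpt (Sum.elim y β) (∑ l, β l) t (Δ a).1 := by
  classical
  set e := ∑ l, β l with he
  have hgen : ∀ τ, Gen (su y β τ) (sc t τ) e := fun τ => su_gen y β e t τ hg
  choose F hF using fun τ : I → Bool =>
    hP d hd (I ⊕ Fin (d + 1)) (su y β τ) (sc t τ) e (hgen τ) (su_bounded y β hβ t τ)
  -- descriptors
  let D : Finset (I ⊕ Fin (d + 1)) → (Fin d → I ⊕ Fin (d + 1)) × Bool := fun J =>
    if h : ∃ p : (Fin d → I ⊕ Fin (d + 1)) × Bool, univ.image p.1 = J ∧ 0 < e ⬝ᵥ cvec y β p then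
      h.choose else (fun _ => Sum.inr 0, true)
  have hD : ∀ (τ : I → Bool) (J : Finset (I ⊕ Fin (d + 1))), J ∈ Bas (su y β τ) (sc t τ) e →
      univ.image (D J).1 = J ∧ 0 < e ⬝ᵥ cvec y β (D J) := by
    rintro τ J ⟨hJ, x, hx, hJx⟩
    have h := exists_desc y β e hg J hJ x hx.1
      (fun i hi => (su_tight y β t τ i x).1 (hJx i hi))
    simp only [D, dif_pos h]
    exact h.choose_spec
  -- the point of a basis
  have hDp : ∀ (τ : I → Bool) (J : Finset (I ⊕ Fin (d + 1))), J ∈ Bas (su y β τ) (sc t τ) e →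
      ∀ x, e ⬝ᵥ x = 1 → (∀ i ∈ J, su y β τ i ⬝ᵥ x = sc t τ i) →
      x = dpt (Sum.elim y β) e t (D J).1 := by
    intro τ J hJ x hx hJx
    obtain ⟨h1, h2⟩ := hD τ J hJ
    refine eq_dpt _ _ (det_ne_of_pos y β e _ h2) x hx fun a => ?_
    have h3 : (D J).1 a ∈ univ.image (D J).1 := Finset.mem_image_of_mem _ (Finset.mem_univ a)
    rw [h1] at h3
    exact (su_tight y β t τ _ x).1 (hJx _ h3)
  let P : Finset ((I → Bool) × (Fin d → I ⊕ Fin (d + 1))) := univ.filter fun q =>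
    (univ.filter (fun i => q.1 i = false)).card ≤ j ∧
      univ.image q.2 ∈ Bas (su y β q.1) (sc t q.1) e
  have hPmem : ∀ q, q ∈ P ↔ (univ.filter (fun i => q.1 i = false)).card ≤ j ∧
      univ.image q.2 ∈ Bas (su y β q.1) (sc t q.1) e := by
    intro q
    simp [P]
  let P' := P.filter fun q => ∀ a, F q.1 q.2 a ∈ Bas (su y β q.1) (sc t q.1) e
  refine ⟨P'.image (fun q a => D (F q.1 q.2 a)), ?_, ?_, ?_⟩
  · refine Finset.card_image_le.trans ((Finset.card_filter_le _ _).trans ?_)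
    -- count the pairs
    set LL := {J : Finset (I ⊕ Fin (d + 1)) | J.card = d ∧ ∃ x, e ⬝ᵥ x = 1 ∧
      (∀ i ∈ J, Sum.elim y β i ⬝ᵥ x = -t i) ∧ (∀ l, -t (Sum.inr l) ≤ β l ⬝ᵥ x) ∧
      (univ.filter (fun i => y i ⬝ᵥ x < -t (Sum.inl i))).card ≤ j} with hLL
    have hLLc : LL.toFinset.card = LL.ncard := (Set.ncard_eq_toFinset_card' LL).symm
    have h1 : P.card ≤ 2 ^ d * (P.image Prod.snd).card := by
      refine Finset.card_le_mul_card_image P (2 ^ d) ?_
      intro s hs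
      have hcard : (Finset.univ : Finset (Fin d → Bool)).card = 2 ^ d := by
        simp
      rw [← hcard]
      refine Finset.card_le_card_of_injOn (fun q a => Sum.elim q.1 (fun _ => true) (s a))
        (fun _ _ => Finset.mem_coe.2 (Finset.mem_univ _)) ?_
      rintro ⟨τ, s1⟩ hq ⟨τ', s2⟩ hq' heq
      simp only [Finset.coe_filter, Set.mem_ofPred_eq, hPmem] at hq hq'
      obtain ⟨⟨hq1, hq2⟩, rfl⟩ := hq
      obtain ⟨⟨hq1', hq2'⟩, hss⟩ := hq'
      subst hss
      obtain ⟨hc, x, hx, hxt⟩ := hq2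
      obtain ⟨hc', x', hx', hxt'⟩ := hq2'
      have hxx : x = x' := by
        rw [hDp τ _ ⟨hc, x, hx, hxt⟩ x hx.1 hxt, hDp τ' _ ⟨hc', x', hx', hxt'⟩ x' hx'.1 hxt']
      subst hxx
      refine Prod.ext ?_ rfl
      funext i
      show τ i = τ' i
      by_cases hi : Sum.inl i ∈ univ.image s2
      · obtain ⟨a, -, ha⟩ := Finset.mem_image.1 hi
        have := congrFun heq a
        simpa [ha] using this
      · by_contra hne
        have hu := hx.2 (Sum.inl i)
        have hu' := hx'.2 (Sum.inl i)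
        have htight : Sum.elim y β (Sum.inl i) ⬝ᵥ x = -t (Sum.inl i) := by
          simp only [su, sc, Sum.elim_inl] at hu hu' ⊢
          rcases Bool.eq_false_or_eq_true (τ i) with h | h <;>
            rcases Bool.eq_false_or_eq_true (τ' i) with h' | h'
          · exact absurd (h.trans h'.symm) hne
          · rw [h] at hu
            rw [h'] at hu'
            simp only [if_true, Bool.false_eq_true, if_false, neg_dotProduct] at hu hu'
            linarith
          · rw [h] at hu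
            rw [h'] at hu'
            simp only [if_true, Bool.false_eq_true, if_false, neg_dotProduct] at hu hu'
            linarith
          · exact absurd (h.trans h'.symm) hne
        have h2 := h86_seidel_li (Sum.elim y β) (fun i => -t i) e hg
          (insert (Sum.inl i) (univ.image s2)) x hx.1 (by
            intro k hk
            rcases Finset.mem_insert.1 hk with rfl | hk
            · exact htight
            · exact (su_tight y β t τ k x).1 (hxt k hk))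
        rw [Finset.card_insert_of_notMem hi, hc] at h2
        omega
    have h2 : (P.image Prod.snd).card ≤ d ^ d * LL.ncard := by
      have h3 : (P.image Prod.snd).card ≤
          d ^ d * ((P.image Prod.snd).image (fun s => univ.image s)).card := by
        refine Finset.card_le_mul_card_image _ (d ^ d) ?_
        intro J hJ
        have hJd : J.card = d := by
          obtain ⟨s, hs, rfl⟩ := Finset.mem_image.1 hJ
          obtain ⟨q, hq, rfl⟩ := Finset.mem_image.1 hs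
          exact ((hPmem q).1 hq).2.1
        have hsub : ((P.image Prod.snd).filter (fun s => univ.image s = J)) ⊆
            Fintype.piFinset (fun _ : Fin d => J) := by
          intro s hs
          rw [Fintype.mem_piFinset]
          intro a
          rw [← (Finset.mem_filter.1 hs).2]
          exact Finset.mem_image_of_mem _ (Finset.mem_univ _)
        refine (Finset.card_le_card hsub).trans ?_
        rw [Fintype.card_piFinset]
        simp [hJd]
      refine h3.trans (Nat.mul_le_mul_left _ ?_)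
      rw [← hLLc]
      refine Finset.card_le_card ?_
      intro J hJ
      obtain ⟨s, hs, rfl⟩ := Finset.mem_image.1 hJ
      obtain ⟨⟨τ, s⟩, hq, rfl⟩ := Finset.mem_image.1 hs
      obtain ⟨hq1, hq2, x, hx, hxt⟩ := (hPmem _).1 hq
      rw [Set.mem_toFinset]
      refine ⟨hq2, x, hx.1, fun i hi => (su_tight y β t τ i x).1 (hxt i hi),
        fun l => hx.2 (Sum.inr l), ?_⟩
      refine (Finset.card_le_card ?_).trans hq1
      intro i hi
      rw [Finset.mem_filter] at hi ⊢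
      refine ⟨Finset.mem_univ _, ?_⟩
      by_contra hne
      have hτ : τ i = true := by simpa using hne
      have hu := hx.2 (Sum.inl i)
      simp only [su, sc, Sum.elim_inl, hτ, if_true] at hu
      linarith [hi.2]
    calc P.card ≤ 2 ^ d * (P.image Prod.snd).card := h1
      _ ≤ 2 ^ d * (d ^ d * LL.ncard) := Nat.mul_le_mul_left _ h2
      _ ≤ _ := Nat.mul_le_mul_left _ (Nat.mul_le_mul_left _ hC)
  · intro Δ hΔ
    obtain ⟨⟨τ, s⟩, hq, rfl⟩ := Finset.mem_image.1 hΔ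
    obtain ⟨hq1, hq2⟩ := Finset.mem_filter.1 hq
    obtain ⟨hq3, -⟩ := (hPmem _).1 hq1
    refine ⟨τ, hq3, fun a => ?_⟩
    have hB := hq2 a
    obtain ⟨h1, h2⟩ := hD τ _ hB
    refine ⟨h2, ?_⟩
    obtain ⟨hc, x, hx, hxt⟩ := hB
    have := hDp τ _ ⟨hc, x, hx, hxt⟩ x hx.1 hxt
    show dpt (Sum.elim y β) e t (D (F τ s a)).1 ∈ _
    rw [← this]
    exact hx
  · intro x hx hxβ hxy
    let τ : I → Bool := fun i => decide (-t (Sum.inl i) ≤ y i ⬝ᵥ x)
    have hxP : x ∈ Poly (su y β τ) (sc t τ) e := by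
      refine ⟨hx, ?_⟩
      rintro (i | l)
      · simp only [su, sc, Sum.elim_inl]
        by_cases h : -t (Sum.inl i) ≤ y i ⬝ᵥ x
        · simp only [τ, h, decide_true, if_true]
        · simp only [τ, h, decide_false, Bool.false_eq_true, if_false, neg_dotProduct]
          push Not at h
          linarith
      · have := hxβ l
        have := ht (Sum.inr l)
        show -t (Sum.inr l) ≤ β l ⬝ᵥ x
        linarith
    obtain ⟨s, -, hs, hFs, p, hp, w, hw, hxw⟩ := hF τ x hxP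
    have hpD : ∀ a, p a = dpt (Sum.elim y β) e t (D (F τ s a)).1 := fun a =>
      hDp τ _ (hFs a) (p a) (hp a).1.1 (hp a).2
    refine ⟨fun a => D (F τ s a), ?_, w, hw, ?_, ?_⟩
    · refine Finset.mem_image.2 ⟨(τ, s), ?_, rfl⟩
      refine Finset.mem_filter.2 ⟨(hPmem _).2 ⟨?_, hs⟩, hFs⟩
      refine (Finset.card_le_card ?_).trans hxy
      intro i hi
      rw [Finset.mem_filter] at hi ⊢
      refine ⟨Finset.mem_univ _, ?_⟩
      have h1 : ¬ (-t (Sum.inl i) ≤ y i ⬝ᵥ x) := by simpa [τ] using hi.2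
      have h2 := ht (Sum.inl i)
      push Not at h1
      linarith
    · have h1 : e ⬝ᵥ x = ∑ a, w a := by
        rw [hxw, dotProduct_sum]
        refine Finset.sum_congr rfl fun a _ => ?_
        rw [dotProduct_smul, (hp a).1.1, smul_eq_mul, mul_one]
      rw [← h1, hx]
    · rw [hxw]
      refine Finset.sum_congr rfl fun a _ => ?_
      rw [hpD a]

/-- Pigeonhole principle for frequent events. -/
theorem freq_exists {α : Type*} [Finite α] {P : ℕ → α → Prop}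
    (h : ∃ᶠ n in atTop, ∃ a, P n a) : ∃ a, ∃ᶠ n in atTop, P n a := by
  by_contra hcon
  have h1 : ∀ a, ∀ᶠ n in atTop, ¬ P n a := fun a =>
    not_frequently.1 fun h2 => hcon ⟨a, h2⟩
  have h2 := eventually_all.2 h1
  obtain ⟨n, ⟨a, ha⟩, hn⟩ := (h.and_eventually h2).exists
  exact hn a ha

/-- Signs in the limit. -/
theorem limit_sign {d : ℕ} {I : Type} (y : I → Fin (d + 1) → ℝ)
    (β : Fin (d + 1) → Fin (d + 1) → ℝ) (e : Fin (d + 1) → ℝ)
    (t : ℕ → I ⊕ Fin (d + 1) → ℝ) (ht : ∀ i, Tendsto (fun n => t n i) atTop (𝓝 0))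
    (τ : I → Bool) (p : (Fin d → I ⊕ Fin (d + 1)) × Bool) (hp : 0 < e ⬝ᵥ cvec y β p)
    (h : ∃ᶠ n in atTop, dpt (Sum.elim y β) e (t n) p.1 ∈ Poly (su y β τ) (sc (t n) τ) e)
    (k : I ⊕ Fin (d + 1)) : 0 ≤ su y β τ k ⬝ᵥ cvec y β p := by
  have hsc : Tendsto (fun n => sc (t n) τ k) atTop (𝓝 0) := by
    rcases k with i | l
    · simp only [sc, Sum.elim_inl]
      split_ifs
      · simpa using (ht (Sum.inl i)).neg
      · exact ht (Sum.inl i)
    · simp only [sc, Sum.elim_inr]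
      simpa using (ht (Sum.inr l)).neg
  have hc : Continuous (fun v : Fin (d + 1) → ℝ => su y β τ k ⬝ᵥ v) :=
    Continuous.dotProduct continuous_const continuous_id
  have h1 : Tendsto (fun n => su y β τ k ⬝ᵥ dpt (Sum.elim y β) e (t n) p.1 - sc (t n) τ k) atTop
      (𝓝 (su y β τ k ⬝ᵥ dpt (Sum.elim y β) e (fun _ => 0) p.1 - 0)) :=
    ((hc.tendsto _).comp (tendsto_dpt t ht p.1)).sub hsc
  have h2 : 0 ≤ su y β τ k ⬝ᵥ dpt (Sum.elim y β) e (fun _ => 0) p.1 - 0 := by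
    refine ge_of_tendsto_of_frequently h1 (h.mono fun n hn => ?_)
    exact sub_nonneg.2 (hn.2 k)
  rw [sub_zero, dpt_zero y β e p hp, dotProduct_smul, smul_eq_mul] at h2
  have h3 := mul_nonneg hp.le h2
  rwa [← mul_assoc, mul_inv_cancel₀ hp.ne', one_mul] at h3

/-- Simplicial cones are closed. -/
theorem closed_cone {d : ℕ} (b : Fin (d + 1) → Fin (d + 1) → ℝ) (hb : LinearIndependent ℝ b) :
    IsClosed {x : Fin (d + 1) → ℝ | ∃ c : Fin (d + 1) → ℝ, (∀ a, 0 ≤ c a) ∧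
      x = ∑ a, c a • b a} := by
  let B := basisOfLinearIndependentOfCardEqFinrank hb (by simp)
  have hB : ∀ a, B a = b a := fun a => by simp [B]
  have h1 : {x : Fin (d + 1) → ℝ | ∃ c : Fin (d + 1) → ℝ, (∀ a, 0 ≤ c a) ∧
      x = ∑ a, c a • b a} = ⋂ a, {x | 0 ≤ B.coord a x} := by
    ext x
    rw [Set.mem_iInter]
    constructor
    · rintro ⟨c, hc, rfl⟩ a
      show 0 ≤ B.coord a (∑ a, c a • b a)
      have : B.coord a (∑ a, c a • b a) = c a := by
        rw [Module.Basis.coord_apply]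
        have h2 : ∑ a, c a • b a = ∑ a, c a • B a :=
          Finset.sum_congr rfl fun a _ => by rw [hB]
        rw [h2, B.repr_sum_self]
      rw [this]
      exact hc a
    · intro hx
      refine ⟨fun a => B.coord a x, hx, ?_⟩
      conv_lhs => rw [← B.sum_repr x]
      refine Finset.sum_congr rfl fun a _ => ?_
      rw [hB]
      rfl
  rw [h1]
  exact isClosed_iInter fun a => isClosed_le continuous_const
    (LinearMap.continuous_of_finiteDimensional (B.coord a))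

/-- Finitely many proper subspaces have measure zero. -/
theorem null_union {d : ℕ} {α : Type*} (S : Finset α) (W : α → Submodule ℝ (Fin (d + 1) → ℝ))
    (hW : ∀ a ∈ S, W a ≠ ⊤) :
    MeasureTheory.volume (⋃ a ∈ S, (W a : Set (Fin (d + 1) → ℝ))) = 0 := by
  refine le_antisymm ((MeasureTheory.measure_biUnion_finset_le S _).trans (le_of_eq ?_)) zero_le
  refine Finset.sum_eq_zero fun a ha => ?_
  exact MeasureTheory.Measure.addHaar_submodule _ _ (hW a ha)

/-- The covering theorem from C1, C3, C4. -/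
theorem cover_of (hG : GenStmt) (hP : PullStmt) (hL : LowStmt) (d : ℕ) (hd : 1 ≤ d) :
    ∃ C : ℕ, ∀ (I : Type) [Fintype I] [DecidableEq I]
    (y : I → Fin (d + 1) → ℝ) (β : Fin (d + 1) → Fin (d + 1) → ℝ) (_ : LinearIndependent ℝ β)
    (g : Fin (d + 1) → ℝ) (_ : ∀ i, 0 < y i ⬝ᵥ g) (_ : ∀ l, 0 < β l ⬝ᵥ g) (j : ℕ),
    ∃ G : Finset (Fin (d + 1) → (Fin d → I ⊕ Fin (d + 1)) × Bool),
      G.card ≤ C * (Fintype.card I + 1) ^ (d / 2) * (j + 1) ^ d ∧
      (∀ Δ ∈ G, LinearIndependent ℝ (fun a => cvec y β (Δ a)) ∧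
        (∀ a l, 0 ≤ β l ⬝ᵥ cvec y β (Δ a)) ∧
        (∀ i, (∀ a, 0 ≤ y i ⬝ᵥ cvec y β (Δ a)) ∨ (∀ a, y i ⬝ᵥ cvec y β (Δ a) ≤ 0)) ∧
        (univ.filter (fun i => ∃ a, y i ⬝ᵥ cvec y β (Δ a) < 0)).card ≤ j) ∧
      ∀ x : Fin (d + 1) → ℝ, (∀ l, 0 ≤ β l ⬝ᵥ x) →
        (univ.filter (fun i => y i ⬝ᵥ x < 0)).card ≤ j →
        ∃ Δ ∈ G, ∃ c : Fin (d + 1) → ℝ, (∀ a, 0 ≤ c a) ∧ x = ∑ a, c a • cvec y β (Δ a) := by
  classical
  obtain ⟨C, hC⟩ := hL d hd
  refine ⟨2 ^ d * (d ^ d * C), ?_⟩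
  intro I _ _ y β hβ g hyg hβg j
  have heg : 0 < (∑ l, β l) ⬝ᵥ g := by
    rw [sum_dotProduct]
    exact Finset.sum_pos (fun l _ => hβg l) ⟨0, Finset.mem_univ _⟩
  have he : (∑ l, β l) ≠ 0 := by
    intro h0
    rw [h0, zero_dotProduct] at heg
    exact lt_irrefl _ heg
  choose t ht hgen using fun n : ℕ =>
    hG d (I ⊕ Fin (d + 1)) (Sum.elim y β) (∑ l, β l) he (1 / ((n : ℝ) + 1)) (by positivity)
  have htend : ∀ i, Tendsto (fun n => t n i) atTop (𝓝 0) := fun i =>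
    squeeze_zero (fun n => (ht n i).1.le) (fun n => (ht n i).2.le)
      tendsto_one_div_add_atTop_nhds_zero_nat
  choose G hG1 hG2 hG3 using fun n => level hP hd y β hβ (t n) (hgen n) (fun i => (ht n i).1) j
    (hC I y β (∑ l, β l) (t n) (hgen n) j)
  obtain ⟨G', hG'⟩ : ∃ G', ∃ᶠ n in atTop, G n = G' :=
    freq_exists (Eventually.frequently (Eventually.of_forall fun n => ⟨G n, rfl⟩))
  obtain ⟨n0, hn0⟩ := hG'.exists
  -- signs
  have hsign : ∀ Δ ∈ G', (∀ a, 0 < (∑ l, β l) ⬝ᵥ cvec y β (Δ a)) ∧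
      ∃ τ : I → Bool, (univ.filter (fun i => τ i = false)).card ≤ j ∧
        ∀ a k, 0 ≤ su y β τ k ⬝ᵥ cvec y β (Δ a) := by
    intro Δ hΔ
    have hpos : ∀ a, 0 < (∑ l, β l) ⬝ᵥ cvec y β (Δ a) := by
      obtain ⟨τ, -, h2⟩ := hG2 n0 Δ (hn0 ▸ hΔ)
      exact fun a => (h2 a).1
    refine ⟨hpos, ?_⟩
    have h1 : ∃ᶠ n in atTop, ∃ τ : I → Bool, (univ.filter (fun i => τ i = false)).card ≤ j ∧
        ∀ a, dpt (Sum.elim y β) (∑ l, β l) (t n) (Δ a).1 ∈
          Poly (su y β τ) (sc (t n) τ) (∑ l, β l) := by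
      refine hG'.mono fun n hn => ?_
      obtain ⟨τ, h2, h3⟩ := hG2 n Δ (hn ▸ hΔ)
      exact ⟨τ, h2, fun a => (h3 a).2⟩
    obtain ⟨τ, hτ⟩ := freq_exists h1
    obtain ⟨n1, hn1⟩ := hτ.exists
    refine ⟨τ, hn1.1, fun a k => ?_⟩
    exact limit_sign y β _ t htend τ (Δ a) (hpos a) (hτ.mono fun n hn => hn.2 a) k
  -- closed cover
  have hcov : ∀ x : Fin (d + 1) → ℝ, x ≠ 0 → (∀ l, 0 ≤ β l ⬝ᵥ x) →
      (univ.filter (fun i => y i ⬝ᵥ x < 0)).card ≤ j →
      ∃ Δ ∈ G', ∃ c : Fin (d + 1) → ℝ, (∀ a, 0 ≤ c a) ∧ x = ∑ a, c a • cvec y β (Δ a) := by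
    intro x hx0 hxβ hxy
    have hex : 0 < (∑ l, β l) ⬝ᵥ x := by
      have h0 : 0 ≤ (∑ l, β l) ⬝ᵥ x := by
        rw [sum_dotProduct]
        exact Finset.sum_nonneg fun l _ => hxβ l
      refine lt_of_le_of_ne h0 fun h1 => hx0 ?_
      rw [sum_dotProduct] at h1
      have h2 := (Finset.sum_eq_zero_iff_of_nonneg fun l _ => hxβ l).1 h1.symm
      have hu : IsUnit (Matrix.of β) := Matrix.linearIndependent_rows_iff_isUnit.1 hβ
      have hdet : (Matrix.of β).det ≠ 0 := ((Matrix.isUnit_iff_isUnit_det _).1 hu).ne_zero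
      refine Matrix.eq_zero_of_mulVec_eq_zero hdet ?_
      funext l
      exact h2 l (Finset.mem_univ _)
    set q : ℝ := (∑ l, β l) ⬝ᵥ x with hq
    set x' : Fin (d + 1) → ℝ := q⁻¹ • x with hx'
    have hx'e : (∑ l, β l) ⬝ᵥ x' = 1 := by
      rw [hx', dotProduct_smul, smul_eq_mul, ← hq, inv_mul_cancel₀ hex.ne']
    have hx'β : ∀ l, 0 ≤ β l ⬝ᵥ x' := fun l => by
      rw [hx', dotProduct_smul, smul_eq_mul]
      exact mul_nonneg (inv_nonneg.2 hex.le) (hxβ l)
    have hx'y : (univ.filter (fun i => y i ⬝ᵥ x' < 0)).card ≤ j := by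
      refine le_trans (Finset.card_le_card ?_) hxy
      intro i hi
      rw [Finset.mem_filter] at hi ⊢
      refine ⟨Finset.mem_univ _, ?_⟩
      have h3 := hi.2
      rw [hx', dotProduct_smul, smul_eq_mul] at h3
      by_contra hcon
      push Not at hcon
      exact absurd h3 (not_lt.2 (mul_nonneg (inv_nonneg.2 hex.le) hcon))
    have h1 : ∃ᶠ n in atTop, ∃ Δ : Fin (d + 1) → (Fin d → I ⊕ Fin (d + 1)) × Bool, Δ ∈ G' ∧
        ∃ w : Fin (d + 1) → ℝ, (∀ a, 0 ≤ w a) ∧ ∑ a, w a = 1 ∧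
          x' = ∑ a, w a • dpt (Sum.elim y β) (∑ l, β l) (t n) (Δ a).1 := by
      refine hG'.mono fun n hn => ?_
      obtain ⟨Δ, h2, h3⟩ := hG3 n x' hx'e hx'β hx'y
      exact ⟨Δ, hn ▸ h2, h3⟩
    obtain ⟨Δ, hΔ⟩ := freq_exists h1
    obtain ⟨φ, hφ, hφΔ⟩ := extraction_of_frequently_atTop hΔ
    have hΔG : Δ ∈ G' := (hφΔ 0).1
    choose w hw0 hw1 hwx using fun k => (hφΔ k).2
    obtain ⟨w₀, hw₀, ψ, hψ, hlim⟩ := (isCompact_stdSimplex ℝ (Fin (d + 1))).tendsto_subseq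
      (x := w) (fun k => ⟨hw0 k, hw1 k⟩)
    have h2 : Tendsto (fun k => ∑ a, w (ψ k) a •
        dpt (Sum.elim y β) (∑ l, β l) (t (φ (ψ k))) (Δ a).1) atTop
        (𝓝 (∑ a, w₀ a • dpt (Sum.elim y β) (∑ l, β l) (fun _ => 0) (Δ a).1)) := by
      refine tendsto_finsetSum _ fun a _ => ?_
      refine Tendsto.smul ?_ ?_
      · exact (tendsto_pi_nhds.1 hlim) a
      · exact (tendsto_dpt t htend (Δ a).1).comp
          (hφ.tendsto_atTop.comp hψ.tendsto_atTop)
    have h3 : (fun k => ∑ a, w (ψ k) a •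
        dpt (Sum.elim y β) (∑ l, β l) (t (φ (ψ k))) (Δ a).1) = fun _ => x' := by
      funext k
      exact (hwx (ψ k)).symm
    rw [h3] at h2
    have h4 := tendsto_nhds_unique tendsto_const_nhds h2
    obtain ⟨hpos, -⟩ := hsign Δ hΔG
    refine ⟨Δ, hΔG, fun a => q * (w₀ a * ((∑ l, β l) ⬝ᵥ cvec y β (Δ a))⁻¹), ?_, ?_⟩
    · intro a
      exact mul_nonneg hex.le (mul_nonneg (hw₀.1 a) (inv_nonneg.2 (hpos a).le))
    · have h5 : x = q • x' := by
        rw [hx', smul_smul, mul_inv_cancel₀ hex.ne', one_smul]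
      rw [h5, h4, Finset.smul_sum]
      refine Finset.sum_congr rfl fun a _ => ?_
      rw [dpt_zero y β _ (Δ a) (hpos a), smul_smul, smul_smul, mul_assoc]
  -- remove the dependent tuples
  refine ⟨G'.filter (fun Δ => LinearIndependent ℝ (fun a => cvec y β (Δ a))), ?_, ?_, ?_⟩
  · refine (Finset.card_filter_le _ _).trans ?_
    rw [← hn0]
    refine (hG1 n0).trans (le_of_eq ?_)
    ring
  · intro Δ hΔ
    obtain ⟨hΔ1, hΔ2⟩ := Finset.mem_filter.1 hΔ
    obtain ⟨-, τ, hτ, hs⟩ := hsign Δ hΔ1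
    have hsy : ∀ i, (τ i = true → ∀ a, 0 ≤ y i ⬝ᵥ cvec y β (Δ a)) ∧
        (τ i = false → ∀ a, y i ⬝ᵥ cvec y β (Δ a) ≤ 0) := by
      intro i
      constructor
      · intro h a
        have := hs a (Sum.inl i)
        simpa [su, h] using this
      · intro h a
        have := hs a (Sum.inl i)
        simp only [su, h, Sum.elim_inl, Bool.false_eq_true, if_false, neg_dotProduct] at this
        linarith
    refine ⟨hΔ2, fun a l => hs a (Sum.inr l), fun i => ?_, ?_⟩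
    · rcases Bool.eq_false_or_eq_true (τ i) with h | h
      · exact Or.inl ((hsy i).1 h)
      · exact Or.inr ((hsy i).2 h)
    · refine (Finset.card_le_card ?_).trans hτ
      intro i hi
      rw [Finset.mem_filter] at hi ⊢
      refine ⟨Finset.mem_univ _, ?_⟩
      by_contra hne
      have h : τ i = true := by simpa using hne
      obtain ⟨a, ha⟩ := hi.2
      exact absurd ha (not_lt.2 ((hsy i).1 h a))
  · intro x hxβ hxy
    set K : Set (Fin (d + 1) → ℝ) := ⋃ Δ ∈ G'.filter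
      (fun Δ => LinearIndependent ℝ (fun a => cvec y β (Δ a))),
      {x | ∃ c : Fin (d + 1) → ℝ, (∀ a, 0 ≤ c a) ∧ x = ∑ a, c a • cvec y β (Δ a)} with hK
    have hKc : IsClosed K := by
      refine Set.Finite.isClosed_biUnion (Finset.finite_toSet _) fun Δ hΔ => ?_
      exact closed_cone _ (Finset.mem_filter.1 hΔ).2
    suffices hxK : x ∈ K by
      rw [hK, Set.mem_iUnion₂] at hxK
      obtain ⟨Δ, hΔ, c, hc, hxc⟩ := hxK
      exact ⟨Δ, hΔ, c, hc, hxc⟩
    by_contra hxK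
    let O : Set (Fin (d + 1) → ℝ) := Kᶜ ∩ ((⋂ l, {z | 0 < β l ⬝ᵥ z}) ∩
      ⋂ i, {z | 0 ≤ y i ⬝ᵥ x → 0 < y i ⬝ᵥ z})
    have hcont : ∀ v : Fin (d + 1) → ℝ, Continuous (fun z : Fin (d + 1) → ℝ => v ⬝ᵥ z) :=
      fun v => Continuous.dotProduct continuous_const continuous_id
    have hO : IsOpen O := by
      refine hKc.isOpen_compl.inter (IsOpen.inter ?_ ?_)
      · exact isOpen_iInter_of_finite fun l => isOpen_lt continuous_const (hcont _)
      · refine isOpen_iInter_of_finite fun i => ?_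
        by_cases h : 0 ≤ y i ⬝ᵥ x
        · simpa [h] using isOpen_lt continuous_const (hcont (y i))
        · simp [h]
    have hne : O.Nonempty := by
      have h1 : Tendsto (fun s : ℝ => x + s • g) (𝓝[>] 0) (𝓝 x) := by
        have h2 : Continuous (fun s : ℝ => x + s • g) := by fun_prop
        have h3 := h2.tendsto 0
        simp only [zero_smul, add_zero] at h3
        exact h3.mono_left nhdsWithin_le_nhds
      have h2 : ∀ᶠ s in 𝓝[>] (0 : ℝ), x + s • g ∈ Kᶜ :=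
        h1 (hKc.isOpen_compl.mem_nhds hxK)
      have h3 : ∀ᶠ s in 𝓝[>] (0 : ℝ), 0 < s := self_mem_nhdsWithin
      obtain ⟨s, hs1, hs2⟩ := (h2.and h3).exists
      refine ⟨x + s • g, hs1, ?_, ?_⟩
      · refine Set.mem_iInter.2 fun l => ?_
        show 0 < β l ⬝ᵥ (x + s • g)
        rw [dotProduct_add, dotProduct_smul, smul_eq_mul]
        have := mul_pos hs2 (hβg l)
        have := hxβ l
        linarith
      · refine Set.mem_iInter.2 fun i h0 => ?_
        show 0 < y i ⬝ᵥ (x + s • g)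
        rw [dotProduct_add, dotProduct_smul, smul_eq_mul]
        have := mul_pos hs2 (hyg i)
        linarith
    have hsub : O ⊆ ⋃ Δ ∈ G'.filter
        (fun Δ => ¬ LinearIndependent ℝ (fun a => cvec y β (Δ a))),
        (Submodule.span ℝ (Set.range (fun a => cvec y β (Δ a))) : Set (Fin (d + 1) → ℝ)) := by
      rintro z ⟨hz1, hz2, hz3⟩
      rw [Set.mem_iInter] at hz2 hz3
      have hz0 : z ≠ 0 := by
        rintro rfl
        have := hz2 0
        simp at this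
      obtain ⟨Δ, hΔ, c, hc, hzc⟩ := hcov z hz0 (fun l => le_of_lt (hz2 l)) (by
        refine (Finset.card_le_card ?_).trans hxy
        intro i hi
        rw [Finset.mem_filter] at hi ⊢
        refine ⟨Finset.mem_univ _, ?_⟩
        by_contra hcon
        exact absurd hi.2 (not_lt.2 (le_of_lt (hz3 i (not_lt.1 hcon)))))
      rw [Set.mem_iUnion₂]
      refine ⟨Δ, Finset.mem_filter.2 ⟨hΔ, fun hli => hz1 ?_⟩, ?_⟩
      · rw [hK, Set.mem_iUnion₂]
        exact ⟨Δ, Finset.mem_filter.2 ⟨hΔ, hli⟩, c, hc, hzc⟩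
      · rw [hzc]
        exact Submodule.sum_mem _ fun a _ => Submodule.smul_mem _ _
          (Submodule.subset_span ⟨a, rfl⟩)
    have hnull : MeasureTheory.volume O = 0 := by
      refine MeasureTheory.measure_mono_null hsub (null_union _ _ ?_)
      intro Δ hΔ htop
      exact (Finset.mem_filter.1 hΔ).2
            (linearIndependent_of_top_le_span_of_card_eq_finrank htop.ge (by simp))
    have hpos : 0 < MeasureTheory.volume O := hO.measure_pos _ hne
    rw [hnull] at hpos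
    exact lt_irrefl _ hpos

end Pool.Agent.H7.UB
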