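import Pool.Agent.H7.UB.Defs

/-! Definitions for the covering modules (C1 - C5) and the normal form (Q). -/

set_option autoImplicit false

namespace Pool.Agent.H7.UB

open Finset Matrix

/-- The slice of a polyhedral cone. -/
def Poly {d : ℕ} {I : Type} (u : I → Fin (d + 1) → ℝ) (c : I → ℝ) (e : Fin (d + 1) → ℝ) :
    Set (Fin (d + 1) → ℝ) :=
  {x | e ⬝ᵥ x = 1 ∧ ∀ i, c i ≤ u i ⬝ᵥ x}

/-- Genericity of the thresholds: the members of a set of constraints which can be tight
simultaneously are, together with `e`, linearly independent. -/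
def Gen {d : ℕ} {I : Type} (u : I → Fin (d + 1) → ℝ) (c : I → ℝ) (e : Fin (d + 1) → ℝ) : Prop :=
  ∀ J : Finset I, (∃ x, e ⬝ᵥ x = 1 ∧ ∀ i ∈ J, u i ⬝ᵥ x = c i) →
    LinearIndependent ℝ (fun o : Option J => o.elim e (fun i => u i.1))

/-- The bases: sets of `d` constraints which are tight at a point of the polyhedron. -/
def Bas {d : ℕ} {I : Type} (u : I → Fin (d + 1) → ℝ) (c : I → ℝ) (e : Fin (d + 1) → ℝ) :
    Set (Finset I) :=
  {J | J.card = d ∧ ∃ x ∈ Poly u c e, ∀ i ∈ J, u i ⬝ᵥ x = c i}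

/-- Normal form of a configuration. -/
structure NF {d : ℕ} {Q : Type} (X : Q → Fin (d + 1) → ℝ) : Prop where
  sum : ∀ q, ∑ i, X q i = 1
  abs : ∀ q i, |X q i| ≤ 1
  basis : ∀ i, ∃ q, X q = Pi.single i 1

end Pool.Agent.H7.UB
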