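import Pool.Agent.H7.UB.T

/-! Module G: the faces are determined by local data. -/

set_option autoImplicit false

namespace Pool.Agent.H7.UB

open Finset Matrix

theorem G_sg_nonneg {a b : ℝ} (h : sg a = sg b) : 0 ≤ a → 0 ≤ b := by
  intro ha
  rcases lt_trichotomy b 0 with hb | hb | hb
  · rcases ha.eq_or_lt with ha | ha
    · rw [← ha] at h; simp [sg, sign_neg hb] at h
    · simp [sg, sign_neg hb, sign_pos ha] at h
  · exact hb.ge
  · exact hb.le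

theorem G_sg_zero {a b : ℝ} (h : sg a = sg b) : a = 0 ↔ b = 0 := by
  rw [← sign_eq_zero_iff (a := a), ← sign_eq_zero_iff (a := b)]
  simp only [sg] at h
  rw [h]

/-- (G) The faces are determined by local data. -/
theorem FF_subset {d : ℕ} {Q Θ : Type} [Fintype Q] [DecidableEq Q]
    (X X' : Q → Fin (d + 1) → ℝ) (y y' : Θ → Fin (d + 1) → Fin (d + 1) → ℝ)
    (K : Θ → Finset Q)
    (hcov : ∀ h : Fin (d + 1) → ℝ, (∀ q, 0 ≤ h ⬝ᵥ X q) →
      ∃ τ, ∃ c : Fin (d + 1) → ℝ, (∀ a, 0 ≤ c a) ∧ h = ∑ a, c a • y τ a)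
    (hout : ∀ τ a q, q ∉ K τ → 0 ≤ y τ a ⬝ᵥ X q ∧ sg (y τ a ⬝ᵥ X q) = sg (y' τ a ⬝ᵥ X' q))
    (hin : ∀ τ (f : Fin (d + 1) → Fin (d + 1) ⊕ {q // q ∈ K τ}),
      sg (Matrix.det (Matrix.of (fun i => Sum.elim (fun a => Pi.single a (1 : ℝ))
        (fun q a => y τ a ⬝ᵥ X q.1) (f i)))) =
      sg (Matrix.det (Matrix.of (fun i => Sum.elim (fun a => Pi.single a (1 : ℝ))
        (fun q a => y' τ a ⬝ᵥ X' q.1) (f i))))) :
    FF X ⊆ FF X' := by
  rintro T ⟨h, hpos, rfl⟩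
  obtain ⟨τ, c, hc, hh⟩ := hcov h hpos
  have hdot : ∀ (z : Fin (d + 1) → Fin (d + 1) → ℝ) (c : Fin (d + 1) → ℝ) (x : Fin (d + 1) → ℝ),
      (∑ a, c a • z a) ⬝ᵥ x = ∑ a, c a * (z a ⬝ᵥ x) := by
    intro z c x
    rw [sum_dotProduct]
    simp only [smul_dotProduct, smul_eq_mul]
  have hspan : Submodule.span ℝ (Set.range (Sum.elim (fun a => Pi.single a (1 : ℝ))
      (fun (q : {q // q ∈ K τ}) a => y τ a ⬝ᵥ X q.1) : Fin (d + 1) ⊕ {q // q ∈ K τ} →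
        Fin (d + 1) → ℝ)) = ⊤ := by
    rw [eq_top_iff]
    intro z _
    have : z = ∑ a, z a • (Pi.single a (1 : ℝ) : Fin (d + 1) → ℝ) := by
      ext i
      simp [Finset.sum_apply, Pi.single_apply]
    rw [this]
    refine Submodule.sum_mem _ fun a _ => Submodule.smul_mem _ _ (Submodule.subset_span ?_)
    exact ⟨Sum.inl a, rfl⟩
  obtain ⟨c', hc'⟩ := transfer _ _ hspan (hin τ) c
  have hca : ∀ a, sg (c a) = sg (c' a) := by
    intro a
    have := hc' (Sum.inl a)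
    simpa using this
  have hcK : ∀ q ∈ K τ, sg (h ⬝ᵥ X q) = sg ((∑ a, c' a • y' τ a) ⬝ᵥ X' q) := by
    intro q hq
    have := hc' (Sum.inr ⟨q, hq⟩)
    rw [hh, hdot, hdot]
    convert this using 2
    · simp only [dotProduct, Sum.elim_inr]
      exact Finset.sum_congr rfl fun a _ => mul_comm _ _
    · simp only [dotProduct, Sum.elim_inr]
      exact Finset.sum_congr rfl fun a _ => mul_comm _ _
  have hc'0 : ∀ a, 0 ≤ c' a := fun a => G_sg_nonneg (hca a) (hc a)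
  have hall : ∀ q, 0 ≤ (∑ a, c' a • y' τ a) ⬝ᵥ X' q ∧
      (h ⬝ᵥ X q = 0 ↔ (∑ a, c' a • y' τ a) ⬝ᵥ X' q = 0) := by
    intro q
    by_cases hq : q ∈ K τ
    · exact ⟨G_sg_nonneg (hcK q hq) (hpos q), G_sg_zero (hcK q hq)⟩
    · have h1 : ∀ a, 0 ≤ y' τ a ⬝ᵥ X' q := fun a =>
        G_sg_nonneg (hout τ a q hq).2 (hout τ a q hq).1
      have h2 : ∀ a, 0 ≤ c' a * (y' τ a ⬝ᵥ X' q) := fun a => mul_nonneg (hc'0 a) (h1 a)
      have h3 : ∀ a, 0 ≤ c a * (y τ a ⬝ᵥ X q) := fun a => mul_nonneg (hc a) (hout τ a q hq).1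
      refine ⟨?_, ?_⟩
      · rw [hdot]; exact Finset.sum_nonneg fun a _ => h2 a
      · rw [hh, hdot, hdot, Finset.sum_eq_zero_iff_of_nonneg (fun a _ => h3 a),
          Finset.sum_eq_zero_iff_of_nonneg (fun a _ => h2 a)]
        refine forall_congr' fun a => ?_
        rw [mul_eq_zero, mul_eq_zero, G_sg_zero (hca a), G_sg_zero (hout τ a q hq).2]
  refine ⟨∑ a, c' a • y' τ a, fun q => (hall q).1, ?_⟩
  ext q
  exact (hall q).2

end Pool.Agent.H7.UB
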