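import Pool.Agent.H7.UB.CDefs
import Pool.Agent.H7.UB.Seidel

/-! (C4) Vertices of low level of a generic arrangement. -/

set_option autoImplicit false

namespace Pool.Agent.H7.UB

open Finset Matrix

theorem C4_gen_comp {d : ℕ} {I I' : Type} {u : I → Fin (d + 1) → ℝ} {c : I → ℝ}
    {e : Fin (d + 1) → ℝ} (h : Gen u c e) (φ : I' ↪ I) :
    Gen (fun i => u (φ i)) (fun i => c (φ i)) e := by
  intro J hJ
  obtain ⟨x, hx, hJ⟩ := hJ
  have h1 := h (J.map φ) ⟨x, hx, by
    intro i hi
    obtain ⟨i', hi', rfl⟩ := Finset.mem_map.1 hi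
    exact hJ i' hi'⟩
  let ψ : Option J → Option (J.map φ : Finset I) :=
    Option.map (fun i => ⟨φ i.1, Finset.mem_map_of_mem _ i.2⟩)
  have hψ : Function.Injective ψ := by
    apply Option.map_injective
    intro a b hab
    have h2 : φ a.1 = φ b.1 := congrArg Subtype.val hab
    exact Subtype.ext (φ.injective h2)
  have h3 := h1.comp ψ hψ
  convert h3 using 1
  funext o
  cases o <;> rfl

theorem C4_num (j : ℕ) : (j + 1) ^ j ≤ 3 * j ^ j := by
  rcases Nat.eq_zero_or_pos j with rfl | hj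
  · simp
  · have hj' : (0 : ℝ) < j := by exact_mod_cast hj
    have h1 : (1 + 1 / (j : ℝ)) ^ j ≤ Real.exp 1 := by
      have h2 : 1 + 1 / (j : ℝ) ≤ Real.exp (1 / j) := by
        rw [add_comm]; exact Real.add_one_le_exp _
      calc (1 + 1 / (j : ℝ)) ^ j ≤ (Real.exp (1 / j)) ^ j :=
            pow_le_pow_left₀ (by positivity) h2 j
        _ = Real.exp 1 := by
            rw [← Real.exp_nat_mul]; congr 1; field_simp
    have h3 : Real.exp 1 < 3 := lt_trans Real.exp_one_lt_d9 (by norm_num)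
    have h4 : ((j : ℝ) + 1) ^ j = (1 + 1 / (j : ℝ)) ^ j * (j : ℝ) ^ j := by
      rw [← mul_pow]; congr 1; field_simp
    have h5 : ((j : ℝ) + 1) ^ j ≤ 3 * (j : ℝ) ^ j := by
      rw [h4]
      exact mul_le_mul_of_nonneg_right (h1.trans h3.le) (by positivity)
    exact_mod_cast h5

theorem C4_num' {m j : ℕ} (h : m ≤ j) : (j + 1) ^ m ≤ 3 * j ^ m := by
  rcases Nat.eq_zero_or_pos j with rfl | hj
  · obtain rfl : m = 0 := by omega
    simp
  · have h1 : (j + 1) ^ m * j ^ (j - m) ≤ 3 * j ^ m * j ^ (j - m) := by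
      calc (j + 1) ^ m * j ^ (j - m) ≤ (j + 1) ^ m * (j + 1) ^ (j - m) :=
            Nat.mul_le_mul_left _ (Nat.pow_le_pow_left (Nat.le_succ j) _)
        _ = (j + 1) ^ j := by rw [← pow_add]; congr 1; omega
        _ ≤ 3 * j ^ j := C4_num j
        _ = 3 * j ^ m * j ^ (j - m) := by
            rw [mul_assoc, ← pow_add]; congr 2; omega
    exact Nat.le_of_mul_le_mul_right h1 (by positivity)

/-- The number of functions which vanish on `P` and not on `N`. -/
theorem C4_card {I : Type} [Fintype I] [DecidableEq I] (P N : Finset I) (hPN : Disjoint P N)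
    {j d : ℕ} (hN : N.card ≤ j) (hP : P.card ≤ d) :
    (j + 1) ^ (Fintype.card I) ≤ 3 * (j + 1) ^ d *
      (univ.filter (fun f : I → Fin (j + 1) => (∀ i ∈ P, f i = 0) ∧ ∀ i ∈ N, f i ≠ 0)).card := by
  have h1 : (univ.filter (fun f : I → Fin (j + 1) => (∀ i ∈ P, f i = 0) ∧ ∀ i ∈ N, f i ≠ 0)) =
      Fintype.piFinset (fun i => if i ∈ P then {0} else if i ∈ N then {0}ᶜ else univ) := by
    ext f
    simp only [mem_filter, mem_univ, true_and, Fintype.mem_piFinset]
    constructor
    · rintro ⟨ha, hb⟩ i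
      by_cases hi : i ∈ P
      · rw [if_pos hi]; simpa using ha i hi
      · rw [if_neg hi]
        by_cases hi' : i ∈ N
        · rw [if_pos hi']; simpa using hb i hi'
        · rw [if_neg hi']; simp
    · intro h
      refine ⟨fun i hi => ?_, fun i hi => ?_⟩
      · have := h i
        rw [if_pos hi] at this
        simpa using this
      · have := h i
        rw [if_neg (fun hp => (Finset.disjoint_left.1 hPN) hp hi), if_pos hi] at this
        simpa using this
  rw [h1, Fintype.card_piFinset]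
  have h2 : ∀ i, (if i ∈ P then ({0} : Finset (Fin (j + 1))) else
      if i ∈ N then {0}ᶜ else univ).card =
      (if i ∈ P then 1 else 1) * ((if i ∈ P then 1 else if i ∈ N then j else j + 1)) := by
    intro i
    split_ifs <;> simp [Finset.card_compl]
  have h3 : ∏ i : I, (if i ∈ P then ({0} : Finset (Fin (j + 1))) else
      if i ∈ N then {0}ᶜ else univ).card = j ^ N.card * (j + 1) ^ (univ \ (P ∪ N)).card := by
    have h4 : (univ : Finset I) = (P ∪ N) ∪ (univ \ (P ∪ N)) := by
      ext i; simp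
    conv_lhs => rw [h4]
    rw [Finset.prod_union Finset.disjoint_sdiff, Finset.prod_union hPN]
    have e1 : ∏ i ∈ P, (if i ∈ P then ({0} : Finset (Fin (j + 1))) else
        if i ∈ N then {0}ᶜ else univ).card = 1 := by
      apply Finset.prod_eq_one
      intro i hi
      rw [if_pos hi, card_singleton]
    have e2 : ∏ i ∈ N, (if i ∈ P then ({0} : Finset (Fin (j + 1))) else
        if i ∈ N then {0}ᶜ else univ).card = j ^ N.card := by
      apply Finset.prod_eq_pow_card
      intro i hi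
      rw [if_neg (fun hp => (Finset.disjoint_left.1 hPN) hp hi), if_pos hi]
      simp [Finset.card_compl]
    have e3 : ∏ i ∈ univ \ (P ∪ N), (if i ∈ P then ({0} : Finset (Fin (j + 1))) else
        if i ∈ N then {0}ᶜ else univ).card = (j + 1) ^ (univ \ (P ∪ N)).card := by
      apply Finset.prod_eq_pow_card
      intro i hi
      rw [mem_sdiff, mem_union, not_or] at hi
      rw [if_neg hi.2.1, if_neg hi.2.2]
      simp
    rw [e1, e2, e3, one_mul]
  rw [h3]
  have h5 : Fintype.card I = P.card + N.card + (univ \ (P ∪ N)).card := by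
    rw [← Finset.card_union_of_disjoint hPN, ← Finset.card_univ,
      Finset.card_sdiff_of_subset (subset_univ _)]
    have := Finset.card_le_card (subset_univ (P ∪ N))
    omega
  calc (j + 1) ^ (Fintype.card I)
      = (j + 1) ^ P.card * (j + 1) ^ N.card * (j + 1) ^ (univ \ (P ∪ N)).card := by
        rw [h5, pow_add, pow_add]
    _ ≤ (j + 1) ^ d * (3 * j ^ N.card) * (j + 1) ^ (univ \ (P ∪ N)).card := by
        gcongr
        · omega
        · exact C4_num' hN
    _ = _ := by ring

/-- The number of small subsets. -/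
theorem C4_subsets {T : Type} [Fintype T] [DecidableEq T] (m : ℕ) :
    (univ.filter (fun A : Finset T => A.card ≤ m)).card ≤ (Fintype.card T + 1) ^ m := by
  classical
  have h1 : (univ.filter (fun A : Finset T => A.card ≤ m)) ⊆
      (univ : Finset (Fin m → Option T)).image
        (fun g => univ.filter (fun a => ∃ i, g i = some a)) := by
    intro A hA
    rw [mem_filter] at hA
    rw [mem_image]
    let ε : Fin A.card ≃ A := A.equivFin.symm
    refine ⟨fun i => if h : (i : ℕ) < A.card then some (ε ⟨i, h⟩).1 else none, mem_univ _, ?_⟩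
    ext a
    simp only [mem_filter, mem_univ, true_and]
    constructor
    · rintro ⟨i, hi⟩
      split_ifs at hi with h
      simp only [Option.some.injEq] at hi
      rw [← hi]
      exact (ε ⟨i, h⟩).2
    · intro ha
      have hlt : ((ε.symm ⟨a, ha⟩ : Fin A.card) : ℕ) < A.card := (ε.symm ⟨a, ha⟩).2
      refine ⟨⟨(ε.symm ⟨a, ha⟩ : Fin A.card), lt_of_lt_of_le hlt hA.2⟩, ?_⟩
      rw [dif_pos hlt]
      simp
  calc _ ≤ _ := Finset.card_le_card h1
    _ ≤ (univ : Finset (Fin m → Option T)).card := Finset.card_image_le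
    _ = _ := by simp

theorem low_level (d : ℕ) (hd : 1 ≤ d) : ∃ C : ℕ, ∀ (I : Type) [Fintype I] [DecidableEq I]
    (y : I → Fin (d + 1) → ℝ) (β : Fin (d + 1) → Fin (d + 1) → ℝ) (e : Fin (d + 1) → ℝ)
    (t : I ⊕ Fin (d + 1) → ℝ) (_ : Gen (Sum.elim y β) (fun i => -t i) e) (j : ℕ),
    {J : Finset (I ⊕ Fin (d + 1)) | J.card = d ∧ ∃ x, e ⬝ᵥ x = 1 ∧
      (∀ i ∈ J, Sum.elim y β i ⬝ᵥ x = -t i) ∧ (∀ l, -t (Sum.inr l) ≤ β l ⬝ᵥ x) ∧
      (univ.filter (fun i => y i ⬝ᵥ x < -t (Sum.inl i))).card ≤ j}.ncard ≤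
      C * (Fintype.card I + 1) ^ (d / 2) * (j + 1) ^ d := by
  classical
  refine ⟨6 * (d + 2) ^ (d / 2), ?_⟩
  intro I _ _ y β e t hgen j
  set S : Set (Finset (I ⊕ Fin (d + 1))) := {J | J.card = d ∧ ∃ x, e ⬝ᵥ x = 1 ∧
      (∀ i ∈ J, Sum.elim y β i ⬝ᵥ x = -t i) ∧ (∀ l, -t (Sum.inr l) ≤ β l ⬝ᵥ x) ∧
      (univ.filter (fun i => y i ⬝ᵥ x < -t (Sum.inl i))).card ≤ j} with hS
  have hSfin : S.Finite := S.toFinite
  have hx : ∀ J : Finset (I ⊕ Fin (d + 1)), ∃ x : Fin (d + 1) → ℝ, J ∈ S → J.card = d ∧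
      e ⬝ᵥ x = 1 ∧
      (∀ i ∈ J, Sum.elim y β i ⬝ᵥ x = -t i) ∧ (∀ l, -t (Sum.inr l) ≤ β l ⬝ᵥ x) ∧
      (univ.filter (fun i => y i ⬝ᵥ x < -t (Sum.inl i))).card ≤ j := by
    intro J
    by_cases hJ : J ∈ S
    · obtain ⟨h1, x, hx⟩ := hJ
      exact ⟨x, fun _ => ⟨h1, hx⟩⟩
    · exact ⟨0, fun h => absurd h hJ⟩
  choose x hx using hx
  let N : Finset (I ⊕ Fin (d + 1)) → Finset I := fun J =>
    univ.filter (fun i => y i ⬝ᵥ x J < -t (Sum.inl i))
  let P : Finset (I ⊕ Fin (d + 1)) → Finset I := fun J => univ.filter (fun i => Sum.inl i ∈ J)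
  let W : Finset (I ⊕ Fin (d + 1)) → Finset (I → Fin (j + 1)) := fun J =>
    univ.filter (fun f : I → Fin (j + 1) => (∀ i ∈ P J, f i = 0) ∧ ∀ i ∈ N J, f i ≠ 0)
  set SF : Finset (Finset (I ⊕ Fin (d + 1))) := hSfin.toFinset with hSF
  have hncard : S.ncard = SF.card := Set.ncard_eq_toFinset_card S hSfin
  have hW : ∀ J ∈ SF, (j + 1) ^ (Fintype.card I) ≤ 3 * (j + 1) ^ d * (W J).card := by
    intro J hJ
    have hJ' : J ∈ S := hSfin.mem_toFinset.1 hJ
    obtain ⟨h1, h2, h3, h4, h5⟩ := hx J hJ'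
    apply C4_card (P J) (N J) _ h5
    · calc (P J).card = ((P J).map ⟨Sum.inl, Sum.inl_injective⟩).card := (card_map _).symm
        _ ≤ J.card := by
            apply Finset.card_le_card
            intro i hi
            obtain ⟨i', hi', rfl⟩ := Finset.mem_map.1 hi
            exact (mem_filter.1 hi').2
        _ = d := h1
    · rw [Finset.disjoint_left]
      intro i hi hi'
      have e1 := h3 (Sum.inl i) (mem_filter.1 hi).2
      have e2 := (mem_filter.1 hi').2
      simp only [Sum.elim_inl] at e1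
      exact absurd e1 (ne_of_lt e2)
  set B : ℕ := 2 * (d + 2) ^ (d / 2) * (Fintype.card I + 1) ^ (d / 2) with hB
  have hf : ∀ f : I → Fin (j + 1), (SF.filter (fun J => f ∈ W J)).card ≤ B := by
    intro f
    let I' : Type := {i : I // f i = 0} ⊕ Fin (d + 1)
    let φ : I' ↪ I ⊕ Fin (d + 1) :=
      ⟨Sum.map Subtype.val id, Sum.map_injective.2 ⟨Subtype.val_injective, Function.injective_id⟩⟩
    have hg := C4_gen_comp hgen φ
    have hs := seidel _ _ e hg
    have hcard : Fintype.card I' ≤ Fintype.card I + (d + 1) := by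
      rw [Fintype.card_sum, Fintype.card_fin]
      have := Fintype.card_subtype_le (fun i : I => f i = 0)
      omega
    have hbas : (Bas (fun i => Sum.elim y β (φ i)) (fun i => -t (φ i)) e).ncard ≤ B := by
      refine hs.trans ?_
      calc _ ≤ 2 * (Fintype.card I' + 1) ^ (d / 2) := Nat.mul_le_mul_left _ (C4_subsets _)
        _ ≤ 2 * ((d + 2) * (Fintype.card I + 1)) ^ (d / 2) := by
            gcongr
            nlinarith [hcard]
        _ = B := by rw [mul_pow, hB]; ring
    refine le_trans ?_ hbas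
    rw [← Set.ncard_coe_finset]
    refine Set.ncard_le_ncard_of_injOn (fun J => univ.filter (fun i' : I' => φ i' ∈ J)) ?_ ?_
      (Set.toFinite _)
    · intro J hJ
      rw [mem_coe, mem_filter] at hJ
      obtain ⟨hJ1, hJ2⟩ := hJ
      have hJ' : J ∈ S := hSfin.mem_toFinset.1 hJ1
      obtain ⟨h1, h2, h3, h4, h5⟩ := hx J hJ'
      obtain ⟨_, w1, w2⟩ := mem_filter.1 hJ2
      refine ⟨?_, x J, ⟨h2, ?_⟩, ?_⟩
      · refine Eq.trans ?_ h1
        refine (card_map φ).symm.trans ?_
        congr 1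
        ext i
        simp only [mem_map, mem_filter, mem_univ, true_and]
        constructor
        · rintro ⟨a, ha, rfl⟩
          exact ha
        · intro hi
          rcases i with i | l
          · exact ⟨Sum.inl ⟨i, w1 i (mem_filter.2 ⟨mem_univ _, hi⟩)⟩, hi, rfl⟩
          · exact ⟨Sum.inr l, hi, rfl⟩
      · intro i'
        rcases i' with ⟨i, hi⟩ | l
        · change -t (Sum.inl i) ≤ y i ⬝ᵥ x J
          by_contra hcon
          push Not at hcon
          exact w2 i (mem_filter.2 ⟨mem_univ _, hcon⟩) hi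
        · exact h4 l
      · intro i' hi'
        exact h3 (φ i') (mem_filter.1 hi').2
    · intro J hJ J' hJ' hJJ
      rw [mem_coe, mem_filter] at hJ hJ'
      obtain ⟨_, w1, _⟩ := mem_filter.1 hJ.2
      obtain ⟨_, w1', _⟩ := mem_filter.1 hJ'.2
      have hJJ' : ∀ i' : I', φ i' ∈ J ↔ φ i' ∈ J' := by
        intro i'
        have := Finset.ext_iff.1 hJJ i'
        simpa using this
      ext i
      rcases i with i | l
      · by_cases hi : f i = 0
        · exact hJJ' (Sum.inl ⟨i, hi⟩)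
        · constructor
          · intro h
            exact absurd (w1 i (mem_filter.2 ⟨mem_univ _, h⟩)) hi
          · intro h
            exact absurd (w1' i (mem_filter.2 ⟨mem_univ _, h⟩)) hi
      · exact hJJ' (Sum.inr l)
  have hdouble : ∑ J ∈ SF, (W J).card ≤ (j + 1) ^ (Fintype.card I) * B := by
    have h1 : ∑ J ∈ SF, (W J).card =
        ∑ f : I → Fin (j + 1), (SF.filter (fun J => f ∈ W J)).card := by
      simp_rw [Finset.card_filter]
      rw [Finset.sum_comm]
      apply Finset.sum_congr rfl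
      intro J _
      rw [← Finset.card_filter]
      congr 1
      ext f
      simp
    rw [h1]
    calc _ ≤ ∑ f : I → Fin (j + 1), B := Finset.sum_le_sum (fun f _ => hf f)
      _ = _ := by
          rw [Finset.sum_const, smul_eq_mul, Finset.card_univ, Fintype.card_fun, Fintype.card_fin]
  have hpos : 0 < (j + 1) ^ (Fintype.card I) := by positivity
  have hfin : SF.card * (j + 1) ^ (Fintype.card I) ≤
      (3 * (j + 1) ^ d * B) * (j + 1) ^ (Fintype.card I) := by
    calc SF.card * (j + 1) ^ (Fintype.card I) = ∑ J ∈ SF, (j + 1) ^ (Fintype.card I) := by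
          rw [Finset.sum_const, smul_eq_mul]
      _ ≤ ∑ J ∈ SF, 3 * (j + 1) ^ d * (W J).card := Finset.sum_le_sum hW
      _ = 3 * (j + 1) ^ d * ∑ J ∈ SF, (W J).card := by rw [Finset.mul_sum]
      _ ≤ 3 * (j + 1) ^ d * ((j + 1) ^ (Fintype.card I) * B) := Nat.mul_le_mul_left _ hdouble
      _ = _ := by ring
  have hres := Nat.le_of_mul_le_mul_right hfin hpos
  rw [hncard]
  calc SF.card ≤ 3 * (j + 1) ^ d * B := hres
    _ = _ := by rw [hB]; ring

end Pool.Agent.H7.UB
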