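import Pool.Agent.H7.UB.Defs

/-! (N) Nets with control of the levels. -/

set_option autoImplicit false

namespace Pool.Agent.H7.UB

open Finset Matrix

/-- Product formula for the averages. -/
theorem net_avg {Λ : Type} [Fintype Λ] (w g : Λ → ℝ) (t : ℕ) :
    ∑ R : Fin t → Λ, (∏ i, w (R i)) * ∏ i, g (R i) = (∑ l, w l * g l) ^ t := by
  rw [Fintype.sum_pow]
  refine Finset.sum_congr rfl fun R _ => ?_
  rw [← Finset.prod_mul_distrib]

/-- (N) Nets with control of the levels. -/
theorem net {Λ : Type} [Fintype Λ] [DecidableEq Λ] [Nonempty Λ] (w : Λ → ℝ) (hw : ∀ l, 0 < w l)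
    (H N : Finset (Finset Λ)) (hN : N.Nonempty) (r : ℝ) (hr : 0 < r) (t : ℕ)
    (ht : (H.card : ℝ) * Real.exp (-(t / r)) < 1 / 2) :
    ∃ R : Fin t → Λ,
      (∀ S ∈ H, (∑ l, w l) / r < ∑ l ∈ S, w l → ∃ i, R i ∈ S) ∧
      ∀ S ∈ N, ((univ.filter (fun i => R i ∈ S)).card : ℝ) ≤
        Real.logb 2 (2 * N.card) + 2 * t * ((∑ l ∈ S, w l) / ∑ l, w l) := by
  classical
  set W : ℝ := ∑ l, w l with hWdef
  have hW : 0 < W := Finset.sum_pos (fun l _ => hw l) Finset.univ_nonempty
  have hNpos : (0 : ℝ) < N.card := by exact_mod_cast hN.card_pos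
  -- the two functionals
  let A : (Fin t → Λ) → ℝ := fun R =>
    ∑ S ∈ H.filter (fun S => W / r < ∑ l ∈ S, w l), ∏ i, (if R i ∈ S then (0 : ℝ) else 1)
  let p : Finset Λ → ℝ := fun S => (∑ l ∈ S, w l) / W
  have hp0 : ∀ S, 0 ≤ p S := fun S =>
    div_nonneg (Finset.sum_nonneg fun l _ => (hw l).le) hW.le
  have hp1 : ∀ S, p S ≤ 1 := fun S => by
    rw [div_le_one hW]
    exact Finset.sum_le_univ_sum_of_nonneg fun l => (hw l).le
  let B : (Fin t → Λ) → ℝ := fun R =>
    ∑ S ∈ N, (∏ i, (if R i ∈ S then (2 : ℝ) else 1)) / (2 * N.card * (1 + p S) ^ t)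
  have hA0 : ∀ R, 0 ≤ A R := fun R => Finset.sum_nonneg fun S _ =>
    Finset.prod_nonneg fun i _ => by split_ifs <;> norm_num
  have hB0 : ∀ R, 0 ≤ B R := fun R => Finset.sum_nonneg fun S _ => by
    refine div_nonneg (Finset.prod_nonneg fun i _ => by split_ifs <;> norm_num) ?_
    have := hp0 S
    positivity
  have hone : ∑ R : Fin t → Λ, (∏ i, w (R i)) = W ^ t := by
    have := net_avg w (fun _ => 1) t
    simpa using this
  have hmiss : ∀ S : Finset Λ, ∑ R : Fin t → Λ, (∏ i, w (R i)) *
      ∏ i, (if R i ∈ S then (0 : ℝ) else 1) = (W * (1 - p S)) ^ t := by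
    intro S
    rw [net_avg w (fun l => if l ∈ S then (0 : ℝ) else 1) t]
    congr 1
    have h1 : ∑ l, w l * (if l ∈ S then (0 : ℝ) else 1) = W - ∑ l ∈ S, w l := by
      rw [hWdef, ← Finset.sum_filter_add_sum_filter_not univ (fun l => l ∈ S) w,
        ← Finset.sum_filter_add_sum_filter_not univ (fun l => l ∈ S)
          (fun l => w l * (if l ∈ S then (0 : ℝ) else 1))]
      have e1 : ∑ l ∈ univ.filter (fun l => l ∈ S), w l * (if l ∈ S then (0 : ℝ) else 1) = 0 :=
        Finset.sum_eq_zero fun l hl => by simp [(Finset.mem_filter.1 hl).2]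
      have e2 : ∑ l ∈ univ.filter (fun l => ¬ l ∈ S), w l * (if l ∈ S then (0 : ℝ) else 1) =
          ∑ l ∈ univ.filter (fun l => ¬ l ∈ S), w l :=
        Finset.sum_congr rfl fun l hl => by simp [(Finset.mem_filter.1 hl).2]
      have e3 : ∑ l ∈ univ.filter (fun l => l ∈ S), w l = ∑ l ∈ S, w l := by
        congr 1; ext l; simp
      rw [e1, e2, e3]; ring
    rw [h1]
    simp only [p]
    field_simp
  have hhit : ∀ S : Finset Λ, ∑ R : Fin t → Λ, (∏ i, w (R i)) *
      ∏ i, (if R i ∈ S then (2 : ℝ) else 1) = (W * (1 + p S)) ^ t := by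
    intro S
    rw [net_avg w (fun l => if l ∈ S then (2 : ℝ) else 1) t]
    congr 1
    have h1 : ∑ l, w l * (if l ∈ S then (2 : ℝ) else 1) = W + ∑ l ∈ S, w l := by
      have : ∀ l, w l * (if l ∈ S then (2 : ℝ) else 1) = w l + (if l ∈ S then w l else 0) := by
        intro l; split_ifs <;> ring
      rw [Finset.sum_congr rfl fun l _ => this l, Finset.sum_add_distrib, Finset.sum_ite_mem,
        Finset.univ_inter]
    rw [h1]
    simp only [p]
    field_simp
  have hAavg : ∑ R : Fin t → Λ, (∏ i, w (R i)) * A R ≤ (H.card * Real.exp (-(t / r))) * W ^ t := by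
    have e1 : ∑ R : Fin t → Λ, (∏ i, w (R i)) * A R =
        ∑ S ∈ H.filter (fun S => W / r < ∑ l ∈ S, w l), (W * (1 - p S)) ^ t := by
      simp only [A, Finset.mul_sum]
      rw [Finset.sum_comm]
      exact Finset.sum_congr rfl fun S _ => hmiss S
    rw [e1]
    calc ∑ S ∈ H.filter (fun S => W / r < ∑ l ∈ S, w l), (W * (1 - p S)) ^ t
        ≤ ∑ S ∈ H.filter (fun S => W / r < ∑ l ∈ S, w l), (Real.exp (-(t / r)) * W ^ t) := by
          refine Finset.sum_le_sum fun S hS => ?_
          rw [mul_pow, mul_comm]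
          refine mul_le_mul_of_nonneg_right ?_ (pow_nonneg hW.le _)
          have h2 : 1 / r < p S := by
            have := (Finset.mem_filter.1 hS).2
            rw [lt_div_iff₀ hW]
            calc 1 / r * W = W / r := by ring
              _ < _ := this
          have h3 : 1 - p S ≤ Real.exp (-(1 / r)) := by
            have := Real.add_one_le_exp (-(1 / r))
            linarith
          calc (1 - p S) ^ t ≤ Real.exp (-(1 / r)) ^ t :=
                pow_le_pow_left₀ (by linarith [hp1 S]) h3 t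
            _ = Real.exp (-(t / r)) := by
                rw [← Real.exp_nat_mul]; congr 1; ring
      _ = (H.filter (fun S => W / r < ∑ l ∈ S, w l)).card * (Real.exp (-(t / r)) * W ^ t) := by
          rw [Finset.sum_const, nsmul_eq_mul]
      _ ≤ H.card * (Real.exp (-(t / r)) * W ^ t) := by
          refine mul_le_mul_of_nonneg_right ?_ (by positivity)
          exact_mod_cast Finset.card_filter_le _ _
      _ = _ := by ring
  have hBavg : ∑ R : Fin t → Λ, (∏ i, w (R i)) * B R = 1 / 2 * W ^ t := by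
    have e1 : ∑ R : Fin t → Λ, (∏ i, w (R i)) * B R =
        ∑ S ∈ N, (W * (1 + p S)) ^ t / (2 * N.card * (1 + p S) ^ t) := by
      simp only [B, Finset.mul_sum]
      rw [Finset.sum_comm]
      refine Finset.sum_congr rfl fun S _ => ?_
      rw [← hhit S, Finset.sum_div]
      exact Finset.sum_congr rfl fun R _ => by ring
    rw [e1]
    have e2 : ∀ S ∈ N, (W * (1 + p S)) ^ t / (2 * N.card * (1 + p S) ^ t) =
        W ^ t / (2 * N.card) := by
      intro S _
      have : 0 < 1 + p S := by linarith [hp0 S]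
      rw [mul_pow]
      field_simp
    rw [Finset.sum_congr rfl e2, Finset.sum_const, nsmul_eq_mul]
    field_simp
  have hex : ∃ R : Fin t → Λ, A R + B R < 1 := by
    by_contra hcon
    push Not at hcon
    have h1 : W ^ t ≤ ∑ R : Fin t → Λ, (∏ i, w (R i)) * (A R + B R) := by
      rw [← hone]
      refine Finset.sum_le_sum fun R _ => ?_
      have h2 : 0 ≤ ∏ i, w (R i) := Finset.prod_nonneg fun i _ => (hw _).le
      nlinarith [hcon R]
    have h2 : ∑ R : Fin t → Λ, (∏ i, w (R i)) * (A R + B R) =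
        ∑ R : Fin t → Λ, (∏ i, w (R i)) * A R + ∑ R : Fin t → Λ, (∏ i, w (R i)) * B R := by
      rw [← Finset.sum_add_distrib]
      exact Finset.sum_congr rfl fun R _ => by ring
    have h3 : 0 < W ^ t := pow_pos hW t
    rw [h2, hBavg] at h1
    nlinarith [hAavg]
  obtain ⟨R, hR⟩ := hex
  refine ⟨R, ?_, ?_⟩
  · intro S hS hwS
    by_contra hcon
    push Not at hcon
    have h1 : (1 : ℝ) ≤ A R := by
      calc (1 : ℝ) = ∏ i, (if R i ∈ S then (0 : ℝ) else 1) := by
            rw [Finset.prod_eq_one fun i _ => by rw [if_neg (hcon i)]]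
        _ ≤ A R := Finset.single_le_sum
            (f := fun S => ∏ i, (if R i ∈ S then (0 : ℝ) else 1))
            (fun S _ => Finset.prod_nonneg fun i _ => by split_ifs <;> norm_num)
            (Finset.mem_filter.2 ⟨hS, hwS⟩)
    linarith [hB0 R]
  · intro S hS
    set k := (univ.filter (fun i => R i ∈ S)).card with hk
    have h1 : (∏ i, (if R i ∈ S then (2 : ℝ) else 1)) = 2 ^ k := by
      rw [Finset.prod_ite, Finset.prod_const, Finset.prod_const_one, mul_one]
    have h2 : (2 : ℝ) ^ k / (2 * N.card * (1 + p S) ^ t) ≤ B R := by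
      rw [← h1]
      exact Finset.single_le_sum
        (f := fun S => (∏ i, (if R i ∈ S then (2 : ℝ) else 1)) / (2 * N.card * (1 + p S) ^ t))
        (fun S _ => by
          refine div_nonneg (Finset.prod_nonneg fun i _ => by split_ifs <;> norm_num) ?_
          have := hp0 S
          positivity) hS
    have h3 : 0 < 1 + p S := by linarith [hp0 S]
    have h4 : (2 : ℝ) ^ k < 2 * N.card * (1 + p S) ^ t := by
      rw [← div_lt_one (by positivity)]
      linarith [hA0 R]
    have hl2 : 0 < Real.log 2 := Real.log_pos (by norm_num)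
    have h5 : (k : ℝ) * Real.log 2 ≤ Real.log (2 * N.card) + t * Real.log (1 + p S) := by
      have := Real.log_le_log (by positivity) h4.le
      rw [Real.log_pow, Real.log_mul (by positivity) (by positivity), Real.log_pow] at this
      exact this
    have h6 : Real.log (1 + p S) ≤ p S := by
      have := Real.log_le_sub_one_of_pos h3
      linarith
    have h7 : (t : ℝ) * Real.log (1 + p S) ≤ 2 * t * p S * Real.log 2 := by
      have h8 : (1 : ℝ) ≤ 2 * Real.log 2 := by
        have := Real.log_two_gt_d9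
        linarith
      have h9 : (0 : ℝ) ≤ t := Nat.cast_nonneg t
      calc (t : ℝ) * Real.log (1 + p S) ≤ t * p S := mul_le_mul_of_nonneg_left h6 h9
        _ ≤ t * p S * (2 * Real.log 2) := le_mul_of_one_le_right (mul_nonneg h9 (hp0 S)) h8
        _ = _ := by ring
    have h10 : (k : ℝ) * Real.log 2 ≤
        (Real.logb 2 (2 * N.card) + 2 * t * p S) * Real.log 2 := by
      rw [Real.logb, add_mul, div_mul_cancel₀ _ hl2.ne']
      linarith
    exact le_of_mul_le_mul_right h10 hl2

end Pool.Agent.H7.UB
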