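import Pool.Agent.H7.UB.CDefs

/-! # Module C3: pulling triangulations of simple polytopes -/

set_option autoImplicit false

namespace Pool.Agent.H7.UB

open Finset Matrix

namespace Pull

variable {d : ℕ} {I : Type} {u : I → Fin (d + 1) → ℝ} {c : I → ℝ} {e : Fin (d + 1) → ℝ}

/-- Leaving a bounded polyhedron along a ray. -/
theorem exit [Fintype I] (hb : Bornology.IsBounded (Poly u c e)) {x v : Fin (d + 1) → ℝ}
    (hx : x ∈ Poly u c e) (hv : v ≠ 0) (hev : e ⬝ᵥ v = 0) :
    ∃ t : ℝ, 0 ≤ t ∧ x + t • v ∈ Poly u c e ∧ ∃ i, u i ⬝ᵥ (x + t • v) = c i ∧ u i ⬝ᵥ v < 0 := by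
  classical
  have hN : (univ.filter (fun i => u i ⬝ᵥ v < 0)).Nonempty := by
    by_contra hN
    rw [Finset.not_nonempty_iff_eq_empty, Finset.filter_eq_empty_iff] at hN
    have hall : ∀ t : ℝ, 0 ≤ t → x + t • v ∈ Poly u c e := by
      intro t ht
      refine ⟨by rw [dotProduct_add, dotProduct_smul, hev, smul_zero, add_zero, hx.1], fun i => ?_⟩
      rw [dotProduct_add, dotProduct_smul, smul_eq_mul]
      have h1 := hN (mem_univ i)
      have h2 := hx.2 i
      have : 0 ≤ t * (u i ⬝ᵥ v) := mul_nonneg ht (not_lt.1 h1)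
      linarith
    obtain ⟨R, hR⟩ := hb.exists_norm_le
    have hvn : 0 < ‖v‖ := norm_pos_iff.2 hv
    have hR0 : 0 ≤ R := (norm_nonneg _).trans (hR x hx)
    have h1 := hR _ (hall ((R + ‖x‖ + 1) / ‖v‖) (by positivity))
    have h2 : ‖((R + ‖x‖ + 1) / ‖v‖) • v‖ = R + ‖x‖ + 1 := by
      rw [norm_smul, Real.norm_of_nonneg (by positivity)]
      field_simp
    have h3 : ‖((R + ‖x‖ + 1) / ‖v‖) • v‖ ≤ ‖x + ((R + ‖x‖ + 1) / ‖v‖) • v‖ + ‖x‖ := by
      have := norm_sub_le (x + ((R + ‖x‖ + 1) / ‖v‖) • v) x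
      rwa [add_sub_cancel_left] at this
    linarith
  obtain ⟨i, hi, hmin⟩ := Finset.exists_min_image _
    (fun i => (u i ⬝ᵥ x - c i) / (-(u i ⬝ᵥ v))) hN
  have hiv : u i ⬝ᵥ v < 0 := (Finset.mem_filter.1 hi).2
  refine ⟨(u i ⬝ᵥ x - c i) / (-(u i ⬝ᵥ v)), ?_, ⟨?_, ?_⟩, i, ?_, hiv⟩
  · exact div_nonneg (sub_nonneg.2 (hx.2 i)) (by linarith)
  · rw [dotProduct_add, dotProduct_smul, hev, smul_zero, add_zero, hx.1]
  · intro k
    rw [dotProduct_add, dotProduct_smul, smul_eq_mul]
    by_cases hk : u k ⬝ᵥ v < 0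
    · have h1 := hmin k (Finset.mem_filter.2 ⟨mem_univ k, hk⟩)
      rw [le_div_iff₀ (by linarith)] at h1
      linarith
    · have h1 : 0 ≤ (u i ⬝ᵥ x - c i) / (-(u i ⬝ᵥ v)) :=
        div_nonneg (sub_nonneg.2 (hx.2 i)) (by linarith)
      have h2 := mul_nonneg h1 (not_lt.1 hk)
      have h3 := hx.2 k
      linarith
  · rw [dotProduct_add, dotProduct_smul, smul_eq_mul]
    have : u i ⬝ᵥ v ≠ 0 := hiv.ne
    field_simp
    ring

/-- A set of constraints tight at a point has at most `d` members. -/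
theorem card_le (hg : Gen u c e) {J : Finset I} {x : Fin (d + 1) → ℝ} (hx : e ⬝ᵥ x = 1)
    (hJ : ∀ i ∈ J, u i ⬝ᵥ x = c i) : J.card ≤ d := by
  have h := (hg J ⟨x, hx, hJ⟩).fintype_card_le_finrank
  rw [Fintype.card_option, Fintype.card_coe, Module.finrank_fin_fun] at h
  omega

/-- Every set of constraints tight at a point of the polyhedron is contained in a basis. -/
theorem exists_bas [Fintype I] [DecidableEq I] (hg : Gen u c e)
    (hb : Bornology.IsBounded (Poly u c e)) {J : Finset I} {x : Fin (d + 1) → ℝ}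
    (hx : x ∈ Poly u c e) (hJ : ∀ i ∈ J, u i ⬝ᵥ x = c i) : ∃ J' ∈ Bas u c e, J ⊆ J' := by
  classical
  have hne : (univ.filter (fun T : Finset I => J ⊆ T ∧ ∃ y ∈ Poly u c e, ∀ i ∈ T,
      u i ⬝ᵥ y = c i)).Nonempty :=
    ⟨J, Finset.mem_filter.2 ⟨mem_univ _, subset_rfl, x, hx, hJ⟩⟩
  obtain ⟨T, hT, hmax⟩ := Finset.exists_max_image _ Finset.card hne
  obtain ⟨_, hJT, y, hy, hyT⟩ := Finset.mem_filter.1 hT
  have hcard := card_le hg hy.1 hyT
  refine ⟨T, ⟨?_, y, hy, hyT⟩, hJT⟩
  by_contra hne'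
  have hlt : T.card < d := lt_of_le_of_ne hcard hne'
  -- a direction
  have hex : ∃ v : Fin (d + 1) → ℝ, v ≠ 0 ∧ e ⬝ᵥ v = 0 ∧ ∀ i ∈ T, u i ⬝ᵥ v = 0 := by
    let φ : (Fin (d + 1) → ℝ) →ₗ[ℝ] (Option T → ℝ) :=
      { toFun := fun v o => (o.elim e (fun i => u i.1)) ⬝ᵥ v
        map_add' := fun v w => by funext o; simp [dotProduct_add]
        map_smul' := fun a v => by funext o; simp [dotProduct_smul] }
    have hker : LinearMap.ker φ ≠ ⊥ := by
      apply LinearMap.ker_ne_bot_of_finrank_lt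
      rw [Module.finrank_fin_fun, Module.finrank_fintype_fun_eq_card, Fintype.card_option,
        Fintype.card_coe]
      omega
    obtain ⟨v, hv, hv0⟩ := (Submodule.ne_bot_iff _).1 hker
    have hv' : φ v = 0 := hv
    exact ⟨v, hv0, congrFun hv' none, fun i hi => congrFun hv' (some ⟨i, hi⟩)⟩
  obtain ⟨v, hv0, hev, hvT⟩ := hex
  obtain ⟨t, _, ht, i, hi, hiv⟩ := exit hb hy hv0 hev
  have hiT : i ∉ T := fun h => by rw [hvT i h] at hiv; exact lt_irrefl _ hiv
  have h1 : insert i T ∈ univ.filter (fun T : Finset I => J ⊆ T ∧ ∃ y ∈ Poly u c e, ∀ i ∈ T,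
      u i ⬝ᵥ y = c i) := by
    refine Finset.mem_filter.2 ⟨mem_univ _, hJT.trans (Finset.subset_insert _ _), _, ht, ?_⟩
    intro k hk
    rcases Finset.mem_insert.1 hk with rfl | hk
    · exact hi
    · rw [dotProduct_add, dotProduct_smul, hvT k hk, smul_zero, add_zero, hyT k hk]
  have h2 := hmax _ h1
  rw [Finset.card_insert_of_notMem hiT] at h2
  omega

/-- The point of a basis is unique. -/
theorem unique (hg : Gen u c e) {J : Finset I} (hJ : J.card = d) {x y : Fin (d + 1) → ℝ}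
    (hx : e ⬝ᵥ x = 1) (hxJ : ∀ i ∈ J, u i ⬝ᵥ x = c i)
    (hy : e ⬝ᵥ y = 1) (hyJ : ∀ i ∈ J, u i ⬝ᵥ y = c i) : x = y := by
  have hli := hg J ⟨x, hx, hxJ⟩
  have hspan := hli.span_eq_top_of_card_eq_finrank'
    (by rw [Fintype.card_option, Fintype.card_coe, Module.finrank_fin_fun, hJ])
  have h0 : ∀ z ∈ Submodule.span ℝ (Set.range (fun o : Option J => o.elim e (fun i => u i.1))),
      z ⬝ᵥ (x - y) = 0 := by
    intro z hz
    induction hz using Submodule.span_induction with
    | mem z hz =>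
      obtain ⟨o, rfl⟩ := hz
      cases o with
      | none => show e ⬝ᵥ (x - y) = 0; rw [dotProduct_sub, hx, hy, sub_self]
      | some i =>
        show u i.1 ⬝ᵥ (x - y) = 0
        rw [dotProduct_sub, hxJ i.1 i.2, hyJ i.1 i.2, sub_self]
    | zero => exact zero_dotProduct _
    | add z w _ _ h1 h2 => rw [add_dotProduct, h1, h2, add_zero]
    | smul a z _ h => rw [smul_dotProduct, h, smul_zero]
  have h1 := h0 (x - y) (by rw [hspan]; trivial)
  exact sub_eq_zero.1 (dotProduct_self_eq_zero.1 h1)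

open Classical in
/-- A chosen basis containing a set. -/
noncomputable def bas (u : I → Fin (d + 1) → ℝ) (c : I → ℝ) (e : Fin (d + 1) → ℝ)
    (J : Finset I) : Finset I :=
  if h : ∃ J' ∈ Bas u c e, J ⊆ J' then h.choose else ∅

open Classical in
/-- A chosen point of a basis. -/
noncomputable def pt (u : I → Fin (d + 1) → ℝ) (c : I → ℝ) (e : Fin (d + 1) → ℝ)
    (J : Finset I) : Fin (d + 1) → ℝ :=
  if h : ∃ x ∈ Poly u c e, ∀ i ∈ J, u i ⬝ᵥ x = c i then h.choose else 0

theorem pt_spec {J : Finset I} (hJ : J ∈ Bas u c e) :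
    pt u c e J ∈ Poly u c e ∧ ∀ i ∈ J, u i ⬝ᵥ pt u c e J = c i := by
  have h := hJ.2
  rw [pt, dif_pos h]
  exact h.choose_spec

section

variable [Fintype I] [DecidableEq I]

theorem bas_spec (hg : Gen u c e) (hb : Bornology.IsBounded (Poly u c e)) {J : Finset I}
    {x : Fin (d + 1) → ℝ} (hx : x ∈ Poly u c e) (hJ : ∀ i ∈ J, u i ⬝ᵥ x = c i) :
    bas u c e J ∈ Bas u c e ∧ J ⊆ bas u c e J := by
  have h := exists_bas hg hb hx hJ
  rw [bas, dif_pos h]
  exact h.choose_spec

/-- One step of the decomposition. -/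
theorem step (hg : Gen u c e) (hb : Bornology.IsBounded (Poly u c e)) {J : Finset I}
    (hJd : J.card < d) {x : Fin (d + 1) → ℝ} (hx : x ∈ Poly u c e)
    (hJ : ∀ i ∈ J, u i ⬝ᵥ x = c i) :
    ∃ i ∉ J, ∃ x' ∈ Poly u c e, (∀ k ∈ insert i J, u k ⬝ᵥ x' = c k) ∧
      ∃ α β : ℝ, 0 ≤ α ∧ 0 ≤ β ∧ x = α • pt u c e (bas u c e J) + β • x' := by
  obtain ⟨hB, hJB⟩ := bas_spec hg hb hx hJ
  obtain ⟨hq, hqB⟩ := pt_spec hB
  set q := pt u c e (bas u c e J)
  by_cases hxq : x = q
  · have hex : ∃ i ∈ bas u c e J, i ∉ J := by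
      by_contra hno
      push Not at hno
      have h1 := Finset.card_le_card (show bas u c e J ⊆ J from hno)
      rw [hB.1] at h1
      omega
    obtain ⟨i, hi, hiJ⟩ := hex
    refine ⟨i, hiJ, x, hx, ?_, 0, 1, le_rfl, zero_le_one, by rw [zero_smul, one_smul, zero_add]⟩
    intro k hk
    rcases Finset.mem_insert.1 hk with rfl | hk
    · rw [hxq]; exact hqB _ hi
    · exact hJ k hk
  · have hv : x - q ≠ 0 := sub_ne_zero.2 hxq
    have hev : e ⬝ᵥ (x - q) = 0 := by rw [dotProduct_sub, hx.1, hq.1, sub_self]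
    obtain ⟨t, ht0, ht, i, hi, hiv⟩ := exit hb hq hv hev
    have hJv : ∀ k ∈ J, u k ⬝ᵥ (x - q) = 0 := fun k hk => by
      rw [dotProduct_sub, hJ k hk, hqB k (hJB hk), sub_self]
    have ht1 : 1 ≤ t := by
      have h1 := hx.2 i
      rw [dotProduct_add, dotProduct_smul, smul_eq_mul] at hi
      have h2 : u i ⬝ᵥ (x - q) = u i ⬝ᵥ x - u i ⬝ᵥ q := dotProduct_sub _ _ _
      nlinarith
    refine ⟨i, fun h => ?_, _, ht, ?_, 1 - 1 / t, 1 / t, ?_, by positivity, ?_⟩
    · rw [hJv i h] at hiv; exact lt_irrefl _ hiv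
    · intro k hk
      rcases Finset.mem_insert.1 hk with rfl | hk
      · exact hi
      · rw [dotProduct_add, dotProduct_smul, hJv k hk, smul_zero, add_zero, hqB k (hJB hk)]
    · rw [sub_nonneg, div_le_one (by linarith)]
      exact ht1
    · have ht' : t ≠ 0 := by linarith
      funext k
      simp only [Pi.add_apply, Pi.smul_apply, Pi.sub_apply, smul_eq_mul]
      field_simp
      ring

/-- The decomposition of a point. -/
theorem main (hg : Gen u c e) (hb : Bornology.IsBounded (Poly u c e)) (m : ℕ) :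
    ∀ (a : ℕ) (_ : a + m = d) (s : ℕ → I) (_ : Set.InjOn s (range a : Finset ℕ))
      (x : Fin (d + 1) → ℝ) (_ : x ∈ Poly u c e)
      (_ : ∀ i ∈ (range a).image s, u i ⬝ᵥ x = c i),
      ∃ s' : ℕ → I, (∀ k < a, s' k = s k) ∧ Set.InjOn s' (range d : Finset ℕ) ∧
        (∀ k ≤ d, ∃ y ∈ Poly u c e, ∀ i ∈ (range k).image s', u i ⬝ᵥ y = c i) ∧
        ∃ w : ℕ → ℝ, (∀ k, 0 ≤ w k) ∧
          x = ∑ k ∈ Ico a (d + 1), w k • pt u c e (bas u c e ((range k).image s')) := by
  induction m with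
  | zero =>
    intro a ha s hs x hx hxs
    have had : a = d := by omega
    subst had
    refine ⟨s, fun _ _ => rfl, hs, fun k hk => ⟨x, hx, fun i hi => hxs i
      (Finset.image_subset_image (Finset.range_subset_range.2 hk) hi)⟩, fun _ => 1,
      fun _ => zero_le_one, ?_⟩
    have hcard : ((range a).image s).card = a := by
      rw [Finset.card_image_of_injOn hs, card_range]
    obtain ⟨hB, hJB⟩ := bas_spec hg hb hx hxs
    have hEq : (range a).image s = bas u c e ((range a).image s) :=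
      Finset.eq_of_subset_of_card_le hJB (by rw [hB.1, hcard])
    obtain ⟨hq, hqB⟩ := pt_spec hB
    rw [Nat.Ico_succ_singleton, sum_singleton, one_smul]
    exact unique hg hcard hx.1 hxs hq.1 (fun i hi => hqB i (hJB hi))
  | succ m ih =>
    intro a ha s hs x hx hxs
    have hcard : ((range a).image s).card = a := by
      rw [Finset.card_image_of_injOn hs, card_range]
    obtain ⟨i, hi, x', hx', hx's, α, β, hα, hβ, hxx⟩ := step hg hb (J := (range a).image s)
      (by omega) hx hxs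
    have hagree : ∀ k < a, Function.update s a i k = s k := fun k hk =>
      Function.update_of_ne (by omega) _ _
    have himg : (range (a + 1)).image (Function.update s a i) = insert i ((range a).image s) := by
      rw [Finset.range_add_one, Finset.image_insert, Function.update_self]
      congr 1
      exact Finset.image_congr (fun k hk => hagree k (Finset.mem_range.1 hk))
    obtain ⟨s', h1, h2, h3, w, hw, hsum⟩ := ih (a + 1) (by omega) (Function.update s a i) (by
      intro k hk l hl hkl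
      rw [Finset.mem_coe, Finset.mem_range] at hk hl
      rcases Nat.lt_succ_iff_lt_or_eq.1 hk with hk | rfl <;>
        rcases Nat.lt_succ_iff_lt_or_eq.1 hl with hl | rfl
      · rw [hagree k hk, hagree l hl] at hkl
        exact hs (Finset.mem_coe.2 (Finset.mem_range.2 hk))
          (Finset.mem_coe.2 (Finset.mem_range.2 hl)) hkl
      · rw [hagree k hk, Function.update_self] at hkl
        exact absurd (Finset.mem_image.2 ⟨k, Finset.mem_range.2 hk, hkl⟩) hi
      · rw [hagree l hl, Function.update_self] at hkl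
        exact absurd (Finset.mem_image.2 ⟨l, Finset.mem_range.2 hl, hkl.symm⟩) hi
      · rfl) x' hx' (by rw [himg]; exact hx's)
    have hs' : ∀ k < a, s' k = s k := fun k hk => (h1 k (by omega)).trans (hagree k hk)
    have himg' : (range a).image s' = (range a).image s :=
      Finset.image_congr (fun k hk => hs' k (Finset.mem_range.1 hk))
    refine ⟨s', hs', h2, h3, fun k => if k = a then α else β * w k, fun k => ?_, ?_⟩
    · dsimp only
      split_ifs
      · exact hα
      · exact mul_nonneg hβ (hw k)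
    · rw [Finset.sum_eq_sum_Ico_succ_bot (by omega)]
      dsimp only
      rw [if_pos rfl, himg', hxx, hsum, Finset.smul_sum]
      congr 1
      refine Finset.sum_congr rfl (fun k hk => ?_)
      have : k ≠ a := by
        have := (Finset.mem_Ico.1 hk).1
        omega
      rw [if_neg this, smul_smul]

end

end Pull

/-- (C3) Pulling triangulation of a simple polytope. -/
theorem pulling {d : ℕ} (hd : 1 ≤ d) {I : Type} [Fintype I] [DecidableEq I]
    (u : I → Fin (d + 1) → ℝ) (c : I → ℝ) (e : Fin (d + 1) → ℝ) (hg : Gen u c e)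
    (hb : Bornology.IsBounded (Poly u c e)) :
    ∃ F : (Fin d → I) → Fin (d + 1) → Finset I,
      ∀ x ∈ Poly u c e, ∃ s : Fin d → I, Function.Injective s ∧ univ.image s ∈ Bas u c e ∧
        (∀ a, F s a ∈ Bas u c e) ∧
        ∃ p : Fin (d + 1) → Fin (d + 1) → ℝ,
          (∀ a, p a ∈ Poly u c e ∧ ∀ i ∈ F s a, u i ⬝ᵥ p a = c i) ∧
          ∃ w : Fin (d + 1) → ℝ, (∀ a, 0 ≤ w a) ∧ x = ∑ a, w a • p a := by
  classical
  refine ⟨fun s a => Pull.bas u c e ((univ.filter (fun k : Fin d => k.1 < a.1)).image s),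
    fun x hx => ?_⟩
  obtain ⟨J', hJ', _⟩ := Pull.exists_bas hg hb (J := ∅) hx (by simp)
  have hne : J'.Nonempty := by
    rw [← Finset.card_pos, hJ'.1]
    exact hd
  obtain ⟨i0, _⟩ := hne
  obtain ⟨s', _, hinj, htight, w, hw, hsum⟩ := Pull.main hg hb d 0 (by omega) (fun _ => i0)
    (by simp) x hx (by simp)
  have himg : ∀ a : ℕ, a ≤ d → (univ.filter (fun k : Fin d => k.1 < a)).image
      (fun k : Fin d => s' k.1) = (range a).image s' := by
    intro a ha
    ext i
    simp only [Finset.mem_image, Finset.mem_filter, Finset.mem_univ, true_and, Finset.mem_range]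
    constructor
    · rintro ⟨k, hk, rfl⟩
      exact ⟨k.1, hk, rfl⟩
    · rintro ⟨k, hk, rfl⟩
      exact ⟨⟨k, by omega⟩, hk, rfl⟩
  have hbas : ∀ a : Fin (d + 1), Pull.bas u c e ((univ.filter (fun k : Fin d => k.1 < a.1)).image
      (fun k : Fin d => s' k.1)) ∈ Bas u c e := by
    intro a
    rw [himg a.1 (by omega)]
    obtain ⟨y, hy, hyt⟩ := htight a.1 (by omega)
    exact (Pull.bas_spec hg hb hy hyt).1
  refine ⟨fun k => s' k.1, ?_, ?_, hbas, fun a => Pull.pt u c e (Pull.bas u c e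
    ((univ.filter (fun k : Fin d => k.1 < a.1)).image (fun k : Fin d => s' k.1))),
    fun a => Pull.pt_spec (hbas a), fun a => w a.1, fun a => hw _, ?_⟩
  · intro k l hkl
    exact Fin.ext (hinj (by simp) (by simp) hkl)
  · have h1 : univ.image (fun k : Fin d => s' k.1) = (range d).image s' := by
      rw [← himg d le_rfl]
      congr 1
      ext k
      simp
    rw [h1]
    obtain ⟨y, hy, hyt⟩ := htight d le_rfl
    exact ⟨by rw [Finset.card_image_of_injOn hinj, card_range], y, hy, hyt⟩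
  · rw [hsum, ← Finset.range_eq_Ico, Finset.sum_range]
    refine Finset.sum_congr rfl (fun a _ => ?_)
    dsimp only
    rw [himg a.1 (by omega)]

end Pool.Agent.H7.UB
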