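import Pool.Agent.H7.UB.Defs

/-! Module T: equal chirotopes have equal covectors. -/

set_option autoImplicit false

namespace Pool.Agent.H7.UB

open Finset Matrix

theorem T_sg_add {a b a' b' : ℝ} (ha : sg a = sg a') (hb : sg b = sg b')
    (h : (0 ≤ a ∧ 0 ≤ b) ∨ (a ≤ 0 ∧ b ≤ 0)) : sg (a + b) = sg (a' + b') := by
  have key : ∀ {u v : ℝ}, sg u = sg v → (u = 0 ↔ v = 0) ∧ (0 < u ↔ 0 < v) ∧ (u < 0 ↔ v < 0) := by
    intro u v huv
    rcases lt_trichotomy u 0 with hu | hu | hu <;> rcases lt_trichotomy v 0 with hv | hv | hv <;>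
      simp_all [sg, sign_pos, sign_neg, ne_of_gt, ne_of_lt, not_lt_of_gt]
  obtain ⟨a0, ap, an⟩ := key ha
  obtain ⟨b0, bp, bn⟩ := key hb
  rcases h with ⟨h1, h2⟩ | ⟨h1, h2⟩
  · rcases h1.eq_or_lt with h1 | h1
    · rw [← h1, a0.1 h1.symm, zero_add, zero_add]; exact hb
    · rcases h2.eq_or_lt with h2 | h2
      · rw [← h2, b0.1 h2.symm, add_zero, add_zero]; exact ha
      · have := ap.1 h1
        have := bp.1 h2
        simp only [sg]
        rw [sign_pos (by linarith), sign_pos (by linarith)]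
  · rcases h1.eq_or_lt with h1 | h1
    · rw [h1, a0.1 h1, zero_add, zero_add]; exact hb
    · rcases h2.eq_or_lt with h2 | h2
      · rw [h2, b0.1 h2, add_zero, add_zero]; exact ha
      · have := an.1 h1
        have := bn.1 h2
        simp only [sg]
        rw [sign_neg (by linarith), sign_neg (by linarith)]

/-- Expansion of the determinant along a replaced row. -/
theorem T_updateRow {k : ℕ} (A : Matrix (Fin k) (Fin k) ℝ) (i : Fin k) (z : Fin k → ℝ) :
    (A.updateRow i z).det = z ⬝ᵥ (fun j => A.adjugate j i) := by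
  rw [Matrix.det_eq_sum_mul_adjugate_row _ i]
  simp only [dotProduct, Matrix.adjugate_apply, Matrix.updateRow_self, Matrix.updateRow_idem]

/-- Vertex vectors are transferred. -/
theorem T_vertex {d : ℕ} {Λ : Type} [Fintype Λ] (y y' : Λ → Fin (d + 1) → ℝ)
    (h : ∀ f : Fin (d + 1) → Λ, sg (Matrix.det (Matrix.of (fun i => y (f i)))) =
      sg (Matrix.det (Matrix.of (fun i => y' (f i)))))
    (x : Fin (d + 1) → ℝ) (l₀ : Λ) (hl₀ : y l₀ ⬝ᵥ x ≠ 0)
    (hx : ∀ w, (∀ l, y l ⬝ᵥ x = 0 → y l ⬝ᵥ w = 0) → ∃ c : ℝ, w = c • x) :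
    ∃ x' : Fin (d + 1) → ℝ, ∀ l, sg (y l ⬝ᵥ x) = sg (y' l ⬝ᵥ x') := by
  classical
  have hx0 : x ≠ 0 := by
    rintro rfl
    simp at hl₀
  -- a basis among the zeros and l₀
  let S := {l : Λ // y l ⬝ᵥ x = 0 ∨ l = l₀}
  let v : S → Fin (d + 1) → ℝ := fun l => y l.1
  have hsp : Submodule.span ℝ (Set.range v) = ⊤ := by
    by_contra hne
    obtain ⟨φ, hφ, hker⟩ := Submodule.exists_le_ker_of_lt_top _ (lt_top_iff_ne_top.2 hne)
    let w : Fin (d + 1) → ℝ := fun j => φ (Pi.single j 1)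
    have hw : ∀ z, φ z = z ⬝ᵥ w := by
      intro z
      rw [LinearMap.pi_apply_eq_sum_univ φ z]
      simp only [dotProduct, w, smul_eq_mul]
      refine Finset.sum_congr rfl fun j _ => ?_
      congr 2
      ext i
      by_cases hij : i = j
      · subst hij; simp
      · rw [Pi.single_eq_of_ne hij, if_neg (fun h => hij h.symm)]
    have hz : ∀ l : S, y l.1 ⬝ᵥ w = 0 := fun l => by
      rw [← hw]
      exact LinearMap.mem_ker.1 (hker (Submodule.subset_span ⟨l, rfl⟩))
    obtain ⟨c, hc⟩ := hx w (fun l hl => hz ⟨l, Or.inl hl⟩)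
    have h1 := hz ⟨l₀, Or.inr rfl⟩
    rw [hc, dotProduct_smul, smul_eq_mul] at h1
    rcases mul_eq_zero.1 h1 with h1 | h1
    · apply hφ
      ext j
      rw [h1, zero_smul] at hc
      have := congrFun hc j
      simp only [w, Pi.zero_apply] at this
      simp only [LinearMap.coe_comp, LinearMap.coe_single, Function.comp_apply, this,
        LinearMap.zero_apply]
    · exact hl₀ h1
  obtain ⟨κ, a, ha, hsa, hli⟩ := exists_linearIndependent' ℝ v
  rw [hsp] at hsa
  let B : Module.Basis κ ℝ (Fin (d + 1) → ℝ) := Module.Basis.mk hli hsa.ge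
  have : Finite κ := Module.Finite.finite_basis B
  have : Fintype κ := Fintype.ofFinite κ
  have hcard : Fintype.card κ = d + 1 := by
    rw [← Module.finrank_eq_card_basis B]; simp
  let e : Fin (d + 1) ≃ κ := (Fintype.equivFinOfCardEq hcard).symm
  let f : Fin (d + 1) → Λ := fun i => (a (e i)).1
  have hf : Function.Injective f := fun i j hij => e.injective (ha (Subtype.ext hij))
  have hfS : ∀ i, y (f i) ⬝ᵥ x = 0 ∨ f i = l₀ := fun i => (a (e i)).2
  let A : Matrix (Fin (d + 1)) (Fin (d + 1)) ℝ := Matrix.of (fun i => y (f i))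
  have hA : A.det ≠ 0 := by
    have h1 : LinearIndependent ℝ (fun i => A i) := hli.comp e e.injective
    have h2 := (Matrix.linearIndependent_rows_iff_isUnit (A := A)).1 h1
    exact ((Matrix.isUnit_iff_isUnit_det A).1 h2).ne_zero
  have hi₀ : ∃ i₀, f i₀ = l₀ := by
    by_contra hne
    push Not at hne
    apply hx0
    apply Matrix.eq_zero_of_mulVec_eq_zero hA
    ext i
    exact (hfS i).resolve_right (hne i)
  obtain ⟨i₀, hi₀⟩ := hi₀
  have hzero : ∀ i, i ≠ i₀ → y (f i) ⬝ᵥ x = 0 := fun i hi =>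
    (hfS i).resolve_right (fun h' => hi (hf (h'.trans hi₀.symm)))
  -- the cofactor vectors
  let A' : Matrix (Fin (d + 1)) (Fin (d + 1)) ℝ := Matrix.of (fun i => y' (f i))
  let u : Fin (d + 1) → ℝ := fun j => A.adjugate j i₀
  let u' : Fin (d + 1) → ℝ := fun j => A'.adjugate j i₀
  have hu : ∀ l, sg (y l ⬝ᵥ u) = sg (y' l ⬝ᵥ u') := by
    intro l
    rw [← T_updateRow, ← T_updateRow]
    have e1 : A.updateRow i₀ (y l) = Matrix.of (fun i => y (Function.update f i₀ l i)) := by
      ext i j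
      by_cases hi : i = i₀
      · subst hi; simp
      · simp [Matrix.updateRow_ne hi, Function.update_of_ne hi, A]
    have e2 : A'.updateRow i₀ (y' l) = Matrix.of (fun i => y' (Function.update f i₀ l i)) := by
      ext i j
      by_cases hi : i = i₀
      · subst hi; simp
      · simp [Matrix.updateRow_ne hi, Function.update_of_ne hi, A']
    rw [e1, e2]
    exact h _
  have hux : (y l₀ ⬝ᵥ x) • u = A.det • x := by
    rw [← sub_eq_zero]
    apply Matrix.eq_zero_of_mulVec_eq_zero hA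
    have h1 : A *ᵥ u = A.det • (Pi.single i₀ 1 : Fin (d + 1) → ℝ) := by
      ext i
      have := congrFun (congrFun (Matrix.mul_adjugate A) i) i₀
      rw [Matrix.mul_apply] at this
      change ∑ j, A i j * A.adjugate j i₀ = _
      rw [this]
      by_cases hi : i = i₀
      · subst hi; simp
      · simp [Matrix.one_apply_ne hi, Pi.single_eq_of_ne hi]
    have h2 : A *ᵥ x = (y l₀ ⬝ᵥ x) • (Pi.single i₀ 1 : Fin (d + 1) → ℝ) := by
      ext i
      change y (f i) ⬝ᵥ x = _
      by_cases hi : i = i₀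
      · subst hi; rw [hi₀]; simp
      · rw [hzero i hi]; simp [Pi.single_eq_of_ne hi]
    rw [Matrix.mulVec_sub, Matrix.mulVec_smul, Matrix.mulVec_smul, h1, h2, smul_smul, smul_smul,
      mul_comm, sub_self]
  have hsc : ∀ l, y l ⬝ᵥ x = ((y l₀ ⬝ᵥ x) * A.det⁻¹) * (y l ⬝ᵥ u) := by
    intro l
    have : x = ((y l₀ ⬝ᵥ x) * A.det⁻¹) • u := by
      rw [mul_comm, ← smul_smul, hux, smul_smul, inv_mul_cancel₀ hA, one_smul]
    conv_lhs => rw [this]
    rw [dotProduct_smul, smul_eq_mul]
  refine ⟨((y l₀ ⬝ᵥ x) * A.det⁻¹) • u', fun l => ?_⟩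
  rw [hsc l, dotProduct_smul, smul_eq_mul]
  simp only [sg]
  rw [sign_mul _ (y l ⬝ᵥ u), sign_mul _ (y' l ⬝ᵥ u')]
  congr 1
  exact hu l

/-- (T) Equal chirotopes have equal covectors. -/
theorem transfer {d : ℕ} {Λ : Type} [Fintype Λ] (y y' : Λ → Fin (d + 1) → ℝ)
    (hspan : Submodule.span ℝ (Set.range y) = ⊤)
    (h : ∀ f : Fin (d + 1) → Λ, sg (Matrix.det (Matrix.of (fun i => y (f i)))) =
      sg (Matrix.det (Matrix.of (fun i => y' (f i)))))
    (x : Fin (d + 1) → ℝ) :
    ∃ x' : Fin (d + 1) → ℝ, ∀ l, sg (y l ⬝ᵥ x) = sg (y' l ⬝ᵥ x') := by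
  classical
  have hz : ∀ w : Fin (d + 1) → ℝ, (∀ l, y l ⬝ᵥ w = 0) → w = 0 := by
    intro w hw
    have h1 : ∀ z : Fin (d + 1) → ℝ, z ⬝ᵥ w = 0 := by
      intro z
      have hz : z ∈ Submodule.span ℝ (Set.range y) := by rw [hspan]; trivial
      induction hz using Submodule.span_induction with
      | mem z hz => obtain ⟨l, rfl⟩ := hz; exact hw l
      | zero => simp
      | add a b _ _ ha hb => rw [add_dotProduct, ha, hb, add_zero]
      | smul c a _ ha => rw [smul_dotProduct, ha, smul_zero]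
    exact dotProduct_self_eq_zero.1 (h1 w)
  induction hn : (univ.filter (fun l => y l ⬝ᵥ x ≠ 0)).card using Nat.strong_induction_on
    generalizing x with
  | _ n ih =>
    by_cases hx0 : x = 0
    · subst hx0
      exact ⟨0, fun l => by simp⟩
    by_cases hx : ∀ w, (∀ l, y l ⬝ᵥ x = 0 → y l ⬝ᵥ w = 0) → ∃ c : ℝ, w = c • x
    · have : ∃ l₀, y l₀ ⬝ᵥ x ≠ 0 := by
        by_contra hne
        push Not at hne
        exact hx0 (hz x hne)
      obtain ⟨l₀, hl₀⟩ := this
      exact T_vertex y y' h x l₀ hl₀ hx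
    · push Not at hx
      obtain ⟨w, hw, hwc⟩ := hx
      have hne : (univ.filter (fun l => y l ⬝ᵥ x ≠ 0)).Nonempty := by
        by_contra hne
        rw [Finset.not_nonempty_iff_eq_empty] at hne
        apply hx0
        apply hz x
        intro l
        by_contra hl
        have : l ∈ univ.filter (fun l => y l ⬝ᵥ x ≠ 0) := by simp [hl]
        rw [hne] at this
        simp at this
      obtain ⟨p, hp, hpmax⟩ := Finset.exists_max_image _ (fun l => (y l ⬝ᵥ w) / (y l ⬝ᵥ x)) hne
      obtain ⟨q, hq, hqmin⟩ := Finset.exists_min_image _ (fun l => (y l ⬝ᵥ w) / (y l ⬝ᵥ x)) hne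
      simp only [mem_filter, mem_univ, true_and] at hp hq hpmax hqmin
      set M : ℝ := (y p ⬝ᵥ w) / (y p ⬝ᵥ x) with hM
      set m : ℝ := (y q ⬝ᵥ w) / (y q ⬝ᵥ x) with hm
      have e1 : ∀ l, y l ⬝ᵥ (M • x - w) = M * (y l ⬝ᵥ x) - y l ⬝ᵥ w := by
        intro l; rw [dotProduct_sub, dotProduct_smul, smul_eq_mul]
      have e2 : ∀ l, y l ⬝ᵥ (w - m • x) = y l ⬝ᵥ w - m * (y l ⬝ᵥ x) := by
        intro l; rw [dotProduct_sub, dotProduct_smul, smul_eq_mul]
      have sub1 : ∀ l, y l ⬝ᵥ x = 0 → y l ⬝ᵥ (M • x - w) = 0 := by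
        intro l hl; rw [e1, hl, hw l hl]; ring
      have sub2 : ∀ l, y l ⬝ᵥ x = 0 → y l ⬝ᵥ (w - m • x) = 0 := by
        intro l hl; rw [e2, hl, hw l hl]; ring
      have c1 : (univ.filter (fun l => y l ⬝ᵥ (M • x - w) ≠ 0)).card < n := by
        rw [← hn]
        apply Finset.card_lt_card
        refine ⟨fun l hl => ?_, fun hsub => ?_⟩
        · simp only [mem_filter, mem_univ, true_and] at hl ⊢
          exact fun h' => hl (sub1 l h')
        · have : p ∈ univ.filter (fun l => y l ⬝ᵥ (M • x - w) ≠ 0) := hsub (by simp [hp])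
          simp only [mem_filter, mem_univ, true_and] at this
          apply this
          rw [e1, hM]
          field_simp
          ring
      have c2 : (univ.filter (fun l => y l ⬝ᵥ (w - m • x) ≠ 0)).card < n := by
        rw [← hn]
        apply Finset.card_lt_card
        refine ⟨fun l hl => ?_, fun hsub => ?_⟩
        · simp only [mem_filter, mem_univ, true_and] at hl ⊢
          exact fun h' => hl (sub2 l h')
        · have : q ∈ univ.filter (fun l => y l ⬝ᵥ (w - m • x) ≠ 0) := hsub (by simp [hq])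
          simp only [mem_filter, mem_univ, true_and] at this
          apply this
          rw [e2, hm]
          field_simp
          ring
      obtain ⟨b1, hb1⟩ := ih _ c1 (M • x - w) rfl
      obtain ⟨b2, hb2⟩ := ih _ c2 (w - m • x) rfl
      have hmM : m < M := by
        rcases lt_or_ge m M with h' | h'
        · exact h'
        · exfalso
          have h1 := hpmax q hq
          have h2 : m = M := le_antisymm h1 h'
          apply hwc M
          rw [← sub_eq_zero]
          apply hz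
          intro l
          rw [dotProduct_sub, dotProduct_smul, smul_eq_mul]
          by_cases hl : y l ⬝ᵥ x = 0
          · rw [hw l hl, hl]; ring
          · have h3 : (y l ⬝ᵥ w) / (y l ⬝ᵥ x) = M := le_antisymm (hpmax l hl) (h2 ▸ hqmin l hl)
            rw [← h3]; field_simp; ring
      refine ⟨b1 + b2, fun l => ?_⟩
      have hsum : y l ⬝ᵥ (M • x - w) + y l ⬝ᵥ (w - m • x) = (M - m) * (y l ⬝ᵥ x) := by
        rw [e1, e2]; ring
      have hs : sg (y l ⬝ᵥ x) = sg (y l ⬝ᵥ (M • x - w) + y l ⬝ᵥ (w - m • x)) := by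
        rw [hsum]
        simp only [sg]
        rw [sign_mul, sign_pos (sub_pos.2 hmM), one_mul]
      rw [hs, dotProduct_add]
      apply T_sg_add (hb1 l) (hb2 l)
      by_cases hl : y l ⬝ᵥ x = 0
      · left
        rw [sub1 l hl, sub2 l hl]; simp
      · have h1 := hpmax l hl
        have h2 := hqmin l hl
        have f1 : y l ⬝ᵥ (M • x - w) = (M - (y l ⬝ᵥ w) / (y l ⬝ᵥ x)) * (y l ⬝ᵥ x) := by
          rw [e1]; field_simp
        have f2 : y l ⬝ᵥ (w - m • x) = ((y l ⬝ᵥ w) / (y l ⬝ᵥ x) - m) * (y l ⬝ᵥ x) := by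
          rw [e2]; field_simp
        rw [f1, f2]
        rcases lt_or_gt_of_ne hl with h3 | h3
        · right
          exact ⟨mul_nonpos_of_nonneg_of_nonpos (sub_nonneg.2 h1) h3.le,
            mul_nonpos_of_nonneg_of_nonpos (sub_nonneg.2 h2) h3.le⟩
        · left
          exact ⟨mul_nonneg (sub_nonneg.2 h1) h3.le, mul_nonneg (sub_nonneg.2 h2) h3.le⟩

end Pool.Agent.H7.UB
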