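import Pool.Agent.H7.UB.A2
import Pool.Agent.H7.UB.CR
import Pool.Agent.H7.UB.T
import Pool.Agent.H7.UB.G
import Pool.Agent.H7.UB.Net
import Pool.Agent.H7.UB.C1
import Pool.Agent.H7.UB.C5
import Pool.Agent.H7.UB.Pulling
import Pool.Agent.H7.UB.LowLevel

/-! The tools. -/

set_option autoImplicit false

namespace Pool.Agent.H7.UB

open Finset Matrix

/-- (C) Low level cover of an arrangement by simplicial cones. -/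
theorem cover (d : ℕ) (hd : 1 ≤ d) : ∃ C : ℕ, ∀ (I : Type) [Fintype I] [DecidableEq I]
    (y : I → Fin (d + 1) → ℝ) (β : Fin (d + 1) → Fin (d + 1) → ℝ) (_ : LinearIndependent ℝ β)
    (g : Fin (d + 1) → ℝ) (_ : ∀ i, 0 < y i ⬝ᵥ g) (_ : ∀ l, 0 < β l ⬝ᵥ g) (j : ℕ),
    ∃ G : Finset (Fin (d + 1) → (Fin d → I ⊕ Fin (d + 1)) × Bool),
      G.card ≤ C * (Fintype.card I + 1) ^ (d / 2) * (j + 1) ^ d ∧
      (∀ Δ ∈ G, LinearIndependent ℝ (fun a => cvec y β (Δ a)) ∧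
        (∀ a l, 0 ≤ β l ⬝ᵥ cvec y β (Δ a)) ∧
        (∀ i, (∀ a, 0 ≤ y i ⬝ᵥ cvec y β (Δ a)) ∨ (∀ a, y i ⬝ᵥ cvec y β (Δ a) ≤ 0)) ∧
        (univ.filter (fun i => ∃ a, y i ⬝ᵥ cvec y β (Δ a) < 0)).card ≤ j) ∧
      ∀ x : Fin (d + 1) → ℝ, (∀ l, 0 ≤ β l ⬝ᵥ x) →
        (univ.filter (fun i => y i ⬝ᵥ x < 0)).card ≤ j →
        ∃ Δ ∈ G, ∃ c : Fin (d + 1) → ℝ, (∀ a, 0 ≤ c a) ∧ x = ∑ a, c a • cvec y β (Δ a) :=
  cover_of (fun _ _ _ z e he ε hε => exists_gen z e he ε hε)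
    (fun _ hd _ _ _ u c e hg hb => pulling hd u c e hg hb) (fun d hd => low_level d hd) d hd

end Pool.Agent.H7.UB
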