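import Pool.Agent.H7.UB.Univ
import Pool.Agent.H7.UB.Tools

/-! # MAIN, part 1: transfer between samples with the same chirotope -/

set_option autoImplicit false
set_option linter.unusedSectionVars false

namespace Pool.Agent.H7.UB

open Finset Matrix

variable {d n : ℕ}

/-- Embedding of the labels of level 1 and the box. -/
def e1 (s : L1 d n ⊕ Fin (d + 1)) : U d n :=
  Sum.elim (fun p => Sum.inr (Sum.inl p))
    (fun l => Sum.inr (Sum.inr (Sum.inr (Sum.inr (Sum.inr l))))) s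

theorem vU_e1 {R : Type*} [CommRing R] (X : Fin n → Fin (d + 1) → R)
    (s : L1 d n ⊕ Fin (d + 1)) : vU X (e1 s) = Sum.elim (v1 X) box s := by
  cases s <;> rfl

theorem v1_eq {R : Type*} [CommRing R] (X : Fin n → Fin (d + 1) → R) (p : L1 d n) :
    v1 X p = sgn p.2 (cross (fun a => vU X (Sum.inl (p.1 a)))) := rfl

theorem v2_eq {R : Type*} [CommRing R] (X : Fin n → Fin (d + 1) → R) (p : L2 d n) :
    v2 X p = sgn p.2 (cross (fun a => vU X (e1 (p.1 a)))) := by
  unfold v2 cvec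
  simp only [vU_e1]

theorem v3_eq {R : Type*} [CommRing R] (X : Fin n → Fin (d + 1) → R) (p : L3 d n) :
    v3 X p = cross (fun a => vU X (Sum.inr (Sum.inr (Sum.inl (p a))))) := rfl

theorem v2'_eq {R : Type*} [CommRing R] (X : Fin n → Fin (d + 1) → R) (p : L2' d n) :
    v2' X p = cross (fun a => vU X (Sum.inr (Sum.inl (p a)))) := rfl

theorem chi_apply {X X₀ : Fin n → Fin (d + 1) → ℝ} (h : chi X = chi X₀)
    (f : Fin (d + 1) → U d n) : sg (Matrix.det (Matrix.of (fun i => vU X (f i)))) =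
      sg (Matrix.det (Matrix.of (fun i => vU X₀ (f i)))) := congrFun h f

theorem sgn_dot (b : Bool) (u x : Fin (d + 1) → ℝ) :
    sg (sgn b u ⬝ᵥ x) = if b then sg (u ⬝ᵥ x) else -sg (u ⬝ᵥ x) := by
  cases b
  · simp [sgn, neg_dotProduct, Left.sign_neg]
  · simp [sgn]

/-- Signs of pairings of a cross product with a vector. -/
theorem sg_key {X X₀ : Fin n → Fin (d + 1) → ℝ} (h : chi X = chi X₀) (b : Bool)
    (c : Fin d → U d n) (z : U d n) :
    sg (sgn b (cross (fun a => vU X (c a))) ⬝ᵥ vU X z) =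
      sg (sgn b (cross (fun a => vU X₀ (c a))) ⬝ᵥ vU X₀ z) := by
  rw [sgn_dot, sgn_dot, cross_dot, cross_dot]
  have e : ∀ Y : Fin n → Fin (d + 1) → ℝ,
      (Fin.cons (vU Y z) (fun a => vU Y (c a)) : Fin (d + 1) → Fin (d + 1) → ℝ) =
        fun i => vU Y ((Fin.cons z c : Fin (d + 1) → U d n) i) := by
    intro Y
    funext i
    refine Fin.cases ?_ (fun a => ?_) i
    · rfl
    · rfl
  rw [e X, e X₀, chi_apply h]

/-- `v1` against the sample and the basis. -/
theorem sg_v1_v0 {X X₀ : Fin n → Fin (d + 1) → ℝ} (h : chi X = chi X₀) (p : L1 d n)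
    (q : L0 d n) : sg (v1 X p ⬝ᵥ v0 X q) = sg (v1 X₀ p ⬝ᵥ v0 X₀ q) := by
  rw [v1_eq, v1_eq]
  exact sg_key h p.2 _ (Sum.inl q)

/-- `v1` and box against `v2`. -/
theorem sg_v2_e1 {X X₀ : Fin n → Fin (d + 1) → ℝ} (h : chi X = chi X₀) (p : L2 d n)
    (q : L1 d n ⊕ Fin (d + 1)) :
    sg (v2 X p ⬝ᵥ Sum.elim (v1 X) box q) = sg (v2 X₀ p ⬝ᵥ Sum.elim (v1 X₀) box q) := by
  rw [v2_eq, v2_eq, ← vU_e1, ← vU_e1]
  exact sg_key h p.2 _ (e1 q)

theorem span_stdb : Submodule.span ℝ (Set.range (stdb : Fin (d + 1) → Fin (d + 1) → ℝ)) = ⊤ := by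
  have h := (Pi.basisFun ℝ (Fin (d + 1))).span_eq
  have e : (⇑(Pi.basisFun ℝ (Fin (d + 1)))) = (stdb : Fin (d + 1) → Fin (d + 1) → ℝ) := by
    funext i
    simp [stdb]
  rwa [e] at h

theorem linearIndependent_stdb :
    LinearIndependent ℝ (stdb : Fin (d + 1) → Fin (d + 1) → ℝ) := by
  have h := (Pi.basisFun ℝ (Fin (d + 1))).linearIndependent
  have e : (⇑(Pi.basisFun ℝ (Fin (d + 1)))) = (stdb : Fin (d + 1) → Fin (d + 1) → ℝ) := by
    funext i
    simp [stdb]
  rwa [e] at h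

theorem span_of_range {A : Type} (u : A → Fin (d + 1) → ℝ) (f : Fin (d + 1) → A)
    (hf : ∀ l, u (f l) = stdb l) : Submodule.span ℝ (Set.range u) = ⊤ := by
  rw [eq_top_iff, ← span_stdb]
  refine Submodule.span_mono ?_
  rintro _ ⟨l, rfl⟩
  exact ⟨f l, hf l⟩

/-- Transfer in the space of functionals. -/
theorem transfer_h {X X₀ : Fin n → Fin (d + 1) → ℝ} (hchi : chi X = chi X₀)
    (h : Fin (d + 1) → ℝ) : ∃ h₀ : Fin (d + 1) → ℝ,
      (∀ q, sg (v0 X q ⬝ᵥ h) = sg (v0 X₀ q ⬝ᵥ h₀)) ∧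
      (∀ q, sg (v2' X q ⬝ᵥ h) = sg (v2' X₀ q ⬝ᵥ h₀)) := by
  obtain ⟨h₀, hh⟩ := transfer (Λ := L0 d n ⊕ L2' d n) (Sum.elim (v0 X) (v2' X))
    (Sum.elim (v0 X₀) (v2' X₀)) (span_of_range _ (fun l => Sum.inl (Sum.inr l)) (fun l => rfl))
    (fun f => by
      have e : ∀ Y : Fin n → Fin (d + 1) → ℝ, (fun i => Sum.elim (v0 Y) (v2' Y) (f i)) =
          fun i => vU Y (Sum.elim (fun q => Sum.inl q)
            (fun q => Sum.inr (Sum.inr (Sum.inr (Sum.inr (Sum.inl q))))) (f i)) := by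
        intro Y
        funext i
        cases f i <;> rfl
      rw [e X, e X₀]
      exact chi_apply hchi _) h
  exact ⟨h₀, fun q => hh (Sum.inl q), fun q => hh (Sum.inr q)⟩

/-- The box functionals span. -/
theorem linearIndependent_box :
    LinearIndependent ℝ (box : Fin (d + 1) → Fin (d + 1) → ℝ) := by
  rw [Fintype.linearIndependent_iff]
  intro g hg i
  have h1 : ∀ j, g j + ∑ l, g l = 0 := by
    intro j
    have := congrFun hg j
    simp only [Finset.sum_apply, Pi.smul_apply, smul_eq_mul, box, mul_add, mul_one,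
      Finset.sum_add_distrib, Pi.zero_apply] at this
    rw [← this]
    congr 1
    rw [Finset.sum_eq_single j]
    · simp
    · intro l _ hl
      rw [Pi.single_eq_of_ne (Ne.symm hl), mul_zero]
    · simp
  have h2 : ∑ j, g j + (d + 1) * ∑ l, g l = 0 := by
    have := Finset.sum_congr (rfl : (univ : Finset (Fin (d + 1))) = univ)
      (fun j (_ : j ∈ (univ : Finset (Fin (d + 1)))) => h1 j)
    rw [Finset.sum_add_distrib, Finset.sum_const_zero, Finset.sum_const, Finset.card_univ,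
      Fintype.card_fin, nsmul_eq_mul] at this
    push_cast at this
    exact this
  have h3 : ∑ l, g l = 0 := by
    have : (∑ l, g l) * (d + 2) = 0 := by linarith
    rcases mul_eq_zero.mp this with h | h
    · exact h
    · have : (0 : ℝ) < d + 2 := by positivity
      linarith
  have := h1 i
  rw [h3, add_zero] at this
  exact this

theorem span_of_box {A : Type} (u : A → Fin (d + 1) → ℝ) (f : Fin (d + 1) → A)
    (hf : ∀ l, u (f l) = box l) : Submodule.span ℝ (Set.range u) = ⊤ := by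
  have h : Submodule.span ℝ (Set.range (box : Fin (d + 1) → Fin (d + 1) → ℝ)) = ⊤ :=
    linearIndependent_box.span_eq_top_of_card_eq_finrank' (by simp)
  rw [eq_top_iff, ← h]
  refine Submodule.span_mono ?_
  rintro _ ⟨l, rfl⟩
  exact ⟨f l, hf l⟩

/-- Transfer in the space of points. -/
theorem transfer_x {X X₀ : Fin n → Fin (d + 1) → ℝ} (hchi : chi X = chi X₀)
    (x : Fin (d + 1) → ℝ) : ∃ x₀ : Fin (d + 1) → ℝ,
      (∀ q, sg (v1 X q ⬝ᵥ x) = sg (v1 X₀ q ⬝ᵥ x₀)) ∧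
      (∀ l, sg (box l ⬝ᵥ x) = sg (box l ⬝ᵥ x₀)) ∧
      (∀ q, sg (v3 X q ⬝ᵥ x) = sg (v3 X₀ q ⬝ᵥ x₀)) := by
  obtain ⟨x₀, hh⟩ := transfer (Λ := (L1 d n ⊕ Fin (d + 1)) ⊕ L3 d n)
    (Sum.elim (Sum.elim (v1 X) box) (v3 X))
    (Sum.elim (Sum.elim (v1 X₀) box) (v3 X₀))
    (span_of_box _ (fun l => Sum.inl (Sum.inr l)) (fun l => rfl))
    (fun f => by
      have e : ∀ Y : Fin n → Fin (d + 1) → ℝ,
          (fun i => Sum.elim (Sum.elim (v1 Y) box) (v3 Y) (f i)) =
          fun i => vU Y (Sum.elim (fun q => e1 q)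
            (fun q => Sum.inr (Sum.inr (Sum.inr (Sum.inl q)))) (f i)) := by
        intro Y
        funext i
        rcases f i with (q | q) | q <;> rfl
      rw [e X, e X₀]
      exact chi_apply hchi _) x
  exact ⟨x₀, fun q => hh (Sum.inl (Sum.inl q)), fun l => hh (Sum.inl (Sum.inr l)),
    fun q => hh (Sum.inr q)⟩

end Pool.Agent.H7.UB
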