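import Pool.Agent.H7.UB.Class1

/-! # MAIN, part 2: the data of a class of samples -/

set_option autoImplicit false
set_option linter.unusedSectionVars false

namespace Pool.Agent.H7.UB

open Finset Matrix

variable {d n : ℕ}

/-- Codes of cells. -/
abbrev Gam (d n : ℕ) := (Fin (d + 1) → L2 d n) × Finset (Fin (d + 1))

/-- The labels which occur in a family of simplices. -/
def Lam (Θ : Finset (Fin (d + 1) → L1 d n)) : Finset (L1 d n) :=
  Θ.biUnion (fun Δ => univ.image Δ)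

theorem mem_Lam {Θ : Finset (Fin (d + 1) → L1 d n)} {Δ : Fin (d + 1) → L1 d n} (h : Δ ∈ Θ)
    (a : Fin (d + 1)) : Δ a ∈ Lam Θ := by
  unfold Lam
  rw [Finset.mem_biUnion]
  exact ⟨Δ, h, Finset.mem_image.mpr ⟨a, Finset.mem_univ _, rfl⟩⟩

theorem exists_of_mem_Lam {Θ : Finset (Fin (d + 1) → L1 d n)} {p : L1 d n} (h : p ∈ Lam Θ) :
    ∃ Δ ∈ Θ, ∃ a, Δ a = p := by
  unfold Lam at h
  rw [Finset.mem_biUnion] at h
  obtain ⟨Δ, h1, h2⟩ := h
  obtain ⟨a, _, h3⟩ := Finset.mem_image.mp h2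
  exact ⟨Δ, h1, a, h3⟩

theorem card_Lam (Θ : Finset (Fin (d + 1) → L1 d n)) : (Lam Θ).card ≤ (d + 1) * Θ.card := by
  unfold Lam
  refine Finset.card_biUnion_le.trans ?_
  rw [mul_comm, ← smul_eq_mul, ← Finset.sum_const]
  refine Finset.sum_le_sum (fun Δ _ => Finset.card_image_le.trans ?_)
  simp

/-- Bound for the number of sign vectors of `N` linear functionals. -/
noncomputable def SV (d N : ℕ) : ℝ := Real.exp (d + 1) * (2 * N + 3) ^ (d + 1)

theorem SV_mono {N N' : ℕ} (h : N ≤ N') : SV d N ≤ SV d N' := by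
  unfold SV
  have : (N : ℝ) ≤ N' := by exact_mod_cast h
  gcongr

theorem one_le_SV (N : ℕ) : 1 ≤ SV d N := by
  unfold SV
  have h1 : (1 : ℝ) ≤ Real.exp (d + 1) := Real.one_le_exp (by positivity)
  have h2 : (1 : ℝ) ≤ (2 * N + 3) ^ (d + 1) := one_le_pow₀ (by
    have : (0 : ℝ) ≤ N := by positivity
    linarith)
  calc (1 : ℝ) = 1 * 1 := by ring
    _ ≤ _ := mul_le_mul h1 h2 (by norm_num) (by positivity)

theorem card_sign_vectors {A : Type} [Fintype A] (y : A → Fin (d + 1) → ℝ) :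
    ({s : A → SignType | ∃ x : Fin (d + 1) → ℝ, s = fun p => sg (y p ⬝ᵥ x)}.ncard : ℝ) ≤
      SV d (Fintype.card A) := by
  classical
  set P : A → MvPolynomial (Fin (d + 1)) ℝ := fun p =>
    ∑ i, MvPolynomial.C (y p i) * MvPolynomial.X i with hP
  have hdeg : ∀ p, (P p).totalDegree ≤ 1 := by
    intro p
    refine (MvPolynomial.totalDegree_finsetSum _ _).trans (Finset.sup_le (fun i _ => ?_))
    refine (MvPolynomial.totalDegree_mul _ _).trans ?_
    rw [MvPolynomial.totalDegree_C, MvPolynomial.totalDegree_X]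
  have h := sign_count P 1 hdeg
  have e : (Set.range (fun x : Fin (d + 1) → ℝ => fun i =>
      SignType.sign (MvPolynomial.eval x (P i)))) =
      {s : A → SignType | ∃ x : Fin (d + 1) → ℝ, s = fun p => sg (y p ⬝ᵥ x)} := by
    ext s
    simp only [Set.mem_range, Set.mem_ofPred_eq]
    refine exists_congr (fun x => ?_)
    have : (fun i => SignType.sign (MvPolynomial.eval x (P i))) = fun p => sg (y p ⬝ᵥ x) := by
      funext p
      simp [hP, dotProduct]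
    rw [this]
    exact eq_comm
  rw [e] at h
  refine h.trans ?_
  unfold SV
  rw [Fintype.card_fin]
  push_cast
  refine mul_le_mul_of_nonneg_left ?_ (Real.exp_pos _).le
  refine (Finset.prod_le_prod (fun _ _ => by positivity) (fun j _ =>
    (?_ : _ ≤ (2 * (Fintype.card A : ℝ) + 3)))).trans ?_
  · have : ((univ.filter (fun i => j ∈ (P i).vars)).card : ℝ) ≤ Fintype.card A := by
      exact_mod_cast (Finset.card_filter_le _ _).trans (by rw [Finset.card_univ])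
    linarith
  · rw [Finset.prod_const, Finset.card_univ, Fintype.card_fin]

/-- The nets. -/
theorem exists_net {A : Type} [Fintype A] [DecidableEq A] [Nonempty A] (y : A → Fin (d + 1) → ℝ)
    (r : ℝ) (hr : 0 < r) (t : ℕ)
    (ht : SV d (Fintype.card A) ^ 2 * Real.exp (-(t / r)) < 1 / 2) :
    ∃ R : (A → ℝ) → Fin t → A, ∀ w : A → ℝ, (∀ p, 0 < w p) →
      (∀ x x' : Fin (d + 1) → ℝ, (∀ i, 0 ≤ (y (R w i) ⬝ᵥ x) * (y (R w i) ⬝ᵥ x')) →
        ∑ p ∈ univ.filter (fun p => (y p ⬝ᵥ x) * (y p ⬝ᵥ x') < 0), w p ≤ (∑ p, w p) / r) ∧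
      ∀ x : Fin (d + 1) → ℝ,
        ((univ.filter (fun i => y (R w i) ⬝ᵥ x < 0)).card : ℝ) ≤
          Real.logb 2 (2 * SV d (Fintype.card A)) +
            2 * t * ((∑ p ∈ univ.filter (fun p => y p ⬝ᵥ x < 0), w p) / ∑ p, w p) := by
  classical
  set 𝒮' : Set (A → SignType) :=
    {s : A → SignType | ∃ x : Fin (d + 1) → ℝ, s = fun p => sg (y p ⬝ᵥ x)} with h𝒮'
  have hfin : 𝒮'.Finite := Set.toFinite _
  set 𝒮 : Finset (A → SignType) := hfin.toFinset with h𝒮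
  have hmem : ∀ x : Fin (d + 1) → ℝ, (fun p => sg (y p ⬝ᵥ x)) ∈ 𝒮 := by
    intro x
    rw [h𝒮, Set.Finite.mem_toFinset]
    exact ⟨x, rfl⟩
  have hcard : (𝒮.card : ℝ) ≤ SV d (Fintype.card A) := by
    have := card_sign_vectors y
    rw [Set.ncard_eq_toFinset_card _ hfin] at this
    exact this
  set N : Finset (Finset A) := 𝒮.image (fun s => univ.filter (fun p => s p = -1)) with hN
  set H : Finset (Finset A) :=
    (𝒮 ×ˢ 𝒮).image (fun s => univ.filter (fun p => s.1 p * s.2 p = -1)) with hH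
  have hNne : N.Nonempty := ⟨_, Finset.mem_image_of_mem _ (hmem 0)⟩
  have hNcard : (N.card : ℝ) ≤ SV d (Fintype.card A) :=
    le_trans (by exact_mod_cast Finset.card_image_le) hcard
  have hHcard : (H.card : ℝ) ≤ SV d (Fintype.card A) ^ 2 := by
    have h1 : (H.card : ℝ) ≤ (𝒮.card : ℝ) * 𝒮.card := by
      have := (Finset.card_image_le (s := 𝒮 ×ˢ 𝒮)
        (f := fun s => univ.filter (fun p => s.1 p * s.2 p = -1)))
      rw [Finset.card_product] at this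
      exact_mod_cast this
    refine h1.trans ?_
    rw [sq]
    exact mul_le_mul hcard hcard (by positivity) (le_trans zero_le_one (one_le_SV _))
  have hneg : ∀ x : Fin (d + 1) → ℝ, univ.filter (fun p => y p ⬝ᵥ x < 0) ∈ N := by
    intro x
    rw [hN, Finset.mem_image]
    refine ⟨_, hmem x, ?_⟩
    ext p
    simp only [Finset.mem_filter, Finset.mem_univ, true_and, sg, sign_eq_neg_one_iff]
  have hsep : ∀ x x' : Fin (d + 1) → ℝ,
      univ.filter (fun p => (y p ⬝ᵥ x) * (y p ⬝ᵥ x') < 0) ∈ H := by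
    intro x x'
    rw [hH, Finset.mem_image]
    refine ⟨(_, _), Finset.mem_product.mpr ⟨hmem x, hmem x'⟩, ?_⟩
    ext p
    simp only [Finset.mem_filter, Finset.mem_univ, true_and, ← sign_mul, sign_eq_neg_one_iff]
  have hex : ∀ w : A → ℝ, ∃ R : Fin t → A, (∀ p, 0 < w p) →
      (∀ S ∈ H, (∑ l, w l) / r < ∑ l ∈ S, w l → ∃ i, R i ∈ S) ∧
      ∀ S ∈ N, ((univ.filter (fun i => R i ∈ S)).card : ℝ) ≤
        Real.logb 2 (2 * N.card) + 2 * t * ((∑ l ∈ S, w l) / ∑ l, w l) := by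
    intro w
    by_cases hw : ∀ p, 0 < w p
    · obtain ⟨R, hR⟩ := net w hw H N hNne r hr t (lt_of_le_of_lt
        (mul_le_mul_of_nonneg_right hHcard (Real.exp_pos _).le) ht)
      exact ⟨R, fun _ => hR⟩
    · exact ⟨fun _ => Classical.arbitrary A, fun h => absurd h hw⟩
  choose R hR using hex
  refine ⟨R, fun w hw => ⟨fun x x' h => ?_, fun x => ?_⟩⟩
  · by_contra hc
    obtain ⟨i, hi⟩ := (hR w hw).1 _ (hsep x x') (not_le.mp hc)
    rw [Finset.mem_filter] at hi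
    exact absurd (h i) (not_le.mpr hi.2)
  · have h1 := (hR w hw).2 _ (hneg x)
    have e : (univ.filter (fun i => R w i ∈ univ.filter (fun p => y p ⬝ᵥ x < 0))) =
        univ.filter (fun i => y (R w i) ⬝ᵥ x < 0) := by
      ext i; simp
    rw [e] at h1
    refine h1.trans ?_
    have hNpos : (0 : ℝ) < N.card := by exact_mod_cast hNne.card_pos
    gcongr
    norm_num

theorem sign_sum {k : ℕ} (c u : Fin k → ℝ) (hc : ∀ a, 0 ≤ c a)
    (h : ¬((∃ a, 0 < u a) ∧ ∃ a, u a < 0)) :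
    sg (∑ a, c a * u a) = if ∃ a, 0 < c a ∧ 0 < u a then 1 else
      if ∃ a, 0 < c a ∧ u a < 0 then -1 else 0 := by
  split_ifs with h1 h2
  · obtain ⟨a, ha1, ha2⟩ := h1
    have hu : ∀ b, 0 ≤ u b := by
      intro b
      by_contra hb
      exact h ⟨⟨a, ha2⟩, ⟨b, not_le.mp hb⟩⟩
    rw [sg, sign_eq_one_iff]
    exact Finset.sum_pos' (fun b _ => mul_nonneg (hc b) (hu b))
      ⟨a, Finset.mem_univ _, mul_pos ha1 ha2⟩
  · obtain ⟨a, ha1, ha2⟩ := h2
    have hu : ∀ b, u b ≤ 0 := by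
      intro b
      by_contra hb
      exact h ⟨⟨b, not_le.mp hb⟩, ⟨a, ha2⟩⟩
    rw [sg, sign_eq_neg_one_iff]
    have : 0 < ∑ b, c b * (-u b) := Finset.sum_pos'
      (fun b _ => mul_nonneg (hc b) (by have := hu b; linarith))
      ⟨a, Finset.mem_univ _, mul_pos ha1 (by linarith)⟩
    simp only [mul_neg, Finset.sum_neg_distrib] at this
    linarith
  · rw [sg, sign_eq_zero_iff]
    refine Finset.sum_eq_zero (fun a _ => ?_)
    rcases (hc a).lt_or_eq with h3 | h3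
    · have h4 : ¬ 0 < u a := fun h => h1 ⟨a, h3, h⟩
      have h5 : ¬ u a < 0 := fun h => h2 ⟨a, h3, h⟩
      rw [le_antisymm (not_lt.mp h4) (not_lt.mp h5), mul_zero]
    · rw [← h3, zero_mul]


/-- Conversion of the codes of the cover of the net. -/
def cd {t : ℕ} (R : Fin t → L1 d n)
    (Δ : Fin (d + 1) → (Fin d → Fin t ⊕ Fin (d + 1)) × Bool) : Fin (d + 1) → L2 d n :=
  fun a => (fun b => Sum.map R id ((Δ a).1 b), (Δ a).2)

theorem v2_cd {t : ℕ} (X : Fin n → Fin (d + 1) → ℝ) (R : Fin t → L1 d n)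
    (Δ : Fin (d + 1) → (Fin d → Fin t ⊕ Fin (d + 1)) × Bool) (a : Fin (d + 1)) :
    v2 X (cd R Δ a) = cvec (fun i => v1 X (R i)) box (Δ a) := by
  unfold v2 cvec cd
  simp only
  have : ∀ s : Fin t ⊕ Fin (d + 1), Sum.elim (v1 X) box (Sum.map R id s) =
      Sum.elim (fun i => v1 X (R i)) (box : Fin (d + 1) → Fin (d + 1) → ℝ) s := by
    intro s; cases s <;> rfl
  simp only [this]

/-- The functionals which cross a cell. -/
noncomputable def crs (X₀ : Fin n → Fin (d + 1) → ℝ) (Θ : Finset (Fin (d + 1) → L1 d n))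
    (γ : Gam d n) : Finset {p // p ∈ Lam Θ} :=
  univ.filter (fun p => (∃ a, 0 < v1 X₀ p.1 ⬝ᵥ v2 X₀ (γ.1 a)) ∧
    ∃ a, v1 X₀ p.1 ⬝ᵥ v2 X₀ (γ.1 a) < 0)

open Classical in
/-- The sign of a functional which does not cross a cell. -/
noncomputable def psg (X₀ : Fin n → Fin (d + 1) → ℝ) (Θ : Finset (Fin (d + 1) → L1 d n))
    (γ : Gam d n) (p : {p // p ∈ Lam Θ}) : SignType :=
  if ∃ a ∈ γ.2, 0 < v1 X₀ p.1 ⬝ᵥ v2 X₀ (γ.1 a) then 1 else
    if ∃ a ∈ γ.2, v1 X₀ p.1 ⬝ᵥ v2 X₀ (γ.1 a) < 0 then -1 else 0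

theorem det_ne_zero_of_li {b : Fin (d + 1) → Fin (d + 1) → ℝ} (h : LinearIndependent ℝ b) :
    Matrix.det (Matrix.of b) ≠ 0 := by
  have h1 : LinearIndependent ℝ (Matrix.of b).row := h
  rw [Matrix.linearIndependent_rows_iff_isUnit, Matrix.isUnit_iff_isUnit_det] at h1
  exact h1.ne_zero

/-- The sign of `v1` on `v2` does not depend on the member of the class. -/
theorem sg_v1_v2 {X X₀ : Fin n → Fin (d + 1) → ℝ} (h : chi X = chi X₀) (p : L1 d n)
    (q : L2 d n) : sg (v1 X p ⬝ᵥ v2 X q) = sg (v1 X₀ p ⬝ᵥ v2 X₀ q) := by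
  rw [dotProduct_comm, dotProduct_comm (v1 X₀ p)]
  exact sg_v2_e1 h q (Sum.inl p)

theorem det_v1 {X X₀ : Fin n → Fin (d + 1) → ℝ} (h : chi X = chi X₀)
    (Δ : Fin (d + 1) → L1 d n) : sg (Matrix.det (Matrix.of (fun a => v1 X (Δ a)))) =
      sg (Matrix.det (Matrix.of (fun a => v1 X₀ (Δ a)))) :=
  chi_apply h (fun a => Sum.inr (Sum.inl (Δ a)))

theorem det_v2 {X X₀ : Fin n → Fin (d + 1) → ℝ} (h : chi X = chi X₀)
    (Δ : Fin (d + 1) → L2 d n) : sg (Matrix.det (Matrix.of (fun a => v2 X (Δ a)))) =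
      sg (Matrix.det (Matrix.of (fun a => v2 X₀ (Δ a)))) :=
  chi_apply h (fun a => Sum.inr (Sum.inr (Sum.inl (Δ a))))

/-- Known signs. -/
theorem known {X X₀ : Fin n → Fin (d + 1) → ℝ} (hchi : chi X = chi X₀)
    (Θ : Finset (Fin (d + 1) → L1 d n)) (γ : Fin (d + 1) → L2 d n) (x : Fin (d + 1) → ℝ)
    (c : Fin (d + 1) → ℝ) (hc : ∀ a, 0 ≤ c a) (hx : x = ∑ a, c a • v2 X (γ a))
    (p : {p // p ∈ Lam Θ}) (hp : p ∉ crs X₀ Θ (γ, univ.filter (fun a => 0 < c a))) :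
    sg (v1 X p.1 ⬝ᵥ x) = psg X₀ Θ (γ, univ.filter (fun a => 0 < c a)) p := by
  have hpos : ∀ a, 0 < v1 X p.1 ⬝ᵥ v2 X (γ a) ↔ 0 < v1 X₀ p.1 ⬝ᵥ v2 X₀ (γ a) := by
    intro a
    rw [← sign_eq_one_iff, ← sign_eq_one_iff]
    have := sg_v1_v2 hchi p.1 (γ a)
    unfold sg at this
    rw [this]
  have hneg : ∀ a, v1 X p.1 ⬝ᵥ v2 X (γ a) < 0 ↔ v1 X₀ p.1 ⬝ᵥ v2 X₀ (γ a) < 0 := by
    intro a
    rw [← sign_eq_neg_one_iff, ← sign_eq_neg_one_iff]
    have := sg_v1_v2 hchi p.1 (γ a)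
    unfold sg at this
    rw [this]
  have e : v1 X p.1 ⬝ᵥ x = ∑ a, c a * (v1 X p.1 ⬝ᵥ v2 X (γ a)) := by
    rw [hx, dotProduct_sum]
    exact Finset.sum_congr rfl (fun a _ => by rw [dotProduct_smul, smul_eq_mul])
  rw [e, sign_sum c _ hc]
  · unfold psg
    simp only [Finset.mem_filter, Finset.mem_univ, true_and, hpos, hneg]
  · intro h
    apply hp
    unfold crs
    rw [Finset.mem_filter]
    refine ⟨Finset.mem_univ _, ?_⟩
    simp only [hpos, hneg] at h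
    exact h

theorem one_dot (x : Fin (d + 1) → ℝ) : (fun _ => (1 : ℝ)) ⬝ᵥ x = ∑ i, x i := by
  simp [dotProduct]

theorem dot_one (x : Fin (d + 1) → ℝ) : x ⬝ᵥ (fun _ => (1 : ℝ)) = ∑ i, x i := by
  simp [dotProduct]

theorem stdb_dot (l : Fin (d + 1)) (x : Fin (d + 1) → ℝ) : stdb l ⬝ᵥ x = x l := by
  simp [stdb]

theorem dot_stdb (l : Fin (d + 1)) (x : Fin (d + 1) → ℝ) : x ⬝ᵥ stdb l = x l := by
  simp [stdb]

theorem box_dot (l : Fin (d + 1)) (x : Fin (d + 1) → ℝ) : box l ⬝ᵥ x = x l + ∑ i, x i := by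
  have : (box l : Fin (d + 1) → ℝ) = stdb l + fun _ => 1 := by
    funext i; simp [box, stdb]
  rw [this, add_dotProduct, stdb_dot, one_dot]

theorem sum_biUnion_le' {ι α : Type} [DecidableEq α] (s : Finset ι) (f : ι → Finset α)
    (w : α → ℝ) (hw : ∀ x, 0 ≤ w x) :
    ∑ x ∈ s.biUnion f, w x ≤ ∑ i ∈ s, ∑ x ∈ f i, w x := by
  classical
  induction s using Finset.induction_on with
  | empty => simp
  | insert i s hi ih =>
    rw [Finset.biUnion_insert, Finset.sum_insert hi]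
    have h1 := Finset.sum_union_inter (s₁ := f i) (s₂ := s.biUnion f) (f := w)
    have h2 : 0 ≤ ∑ x ∈ f i ∩ s.biUnion f, w x := Finset.sum_nonneg (fun x _ => hw x)
    linarith

theorem nonneg_iff_sg {a : ℝ} : 0 ≤ a ↔ sg a ≠ -1 := by
  unfold sg
  rw [Ne, sign_eq_neg_one_iff, not_lt]

theorem nonneg_of_sg {a b : ℝ} (h : sg a = sg b) (hb : 0 ≤ b) : 0 ≤ a := by
  rw [nonneg_iff_sg, h, ← nonneg_iff_sg]; exact hb

/-- The data of a class of samples. -/
theorem class_data (d : ℕ) (hd : 1 ≤ d) : ∃ C : ℕ, ∀ (n t : ℕ) (r : ℝ) (_ : 0 < r)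
    (_ : SV d ((d + 1) * (C * (n + 1) ^ (d / 2))) ^ 2 * Real.exp (-(t / r)) < 1 / 2)
    (X₀ : Fin n → Fin (d + 1) → ℝ) (_ : ∀ s, ∑ i, X₀ s i = 1),
    ∃ (Θ : Finset (Fin (d + 1) → L1 d n))
      (R : ({p // p ∈ Lam Θ} → ℝ) → Fin t → {p // p ∈ Lam Θ})
      (G : ({p // p ∈ Lam Θ} → ℝ) → ℕ → Finset (Gam d n))
      (cr : Gam d n → Finset {p // p ∈ Lam Θ})
      (ps : Gam d n → {p // p ∈ Lam Θ} → SignType),
      Θ.Nonempty ∧ Θ.card ≤ C * (n + 1) ^ (d / 2) ∧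
      (∀ w j, (G w j).card ≤ C * (t + 1) ^ (d / 2) * (j + 1) ^ d) ∧
      (∀ w, (∀ p, 0 < w p) → ∀ j, ∀ γ ∈ G w j,
        ∑ p ∈ cr γ, w p ≤ ((d + 1 : ℝ) ^ 2 / r) * ∑ p, w p) ∧
      ∀ X : Fin n → Fin (d + 1) → ℝ, (∀ s, ∑ i, X s i = 1) → chi X = chi X₀ →
        (∀ p ∈ Lam Θ, ∀ q, 0 ≤ v1 X p ⬝ᵥ v0 X q) ∧
        (∀ (p : L1 d n) q, sg (v1 X p ⬝ᵥ v0 X q) = sg (v1 X₀ p ⬝ᵥ v0 X₀ q)) ∧
        (∀ h : Fin (d + 1) → ℝ, (∀ q, 0 ≤ h ⬝ᵥ v0 X q) →
          ∃ Δ ∈ Θ, ∃ c : Fin (d + 1) → ℝ, (∀ a, 0 ≤ c a) ∧ h = ∑ a, c a • v1 X (Δ a)) ∧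
        ∀ x : Fin (d + 1) → ℝ, ∑ i, x i = 1 → (∀ i, |x i| ≤ 1) →
          ∀ w : {p // p ∈ Lam Θ} → ℝ, (∀ p, 0 < w p) →
            ((univ.filter (fun i => v1 X (R w i).1 ⬝ᵥ x < 0)).card : ℝ) ≤
              Real.logb 2 (2 * SV d ((d + 1) * (C * (n + 1) ^ (d / 2)))) +
              2 * t * ((∑ p ∈ univ.filter (fun p : {p // p ∈ Lam Θ} => v1 X p.1 ⬝ᵥ x < 0), w p) /
                ∑ p, w p) ∧
            ∀ j, (univ.filter (fun i => v1 X (R w i).1 ⬝ᵥ x < 0)).card ≤ j →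
              ∃ γ ∈ G w j, ∀ p, p ∉ cr γ → sg (v1 X p.1 ⬝ᵥ x) = ps γ p := by
  classical
  obtain ⟨C₁, hC₁⟩ := cover d hd
  refine ⟨C₁ * 2 ^ (d + 1), ?_⟩
  intro n t r hr hnet X₀ hX₀
  -- the cover of the cone of functionals
  obtain ⟨Θ, hΘcard, hΘ, hΘcov⟩ := hC₁ (Fin n) X₀ stdb linearIndependent_stdb (fun _ => 1)
    (fun i => by rw [dot_one, hX₀]; exact one_pos)
    (fun l => by rw [stdb_dot]; exact one_pos) 0
  have hΘ0 : ∀ Δ ∈ Θ, ∀ a (q : L0 d n), 0 ≤ v1 X₀ (Δ a) ⬝ᵥ v0 X₀ q := by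
    intro Δ hΔ a q
    obtain ⟨_, h2, _, h4⟩ := hΘ Δ hΔ
    rw [dotProduct_comm]
    rcases q with s | l
    · have h5 : (univ.filter (fun i => ∃ a, X₀ i ⬝ᵥ cvec X₀ stdb (Δ a) < 0)) = ∅ :=
        Finset.card_eq_zero.mp (Nat.le_zero.mp h4)
      by_contra hc
      have : s ∈ (univ.filter (fun i => ∃ a, X₀ i ⬝ᵥ cvec X₀ stdb (Δ a) < 0)) := by
        rw [Finset.mem_filter]
        exact ⟨Finset.mem_univ _, a, not_le.mp hc⟩
      rw [h5] at this
      exact absurd this (Finset.notMem_empty _)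
    · exact h2 a l
  have hΘne : Θ.Nonempty := by
    obtain ⟨Δ, hΔ, _⟩ := hΘcov (fun _ => 1) (fun l => by rw [stdb_dot]; norm_num) (by
      rw [Nat.le_zero, Finset.card_eq_zero, Finset.filter_eq_empty_iff]
      intro s _
      rw [dot_one, hX₀]
      norm_num)
    exact ⟨Δ, hΔ⟩
  obtain ⟨Δ₀, hΔ₀⟩ := hΘne
  have : Nonempty {p // p ∈ Lam Θ} := ⟨⟨Δ₀ 0, mem_Lam hΔ₀ 0⟩⟩
  have hΘcard' : Θ.card ≤ C₁ * 2 ^ (d + 1) * (n + 1) ^ (d / 2) := by
    refine hΘcard.trans ?_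
    rw [Fintype.card_fin, zero_add, one_pow, mul_one]
    refine Nat.mul_le_mul_right _ (Nat.le_mul_of_pos_right _ (by positivity))
  have hA : Fintype.card {p // p ∈ Lam Θ} ≤
      (d + 1) * (C₁ * 2 ^ (d + 1) * (n + 1) ^ (d / 2)) := by
    rw [Fintype.card_coe]
    exact (card_Lam Θ).trans (Nat.mul_le_mul_left _ hΘcard')
  have hSV := SV_mono (d := d) hA
  -- positivity on the centre
  have hpos1 : ∀ p : {p // p ∈ Lam Θ}, 0 < v1 X₀ p.1 ⬝ᵥ (fun _ => (1 : ℝ)) := by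
    rintro ⟨p, hp⟩
    obtain ⟨Δ, hΔ, a, rfl⟩ := exists_of_mem_Lam hp
    rw [dot_one]
    have h1 : ∀ l, 0 ≤ v1 X₀ (Δ a) l := by
      intro l
      have := hΘ0 Δ hΔ a (Sum.inr l)
      simp only [v0, Sum.elim_inr] at this
      rwa [dot_stdb] at this
    have h2 : v1 X₀ (Δ a) ≠ 0 := (hΘ Δ hΔ).1.ne_zero a
    obtain ⟨l, hl⟩ := Function.ne_iff.mp h2
    exact Finset.sum_pos' (fun i _ => h1 i) ⟨l, Finset.mem_univ _,
      lt_of_le_of_ne (h1 l) (Ne.symm hl)⟩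
  -- nets
  obtain ⟨R, hR⟩ := exists_net (fun p : {p // p ∈ Lam Θ} => v1 X₀ p.1) r hr t (by
    refine lt_of_le_of_lt (mul_le_mul_of_nonneg_right (pow_le_pow_left₀
      (le_trans zero_le_one (one_le_SV _)) hSV 2) (Real.exp_pos _).le) hnet)
  -- covers of the nets
  have hcov2 := fun (w : {p // p ∈ Lam Θ} → ℝ) (j : ℕ) =>
    hC₁ (Fin t) (fun i => v1 X₀ (R w i).1) box linearIndependent_box (fun _ => 1)
      (fun i => hpos1 (R w i)) (fun l => by
        rw [box_dot]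
        have : (0 : ℝ) ≤ ∑ i : Fin (d + 1), (1 : ℝ) := Finset.sum_nonneg (fun _ _ => zero_le_one)
        linarith) j
  choose G' hG'card hG'prop hG'cov using hcov2
  set G : ({p // p ∈ Lam Θ} → ℝ) → ℕ → Finset (Gam d n) := fun w j =>
    (G' w j).image (cd (fun i => (R w i).1)) ×ˢ (univ : Finset (Finset (Fin (d + 1)))) with hG
  refine ⟨Θ, R, G, crs X₀ Θ, psg X₀ Θ, ⟨Δ₀, hΔ₀⟩, hΘcard', ?_, ?_, ?_⟩
  · intro w j
    rw [hG]
    simp only
    rw [Finset.card_product, Finset.card_univ, Fintype.card_finset, Fintype.card_fin]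
    calc ((G' w j).image (cd (fun i => (R w i).1))).card * 2 ^ (d + 1) ≤
        (C₁ * (t + 1) ^ (d / 2) * (j + 1) ^ d) * 2 ^ (d + 1) := by
          refine Nat.mul_le_mul_right _ (Finset.card_image_le.trans ?_)
          have := hG'card w j
          rwa [Fintype.card_fin] at this
      _ = _ := by ring
  · intro w hw j γ hγ
    rw [hG] at hγ
    simp only at hγ
    rw [Finset.mem_product, Finset.mem_image] at hγ
    obtain ⟨⟨Δ, hΔ, hγ1⟩, _⟩ := hγ
    obtain ⟨_, _, h3, _⟩ := hG'prop w j Δ hΔ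
    have hsub : crs X₀ Θ γ ⊆ (univ : Finset (Fin (d + 1) × Fin (d + 1))).biUnion
        (fun ab => univ.filter (fun p : {p // p ∈ Lam Θ} =>
          (v1 X₀ p.1 ⬝ᵥ v2 X₀ (γ.1 ab.1)) * (v1 X₀ p.1 ⬝ᵥ v2 X₀ (γ.1 ab.2)) < 0)) := by
      intro p hp
      unfold crs at hp
      rw [Finset.mem_filter] at hp
      obtain ⟨_, ⟨a, ha⟩, ⟨b, hb⟩⟩ := hp
      rw [Finset.mem_biUnion]
      refine ⟨(a, b), Finset.mem_univ _, ?_⟩
      rw [Finset.mem_filter]
      exact ⟨Finset.mem_univ _, mul_neg_of_pos_of_neg ha hb⟩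
    refine (Finset.sum_le_sum_of_subset_of_nonneg hsub (fun p _ _ => (hw p).le)).trans ?_
    refine (sum_biUnion_le' _ _ w (fun p => (hw p).le)).trans ?_
    have hterm : ∀ ab ∈ (univ : Finset (Fin (d + 1) × Fin (d + 1))),
        ∑ p ∈ univ.filter (fun p : {p // p ∈ Lam Θ} =>
          (v1 X₀ p.1 ⬝ᵥ v2 X₀ (γ.1 ab.1)) * (v1 X₀ p.1 ⬝ᵥ v2 X₀ (γ.1 ab.2)) < 0), w p ≤
          (∑ p, w p) / r := by
      intro ab _
      refine (hR w hw).1 _ _ (fun i => ?_)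
      rw [← hγ1, v2_cd, v2_cd]
      rcases h3 i with h | h
      · exact mul_nonneg (h _) (h _)
      · exact mul_nonneg_of_nonpos_of_nonpos (h _) (h _)
    refine (Finset.sum_le_sum hterm).trans (le_of_eq ?_)
    rw [Finset.sum_const, Finset.card_univ, Fintype.card_prod, Fintype.card_fin, nsmul_eq_mul]
    push_cast
    ring
  · intro X hX hchi
    refine ⟨?_, sg_v1_v0 hchi, ?_, ?_⟩
    · intro p hp q
      obtain ⟨Δ, hΔ, a, rfl⟩ := exists_of_mem_Lam hp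
      exact nonneg_of_sg (sg_v1_v0 hchi _ q) (hΘ0 Δ hΔ a q)
    · intro h hh
      obtain ⟨h₀, hq, hψ⟩ := transfer_h hchi h
      have h1 : ∀ q, 0 ≤ v0 X₀ q ⬝ᵥ h₀ := by
        intro q
        refine nonneg_of_sg (hq q).symm ?_
        rw [dotProduct_comm]
        exact hh q
      obtain ⟨Δ, hΔ, c, hc, hc2⟩ := hΘcov h₀ (fun l => h1 (Sum.inr l)) (by
        rw [Nat.le_zero, Finset.card_eq_zero, Finset.filter_eq_empty_iff]
        intro s _
        exact not_lt.mpr (h1 (Sum.inl s)))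
      have hli := (hΘ Δ hΔ).1
      obtain ⟨c', hc', hx'⟩ := cone_transfer (fun a => v1 X₀ (Δ a)) (fun a => v1 X (Δ a)) h₀ h
        (det_ne_zero_of_li hli) (det_v1 hchi Δ).symm
        (fun a => (hψ (fun i => Δ (a.succAbove i))).symm) c hc2
      exact ⟨Δ, hΔ, c', fun a => nonneg_of_sg (hc' a) (hc a), hx'⟩
    · intro x hx1 hx2 w hw
      obtain ⟨x₀, hy, hbox, hv3⟩ := transfer_x hchi x
      have hiff : ∀ q, v1 X q ⬝ᵥ x < 0 ↔ v1 X₀ q ⬝ᵥ x₀ < 0 := by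
        intro q
        have := hy q
        unfold sg at this
        rw [← sign_eq_neg_one_iff, ← sign_eq_neg_one_iff, this]
      have e1 : (univ.filter (fun i => v1 X (R w i).1 ⬝ᵥ x < 0)) =
          univ.filter (fun i => v1 X₀ (R w i).1 ⬝ᵥ x₀ < 0) := by
        ext i; simp only [Finset.mem_filter, hiff]
      have e2 : (univ.filter (fun p : {p // p ∈ Lam Θ} => v1 X p.1 ⬝ᵥ x < 0)) =
          univ.filter (fun p : {p // p ∈ Lam Θ} => v1 X₀ p.1 ⬝ᵥ x₀ < 0) := by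
        ext i; simp only [Finset.mem_filter, hiff]
      refine ⟨?_, ?_⟩
      · rw [e1, e2]
        refine ((hR w hw).2 x₀).trans ?_
        have h5 : (0 : ℝ) < SV d (Fintype.card {p // p ∈ Lam Θ}) :=
          lt_of_lt_of_le one_pos (one_le_SV _)
        gcongr
        norm_num
      · intro j hj
        rw [e1] at hj
        have hb : ∀ l, 0 ≤ box l ⬝ᵥ x₀ := by
          intro l
          refine nonneg_of_sg (hbox l).symm ?_
          rw [box_dot, hx1]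
          have := (abs_le.mp (hx2 l)).1
          linarith
        obtain ⟨Δ, hΔ, c, hc, hc2⟩ := hG'cov w j x₀ hb hj
        have hli := (hG'prop w j Δ hΔ).1
        set δ := cd (fun i => (R w i).1) Δ with hδ
        have hv : ∀ a, v2 X₀ (δ a) = cvec (fun i => v1 X₀ (R w i).1) box (Δ a) :=
          fun a => v2_cd X₀ _ Δ a
        obtain ⟨c', hc', hx'⟩ := cone_transfer (fun a => v2 X₀ (δ a)) (fun a => v2 X (δ a)) x₀ x
          (by
            refine det_ne_zero_of_li ?_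
            simp only [hv]
            exact hli) (det_v2 hchi δ).symm
          (fun a => (hv3 (fun i => δ (a.succAbove i))).symm) c (by
            simp only [hv]
            exact hc2)
        have hc'0 : ∀ a, 0 ≤ c' a := fun a => nonneg_of_sg (hc' a) (hc a)
        refine ⟨(δ, univ.filter (fun a => 0 < c' a)), ?_, ?_⟩
        · rw [hG]
          simp only
          rw [Finset.mem_product]
          exact ⟨Finset.mem_image_of_mem _ hΔ, Finset.mem_univ _⟩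
        · intro p hp
          exact known hchi Θ δ x c' hc'0 hx' p hp

end Pool.Agent.H7.UB
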