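import Pool.Agent.H7.UB.Defs

/-! Module ENC, second version: at least half of all processing orders are good. -/

set_option autoImplicit false

namespace Pool.Agent.H7.UB

open Finset Matrix

/-- Weights after some codes. -/
noncomputable def wt2 {Λ Γ : Type} [DecidableEq Λ] (cr : Γ → Finset Λ) {i : ℕ} (p : Fin i → Γ)
    (y : Λ) : ℝ := 2 ^ (univ.filter (fun j => y ∈ cr (p j))).card

/-- the weight after `n` steps of the process with codes `c` along the sequence `s` of points -/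
noncomputable def enc2St {Λ Γ : Type} [DecidableEq Λ] {M : ℕ} (cr : Γ → Finset Λ)
    (c : (Λ → ℝ) → ℕ → Fin M → Γ) (s : ℕ → Fin M) : ℕ → Λ → ℝ
  | 0 => fun _ => 1
  | n + 1 => fun y => enc2St cr c s n y +
      if y ∈ cr (c (enc2St cr c s n) n (s n)) then enc2St cr c s n y else 0

theorem enc2St_pos {Λ Γ : Type} [DecidableEq Λ] {M : ℕ} (cr : Γ → Finset Λ)
    (c : (Λ → ℝ) → ℕ → Fin M → Γ) (s : ℕ → Fin M) (n : ℕ) (y : Λ) : 0 < enc2St cr c s n y := by
  induction n with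
  | zero => simp [enc2St]
  | succ n ih =>
    simp only [enc2St]
    split_ifs
    · linarith
    · linarith

theorem enc2St_congr {Λ Γ : Type} [DecidableEq Λ] {M : ℕ} (cr : Γ → Finset Λ)
    (c : (Λ → ℝ) → ℕ → Fin M → Γ) (s s' : ℕ → Fin M) (n : ℕ) (h : ∀ k < n, s k = s' k) :
    enc2St cr c s n = enc2St cr c s' n := by
  induction n with
  | zero => rfl
  | succ n ih =>
    have h1 := ih (fun k hk => h k (by omega))
    have h2 := h n (by omega)
    funext y
    simp only [enc2St, h1, h2]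

theorem enc2St_eq_wt2 {Λ Γ : Type} [DecidableEq Λ] {M : ℕ} (cr : Γ → Finset Λ)
    (c : (Λ → ℝ) → ℕ → Fin M → Γ) (s : ℕ → Fin M) (n : ℕ) :
    wt2 cr (fun j : Fin n => c (enc2St cr c s j) j (s j)) = enc2St cr c s n := by
  induction n with
  | zero => funext y; simp [enc2St, wt2]
  | succ n ih =>
    funext y
    have h0 := congrFun ih y
    unfold wt2 at h0 ⊢
    have h : (univ.filter (fun j : Fin (n + 1) => y ∈ cr (c (enc2St cr c s j) j (s j)))).card =
        (univ.filter (fun j : Fin n => y ∈ cr (c (enc2St cr c s j) j (s j)))).card +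
          (if y ∈ cr (c (enc2St cr c s n) n (s n)) then 1 else 0) := by
      rw [Finset.card_filter, Finset.card_filter, Fin.sum_univ_castSucc]
      simp
    rw [h, pow_add, h0]
    simp only [enc2St]
    split_ifs
    · ring
    · ring

theorem enc2St_sum_le {Λ Γ : Type} [Fintype Λ] [DecidableEq Λ] {M : ℕ} (cr : Γ → Finset Λ)
    (c : (Λ → ℝ) → ℕ → Fin M → Γ) (s : ℕ → Fin M) (ρ : ℝ) (hρ : 0 ≤ ρ)
    (h : ∀ w : Λ → ℝ, (∀ y, 0 < w y) → ∀ n < M, ∀ q,
      ∑ y ∈ cr (c w n q), w y ≤ ρ * ∑ y, w y) (n : ℕ) (hn : n ≤ M) :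
    ∑ y, enc2St cr c s n y ≤ Fintype.card Λ * (1 + ρ) ^ n := by
  induction n with
  | zero => simp [enc2St]
  | succ n ih =>
    have h1 := ih (by omega)
    have h2 := h _ (enc2St_pos cr c s n) n (by omega) (s n)
    have h3 : ∑ y, enc2St cr c s (n + 1) y = ∑ y, enc2St cr c s n y +
        ∑ y ∈ cr (c (enc2St cr c s n) n (s n)), enc2St cr c s n y := by
      simp only [enc2St]
      rw [Finset.sum_add_distrib, ← Finset.sum_filter]
      congr 2
      ext y; simp
    rw [h3]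
    calc _ ≤ ∑ y, enc2St cr c s n y + ρ * ∑ y, enc2St cr c s n y := by linarith
      _ = (1 + ρ) * ∑ y, enc2St cr c s n y := by ring
      _ ≤ (1 + ρ) * (Fintype.card Λ * (1 + ρ) ^ n) :=
          mul_le_mul_of_nonneg_left h1 (by linarith)
      _ = Fintype.card Λ * (1 + ρ) ^ (n + 1) := by rw [pow_succ]; ring

/-- double counting of the weighted levels -/
theorem enc2_sum_levels {Λ : Type} [Fintype Λ] [DecidableEq Λ] {M : ℕ}
    (Neg : Fin M → Finset Λ) (ℓ : ℕ)
    (hℓ : ∀ y, (univ.filter (fun q => y ∈ Neg q)).card ≤ ℓ) (w : Λ → ℝ) (hw : ∀ y, 0 < w y) :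
    ∑ q : Fin M, ∑ y ∈ Neg q, w y ≤ ℓ * ∑ y, w y := by
  calc ∑ q : Fin M, ∑ y ∈ Neg q, w y = ∑ q : Fin M, ∑ y, if y ∈ Neg q then w y else 0 := by
        refine Finset.sum_congr rfl fun q _ => ?_
        rw [← Finset.sum_filter]
        congr 1
        ext y; simp
    _ = ∑ y, ∑ q : Fin M, if y ∈ Neg q then w y else 0 := Finset.sum_comm
    _ = ∑ y, ((univ.filter (fun q => y ∈ Neg q)).card : ℝ) * w y := by
        refine Finset.sum_congr rfl fun y _ => ?_
        rw [← Finset.sum_filter, Finset.sum_const, nsmul_eq_mul]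
    _ ≤ ∑ y, (ℓ : ℝ) * w y := by
        refine Finset.sum_le_sum fun y _ => ?_
        exact mul_le_mul_of_nonneg_right (by exact_mod_cast hℓ y) (hw y).le
    _ = ℓ * ∑ y, w y := by rw [← Finset.mul_sum]

/-- extension of a permutation to a sequence -/
def enc2Ext {M : ℕ} (h : 0 < M) (π : Equiv.Perm (Fin M)) (n : ℕ) : Fin M :=
  π ⟨n % M, Nat.mod_lt _ h⟩

theorem enc2Ext_coe {M : ℕ} (h : 0 < M) (π : Equiv.Perm (Fin M)) (i : Fin M) :
    enc2Ext h π i = π i := by
  unfold enc2Ext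
  congr 1
  exact Fin.ext (Nat.mod_eq_of_lt i.2)

/-- the average of the relative weight of the `i`-th processed point over all orders -/
theorem enc2_average {Λ : Type} [Fintype Λ] [DecidableEq Λ] [Nonempty Λ] {M : ℕ}
    (Neg : Fin M → Finset Λ) (ℓ : ℕ)
    (hℓ : ∀ y, (univ.filter (fun q => y ∈ Neg q)).card ≤ ℓ) (i : Fin M)
    (st : Equiv.Perm (Fin M) → Λ → ℝ) (hst : ∀ π y, 0 < st π y)
    (hcongr : ∀ π π' : Equiv.Perm (Fin M), (∀ k < i, π k = π' k) → st π = st π') :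
    ∑ π : Equiv.Perm (Fin M), (∑ y ∈ Neg (π i), st π y) / (∑ y, st π y) * ((M : ℝ) - i) ≤
      M.factorial * ℓ := by
  set F : Equiv.Perm (Fin M) → Fin M → ℝ := fun π q => (∑ y ∈ Neg q, st π y) / ∑ y, st π y with hF
  have hW : ∀ π, 0 < ∑ y, st π y := fun π =>
    Finset.sum_pos (fun y _ => hst π y) Finset.univ_nonempty
  have hF0 : ∀ π q, 0 ≤ F π q := fun π q =>
    div_nonneg (Finset.sum_nonneg fun y _ => (hst π y).le) (hW π).le
  have hswap : ∀ j : Fin M, i ≤ j → ∑ π, F π (π j) = ∑ π, F π (π i) := by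
    intro j hj
    rw [← Equiv.sum_comp (Equiv.mulRight (Equiv.swap i j)) (fun π => F π (π i))]
    refine Finset.sum_congr rfl fun π _ => ?_
    have h1 : st ((Equiv.mulRight (Equiv.swap i j)) π) = st π := by
      apply hcongr
      intro k hk
      simp only [Equiv.coe_mulRight, Equiv.Perm.coe_mul, Function.comp_apply]
      rw [Equiv.swap_apply_of_ne_of_ne (ne_of_lt hk) (ne_of_lt (lt_of_lt_of_le hk hj))]
    have h2 : ((Equiv.mulRight (Equiv.swap i j)) π) i = π j := by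
      simp
    simp only [hF, h1, h2]
  have hcard : ((Finset.Ici i).card : ℝ) = (M : ℝ) - i := by
    rw [Fin.card_Ici, Nat.cast_sub i.2.le]
  have h1 : ∑ π : Equiv.Perm (Fin M), F π (π i) * ((M : ℝ) - i) =
      ∑ j ∈ Finset.Ici i, ∑ π, F π (π j) := by
    rw [← Finset.sum_mul, Finset.sum_congr rfl (fun j hj => hswap j (Finset.mem_Ici.1 hj)),
      Finset.sum_const, nsmul_eq_mul, hcard, mul_comm]
  have h2 : ∀ π : Equiv.Perm (Fin M), ∑ j ∈ Finset.Ici i, F π (π j) ≤ ℓ := by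
    intro π
    calc ∑ j ∈ Finset.Ici i, F π (π j) ≤ ∑ j, F π (π j) :=
          Finset.sum_le_sum_of_subset_of_nonneg (Finset.subset_univ _)
            (fun q _ _ => hF0 _ _)
      _ = ∑ q, F π q := Equiv.sum_comp π (fun q => F π q)
      _ = (∑ q : Fin M, ∑ y ∈ Neg q, st π y) / ∑ y, st π y := by
          rw [Finset.sum_div]
      _ ≤ ℓ := by
          rw [div_le_iff₀ (hW π)]
          exact enc2_sum_levels Neg ℓ hℓ (st π) (hst π)
  change ∑ π : Equiv.Perm (Fin M), F π (π i) * ((M : ℝ) - i) ≤ _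
  rw [h1, Finset.sum_comm]
  calc ∑ π : Equiv.Perm (Fin M), ∑ j ∈ Finset.Ici i, F π (π j) ≤
        ∑ _π : Equiv.Perm (Fin M), (ℓ : ℝ) := Finset.sum_le_sum fun π _ => h2 π
    _ = M.factorial * ℓ := by
        rw [Finset.sum_const, nsmul_eq_mul, Finset.card_univ, Fintype.card_perm, Fintype.card_fin]

/-- (ENC, new) At least half of all orders are good: with points processed in the order `π`, there
are codes `γ` and numbers `μ` with `∑ μ ≤ 3 M`. -/
theorem process_half {Λ Γ : Type} [Fintype Λ] [DecidableEq Λ] [Nonempty Λ] {M t : ℕ}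
    (Neg : Fin M → Finset Λ) (cr : Γ → Finset Λ) (ℓ : ℕ) (hℓ0 : 1 ≤ ℓ)
    (hℓ : ∀ y, (univ.filter (fun q => y ∈ Neg q)).card ≤ ℓ)
    (R : (Λ → ℝ) → Fin t → Λ) (G : (Λ → ℝ) → ℕ → Finset Γ) (good : Fin M → Γ → Prop)
    (L₀ ρ : ℝ) (hρ : 0 ≤ ρ) (hL : 0 ≤ L₀)
    (hR : ∀ w : Λ → ℝ, (∀ y, 0 < w y) → ∀ q, ((univ.filter (fun i => R w i ∈ Neg q)).card : ℝ) ≤
      L₀ + 2 * t * ((∑ y ∈ Neg q, w y) / ∑ y, w y))
    (hG : ∀ w : Λ → ℝ, (∀ y, 0 < w y) → ∀ j, ∀ γ ∈ G w j, ∑ y ∈ cr γ, w y ≤ ρ * ∑ y, w y)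
    (hgood : ∀ w : Λ → ℝ, (∀ y, 0 < w y) → ∀ j q,
      (univ.filter (fun i => R w i ∈ Neg q)).card ≤ j → ∃ γ ∈ G w j, good q γ) :
    M.factorial ≤ 2 * {π : Equiv.Perm (Fin M) | ∃ (γ : Fin M → Γ) (μ : Fin M → ℕ),
      ∑ i, μ i ≤ 3 * M ∧
      (∀ i : Fin M, γ i ∈ G (wt2 cr (fun j : Fin i => γ ⟨j, j.2.trans i.2⟩))
        ⌊L₀ + 2 * t * ℓ * μ i / ((M : ℝ) - i)⌋₊) ∧
      (∀ i, good (π i) (γ i)) ∧
      ∀ y, (2 : ℝ) ^ (univ.filter (fun i => y ∈ cr (γ i))).card ≤
        Fintype.card Λ * (1 + ρ) ^ M}.ncard := by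
  classical
  have hℓR : (0 : ℝ) < ℓ := by exact_mod_cast hℓ0
  rcases Nat.eq_zero_or_pos M with hM | hM
  · subst hM
    have hmem : (1 : Equiv.Perm (Fin 0)) ∈ {π : Equiv.Perm (Fin 0) |
        ∃ (γ : Fin 0 → Γ) (μ : Fin 0 → ℕ),
        ∑ i, μ i ≤ 3 * 0 ∧
        (∀ i : Fin 0, γ i ∈ G (wt2 cr (fun j : Fin i => γ ⟨j, j.2.trans i.2⟩))
          ⌊L₀ + 2 * t * ℓ * μ i / (((0 : ℕ) : ℝ) - i)⌋₊) ∧
        (∀ i, good (π i) (γ i)) ∧
        ∀ y, (2 : ℝ) ^ (univ.filter (fun i => y ∈ cr (γ i))).card ≤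
          Fintype.card Λ * (1 + ρ) ^ 0} := by
      refine ⟨Fin.elim0, Fin.elim0, by simp, fun i => i.elim0, fun i => i.elim0, fun y => ?_⟩
      have : (1 : ℝ) ≤ Fintype.card Λ := by exact_mod_cast Fintype.card_pos
      simpa using this
    have h1 := (Set.ncard_pos (Set.toFinite _)).2 ⟨_, hmem⟩
    rw [Nat.factorial_zero]
    omega
  -- the choice of the codes
  have hne : Nonempty Γ := by
    obtain ⟨γ, -⟩ := hgood (fun _ => 1) (fun _ => one_pos) _ ⟨0, hM⟩ le_rfl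
    exact ⟨γ⟩
  set mu : (Λ → ℝ) → ℕ → Fin M → ℕ := fun w n q =>
    ⌈(∑ y ∈ Neg q, w y) / (∑ y, w y) * ((M : ℝ) - n) / ℓ⌉₊ with hmu
  have hex : ∀ (w : Λ → ℝ) (n : ℕ) (q : Fin M), ∃ γ : Γ, (∀ y, 0 < w y) → n < M →
      (γ ∈ G w ⌊L₀ + 2 * t * ℓ * mu w n q / ((M : ℝ) - n)⌋₊ ∧ good q γ) := by
    intro w n q
    by_cases hw : ∀ y, 0 < w y
    · by_cases hn : n < M
      · have hMn : (0 : ℝ) < (M : ℝ) - n := by
          have : (n : ℝ) < M := by exact_mod_cast hn
          linarith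
        obtain ⟨γ, hγ⟩ := hgood w hw ⌊L₀ + 2 * t * ℓ * mu w n q / ((M : ℝ) - n)⌋₊ q (by
          apply Nat.le_floor
          refine (hR w hw q).trans ?_
          have h1 : (∑ y ∈ Neg q, w y) / (∑ y, w y) * ((M : ℝ) - n) / ℓ ≤ mu w n q :=
            Nat.le_ceil _
          have h2 : (∑ y ∈ Neg q, w y) / (∑ y, w y) ≤ ℓ * mu w n q / ((M : ℝ) - n) := by
            rw [le_div_iff₀ hMn]
            rw [div_le_iff₀ hℓR] at h1
            linarith
          have h3 := mul_le_mul_of_nonneg_left h2 (show (0 : ℝ) ≤ 2 * t by positivity)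
          have h4 : 2 * (t : ℝ) * (ℓ * mu w n q / ((M : ℝ) - n)) =
              2 * t * ℓ * mu w n q / ((M : ℝ) - n) := by ring
          linarith)
        exact ⟨γ, fun _ _ => hγ⟩
      · exact ⟨hne.some, fun _ h => absurd h hn⟩
    · exact ⟨hne.some, fun h => absurd h hw⟩
  choose c hc using hex
  have hcw : ∀ w : Λ → ℝ, (∀ y, 0 < w y) → ∀ n < M, ∀ q,
      ∑ y ∈ cr (c w n q), w y ≤ ρ * ∑ y, w y :=
    fun w hw n hn q => hG w hw _ _ (hc w n q hw hn).1
  -- states
  set st : Equiv.Perm (Fin M) → ℕ → Λ → ℝ := fun π n => enc2St cr c (enc2Ext hM π) n with hst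
  have hstpos : ∀ π n y, 0 < st π n y := fun π n y => enc2St_pos _ _ _ _ _
  set lam : Equiv.Perm (Fin M) → Fin M → ℝ := fun π i =>
    (∑ y ∈ Neg (π i), st π i y) / (∑ y, st π i y) * ((M : ℝ) - i) with hlam
  have hlam0 : ∀ π i, 0 ≤ lam π i := by
    intro π i
    have hMi : (0 : ℝ) ≤ (M : ℝ) - i := by
      have : ((i : ℕ) : ℝ) < M := by exact_mod_cast i.2
      linarith
    exact mul_nonneg (div_nonneg (Finset.sum_nonneg fun y _ => (hstpos _ _ _).le)
      (Finset.sum_nonneg fun y _ => (hstpos _ _ _).le)) hMi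
  have hkey : ∑ π, ∑ i, lam π i ≤ M * (M.factorial * ℓ) := by
    rw [Finset.sum_comm]
    calc ∑ i, ∑ π, lam π i ≤ ∑ _i : Fin M, (M.factorial * ℓ : ℝ) := by
          refine Finset.sum_le_sum fun i _ => ?_
          refine enc2_average Neg ℓ hℓ i (fun π => st π i) (fun π y => hstpos π i y) ?_
          intro π π' h
          apply enc2St_congr
          intro k hk
          have hkM : k < M := hk.trans i.2
          have e1 := enc2Ext_coe hM π ⟨k, hkM⟩
          have e2 := enc2Ext_coe hM π' ⟨k, hkM⟩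
          simp only at e1 e2
          rw [e1, e2]
          exact h ⟨k, hkM⟩ hk
      _ = M * (M.factorial * ℓ) := by
          rw [Finset.sum_const, nsmul_eq_mul, Finset.card_univ, Fintype.card_fin]
  set T : Finset (Equiv.Perm (Fin M)) := univ.filter (fun π => ∑ i, lam π i ≤ 2 * M * ℓ) with hT
  set B : Finset (Equiv.Perm (Fin M)) := univ.filter (fun π => ¬ ∑ i, lam π i ≤ 2 * M * ℓ) with hB
  have hTB : T.card + B.card = M.factorial := by
    rw [hT, hB, Finset.card_filter_add_card_filter_not, Finset.card_univ, Fintype.card_perm,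
      Fintype.card_fin]
  have hMR : (0 : ℝ) < M := by exact_mod_cast hM
  have hBcard : 2 * B.card ≤ M.factorial := by
    have h1 : (B.card : ℝ) * (2 * M * ℓ) ≤ M * (M.factorial * ℓ) := by
      calc (B.card : ℝ) * (2 * M * ℓ) = ∑ _π ∈ B, (2 * M * ℓ : ℝ) := by
            rw [Finset.sum_const, nsmul_eq_mul]
        _ ≤ ∑ π ∈ B, ∑ i, lam π i := by
            refine Finset.sum_le_sum fun π hπ => ?_
            rw [hB, Finset.mem_filter] at hπ
            exact (not_le.1 hπ.2).le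
        _ ≤ ∑ π, ∑ i, lam π i :=
            Finset.sum_le_sum_of_subset_of_nonneg (Finset.subset_univ _)
              (fun π _ _ => Finset.sum_nonneg fun i _ => hlam0 π i)
        _ ≤ _ := hkey
    have h2 : (2 * B.card : ℝ) * (M * ℓ) ≤ M.factorial * (M * ℓ) := by linarith
    have h3 := le_of_mul_le_mul_right h2 (by positivity)
    exact_mod_cast h3
  have hTcard : M.factorial ≤ 2 * T.card := by omega
  refine hTcard.trans (Nat.mul_le_mul_left 2 ?_)
  rw [← Set.ncard_coe_finset]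
  refine Set.ncard_le_ncard ?_ (Set.toFinite _)
  intro π hπ
  rw [Finset.mem_coe, hT, Finset.mem_filter] at hπ
  have hcode : ∀ i : Fin M, enc2Ext hM π i = π i := enc2Ext_coe hM π
  refine ⟨fun i => c (st π i) i (π i), fun i => mu (st π i) i (π i), ?_, ?_, ?_, ?_⟩
  · have h1 : ∀ i : Fin M, ((mu (st π i) i (π i) : ℕ) : ℝ) ≤ lam π i / ℓ + 1 := by
      intro i
      have h2 : 0 ≤ lam π i / ℓ := div_nonneg (hlam0 π i) hℓR.le
      exact (Nat.ceil_lt_add_one h2).le
    have h3 : ((∑ i : Fin M, mu (st π i) i (π i) : ℕ) : ℝ) ≤ 3 * M := by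
      rw [Nat.cast_sum]
      calc ∑ i : Fin M, ((mu (st π i) i (π i) : ℕ) : ℝ) ≤ ∑ i : Fin M, (lam π i / ℓ + 1) :=
            Finset.sum_le_sum fun i _ => h1 i
        _ = (∑ i, lam π i) / ℓ + M := by
            rw [Finset.sum_add_distrib, Finset.sum_div, Finset.sum_const, nsmul_eq_mul,
              Finset.card_univ, Fintype.card_fin, mul_one]
        _ ≤ 2 * M + M := by
            have : (∑ i, lam π i) / ℓ ≤ 2 * M := by
              rw [div_le_iff₀ hℓR]
              linarith [hπ.2]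
            linarith
        _ = 3 * M := by ring
    exact_mod_cast h3
  · intro i
    have h1 : (fun j : Fin i => c (st π j) j (π ⟨j, j.2.trans i.2⟩)) =
        (fun j : Fin i => c (enc2St cr c (enc2Ext hM π) j) j (enc2Ext hM π j)) := by
      funext j
      have e1 := enc2Ext_coe hM π ⟨j, j.2.trans i.2⟩
      simp only at e1
      rw [e1]
    have h2 : wt2 cr (fun j : Fin i => c (st π j) j (π ⟨j, j.2.trans i.2⟩)) = st π i := by
      rw [h1, enc2St_eq_wt2]
    show _ ∈ G (wt2 cr (fun j : Fin i => c (st π j) j (π ⟨j, j.2.trans i.2⟩))) _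
    rw [h2]
    exact (hc (st π i) i (π i) (hstpos π i) i.2).1
  · intro i
    exact (hc (st π i) i (π i) (hstpos π i) i.2).2
  · intro y
    have h1 : (fun j : Fin M => c (st π j) j (π j)) =
        (fun j : Fin M => c (enc2St cr c (enc2Ext hM π) j) j (enc2Ext hM π j)) := by
      funext j
      rw [enc2Ext_coe hM π j]
    have h2 : wt2 cr (fun j : Fin M => c (st π j) j (π j)) = st π M := by
      rw [h1, enc2St_eq_wt2]
    have h3 := congrFun h2 y
    unfold wt2 at h3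
    rw [h3]
    refine le_trans ?_ (enc2St_sum_le cr c (enc2Ext hM π) ρ hρ hcw M le_rfl)
    exact Finset.single_le_sum (f := fun y => st π M y) (fun y _ => (hstpos π M y).le)
      (Finset.mem_univ y)

end Pool.Agent.H7.UB
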