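import Pool.Agent.H7.UB.Univ
import Pool.Agent.H7.UB.Tools

/-!
# MP_18b2cf_co, upper bound: counting the samples (modules KC and LC)
-/

set_option autoImplicit false

namespace Pool.Agent.H7.UB

open Finset Matrix MvPolynomial

namespace KL

section map

variable {R S : Type*} [CommRing R] [CommRing S] (φ : R →+* S) {d n : ℕ}

theorem cross_map (u : Fin d → Fin (d + 1) → R) (i : Fin (d + 1)) :
    cross (fun a j => φ (u a j)) i = φ (cross u i) := by
  unfold cross
  rw [RingHom.map_det]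
  congr 1
  ext a b
  refine Fin.cases ?_ (fun a => ?_) a
  · show (Pi.single i (1 : S) : Fin (d + 1) → S) b = φ ((Pi.single i (1 : R) : Fin (d + 1) → R) b)
    rw [Pi.single_apply, Pi.single_apply]
    split_ifs
    · rw [map_one]
    · rw [map_zero]
  · rfl

theorem stdb_map (l i : Fin (d + 1)) : (stdb l : Fin (d + 1) → S) i = φ ((stdb l : _ → R) i) := by
  unfold stdb
  rw [Pi.single_apply, Pi.single_apply]
  split_ifs
  · rw [map_one]
  · rw [map_zero]

theorem box_map (l i : Fin (d + 1)) : (box l : Fin (d + 1) → S) i = φ ((box l : _ → R) i) := by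
  have := stdb_map (S := S) φ l i
  unfold stdb at this
  unfold box
  rw [map_add, map_one, this]

theorem v0_map (X : Fin n → Fin (d + 1) → R) (p : L0 d n) (i : Fin (d + 1)) :
    v0 (fun s j => φ (X s j)) p i = φ (v0 X p i) := by
  cases p with
  | inl s => rfl
  | inr l => exact stdb_map φ l i

theorem sgn_map (b : Bool) (u : Fin (d + 1) → R) (i : Fin (d + 1)) :
    sgn b (fun j => φ (u j)) i = φ (sgn b u i) := by
  cases b
  · show - φ (u i) = φ (- u i)
    rw [map_neg]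
  · rfl

theorem cvec_map {I J : Type} (y : I → Fin (d + 1) → R) (β : J → Fin (d + 1) → R)
    (y' : I → Fin (d + 1) → S) (β' : J → Fin (d + 1) → S) (hy : ∀ a i, y' a i = φ (y a i))
    (hβ : ∀ a i, β' a i = φ (β a i)) (p : (Fin d → I ⊕ J) × Bool) (i : Fin (d + 1)) :
    cvec y' β' p i = φ (cvec y β p i) := by
  unfold cvec
  have e : (cross fun a => Sum.elim y' β' (p.1 a)) =
      fun j => φ ((cross fun a => Sum.elim y β (p.1 a)) j) := by
    funext j
    rw [← cross_map]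
    congr 1
    funext a i
    cases p.1 a with
    | inl a => exact hy a i
    | inr a => exact hβ a i
  rw [e, sgn_map]

theorem v1_map (X : Fin n → Fin (d + 1) → R) (p : L1 d n) (i : Fin (d + 1)) :
    v1 (fun s j => φ (X s j)) p i = φ (v1 X p i) :=
  cvec_map φ _ _ _ _ (fun _ _ => rfl) (stdb_map φ) p i

theorem v2_map (X : Fin n → Fin (d + 1) → R) (p : L2 d n) (i : Fin (d + 1)) :
    v2 (fun s j => φ (X s j)) p i = φ (v2 X p i) :=
  cvec_map φ _ _ _ _ (v1_map φ X) (box_map φ) p i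

theorem v3_map (X : Fin n → Fin (d + 1) → R) (p : L3 d n) (i : Fin (d + 1)) :
    v3 (fun s j => φ (X s j)) p i = φ (v3 X p i) := by
  unfold v3
  rw [← cross_map]
  congr 1
  funext a i
  exact v2_map φ X _ _

theorem v2'_map (X : Fin n → Fin (d + 1) → R) (p : L2' d n) (i : Fin (d + 1)) :
    v2' (fun s j => φ (X s j)) p i = φ (v2' X p i) := by
  unfold v2'
  rw [← cross_map]
  congr 1
  funext a i
  exact v1_map φ X _ _

theorem vU_map (X : Fin n → Fin (d + 1) → R) (p : U d n) (i : Fin (d + 1)) :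
    vU (fun s j => φ (X s j)) p i = φ (vU X p i) := by
  rcases p with p | p | p | p | p | p
  · exact v0_map φ X p i
  · exact v1_map φ X p i
  · exact v2_map φ X p i
  · exact v3_map φ X p i
  · exact v2'_map φ X p i
  · exact box_map φ p i

end map

section deg

variable {σ : Type} {d n : ℕ}

theorem det_deg {m : ℕ} {N : ℕ} (A : Matrix (Fin N) (Fin N) (MvPolynomial σ ℝ))
    (h : ∀ i j, (A i j).totalDegree ≤ m) : A.det.totalDegree ≤ N * m := by
  rw [Matrix.det_apply']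
  refine totalDegree_finsetSum_le (fun s _ => ?_)
  refine (totalDegree_mul _ _).trans ?_
  have h1 : (((Equiv.Perm.sign s : ℤˣ) : ℤ) : MvPolynomial σ ℝ).totalDegree = 0 := by
    have : (((Equiv.Perm.sign s : ℤˣ) : ℤ) : MvPolynomial σ ℝ) =
      C (((Equiv.Perm.sign s : ℤˣ) : ℤ) : ℝ) := by simp
    rw [this, totalDegree_C]
  rw [h1, zero_add]
  refine (totalDegree_finsetProd _ _).trans ?_
  refine (Finset.sum_le_card_nsmul _ _ m (fun i _ => h _ _)).trans ?_
  simp

theorem single_deg (l i : Fin (d + 1)) :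
    ((Pi.single l 1 : Fin (d + 1) → MvPolynomial σ ℝ) i).totalDegree = 0 := by
  rw [Pi.single_apply]
  split_ifs
  · exact totalDegree_one
  · exact totalDegree_zero

theorem cross_deg {m : ℕ} (u : Fin d → Fin (d + 1) → MvPolynomial σ ℝ)
    (h : ∀ a j, (u a j).totalDegree ≤ m) (i : Fin (d + 1)) :
    (cross u i).totalDegree ≤ (d + 1) * m := by
  refine det_deg _ (fun a b => ?_)
  refine Fin.cases ?_ (fun a => ?_) a
  · show ((Pi.single i 1 : Fin (d + 1) → MvPolynomial σ ℝ) b).totalDegree ≤ m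
    rw [single_deg]
    exact Nat.zero_le _
  · exact h a b

theorem box_deg (l i : Fin (d + 1)) : (box l i : MvPolynomial σ ℝ).totalDegree = 0 := by
  unfold box
  refine Nat.le_zero.1 ((totalDegree_add _ _).trans ?_)
  rw [single_deg, totalDegree_one]
  exact le_rfl

theorem cvec_deg {I J : Type} {m : ℕ} (y : I → Fin (d + 1) → MvPolynomial σ ℝ)
    (β : J → Fin (d + 1) → MvPolynomial σ ℝ) (hy : ∀ a i, (y a i).totalDegree ≤ m)
    (hβ : ∀ a i, (β a i).totalDegree ≤ m) (p : (Fin d → I ⊕ J) × Bool) (i : Fin (d + 1)) :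
    (cvec y β p i).totalDegree ≤ (d + 1) * m := by
  have h1 : ((cross fun a => Sum.elim y β (p.1 a)) i).totalDegree ≤ (d + 1) * m := by
    refine cross_deg _ (fun a j => ?_) i
    cases p.1 a with
    | inl a => exact hy a j
    | inr a => exact hβ a j
  unfold cvec sgn
  cases p.2
  · show (- (cross fun a => Sum.elim y β (p.1 a)) i).totalDegree ≤ (d + 1) * m
    rw [totalDegree_neg]
    exact h1
  · exact h1

variable {X : Fin n → Fin (d + 1) → MvPolynomial σ ℝ} (hX : ∀ s i, (X s i).totalDegree ≤ 1)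

include hX

theorem v1_deg (p : L1 d n) (i : Fin (d + 1)) : (v1 X p i).totalDegree ≤ (d + 1) * 1 :=
  cvec_deg _ _ hX (fun a i => by unfold stdb; rw [single_deg]; exact Nat.zero_le _) p i

theorem v2_deg (p : L2 d n) (i : Fin (d + 1)) :
    (v2 X p i).totalDegree ≤ (d + 1) * ((d + 1) * 1) :=
  cvec_deg _ _ (v1_deg hX) (fun a i => by rw [box_deg]; exact Nat.zero_le _) p i

theorem vU_deg (p : U d n) (i : Fin (d + 1)) : (vU X p i).totalDegree ≤ (d + 1) ^ 3 := by
  have h1 : (d + 1) * 1 ≤ (d + 1) ^ 3 := by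
    rw [mul_one]; exact Nat.le_self_pow (by norm_num) _
  have h2 : (d + 1) * ((d + 1) * 1) ≤ (d + 1) ^ 3 := by
    rw [mul_one, ← pow_two]; exact Nat.pow_le_pow_right (Nat.succ_pos d) (by norm_num)
  have h3 : (d + 1) * ((d + 1) * ((d + 1) * 1)) ≤ (d + 1) ^ 3 := by
    rw [mul_one]; exact le_of_eq (by ring)
  rcases p with p | p | p | p | p | p
  · have h0 : (v0 X p i).totalDegree ≤ 1 := by
      cases p with
      | inl s => exact hX s i
      | inr l =>
        show ((Pi.single l 1 : Fin (d + 1) → MvPolynomial σ ℝ) i).totalDegree ≤ 1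
        rw [single_deg]; exact Nat.zero_le _
    exact h0.trans (Nat.one_le_pow _ _ (Nat.succ_pos d))
  · exact (v1_deg hX p i).trans h1
  · exact (v2_deg hX p i).trans h2
  · exact (cross_deg _ (fun a j => v2_deg hX (p a) j) i).trans h3
  · exact (cross_deg _ (fun a j => v1_deg hX (p a) j) i).trans h2
  · show (box p i : MvPolynomial σ ℝ).totalDegree ≤ _
    rw [box_deg]; exact Nat.zero_le _

end deg

section vars

variable {σ : Type} {d n : ℕ} (S : Subalgebra ℝ (MvPolynomial σ ℝ))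

theorem det_mem {N : ℕ} (A : Matrix (Fin N) (Fin N) (MvPolynomial σ ℝ))
    (h : ∀ i j, A i j ∈ S) : A.det ∈ S := by
  rw [Matrix.det_apply']
  refine sum_mem (fun s _ => mul_mem (intCast_mem S _) (prod_mem (fun i _ => h _ _)))

theorem single_mem (l i : Fin (d + 1)) :
    ((Pi.single l 1 : Fin (d + 1) → MvPolynomial σ ℝ) i) ∈ S := by
  rw [Pi.single_apply]
  split_ifs
  · exact one_mem S
  · exact zero_mem S

theorem cross_mem (u : Fin d → Fin (d + 1) → MvPolynomial σ ℝ)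
    (h : ∀ a j, u a j ∈ S) (i : Fin (d + 1)) : cross u i ∈ S := by
  refine det_mem S _ (fun a b => ?_)
  refine Fin.cases ?_ (fun a => ?_) a
  · exact single_mem S i b
  · exact h a b

theorem v1_mem {X : Fin n → Fin (d + 1) → MvPolynomial σ ℝ} (hX : ∀ s i, X s i ∈ S)
    (p : L1 d n) (i : Fin (d + 1)) : v1 X p i ∈ S := by
  have h1 : (cross fun a => Sum.elim X stdb (p.1 a)) i ∈ S := by
    refine cross_mem S _ (fun a j => ?_) i
    cases p.1 a with
    | inl a => exact hX a j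
    | inr a => exact single_mem S a j
  unfold v1 cvec sgn
  cases p.2
  · exact neg_mem h1
  · exact h1

end vars

/-- coordinates of a family of points with coordinate sum one -/
def pt {R : Type*} [CommRing R] {d : ℕ} {Q : Type} (z : Q × Fin d → R) (q : Q) : Fin (d + 1) → R :=
  Fin.cons (1 - ∑ j, z (q, j)) (fun j => z (q, j))

theorem pt_map {R S : Type*} [CommRing R] [CommRing S] (φ : R →+* S) {d : ℕ} {Q : Type}
    (z : Q × Fin d → R) (q : Q) (i : Fin (d + 1)) :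
    pt (fun x => φ (z x)) q i = φ (pt z q i) := by
  refine Fin.cases ?_ (fun i => ?_) i
  · show 1 - ∑ j, φ (z (q, j)) = φ (1 - ∑ j, z (q, j))
    rw [map_sub, map_one, map_sum]
  · rfl

theorem pt_of_sum {d : ℕ} {Q : Type} (X : Q → Fin (d + 1) → ℝ) (h : ∀ q, ∑ i, X q i = 1) :
    X = pt (fun x : Q × Fin d => X x.1 x.2.succ) := by
  funext q i
  refine Fin.cases ?_ (fun i => ?_) i
  · show X q 0 = 1 - ∑ j : Fin d, X q j.succ
    have := h q
    rw [Fin.sum_univ_succ] at this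
    linarith
  · rfl

theorem pt_deg {σ : Type} {d : ℕ} {Q : Type} (z : Q × Fin d → σ) (q : Q) (i : Fin (d + 1)) :
    (pt (fun x => (X (z x) : MvPolynomial σ ℝ)) q i).totalDegree ≤ 1 := by
  refine Fin.cases ?_ (fun i => ?_) i
  · show (1 - ∑ j, (X (z (q, j)) : MvPolynomial σ ℝ)).totalDegree ≤ 1
    refine (totalDegree_sub _ _).trans ?_
    rw [totalDegree_one]
    refine max_le (Nat.zero_le _) (totalDegree_finsetSum_le (fun j _ => ?_))
    rw [totalDegree_X]
  · show (X (z (q, i)) : MvPolynomial σ ℝ).totalDegree ≤ 1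
    rw [totalDegree_X]

theorem pt_mem {σ : Type} {d : ℕ} {Q : Type} (S : Subalgebra ℝ (MvPolynomial σ ℝ))
    (z : Q × Fin d → σ) (q : Q) (h : ∀ j, (X (z (q, j)) : MvPolynomial σ ℝ) ∈ S)
    (i : Fin (d + 1)) : pt (fun x => (X (z x) : MvPolynomial σ ℝ)) q i ∈ S := by
  refine Fin.cases ?_ (fun i => ?_) i
  · exact sub_mem (one_mem S) (sum_mem (fun j _ => h j))
  · exact h i

/-- polynomially bounded functions -/
def PB (f : ℕ → ℕ) : Prop := ∃ C : ℕ, ∀ n, f n ≤ C * (n + 1) ^ C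

theorem PB.const (c : ℕ) : PB (fun _ => c) :=
  ⟨c, fun n => Nat.le_mul_of_pos_right c (Nat.pow_pos (Nat.succ_pos n))⟩

theorem PB.id : PB (fun n => n) := ⟨1, fun n => by simp⟩

theorem PB.add {f g : ℕ → ℕ} (hf : PB f) (hg : PB g) : PB (fun n => f n + g n) := by
  obtain ⟨a, ha⟩ := hf
  obtain ⟨b, hb⟩ := hg
  refine ⟨a + b, fun n => ?_⟩
  have h1 : (n + 1) ^ a ≤ (n + 1) ^ (a + b) := Nat.pow_le_pow_right (Nat.succ_pos n) (by omega)
  have h2 : (n + 1) ^ b ≤ (n + 1) ^ (a + b) := Nat.pow_le_pow_right (Nat.succ_pos n) (by omega)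
  calc f n + g n ≤ a * (n + 1) ^ a + b * (n + 1) ^ b := Nat.add_le_add (ha n) (hb n)
    _ ≤ a * (n + 1) ^ (a + b) + b * (n + 1) ^ (a + b) :=
      Nat.add_le_add (Nat.mul_le_mul_left a h1) (Nat.mul_le_mul_left b h2)
    _ = (a + b) * (n + 1) ^ (a + b) := by ring

theorem PB.mul {f g : ℕ → ℕ} (hf : PB f) (hg : PB g) : PB (fun n => f n * g n) := by
  obtain ⟨a, ha⟩ := hf
  obtain ⟨b, hb⟩ := hg
  refine ⟨a * b + a + b, fun n => ?_⟩
  calc f n * g n ≤ (a * (n + 1) ^ a) * (b * (n + 1) ^ b) := Nat.mul_le_mul (ha n) (hb n)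
    _ = (a * b) * (n + 1) ^ (a + b) := by rw [pow_add]; ring
    _ ≤ (a * b + a + b) * (n + 1) ^ (a * b + a + b) :=
      Nat.mul_le_mul (by omega) (Nat.pow_le_pow_right (Nat.succ_pos n) (by omega))

theorem PB.pow {f : ℕ → ℕ} (hf : PB f) (k : ℕ) : PB (fun n => f n ^ k) := by
  induction k with
  | zero => exact PB.const 1
  | succ k ih =>
    have := ih.mul hf
    simpa only [pow_succ] using this

theorem exp_le (n : ℕ) : Real.exp n ≤ 3 ^ n := by
  rw [← Real.exp_one_pow]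
  refine pow_le_pow_left₀ (Real.exp_pos 1).le ?_ n
  have := Real.exp_one_lt_d9
  linarith

/-- arithmetic and geometric means -/
theorem amgm {M : ℕ} (hM : 1 ≤ M) (z : Fin M → ℝ) (hz : ∀ i, 0 ≤ z i) :
    ∏ i, z i ≤ ((∑ i, z i) / M) ^ M := by
  have hM0 : (M : ℝ) ≠ 0 := by
    have : (1 : ℝ) ≤ M := by exact_mod_cast hM
    positivity
  have h := Real.geom_mean_le_arith_mean_weighted univ (fun _ : Fin M => (1 / M : ℝ)) z
    (fun i _ => by positivity) (by simp [hM0]) (fun i _ => hz i)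
  have h1 : ∏ i, z i = (∏ i, z i ^ (1 / M : ℝ)) ^ M := by
    rw [← Finset.prod_pow]
    refine Finset.prod_congr rfl (fun i _ => ?_)
    rw [← Real.rpow_natCast, ← Real.rpow_mul (hz i), one_div_mul_cancel hM0, Real.rpow_one]
  have h2 : ∑ i, (1 / M : ℝ) * z i = (∑ i, z i) / M := by
    rw [← Finset.mul_sum]; ring
  rw [h1, ← h2]
  exact pow_le_pow_left₀ (Finset.prod_nonneg (fun i _ => Real.rpow_nonneg (hz i) _)) h M

theorem count_le {σ ι : Type} [Fintype σ] [DecidableEq σ] [Fintype ι]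
    (P : ι → MvPolynomial σ ℝ) (D : ℕ) (hD : ∀ i, (P i).totalDegree ≤ D)
    (A : Set (ι → SignType)) (hA : ∀ s ∈ A, ∃ z, ∀ i, s i = SignType.sign (eval z (P i))) :
    (A.ncard : ℝ) ≤ Real.exp (Fintype.card σ) *
        ∏ j : σ, (2 * D * (univ.filter (fun i => j ∈ (P i).vars)).card + 3 : ℝ) := by
  refine le_trans ?_ (sign_count P D hD)
  have h2 := Set.ncard_le_ncard (s := A) (t := Set.range
    (fun x : σ → ℝ => fun i => SignType.sign (MvPolynomial.eval x (P i)))) ?_ (Set.toFinite _)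
  · exact_mod_cast h2
  · intro s hs
    obtain ⟨z, hz⟩ := hA s hs
    exact ⟨z, funext (fun i => (hz i).symm)⟩

theorem count_le' {σ ι : Type} [Fintype σ] [DecidableEq σ] [Fintype ι]
    (P : ι → MvPolynomial σ ℝ) (D : ℕ) (hD : ∀ i, (P i).totalDegree ≤ D)
    (A : Set (ι → SignType)) (hA : ∀ s ∈ A, ∃ z, ∀ i, s i = SignType.sign (eval z (P i))) :
    (A.ncard : ℝ) ≤ (3 * (2 * D * Fintype.card ι + 3)) ^ (Fintype.card σ) := by
  refine (count_le P D hD A hA).trans ?_
  rw [mul_pow]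
  refine mul_le_mul (exp_le _) ?_ (Finset.prod_nonneg (fun j _ => by positivity)) (by positivity)
  rw [← Finset.card_univ (α := σ), ← Finset.prod_const]
  refine Finset.prod_le_prod (fun j _ => by positivity) (fun j _ => ?_)
  have h4 : ((univ.filter (fun i => j ∈ (P i).vars)).card : ℝ) ≤ Fintype.card ι := by
    exact_mod_cast Finset.card_le_univ _
  have : (0 : ℝ) ≤ 2 * D := by positivity
  nlinarith

set_option synthInstance.maxSize 2000 in
/-- the polynomial bound of the universe -/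
theorem PB.univ (d c : ℕ) :
    PB (fun n => 3 * (c * Fintype.card (Fin (d + 1) → U d n) + 3)) := by
  have e0 : PB (fun n => Fintype.card (L0 d n)) := by
    have := PB.id.add (PB.const (d + 1))
    simpa [L0] using this
  have e1 : PB (fun n => Fintype.card (L1 d n)) := by
    have := (e0.pow d).mul (PB.const 2)
    simpa [L1] using this
  have e2 : PB (fun n => Fintype.card (L2 d n)) := by
    have := ((e1.add (PB.const (d + 1))).pow d).mul (PB.const 2)
    simpa [L2] using this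
  have e3 : PB (fun n => Fintype.card (L3 d n)) := by
    have := e2.pow d
    simpa [L3] using this
  have e4 : PB (fun n => Fintype.card (L2' d n)) := by
    have := e1.pow d
    simpa [L2'] using this
  have e5 : PB (fun n => Fintype.card (U d n)) := by
    have := e0.add (e1.add (e2.add (e3.add (e4.add (PB.const (d + 1))))))
    simpa [U] using this
  have e6 : PB (fun n => Fintype.card (Fin (d + 1) → U d n)) := by
    have := e5.pow (d + 1)
    simpa using this
  exact (PB.const 3).mul (((PB.const c).mul e6).add (PB.const 3))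

end KL

set_option synthInstance.maxSize 2000 in
/-- (KC) Number of classes of samples. -/
theorem card_chi (d : ℕ) : ∃ C : ℕ, ∀ n : ℕ,
    ({χ | ∃ X : Fin n → Fin (d + 1) → ℝ, (∀ s, ∑ i, X s i = 1) ∧ χ = chi X}.ncard : ℝ) ≤
      ((C : ℝ) * (n + 1) ^ C) ^ (d * n) := by
  obtain ⟨C, hC⟩ := KL.PB.univ d (2 * ((d + 1) * (d + 1) ^ 3))
  refine ⟨C, fun n => ?_⟩
  let XP : Fin n → Fin (d + 1) → MvPolynomial (Fin n × Fin d) ℝ :=
    KL.pt (fun x => MvPolynomial.X x)
  let P : (Fin (d + 1) → U d n) → MvPolynomial (Fin n × Fin d) ℝ :=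
    fun f => Matrix.det (Matrix.of (fun i => vU XP (f i)))
  have hdeg : ∀ f, (P f).totalDegree ≤ (d + 1) * (d + 1) ^ 3 := fun f =>
    KL.det_deg _ (fun i j => KL.vU_deg (fun s i => KL.pt_deg (fun x => x) s i) (f i) j)
  have heval : ∀ (z : Fin n × Fin d → ℝ) f, MvPolynomial.eval z (P f) =
      Matrix.det (Matrix.of (fun i => vU (KL.pt z) (f i))) := by
    intro z f
    show MvPolynomial.eval z (Matrix.det (Matrix.of (fun i => vU XP (f i)))) = _
    rw [RingHom.map_det]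
    congr 1
    ext i j
    have h1 : KL.pt z = fun s j => MvPolynomial.eval z (XP s j) := by
      funext s j
      rw [← KL.pt_map]
      simp only [MvPolynomial.eval_X]
    rw [h1]
    exact (KL.vU_map (MvPolynomial.eval z) XP (f i) j).symm
  have h3 : Fintype.card (Fin n × Fin d) = d * n := by
    rw [Fintype.card_prod, Fintype.card_fin, Fintype.card_fin, mul_comm]
  have h1 := KL.count_le' P _ hdeg
    {χ | ∃ X : Fin n → Fin (d + 1) → ℝ, (∀ s, ∑ i, X s i = 1) ∧ χ = chi X} (by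
    rintro χ ⟨X, hX, rfl⟩
    refine ⟨fun x => X x.1 x.2.succ, fun f => ?_⟩
    rw [heval, ← KL.pt_of_sum X hX]
    rfl)
  rw [h3] at h1
  refine h1.trans (pow_le_pow_left₀ (by positivity) ?_ _)
  have h4 := hC n
  have h5 : ((3 * (2 * ((d + 1) * (d + 1) ^ 3) * Fintype.card (Fin (d + 1) → U d n) + 3) : ℕ) : ℝ) ≤
    ((C * (n + 1) ^ C : ℕ) : ℝ) := Nat.cast_le.2 h4
  push_cast at h5 ⊢
  exact h5

/-- The local matrices of the list. -/
def lmat {R : Type*} [CommRing R] {d n M : ℕ} (XS : Fin n → Fin (d + 1) → R)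
    (XM : Fin M → Fin (d + 1) → R) (Δ : Fin (d + 1) → L1 d n) (K : Finset (Fin M))
    (f : Fin (d + 1) → Fin (d + 1) ⊕ {q // q ∈ K}) : Matrix (Fin (d + 1)) (Fin (d + 1)) R :=
  Matrix.of (fun i => Sum.elim (fun a => Pi.single a (1 : R))
    (fun q a => v1 XS (Δ a) ⬝ᵥ XM q.1) (f i))

namespace KL

theorem lmat_map {R S : Type*} [CommRing R] [CommRing S] (φ : R →+* S) {d n M : ℕ}
    (XS : Fin n → Fin (d + 1) → R)
    (XM : Fin M → Fin (d + 1) → R) (Δ : Fin (d + 1) → L1 d n) (K : Finset (Fin M))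
    (f : Fin (d + 1) → Fin (d + 1) ⊕ {q // q ∈ K}) :
    lmat (fun s j => φ (XS s j)) (fun s j => φ (XM s j)) Δ K f =
      φ.mapMatrix (lmat XS XM Δ K f) := by
  ext i j
  show Sum.elim (fun a => Pi.single a (1 : S))
    (fun q a => v1 (fun s j => φ (XS s j)) (Δ a) ⬝ᵥ (fun j => φ (XM q.1 j))) (f i) j =
    φ (Sum.elim (fun a => Pi.single a (1 : R)) (fun q a => v1 XS (Δ a) ⬝ᵥ XM q.1) (f i) j)
  cases f i with
  | inl a => exact stdb_map φ a j
  | inr q =>
    show ∑ b, v1 (fun s j => φ (XS s j)) (Δ j) b * φ (XM q.1 b) =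
      φ (∑ b, v1 XS (Δ j) b * XM q.1 b)
    rw [map_sum]
    exact Finset.sum_congr rfl (fun b _ => by rw [map_mul, v1_map])

theorem lmat_deg {σ : Type} {d n M : ℕ} {XS : Fin n → Fin (d + 1) → MvPolynomial σ ℝ}
    {XM : Fin M → Fin (d + 1) → MvPolynomial σ ℝ} (hS : ∀ s i, (XS s i).totalDegree ≤ 1)
    (hM : ∀ s i, (XM s i).totalDegree ≤ 1) (Δ : Fin (d + 1) → L1 d n) (K : Finset (Fin M))
    (f : Fin (d + 1) → Fin (d + 1) ⊕ {q // q ∈ K}) :
    (lmat XS XM Δ K f).det.totalDegree ≤ (d + 1) * (d + 2) := by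
  refine det_deg _ (fun i j => ?_)
  show (Sum.elim (fun a => Pi.single a (1 : MvPolynomial σ ℝ))
    (fun q a => v1 XS (Δ a) ⬝ᵥ XM q.1) (f i) j).totalDegree ≤ d + 2
  cases f i with
  | inl a =>
    show ((Pi.single a 1 : Fin (d + 1) → MvPolynomial σ ℝ) j).totalDegree ≤ d + 2
    rw [single_deg]
    exact Nat.zero_le _
  | inr q =>
    show (∑ b, v1 XS (Δ j) b * XM q.1 b).totalDegree ≤ d + 2
    refine totalDegree_finsetSum_le (fun b _ => ?_)
    refine (totalDegree_mul _ _).trans ?_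
    have h1 := v1_deg hS (Δ j) b
    have h2 := hM q.1 b
    omega

theorem lmat_inl {R : Type*} [CommRing R] {d n M : ℕ}
    (XS : Fin n → Fin (d + 1) → R) (XM : Fin M → Fin (d + 1) → R) (Δ : Fin (d + 1) → L1 d n)
    (K : Finset (Fin M)) (f : Fin (d + 1) → Fin (d + 1) ⊕ {q // q ∈ K}) (i j a : Fin (d + 1))
    (h : f i = Sum.inl a) : lmat XS XM Δ K f i j = (Pi.single a 1 : Fin (d + 1) → R) j := by
  show Sum.elim (fun a => Pi.single a (1 : R))
    (fun q a => v1 XS (Δ a) ⬝ᵥ XM q.1) (f i) j = _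
  rw [h]
  rfl

theorem lmat_inr {R : Type*} [CommRing R] {d n M : ℕ}
    (XS : Fin n → Fin (d + 1) → R) (XM : Fin M → Fin (d + 1) → R) (Δ : Fin (d + 1) → L1 d n)
    (K : Finset (Fin M)) (f : Fin (d + 1) → Fin (d + 1) ⊕ {q // q ∈ K}) (i j : Fin (d + 1))
    (q : {q // q ∈ K})
    (h : f i = Sum.inr q) : lmat XS XM Δ K f i j = ∑ b, v1 XS (Δ j) b * XM q.1 b := by
  show Sum.elim (fun a => Pi.single a (1 : R))
    (fun q a => v1 XS (Δ a) ⬝ᵥ XM q.1) (f i) j = _
  rw [h]
  rfl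

theorem lmat_mem {σ : Type} {d n M : ℕ} (S : Subalgebra ℝ (MvPolynomial σ ℝ))
    {XS : Fin n → Fin (d + 1) → MvPolynomial σ ℝ}
    {XM : Fin M → Fin (d + 1) → MvPolynomial σ ℝ} (hS : ∀ s i, XS s i ∈ S)
    (Δ : Fin (d + 1) → L1 d n) (K : Finset (Fin M))
    (f : Fin (d + 1) → Fin (d + 1) ⊕ {q // q ∈ K})
    (hM : ∀ i q, f i = Sum.inr q → ∀ a, XM q.1 a ∈ S) :
    (lmat XS XM Δ K f).det ∈ S := by
  have key : ∀ i j, lmat XS XM Δ K f i j ∈ S := by
    intro i j
    cases h : f i with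
    | inl a =>
      rw [lmat_inl XS XM Δ K f i j a h]
      exact single_mem S a j
    | inr q =>
      rw [lmat_inr XS XM Δ K f i j q h]
      exact sum_mem (fun b _ => mul_mem (v1_mem S hS _ _) (hM i q h b))
  exact det_mem S (lmat XS XM Δ K f) key

/-- the number of labels of the list -/
theorem card_labels {d M : ℕ} {Θ : Type} [Fintype Θ] (K : Θ → Finset (Fin M)) (κ : ℕ)
    (hK : ∀ τ, (K τ).card ≤ κ) :
    Fintype.card (Σ τ : Θ, (Fin (d + 1) → Fin (d + 1) ⊕ {q // q ∈ K τ})) ≤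
      Fintype.card Θ * ((d + 1) ^ (d + 1) * (κ + 1) ^ (d + 1)) := by
  rw [Fintype.card_sigma]
  have h : ∀ τ ∈ (univ : Finset Θ), Fintype.card (Fin (d + 1) → Fin (d + 1) ⊕ {q // q ∈ K τ}) ≤
      (d + 1) ^ (d + 1) * (κ + 1) ^ (d + 1) := by
    intro τ _
    rw [Fintype.card_fun, Fintype.card_fin, Fintype.card_sum, Fintype.card_fin,
      Fintype.card_coe, ← mul_pow]
    refine Nat.pow_le_pow_left ?_ _
    have := hK τ
    nlinarith
  refine (Finset.sum_le_card_nsmul _ _ _ h).trans ?_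
  rw [Finset.card_univ, smul_eq_mul]

/-- the sum of the multiplicities -/
theorem sum_mult {d M : ℕ} {Θ : Type} [Fintype Θ] (K : Θ → Finset (Fin M)) :
    ∑ q : Fin M, (univ.filter (fun p : (Σ τ : Θ, (Fin (d + 1) → Fin (d + 1) ⊕ {q // q ∈ K τ})) =>
      ∃ i q', p.2 i = Sum.inr q' ∧ q'.1 = q)).card ≤
      (d + 1) * Fintype.card (Σ τ : Θ, (Fin (d + 1) → Fin (d + 1) ⊕ {q // q ∈ K τ})) := by
  classical
  have h1 : ∀ q : Fin M, (univ.filter (fun p : (Σ τ : Θ, (Fin (d + 1) → Fin (d + 1) ⊕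
      {q // q ∈ K τ})) => ∃ i q', p.2 i = Sum.inr q' ∧ q'.1 = q)).card =
      ∑ p : (Σ τ : Θ, (Fin (d + 1) → Fin (d + 1) ⊕ {q // q ∈ K τ})),
        if (∃ i q', p.2 i = Sum.inr q' ∧ q'.1 = q) then 1 else 0 := fun q => by
    rw [Finset.card_filter]
  simp_rw [h1]
  rw [Finset.sum_comm]
  have h2 : ∀ p ∈ (univ : Finset (Σ τ : Θ, (Fin (d + 1) → Fin (d + 1) ⊕ {q // q ∈ K τ}))),
      (∑ q : Fin M, if (∃ i q', p.2 i = Sum.inr q' ∧ q'.1 = q) then 1 else 0) ≤ d + 1 := by
    intro p _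
    rw [← Finset.card_filter]
    have h3 : (univ.filter (fun q : Fin M => ∃ i q', p.2 i = Sum.inr q' ∧ q'.1 = q)) ⊆
        (univ : Finset (Fin (d + 1))).biUnion
          (fun i => univ.filter (fun q => ∃ q', p.2 i = Sum.inr q' ∧ q'.1 = q)) := by
      intro q hq
      rw [Finset.mem_filter] at hq
      obtain ⟨_, i, q', h4, h5⟩ := hq
      rw [Finset.mem_biUnion]
      exact ⟨i, Finset.mem_univ _, Finset.mem_filter.2 ⟨Finset.mem_univ _, q', h4, h5⟩⟩
    refine (Finset.card_le_card h3).trans (Finset.card_biUnion_le.trans ?_)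
    refine (Finset.sum_le_card_nsmul _ _ 1 (fun i _ => ?_)).trans ?_
    · rw [Finset.card_le_one]
      intro a ha b hb
      obtain ⟨_, a', h4, h5⟩ := Finset.mem_filter.1 ha
      obtain ⟨_, b', h6, h7⟩ := Finset.mem_filter.1 hb
      rw [h4] at h6
      rw [← h5, ← h7, Sum.inr_injective h6]
    · simp
  refine (Finset.sum_le_card_nsmul _ _ _ h2).trans ?_
  rw [Finset.card_univ, smul_eq_mul, mul_comm]

end KL

/-- (LC) Number of sign vectors of the list. -/
theorem list_count (d : ℕ) (hd : 1 ≤ d) : ∃ C : ℕ, ∀ (n M : ℕ) (_ : 1 ≤ M) (Θ : Type) [Fintype Θ]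
    (Δ : Θ → Fin (d + 1) → L1 d n) (K : Θ → Finset (Fin M)) (κ : ℕ)
    (_ : ∀ τ, (K τ).card ≤ κ),
    ({s : (Σ τ : Θ, (Fin (d + 1) → Fin (d + 1) ⊕ {q // q ∈ K τ})) → SignType |
      ∃ (XS : Fin n → Fin (d + 1) → ℝ) (XM : Fin M → Fin (d + 1) → ℝ),
        (∀ i, ∑ l, XS i l = 1) ∧ (∀ i, ∑ l, XM i l = 1) ∧
        s = fun p => sg (lmat XS XM (Δ p.1) (K p.1) p.2).det}.ncard : ℝ) ≤
      ((C : ℝ) * (Fintype.card Θ * (κ + 1) ^ C + 1)) ^ (d * n) *
      ((C : ℝ) * (Fintype.card Θ * (κ + 1) ^ C / M + 1)) ^ (d * M) := by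
  refine ⟨6 * ((d + 1) * (d + 2)) * (d + 1) * (d + 1) ^ (d + 1) + 9 + (d + 1),
    fun n M hM Θ _ Δ K κ hK => ?_⟩
  set D : ℕ := (d + 1) * (d + 2) with hD
  set C : ℕ := 6 * D * (d + 1) * (d + 1) ^ (d + 1) + 9 + (d + 1) with hC
  set N : ℕ := Fintype.card (Σ τ : Θ, (Fin (d + 1) → Fin (d + 1) ⊕ {q // q ∈ K τ})) with hN
  let XP : Fin n ⊕ Fin M → Fin (d + 1) → MvPolynomial ((Fin n ⊕ Fin M) × Fin d) ℝ :=
    KL.pt (fun x => MvPolynomial.X x)
  let XS : Fin n → Fin (d + 1) → MvPolynomial ((Fin n ⊕ Fin M) × Fin d) ℝ :=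
    fun s => XP (Sum.inl s)
  let XM : Fin M → Fin (d + 1) → MvPolynomial ((Fin n ⊕ Fin M) × Fin d) ℝ :=
    fun s => XP (Sum.inr s)
  let P : (Σ τ : Θ, (Fin (d + 1) → Fin (d + 1) ⊕ {q // q ∈ K τ})) →
      MvPolynomial ((Fin n ⊕ Fin M) × Fin d) ℝ :=
    fun p => (lmat XS XM (Δ p.1) (K p.1) p.2).det
  have hdeg : ∀ p, (P p).totalDegree ≤ D := fun p =>
    KL.lmat_deg (fun s i => KL.pt_deg (fun x => x) _ i) (fun s i => KL.pt_deg (fun x => x) _ i)
      _ _ _
  have heval : ∀ (z : (Fin n ⊕ Fin M) × Fin d → ℝ) p, MvPolynomial.eval z (P p) =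
      (lmat (fun s => KL.pt z (Sum.inl s)) (fun s => KL.pt z (Sum.inr s))
        (Δ p.1) (K p.1) p.2).det := by
    intro z p
    show MvPolynomial.eval z (lmat XS XM (Δ p.1) (K p.1) p.2).det = _
    rw [RingHom.map_det, ← KL.lmat_map]
    have h1 : KL.pt z = fun s j => MvPolynomial.eval z (XP s j) := by
      funext s j
      rw [← KL.pt_map]
      simp only [MvPolynomial.eval_X]
    rw [h1]
  have hvars : ∀ (q : Fin M) (a : Fin d) p, (Sum.inr q, a) ∈ (P p).vars →
      ∃ i q', p.2 i = Sum.inr q' ∧ q'.1 = q := by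
    intro q a p hp
    by_contra hn
    push Not at hn
    have h1 : P p ∈ MvPolynomial.supported ℝ
        {x : (Fin n ⊕ Fin M) × Fin d | x.1 ≠ Sum.inr q} := by
      refine KL.lmat_mem _ (fun s i => ?_) _ _ _ (fun i q' h a' => ?_)
      · refine KL.pt_mem _ (fun x => x) _ (fun j => ?_) i
        exact MvPolynomial.X_mem_supported.2 (by simp)
      · refine KL.pt_mem _ (fun x => x) _ (fun j => ?_) a'
        exact MvPolynomial.X_mem_supported.2 (fun h' => hn i q' h (Sum.inr_injective h'))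
    rw [MvPolynomial.mem_supported] at h1
    exact h1 hp rfl
  have h1 := KL.count_le P D hdeg
    {s : (Σ τ : Θ, (Fin (d + 1) → Fin (d + 1) ⊕ {q // q ∈ K τ})) → SignType |
      ∃ (XS : Fin n → Fin (d + 1) → ℝ) (XM : Fin M → Fin (d + 1) → ℝ),
        (∀ i, ∑ l, XS i l = 1) ∧ (∀ i, ∑ l, XM i l = 1) ∧
        s = fun p => sg (lmat XS XM (Δ p.1) (K p.1) p.2).det} (by
    rintro s ⟨YS, YM, hS, hM', rfl⟩
    refine ⟨fun x => Sum.elim YS YM x.1 x.2.succ, fun p => ?_⟩
    have h2 : Sum.elim YS YM = KL.pt (fun x => Sum.elim YS YM x.1 x.2.succ) := by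
      refine KL.pt_of_sum _ (fun q => ?_)
      cases q with
      | inl q => exact hS q
      | inr q => exact hM' q
    rw [heval, ← h2]
    rfl)
  refine h1.trans ?_
  have hcard : Fintype.card ((Fin n ⊕ Fin M) × Fin d) = d * n + d * M := by
    rw [Fintype.card_prod, Fintype.card_sum, Fintype.card_fin, Fintype.card_fin,
      Fintype.card_fin]
    ring
  have hNle : (N : ℝ) ≤ Fintype.card Θ * ((d + 1) ^ (d + 1) * (κ + 1) ^ C) := by
    have h3 := KL.card_labels (d := d) K κ hK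
    have h4 : (κ + 1) ^ (d + 1) ≤ (κ + 1) ^ C :=
      Nat.pow_le_pow_right (Nat.succ_pos κ) (by omega)
    have h5 : N ≤ Fintype.card Θ * ((d + 1) ^ (d + 1) * (κ + 1) ^ C) :=
      h3.trans (Nat.mul_le_mul_left _ (Nat.mul_le_mul_left _ h4))
    exact_mod_cast h5
  let m : (Fin n ⊕ Fin M) × Fin d → ℝ := fun j =>
    (2 * D * (univ.filter (fun i => j ∈ (P i).vars)).card + 3 : ℝ)
  have hm0 : ∀ j, 0 ≤ m j := fun j => by positivity
  let mq : Fin M → ℝ := fun q => (2 * D * (univ.filter (fun p :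
    (Σ τ : Θ, (Fin (d + 1) → Fin (d + 1) ⊕ {q // q ∈ K τ})) =>
      ∃ i q', p.2 i = Sum.inr q' ∧ q'.1 = q)).card + 3 : ℝ)
  have hD0 : (0 : ℝ) ≤ 2 * D := by positivity
  have hm1 : ∀ s a, m (Sum.inl s, a) ≤ 2 * D * N + 3 := by
    intro s a
    have h4 : ((univ.filter (fun i => (Sum.inl s, a) ∈ (P i).vars)).card : ℝ) ≤ N := by
      exact_mod_cast Finset.card_le_univ _
    show (2 * D * (univ.filter (fun i => (Sum.inl s, a) ∈ (P i).vars)).card + 3 : ℝ) ≤ _
    nlinarith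
  have hm2 : ∀ q a, m (Sum.inr q, a) ≤ mq q := by
    intro q a
    have h4 : ((univ.filter (fun i => (Sum.inr q, a) ∈ (P i).vars)).card : ℝ) ≤
        (univ.filter (fun p :
          (Σ τ : Θ, (Fin (d + 1) → Fin (d + 1) ⊕ {q // q ∈ K τ})) =>
            ∃ i q', p.2 i = Sum.inr q' ∧ q'.1 = q)).card := by
      exact_mod_cast Finset.card_le_card (Finset.monotone_filter_right _ (fun p _ hp => hvars q a p hp))
    show (2 * D * (univ.filter (fun i => (Sum.inr q, a) ∈ (P i).vars)).card + 3 : ℝ) ≤ _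
    nlinarith
  have hmq0 : ∀ q, 0 ≤ mq q := fun q => by positivity
  have hprod : ∏ j, m j ≤ (2 * D * N + 3) ^ (d * n) * (2 * D * ((d + 1) * N) / M + 3) ^ (d * M) := by
    rw [Fintype.prod_prod_type, Fintype.prod_sum_type]
    refine mul_le_mul ?_ ?_ (Finset.prod_nonneg (fun _ _ => Finset.prod_nonneg (fun _ _ => hm0 _)))
      (by positivity)
    · have : ∀ s : Fin n, ∏ a : Fin d, m (Sum.inl s, a) ≤ (2 * D * N + 3) ^ d := by
        intro s
        refine (Finset.prod_le_prod (fun a _ => hm0 _) (fun a _ => hm1 s a)).trans ?_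
        simp
      refine (Finset.prod_le_prod (fun s _ => Finset.prod_nonneg (fun _ _ => hm0 _))
        (fun s _ => this s)).trans ?_
      simp [← pow_mul]
    · have : ∀ q : Fin M, ∏ a : Fin d, m (Sum.inr q, a) ≤ mq q ^ d := by
        intro q
        refine (Finset.prod_le_prod (fun a _ => hm0 _) (fun a _ => hm2 q a)).trans ?_
        simp
      refine (Finset.prod_le_prod (fun s _ => Finset.prod_nonneg (fun _ _ => hm0 _))
        (fun s _ => this s)).trans ?_
      rw [Finset.prod_pow, mul_comm d M, pow_mul]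
      refine pow_le_pow_left₀ (Finset.prod_nonneg (fun q _ => hmq0 q)) ?_ d
      refine (KL.amgm hM mq hmq0).trans ?_
      refine pow_le_pow_left₀ (div_nonneg (Finset.sum_nonneg (fun q _ => hmq0 q))
        (Nat.cast_nonneg _)) ?_ M
      have hM0 : (0 : ℝ) < M := by exact_mod_cast hM
      have h6 : ∑ q, mq q ≤ 2 * D * ((d + 1) * N) + 3 * M := by
        have h7 := KL.sum_mult (d := d) (Θ := Θ) K
        have h8 : ((∑ q : Fin M, (univ.filter (fun p :
            (Σ τ : Θ, (Fin (d + 1) → Fin (d + 1) ⊕ {q // q ∈ K τ})) =>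
            ∃ i q', p.2 i = Sum.inr q' ∧ q'.1 = q)).card : ℕ) : ℝ) ≤ (((d + 1) * N : ℕ) : ℝ) :=
          Nat.cast_le.2 h7
        show ∑ q, (2 * D * (univ.filter (fun p :
            (Σ τ : Θ, (Fin (d + 1) → Fin (d + 1) ⊕ {q // q ∈ K τ})) =>
            ∃ i q', p.2 i = Sum.inr q' ∧ q'.1 = q)).card + 3 : ℝ) ≤ _
        rw [Finset.sum_add_distrib, ← Finset.mul_sum]
        push_cast at h8
        have h9 : ∑ _q : Fin M, (3 : ℝ) = 3 * M := by simp [mul_comm]
        rw [h9]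
        have := mul_le_mul_of_nonneg_left h8 hD0
        linarith
      rw [div_add' _ _ _ hM0.ne']
      exact div_le_div_of_nonneg_right h6 hM0.le
  have hexp : Real.exp (Fintype.card ((Fin n ⊕ Fin M) × Fin d)) ≤ 3 ^ (d * n) * 3 ^ (d * M) := by
    rw [← pow_add, ← hcard]
    exact KL.exp_le _
  have hCr : (C : ℝ) = 6 * D * (d + 1) * (d + 1) ^ (d + 1) + 9 + (d + 1) := by
    rw [hC]; push_cast; ring
  have hT : (0 : ℝ) ≤ Fintype.card Θ * (κ + 1) ^ C := by positivity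
  have hdr : (1 : ℝ) ≤ d + 1 := by
    have : (0 : ℝ) ≤ d := Nat.cast_nonneg d
    linarith
  have hNle' : (N : ℝ) ≤ (d + 1) ^ (d + 1) * (Fintype.card Θ * (κ + 1) ^ C) := by
    refine hNle.trans (le_of_eq (by ring))
  have hpd : (0 : ℝ) ≤ (d + 1) ^ (d + 1) := by positivity
  have hDr : (0 : ℝ) ≤ D := Nat.cast_nonneg D
  have hb1 : 3 * (2 * D * N + 3 : ℝ) ≤ (C : ℝ) * (Fintype.card Θ * (κ + 1) ^ C + 1) := by
    have h3 : (6 * D * N : ℝ) ≤ 6 * D * (d + 1) * (d + 1) ^ (d + 1) *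
        (Fintype.card Θ * (κ + 1) ^ C) := by
      have h4 : (6 * D * N : ℝ) ≤ 6 * D * ((d + 1) ^ (d + 1) * (Fintype.card Θ * (κ + 1) ^ C)) :=
        mul_le_mul_of_nonneg_left hNle' (by positivity)
      have h5 : 6 * D * ((d + 1) ^ (d + 1) * (Fintype.card Θ * (κ + 1) ^ C)) * 1 ≤
          6 * D * ((d + 1) ^ (d + 1) * (Fintype.card Θ * (κ + 1) ^ C)) * ((d : ℝ) + 1) :=
        mul_le_mul_of_nonneg_left hdr (by positivity)
      nlinarith
    rw [hCr]
    have h6 : (0 : ℝ) ≤ 6 * D * (d + 1) * (d + 1) ^ (d + 1) := by positivity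
    nlinarith [mul_nonneg (show (0 : ℝ) ≤ 9 + (d + 1) by positivity) hT]
  have hM0 : (0 : ℝ) < M := by exact_mod_cast hM
  have hb2 : 3 * (2 * D * ((d + 1) * N) / M + 3 : ℝ) ≤
      (C : ℝ) * (Fintype.card Θ * (κ + 1) ^ C / M + 1) := by
    have hTM : (0 : ℝ) ≤ Fintype.card Θ * (κ + 1) ^ C / M := div_nonneg hT hM0.le
    have h3 : (3 * (2 * D * ((d + 1) * N) / M) : ℝ) ≤ 6 * D * (d + 1) * (d + 1) ^ (d + 1) *
        (Fintype.card Θ * (κ + 1) ^ C / M) := by
      rw [← mul_div_assoc, ← mul_div_assoc]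
      refine div_le_div_of_nonneg_right ?_ hM0.le
      have h4 : (6 * D * (d + 1) * N : ℝ) ≤
          6 * D * (d + 1) * ((d + 1) ^ (d + 1) * (Fintype.card Θ * (κ + 1) ^ C)) :=
        mul_le_mul_of_nonneg_left hNle' (by positivity)
      nlinarith
    rw [hCr]
    have h6 : (0 : ℝ) ≤ 6 * D * (d + 1) * (d + 1) ^ (d + 1) := by positivity
    nlinarith [mul_nonneg (show (0 : ℝ) ≤ 9 + (d + 1) by positivity) hTM]
  calc Real.exp (Fintype.card ((Fin n ⊕ Fin M) × Fin d)) * ∏ j, m j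
      ≤ (3 ^ (d * n) * 3 ^ (d * M)) *
        ((2 * D * N + 3) ^ (d * n) * (2 * D * ((d + 1) * N) / M + 3) ^ (d * M)) :=
        mul_le_mul hexp hprod (Finset.prod_nonneg (fun j _ => hm0 j)) (by positivity)
    _ = (3 * (2 * D * N + 3)) ^ (d * n) * (3 * (2 * D * ((d + 1) * N) / M + 3)) ^ (d * M) := by
      rw [mul_pow, mul_pow]; ring
    _ ≤ _ := by
      refine mul_le_mul (pow_le_pow_left₀ (by positivity) hb1 _)
        (pow_le_pow_left₀ (by positivity) hb2 _) (by positivity) (by positivity)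

end Pool.Agent.H7.UB
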