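import Pool.Agent.H7.UB.Class2
import Pool.Agent.H7.UB.KCLC
import Pool.Agent.H7.UB.Enc2

/-! # MAIN, part 3: counting inside a class -/

set_option autoImplicit false
set_option linter.unusedSectionVars false

namespace Pool.Agent.H7.UB

open Finset Matrix

/-- The constant `L₀`. -/
noncomputable def L0c (d C n : ℕ) : ℝ :=
  Real.logb 2 (2 * SV d ((d + 1) * (C * (n + 1) ^ (d / 2))))

/-- The data of a class. -/
structure CData (d n t C : ℕ) (r : ℝ) (X₀ : Fin n → Fin (d + 1) → ℝ) where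
  Θ : Finset (Fin (d + 1) → L1 d n)
  R : ({p // p ∈ Lam Θ} → ℝ) → Fin t → {p // p ∈ Lam Θ}
  G : ({p // p ∈ Lam Θ} → ℝ) → ℕ → Finset (Gam d n)
  cr : Gam d n → Finset {p // p ∈ Lam Θ}
  ps : Gam d n → {p // p ∈ Lam Θ} → SignType
  ne : Θ.Nonempty
  card : Θ.card ≤ C * (n + 1) ^ (d / 2)
  cardG : ∀ w j, (G w j).card ≤ C * (t + 1) ^ (d / 2) * (j + 1) ^ d
  cross : ∀ w, (∀ p, 0 < w p) → ∀ j, ∀ γ ∈ G w j,
    ∑ p ∈ cr γ, w p ≤ ((d + 1 : ℝ) ^ 2 / r) * ∑ p, w p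
  pos : ∀ X : Fin n → Fin (d + 1) → ℝ, (∀ s, ∑ i, X s i = 1) → chi X = chi X₀ →
    ∀ p ∈ Lam Θ, ∀ q, 0 ≤ v1 X p ⬝ᵥ v0 X q
  sgv : ∀ X : Fin n → Fin (d + 1) → ℝ, (∀ s, ∑ i, X s i = 1) → chi X = chi X₀ →
    ∀ (p : L1 d n) q, sg (v1 X p ⬝ᵥ v0 X q) = sg (v1 X₀ p ⬝ᵥ v0 X₀ q)
  cov : ∀ X : Fin n → Fin (d + 1) → ℝ, (∀ s, ∑ i, X s i = 1) → chi X = chi X₀ →
    ∀ h : Fin (d + 1) → ℝ, (∀ q, 0 ≤ h ⬝ᵥ v0 X q) →
      ∃ Δ ∈ Θ, ∃ c : Fin (d + 1) → ℝ, (∀ a, 0 ≤ c a) ∧ h = ∑ a, c a • v1 X (Δ a)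
  loc : ∀ X : Fin n → Fin (d + 1) → ℝ, (∀ s, ∑ i, X s i = 1) → chi X = chi X₀ →
    ∀ x : Fin (d + 1) → ℝ, ∑ i, x i = 1 → (∀ i, |x i| ≤ 1) →
      ∀ w : {p // p ∈ Lam Θ} → ℝ, (∀ p, 0 < w p) →
        ((univ.filter (fun i => v1 X (R w i).1 ⬝ᵥ x < 0)).card : ℝ) ≤
          L0c d C n +
          2 * t * ((∑ p ∈ univ.filter (fun p : {p // p ∈ Lam Θ} => v1 X p.1 ⬝ᵥ x < 0), w p) /
            ∑ p, w p) ∧
        ∀ j, (univ.filter (fun i => v1 X (R w i).1 ⬝ᵥ x < 0)).card ≤ j →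
          ∃ γ ∈ G w j, ∀ p, p ∉ cr γ → sg (v1 X p.1 ⬝ᵥ x) = ps γ p

theorem exists_cdata (d : ℕ) (hd : 1 ≤ d) : ∃ C : ℕ, ∀ (n t : ℕ) (r : ℝ) (_ : 0 < r)
    (_ : SV d ((d + 1) * (C * (n + 1) ^ (d / 2))) ^ 2 * Real.exp (-(t / r)) < 1 / 2)
    (X₀ : Fin n → Fin (d + 1) → ℝ) (_ : ∀ s, ∑ i, X₀ s i = 1),
    Nonempty (CData d n t C r X₀) := by
  obtain ⟨C, hC⟩ := class_data d hd
  refine ⟨C, fun n t r hr hnet X₀ hX₀ => ?_⟩
  obtain ⟨Θ, R, G, cr, ps, h1, h2, h3, h4, h5⟩ := hC n t r hr hnet X₀ hX₀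
  exact ⟨⟨Θ, R, G, cr, ps, h1, h2, h3, h4, fun X hX hc => (h5 X hX hc).1,
    fun X hX hc => (h5 X hX hc).2.1, fun X hX hc => (h5 X hX hc).2.2.1,
    fun X hX hc => (h5 X hX hc).2.2.2⟩⟩

/-- The index type of the points. -/
abbrev QQ (d n M : ℕ) := Fin (d + 1) ⊕ Fin n ⊕ Fin M

/-- The configuration. -/
def conf {d n M : ℕ} (XS : Fin n → Fin (d + 1) → ℝ) (XM : Fin M → Fin (d + 1) → ℝ) :
    QQ d n M → Fin (d + 1) → ℝ := Sum.elim stdb (Sum.elim XS XM)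

/-- Admissible configurations with their codes. -/
structure Adm {d n t C : ℕ} {r : ℝ} {X₀ : Fin n → Fin (d + 1) → ℝ} (D : CData d n t C r X₀)
    {M : ℕ} (ℓ : ℕ) (XS : Fin n → Fin (d + 1) → ℝ) (XM : Fin M → Fin (d + 1) → ℝ)
    (γ : Fin M → Gam d n) (μ : Fin M → ℕ) : Prop where
  chi : chi XS = chi X₀
  sumS : ∀ s, ∑ i, XS s i = 1
  sumM : ∀ s, ∑ i, XM s i = 1
  mu : ∑ i, μ i ≤ 3 * M
  code : ∀ i : Fin M, γ i ∈ D.G (wt2 D.cr (fun j : Fin i => γ ⟨j, j.2.trans i.2⟩))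
    ⌊L0c d C n + 2 * t * ℓ * μ i / ((M : ℝ) - i)⌋₊
  known : ∀ i p, p ∉ D.cr (γ i) → sg (v1 XS p.1 ⬝ᵥ XM i) = D.ps (γ i) p
  crossing : ∀ p, (2 : ℝ) ^ (univ.filter (fun i => p ∈ D.cr (γ i))).card ≤
    Fintype.card {p // p ∈ Lam D.Θ} * (1 + (d + 1 : ℝ) ^ 2 / r) ^ M
  neg : ∀ p : {p // p ∈ Lam D.Θ}, (univ.filter (fun i => v1 XS p.1 ⬝ᵥ XM i < 0)).card ≤ ℓ

section

variable {d n t C : ℕ} {r : ℝ} {X₀ : Fin n → Fin (d + 1) → ℝ} (D : CData d n t C r X₀) {M : ℕ}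

/-- The local lists. -/
def Kf (γ : Fin M → Gam d n) (Δ : {Δ // Δ ∈ D.Θ}) : Finset (Fin M) :=
  univ.filter (fun i => ∃ a, (⟨Δ.1 a, mem_Lam Δ.2 a⟩ : {p // p ∈ Lam D.Θ}) ∈ D.cr (γ i) ∨
    D.ps (γ i) ⟨Δ.1 a, mem_Lam Δ.2 a⟩ = -1)

/-- Configurations with the same codes and local signs have the same faces. -/
theorem FF_subset_of {ℓ : ℕ} {XS XS' : Fin n → Fin (d + 1) → ℝ}
    {XM XM' : Fin M → Fin (d + 1) → ℝ} {γ : Fin M → Gam d n} {μ μ' : Fin M → ℕ}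
    (h : Adm D ℓ XS XM γ μ) (h' : Adm D ℓ XS' XM' γ μ')
    (hs : ∀ (τ : {Δ // Δ ∈ D.Θ}) (f : Fin (d + 1) → Fin (d + 1) ⊕ {q // q ∈ Kf D γ τ}),
      sg (lmat XS XM τ.1 (Kf D γ τ) f).det = sg (lmat XS' XM' τ.1 (Kf D γ τ) f).det) :
    FF (conf XS XM) ⊆ FF (conf XS' XM') := by
  classical
  let ιM : Fin M ↪ QQ d n M := ⟨fun i => Sum.inr (Sum.inr i),
    fun a b hab => Sum.inr_injective (Sum.inr_injective hab)⟩
  refine FF_subset (Θ := {Δ // Δ ∈ D.Θ}) (conf XS XM) (conf XS' XM') (fun τ a => v1 XS (τ.1 a))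
    (fun τ a => v1 XS' (τ.1 a)) (fun τ => (Kf D γ τ).map ιM) ?_ ?_ ?_
  · intro g hg
    obtain ⟨Δ, hΔ, c, hc, hc'⟩ := D.cov XS h.sumS h.chi g (fun q => by
      rcases q with s | l
      · exact hg (Sum.inr (Sum.inl s))
      · exact hg (Sum.inl l))
    exact ⟨⟨Δ, hΔ⟩, c, hc, hc'⟩
  · intro τ a q hq
    have hp := mem_Lam τ.2 a
    rcases q with l | s | i
    · exact ⟨D.pos XS h.sumS h.chi _ hp (Sum.inr l), (D.sgv XS h.sumS h.chi _ (Sum.inr l)).trans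
        (D.sgv XS' h'.sumS h'.chi _ (Sum.inr l)).symm⟩
    · exact ⟨D.pos XS h.sumS h.chi _ hp (Sum.inl s), (D.sgv XS h.sumS h.chi _ (Sum.inl s)).trans
        (D.sgv XS' h'.sumS h'.chi _ (Sum.inl s)).symm⟩
    · have hi : i ∉ Kf D γ τ := by
        intro hi
        exact hq (Finset.mem_map.mpr ⟨i, hi, rfl⟩)
      unfold Kf at hi
      rw [Finset.mem_filter] at hi
      push Not at hi
      obtain ⟨h1, h2⟩ := hi (Finset.mem_univ _) a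
      have e1 := h.known i _ h1
      have e2 := h'.known i _ h1
      refine ⟨?_, e1.trans e2.symm⟩
      rw [nonneg_iff_sg]
      show sg (v1 XS (τ.1 a) ⬝ᵥ XM i) ≠ -1
      rw [show sg (v1 XS (τ.1 a) ⬝ᵥ XM i) = _ from e1]
      exact h2
  · intro τ f
    set f' : Fin (d + 1) → Fin (d + 1) ⊕ {q // q ∈ Kf D γ τ} := fun b => Sum.map id
      (fun q : {q // q ∈ (Kf D γ τ).map ιM} => ⟨(Finset.mem_map.mp q.2).choose,
        (Finset.mem_map.mp q.2).choose_spec.1⟩) (f b) with hf'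
    have key : ∀ (YS : Fin n → Fin (d + 1) → ℝ) (YM : Fin M → Fin (d + 1) → ℝ),
        (Matrix.of (fun i => Sum.elim (fun a => Pi.single a (1 : ℝ))
          (fun (q : {q // q ∈ (Kf D γ τ).map ιM}) a => v1 YS (τ.1 a) ⬝ᵥ conf YS YM q.1) (f i))) =
        lmat YS YM τ.1 (Kf D γ τ) f' := by
      intro YS YM
      unfold lmat
      congr 1
      funext i
      rw [hf']
      simp only
      rcases f i with b | q
      · rfl
      · simp only [Sum.elim_inr, Sum.map_inr]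
        funext a
        have h3 := (Finset.mem_map.mp q.2).choose_spec.2
        have h4 : conf YS YM q.1 = YM (Finset.mem_map.mp q.2).choose := by
          conv_lhs => rw [← h3]
          rfl
        rw [h4]
    have := hs τ f'
    rw [← key, ← key] at this
    exact this

theorem card_Kf {ℓ κ : ℕ} {XS : Fin n → Fin (d + 1) → ℝ}
    {XM : Fin M → Fin (d + 1) → ℝ} {γ : Fin M → Gam d n} {μ : Fin M → ℕ}
    (h : Adm D ℓ XS XM γ μ)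
    (hκ : Fintype.card {p // p ∈ Lam D.Θ} * (1 + (d + 1 : ℝ) ^ 2 / r) ^ M ≤ 2 ^ κ)
    (τ : {Δ // Δ ∈ D.Θ}) : (Kf D γ τ).card ≤ (d + 1) * (κ + ℓ) := by
  classical
  have hsub : Kf D γ τ ⊆ (univ : Finset (Fin (d + 1))).biUnion (fun a =>
      univ.filter (fun i => (⟨τ.1 a, mem_Lam τ.2 a⟩ : {p // p ∈ Lam D.Θ}) ∈ D.cr (γ i)) ∪
      univ.filter (fun i => v1 XS (τ.1 a) ⬝ᵥ XM i < 0)) := by
    intro i hi
    unfold Kf at hi
    rw [Finset.mem_filter] at hi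
    obtain ⟨_, a, ha⟩ := hi
    rw [Finset.mem_biUnion]
    refine ⟨a, Finset.mem_univ _, ?_⟩
    rw [Finset.mem_union, Finset.mem_filter, Finset.mem_filter]
    by_cases h1 : (⟨τ.1 a, mem_Lam τ.2 a⟩ : {p // p ∈ Lam D.Θ}) ∈ D.cr (γ i)
    · exact Or.inl ⟨Finset.mem_univ _, h1⟩
    · right
      refine ⟨Finset.mem_univ _, ?_⟩
      have h2 := ha.resolve_left h1
      have h3 := h.known i _ h1
      rw [h2] at h3
      unfold sg at h3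
      rwa [sign_eq_neg_one_iff] at h3
  refine (Finset.card_le_card hsub).trans (Finset.card_biUnion_le.trans ?_)
  have hterm : ∀ a ∈ (univ : Finset (Fin (d + 1))),
      (univ.filter (fun i => (⟨τ.1 a, mem_Lam τ.2 a⟩ : {p // p ∈ Lam D.Θ}) ∈ D.cr (γ i)) ∪
      univ.filter (fun i => v1 XS (τ.1 a) ⬝ᵥ XM i < 0)).card ≤ κ + ℓ := by
    intro a _
    refine (Finset.card_union_le _ _).trans (add_le_add ?_ (h.neg ⟨τ.1 a, mem_Lam τ.2 a⟩))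
    have h4 := (h.crossing ⟨τ.1 a, mem_Lam τ.2 a⟩).trans hκ
    exact (pow_le_pow_iff_right₀ (by norm_num : (1 : ℝ) < 2)).mp h4
  refine (Finset.sum_le_sum hterm).trans ?_
  rw [Finset.sum_const, Finset.card_univ, Fintype.card_fin, smul_eq_mul]

end

end Pool.Agent.H7.UB
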