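import Pool.Agent.H7.UB.Defs

/-! Module ENC: sequences produced by a strategy, and the greedy processing order. -/

set_option autoImplicit false

namespace Pool.Agent.H7.UB

open Finset Matrix

open Classical in
/-- finite form of `card_seq` -/
theorem enc_card_seq_aux {Γ : Type} [Fintype Γ] : ∀ (M : ℕ)
    (S : (i : Fin M) → (Fin i → Γ) → Finset Γ) (B : Fin M → ℕ)
    (_ : ∀ i p, (S i p).card ≤ B i),
    (univ.filter (fun γ : Fin M → Γ =>
      ∀ i, γ i ∈ S i (fun j => γ ⟨j, j.2.trans i.2⟩))).card ≤ ∏ i, B i := by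
  intro M
  induction M with
  | zero =>
    intro S B hB
    refine (Finset.card_le_univ _).trans ?_
    simp
  | succ M ih =>
    intro S B hB
    have h1 := ih (fun i p => S i.castSucc p) (fun i => B i.castSucc)
      (fun i p => hB i.castSucc p)
    rw [Fin.prod_univ_castSucc]
    set T : Finset (Fin M → Γ) := univ.filter (fun γ : Fin M → Γ =>
      ∀ i : Fin M, γ i ∈ S i.castSucc (fun j => γ ⟨j, j.2.trans i.2⟩)) with hT
    have hsub : (univ.filter (fun γ : Fin (M + 1) → Γ =>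
        ∀ i, γ i ∈ S i (fun j => γ ⟨j, j.2.trans i.2⟩))) ⊆
        T.biUnion (fun p => (S (Fin.last M) p).image (fun c => (Fin.snoc p c : Fin (M + 1) → Γ))) := by
      intro γ hγ
      rw [Finset.mem_filter] at hγ
      rw [Finset.mem_biUnion]
      refine ⟨Fin.init γ, ?_, ?_⟩
      · rw [hT, Finset.mem_filter]
        refine ⟨Finset.mem_univ _, fun i => ?_⟩
        exact hγ.2 i.castSucc
      · rw [Finset.mem_image]
        exact ⟨γ (Fin.last M), hγ.2 (Fin.last M), Fin.snoc_init_self γ⟩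
    refine (Finset.card_le_card hsub).trans ?_
    refine (Finset.card_biUnion_le_card_mul _ _ (B (Fin.last M)) ?_).trans ?_
    · intro p _
      exact Finset.card_image_le.trans (hB _ _)
    · exact Nat.mul_le_mul_right _ h1

/-- (SEQ) Number of sequences produced by a strategy. -/
theorem card_seq {Γ : Type} [Fintype Γ] (M : ℕ) (S : (i : Fin M) → (Fin i → Γ) → Finset Γ)
    (B : Fin M → ℕ) (hB : ∀ i p, (S i p).card ≤ B i) :
    {γ : Fin M → Γ | ∀ i, γ i ∈ S i (fun j => γ ⟨j, j.2.trans i.2⟩)}.ncard ≤ ∏ i, B i := by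
  classical
  refine le_trans (le_of_eq ?_) (enc_card_seq_aux M S B hB)
  rw [← Set.ncard_coe_finset]
  congr 1
  ext γ
  simp

/-- Weights after some codes. -/
noncomputable def wt {Λ Γ : Type} [DecidableEq Λ] (cr : Γ → Finset Λ) {i : ℕ} (p : Fin i → Γ)
    (y : Λ) : ℝ := 2 ^ (univ.filter (fun j => y ∈ cr (p j))).card

theorem enc_wt_pos {Λ Γ : Type} [DecidableEq Λ] (cr : Γ → Finset Λ) {i : ℕ} (p : Fin i → Γ)
    (y : Λ) : 0 < wt cr p y := by
  unfold wt; positivity

theorem enc_wt_snoc {Λ Γ : Type} [DecidableEq Λ] (cr : Γ → Finset Λ) {i : ℕ} (p : Fin i → Γ)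
    (c : Γ) (y : Λ) :
    wt cr (Fin.snoc p c : Fin (i + 1) → Γ) y = wt cr p y + (if y ∈ cr c then wt cr p y else 0) := by
  unfold wt
  have h : (univ.filter (fun j : Fin (i + 1) => y ∈ cr ((Fin.snoc p c : Fin (i + 1) → Γ) j))).card =
      (univ.filter (fun j : Fin i => y ∈ cr (p j))).card + (if y ∈ cr c then 1 else 0) := by
    rw [Finset.card_filter, Finset.card_filter, Fin.sum_univ_castSucc]
    simp
  rw [h]
  split_ifs with hc
  · rw [pow_succ]; ring
  · simp

/-- the greedy choice -/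
theorem enc_choice {Λ : Type} [Fintype Λ] [DecidableEq Λ] {M : ℕ}
    (Neg : Fin M → Finset Λ) (ℓ : ℕ)
    (hℓ : ∀ y, (univ.filter (fun q => y ∈ Neg q)).card ≤ ℓ) (w : Λ → ℝ) (hw : ∀ y, 0 < w y)
    {i : ℕ} (hi : i < M) (π : Fin i → Fin M) (hπ : Function.Injective π) :
    ∃ q, q ∉ Set.range π ∧ ∑ y ∈ Neg q, w y ≤ ℓ * (∑ y, w y) / ((M : ℝ) - i) := by
  classical
  set U : Finset (Fin M) := univ \ (univ.image π) with hU
  have hcard : U.card = M - i := by
    rw [hU, Finset.card_sdiff_of_subset (Finset.subset_univ _), Finset.card_univ, Fintype.card_fin,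
      Finset.card_image_of_injective _ hπ, Finset.card_univ, Fintype.card_fin]
  have hMi : (0 : ℝ) < (M : ℝ) - i := by
    have : (i : ℝ) < M := by exact_mod_cast hi
    linarith
  have hcardR : (U.card : ℝ) = (M : ℝ) - i := by
    rw [hcard, Nat.cast_sub hi.le]
  have hne : U.Nonempty := by
    rw [← Finset.card_pos, hcard]; omega
  have hsum : ∑ q ∈ U, ∑ y ∈ Neg q, w y ≤ ℓ * ∑ y, w y := by
    calc ∑ q ∈ U, ∑ y ∈ Neg q, w y ≤ ∑ q : Fin M, ∑ y ∈ Neg q, w y :=
          Finset.sum_le_sum_of_subset_of_nonneg (Finset.subset_univ _)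
            (fun q _ _ => Finset.sum_nonneg fun y _ => (hw y).le)
      _ = ∑ q : Fin M, ∑ y, if y ∈ Neg q then w y else 0 := by
          refine Finset.sum_congr rfl fun q _ => ?_
          rw [← Finset.sum_filter]
          congr 1
          ext y; simp
      _ = ∑ y, ∑ q : Fin M, if y ∈ Neg q then w y else 0 := Finset.sum_comm
      _ = ∑ y, ((univ.filter (fun q => y ∈ Neg q)).card : ℝ) * w y := by
          refine Finset.sum_congr rfl fun y _ => ?_
          rw [← Finset.sum_filter, Finset.sum_const, nsmul_eq_mul]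
      _ ≤ ∑ y, (ℓ : ℝ) * w y := by
          refine Finset.sum_le_sum fun y _ => ?_
          exact mul_le_mul_of_nonneg_right (by exact_mod_cast hℓ y) (hw y).le
      _ = ℓ * ∑ y, w y := by rw [← Finset.mul_sum]
  obtain ⟨q, hqU, hq⟩ := Finset.exists_le_of_sum_le (s := U)
    (f := fun q => ∑ y ∈ Neg q, w y) (g := fun _ => ℓ * (∑ y, w y) / ((M : ℝ) - i)) hne (by
      rw [Finset.sum_const, nsmul_eq_mul, hcardR, mul_div_cancel₀ _ hMi.ne']
      exact hsum)
  refine ⟨q, ?_, hq⟩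
  rintro ⟨j, rfl⟩
  rw [hU, Finset.mem_sdiff] at hqU
  exact hqU.2 (Finset.mem_image_of_mem _ (Finset.mem_univ _))

/-- the induction -/
theorem enc_process_aux {Λ Γ : Type} [Fintype Λ] [DecidableEq Λ] [Nonempty Λ] {M t : ℕ}
    (Neg : Fin M → Finset Λ) (cr : Γ → Finset Λ) (ℓ : ℕ)
    (hℓ : ∀ y, (univ.filter (fun q => y ∈ Neg q)).card ≤ ℓ)
    (R : (Λ → ℝ) → Fin t → Λ) (G : (Λ → ℝ) → ℕ → Finset Γ) (good : Fin M → Γ → Prop)
    (L₀ ρ : ℝ) (hρ : 0 ≤ ρ)
    (hR : ∀ w : Λ → ℝ, (∀ y, 0 < w y) → ∀ q, ((univ.filter (fun i => R w i ∈ Neg q)).card : ℝ) ≤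
      L₀ + 2 * t * ((∑ y ∈ Neg q, w y) / ∑ y, w y))
    (hG : ∀ w : Λ → ℝ, (∀ y, 0 < w y) → ∀ j, ∀ γ ∈ G w j, ∑ y ∈ cr γ, w y ≤ ρ * ∑ y, w y)
    (hgood : ∀ w : Λ → ℝ, (∀ y, 0 < w y) → ∀ j q,
      (univ.filter (fun i => R w i ∈ Neg q)).card ≤ j → ∃ γ ∈ G w j, good q γ) :
    ∀ i : ℕ, i ≤ M → ∃ (π : Fin i → Fin M) (γ : Fin i → Γ), Function.Injective π ∧
      (∀ j : Fin i, γ j ∈ G (wt cr (fun k : Fin j => γ ⟨k, k.2.trans j.2⟩))
        ⌊L₀ + 2 * t * ℓ / ((M : ℝ) - j)⌋₊) ∧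
      (∀ j, good (π j) (γ j)) ∧
      ∑ y, wt cr γ y ≤ Fintype.card Λ * (1 + ρ) ^ i := by
  intro i
  induction i with
  | zero =>
    intro _
    refine ⟨Fin.elim0, Fin.elim0, fun a => a.elim0, fun j => j.elim0, fun j => j.elim0, ?_⟩
    simp [wt]
  | succ i ih =>
    intro hi
    obtain ⟨π, γ, hπ, h1, h2, h3⟩ := ih (by omega)
    have hiM : i < M := by omega
    have hw := enc_wt_pos cr γ
    obtain ⟨q, hq, hq2⟩ := enc_choice Neg ℓ hℓ (wt cr γ) hw hiM π hπ
    have hW : 0 < ∑ y, wt cr γ y := Finset.sum_pos (fun y _ => hw y) Finset.univ_nonempty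
    have hMi : (0 : ℝ) < (M : ℝ) - i := by
      have : (i : ℝ) < M := by exact_mod_cast hiM
      linarith
    have hcount : (univ.filter (fun i => R (wt cr γ) i ∈ Neg q)).card ≤
        ⌊L₀ + 2 * t * ℓ / ((M : ℝ) - i)⌋₊ := by
      apply Nat.le_floor
      refine (hR (wt cr γ) hw q).trans ?_
      have h4 : (∑ y ∈ Neg q, wt cr γ y) / ∑ y, wt cr γ y ≤ ℓ / ((M : ℝ) - i) := by
        rw [div_le_iff₀ hW]
        refine hq2.trans (le_of_eq ?_)
        ring
      have h5 : 2 * (t : ℝ) * ((∑ y ∈ Neg q, wt cr γ y) / ∑ y, wt cr γ y) ≤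
          2 * t * (ℓ / ((M : ℝ) - i)) := mul_le_mul_of_nonneg_left h4 (by positivity)
      have h6 : 2 * (t : ℝ) * (ℓ / ((M : ℝ) - i)) = 2 * t * ℓ / ((M : ℝ) - i) := by ring
      linarith
    obtain ⟨c, hcG, hcgood⟩ := hgood (wt cr γ) hw _ q hcount
    refine ⟨Fin.snoc π q, Fin.snoc γ c, ?_, ?_, ?_, ?_⟩
    · intro a b hab
      induction a using Fin.lastCases with
      | last =>
        induction b using Fin.lastCases with
        | last => rfl
        | cast b =>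
          rw [Fin.snoc_last, Fin.snoc_castSucc] at hab
          exact absurd ⟨b, hab.symm⟩ hq
      | cast a =>
        induction b using Fin.lastCases with
        | last =>
          rw [Fin.snoc_last, Fin.snoc_castSucc] at hab
          exact absurd ⟨a, hab⟩ hq
        | cast b =>
          rw [Fin.snoc_castSucc, Fin.snoc_castSucc] at hab
          rw [hπ hab]
    · intro j
      induction j using Fin.lastCases with
      | last =>
        rw [Fin.snoc_last]
        have e : (fun k : Fin ((Fin.last i : Fin (i + 1)) : ℕ) =>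
            (Fin.snoc γ c : Fin (i + 1) → Γ) ⟨k, k.2.trans (Fin.last i).2⟩) = γ := by
          funext k
          exact Fin.snoc_castSucc (α := fun _ => Γ) c γ k
        rw [e]
        exact hcG
      | cast j =>
        rw [Fin.snoc_castSucc]
        have e : (fun k : Fin ((Fin.castSucc j : Fin (i + 1)) : ℕ) =>
            (Fin.snoc γ c : Fin (i + 1) → Γ) ⟨k, k.2.trans (Fin.castSucc j).2⟩) =
            (fun k : Fin j => γ ⟨k, k.2.trans j.2⟩) := by
          funext k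
          exact Fin.snoc_castSucc (α := fun _ => Γ) c γ ⟨k, k.2.trans j.2⟩
        rw [e]
        exact h1 j
    · intro j
      induction j using Fin.lastCases with
      | last => rw [Fin.snoc_last, Fin.snoc_last]; exact hcgood
      | cast j => rw [Fin.snoc_castSucc, Fin.snoc_castSucc]; exact h2 j
    · have h7 : ∑ y, wt cr (Fin.snoc γ c : Fin (i + 1) → Γ) y =
          ∑ y, wt cr γ y + ∑ y ∈ cr c, wt cr γ y := by
        simp_rw [enc_wt_snoc]
        rw [Finset.sum_add_distrib, ← Finset.sum_filter]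
        congr 2
        ext y; simp
      rw [h7]
      have h8 := hG (wt cr γ) hw _ c hcG
      calc ∑ y, wt cr γ y + ∑ y ∈ cr c, wt cr γ y ≤ ∑ y, wt cr γ y + ρ * ∑ y, wt cr γ y := by
            linarith
        _ = (1 + ρ) * ∑ y, wt cr γ y := by ring
        _ ≤ (1 + ρ) * (Fintype.card Λ * (1 + ρ) ^ i) :=
            mul_le_mul_of_nonneg_left h3 (by linarith)
        _ = Fintype.card Λ * (1 + ρ) ^ (i + 1) := by rw [pow_succ]; ring

/-- (ENC) Processing the points in the order of increasing weighted level. `Neg q` is the set of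
functionals negative at the point `q`, `cr γ` the set of functionals which cross the cell `γ`. For
every weight `w` a net `R w` and families `G w j` of cells are given. -/
theorem process {Λ Γ : Type} [Fintype Λ] [DecidableEq Λ] [Nonempty Λ] {M t : ℕ}
    (Neg : Fin M → Finset Λ) (cr : Γ → Finset Λ) (ℓ : ℕ)
    (hℓ : ∀ y, (univ.filter (fun q => y ∈ Neg q)).card ≤ ℓ)
    (R : (Λ → ℝ) → Fin t → Λ) (G : (Λ → ℝ) → ℕ → Finset Γ) (good : Fin M → Γ → Prop)
    (L₀ ρ : ℝ) (hρ : 0 ≤ ρ) (hL : 0 ≤ L₀)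
    (hR : ∀ w : Λ → ℝ, (∀ y, 0 < w y) → ∀ q, ((univ.filter (fun i => R w i ∈ Neg q)).card : ℝ) ≤
      L₀ + 2 * t * ((∑ y ∈ Neg q, w y) / ∑ y, w y))
    (hG : ∀ w : Λ → ℝ, (∀ y, 0 < w y) → ∀ j, ∀ γ ∈ G w j, ∑ y ∈ cr γ, w y ≤ ρ * ∑ y, w y)
    (hgood : ∀ w : Λ → ℝ, (∀ y, 0 < w y) → ∀ j q,
      (univ.filter (fun i => R w i ∈ Neg q)).card ≤ j → ∃ γ ∈ G w j, good q γ) :
    ∃ (π : Equiv.Perm (Fin M)) (γ : Fin M → Γ),
      (∀ i : Fin M, γ i ∈ G (wt cr (fun j : Fin i => γ ⟨j, j.2.trans i.2⟩))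
        ⌊L₀ + 2 * t * ℓ / ((M : ℝ) - i)⌋₊) ∧
      (∀ i, good (π i) (γ i)) ∧
      ∀ y, (2 : ℝ) ^ (univ.filter (fun i => y ∈ cr (γ i))).card ≤
        Fintype.card Λ * (1 + ρ) ^ M := by
  obtain ⟨π, γ, hπ, h1, h2, h3⟩ := enc_process_aux Neg cr ℓ hℓ R G good L₀ ρ hρ hR hG hgood M
    le_rfl
  refine ⟨Equiv.ofBijective π (Finite.injective_iff_bijective.1 hπ), γ, h1, h2, fun y => ?_⟩
  refine le_trans ?_ h3
  exact Finset.single_le_sum (f := fun y => wt cr γ y) (fun y _ => (enc_wt_pos cr γ y).le)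
    (Finset.mem_univ y)

end Pool.Agent.H7.UB
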