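import Pool.Agent.H7.UB.Count1
import Pool.Agent.H7.UB.Enc

/-! # MAIN, part 4: the number of face families -/

set_option autoImplicit false
set_option linter.unusedSectionVars false

namespace Pool.Agent.H7.UB

open Finset Matrix

theorem ncard_le_mul {α β : Type} [Finite α] [Finite β] (S : Set α) (G : Set β) (F : β → Set α)
    (hS : ∀ x ∈ S, ∃ g ∈ G, x ∈ F g) (n1 n2 : ℝ) (h1 : (G.ncard : ℝ) ≤ n1)
    (h2 : ∀ g ∈ G, ((F g).ncard : ℝ) ≤ n2) (hn2 : 0 ≤ n2) : (S.ncard : ℝ) ≤ n1 * n2 := by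
  classical
  have hG : G.Finite := Set.toFinite G
  have hF : ∀ g, (F g).Finite := fun g => Set.toFinite _
  have hsub : S ⊆ ((hG.toFinset.biUnion (fun g => (hF g).toFinset) : Finset α) : Set α) := by
    intro x hx
    obtain ⟨g, hg, hxg⟩ := hS x hx
    rw [Finset.mem_coe, Finset.mem_biUnion]
    exact ⟨g, (Set.Finite.mem_toFinset _).mpr hg, (Set.Finite.mem_toFinset _).mpr hxg⟩
  have h3 : S.ncard ≤ (hG.toFinset.biUnion (fun g => (hF g).toFinset)).card := by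
    rw [← Set.ncard_coe_finset]
    exact Set.ncard_le_ncard hsub (Finset.finite_toSet _)
  have h4 : ((hG.toFinset.biUnion (fun g => (hF g).toFinset)).card : ℝ) ≤
      ∑ g ∈ hG.toFinset, n2 := by
    refine (Nat.cast_le.mpr Finset.card_biUnion_le).trans ?_
    push_cast
    refine Finset.sum_le_sum (fun g hg => ?_)
    rw [← Set.ncard_eq_toFinset_card _ (hF g)]
    exact h2 g ((Set.Finite.mem_toFinset _).mp hg)
  rw [Finset.sum_const, ← Set.ncard_eq_toFinset_card _ hG, nsmul_eq_mul] at h4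
  calc (S.ncard : ℝ) ≤ _ := Nat.cast_le.mpr h3
    _ ≤ G.ncard * n2 := h4
    _ ≤ n1 * n2 := mul_le_mul_of_nonneg_right h1 hn2

/-- The number of `μ` with small sum, with multiplicative weights. -/
theorem sum_mu (M : ℕ) (f : Fin M → ℕ → ℝ) (g : Fin M → ℝ) (hf : ∀ i k, 0 ≤ f i k)
    (hg : ∀ i, 0 ≤ g i) (e : ℝ) (he : 1 ≤ e) (hfg : ∀ i k, f i k ≤ g i * e ^ k) :
    ∑ μ ∈ (Fintype.piFinset (fun _ : Fin M => range (3 * M + 1))).filter
      (fun μ => ∑ i, μ i ≤ 3 * M), ∏ i, f i (μ i) ≤ 16 ^ M * (e ^ 3) ^ M * ∏ i, g i := by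
  have h1 : ∀ μ ∈ (Fintype.piFinset (fun _ : Fin M => range (3 * M + 1))).filter
      (fun μ => ∑ i, μ i ≤ 3 * M), ∏ i, f i (μ i) ≤
        ((2 : ℝ) ^ (3 * M) * (e ^ 3) ^ M * ∏ i, g i) * ∏ i, (1 / 2 : ℝ) ^ (μ i) := by
    intro μ hμ
    rw [Finset.mem_filter] at hμ
    calc ∏ i, f i (μ i) ≤ ∏ i, (g i * e ^ μ i) :=
          Finset.prod_le_prod (fun i _ => hf _ _) (fun i _ => hfg i _)
      _ = (∏ i, g i) * e ^ (∑ i, μ i) := by
          rw [Finset.prod_mul_distrib, Finset.prod_pow_eq_pow_sum]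
      _ ≤ (∏ i, g i) * e ^ (3 * M) := by
          refine mul_le_mul_of_nonneg_left (pow_le_pow_right₀ he hμ.2)
            (Finset.prod_nonneg (fun i _ => hg i))
      _ = (∏ i, g i) * (e ^ 3) ^ M * 1 := by rw [pow_mul, mul_one]
      _ ≤ (∏ i, g i) * (e ^ 3) ^ M * (2 ^ (3 * M) * ∏ i, (1 / 2 : ℝ) ^ (μ i)) := by
          refine mul_le_mul_of_nonneg_left ?_ (mul_nonneg (Finset.prod_nonneg (fun i _ => hg i))
            (by positivity))
          rw [Finset.prod_pow_eq_pow_sum, one_div, inv_pow, ← div_eq_mul_inv,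
            le_div_iff₀ (by positivity), one_mul]
          exact pow_le_pow_right₀ (by norm_num) hμ.2
      _ = _ := by ring
  refine (Finset.sum_le_sum h1).trans ?_
  rw [← Finset.mul_sum]
  have h2 : ∑ μ ∈ (Fintype.piFinset (fun _ : Fin M => range (3 * M + 1))).filter
      (fun μ => ∑ i, μ i ≤ 3 * M), ∏ i, (1 / 2 : ℝ) ^ (μ i) ≤ 2 ^ M := by
    refine (Finset.sum_le_sum_of_subset_of_nonneg (Finset.filter_subset _ _)
      (fun _ _ _ => Finset.prod_nonneg (fun _ _ => by positivity))).trans ?_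
    rw [← Finset.prod_univ_sum]
    calc ∏ i : Fin M, ∑ j ∈ range (3 * M + 1), (1 / 2 : ℝ) ^ j ≤ ∏ i : Fin M, (2 : ℝ) := by
          refine Finset.prod_le_prod (fun _ _ => Finset.sum_nonneg (fun _ _ => by positivity))
            (fun _ _ => ?_)
          have := geom_sum_eq (by norm_num : (1 / 2 : ℝ) ≠ 1) (3 * M + 1)
          rw [this]
          have h3 : (0 : ℝ) < (1 / 2) ^ (3 * M + 1) := by positivity
          rw [div_le_iff_of_neg (by norm_num)]
          linarith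
      _ = 2 ^ M := by rw [Finset.prod_const, Finset.card_univ, Fintype.card_fin]
  calc _ ≤ ((2 : ℝ) ^ (3 * M) * (e ^ 3) ^ M * ∏ i, g i) * 2 ^ M :=
        mul_le_mul_of_nonneg_left h2 (mul_nonneg (by positivity)
          (Finset.prod_nonneg (fun i _ => hg i)))
    _ = 16 ^ M * (e ^ 3) ^ M * ∏ i, g i := by
        have : (16 : ℝ) ^ M = 2 ^ (3 * M) * 2 ^ M := by
          rw [← pow_add, show 3 * M + M = 4 * M by ring, pow_mul]; norm_num
        rw [this]; ring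

section

variable {d n t C : ℕ} {r : ℝ} {X₀ : Fin n → Fin (d + 1) → ℝ} (D : CData d n t C r X₀) {M : ℕ}

theorem finite_Gam (d n : ℕ) : Finite (Gam d n) := inferInstance

instance instFiniteGam (d n M : ℕ) : Finite (Fin M → Gam d n) :=
  @Pi.finite _ _ _ (fun _ => finite_Gam d n)

/-- The level bound of the step `i`. -/
noncomputable def lev (d C n t ℓ M : ℕ) (i : Fin M) (μ : ℕ) : ℕ :=
  ⌊L0c d C n + 2 * t * ℓ * μ / ((M : ℝ) - i)⌋₊

/-- Code sequences. -/
def Cod (D : CData d n t C r X₀) (ℓ M : ℕ) : Set (Fin M → Gam d n) :=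
  {γ | ∃ μ : Fin M → ℕ, ∑ i, μ i ≤ 3 * M ∧
    ∀ i : Fin M, γ i ∈ D.G (wt2 D.cr (fun j : Fin i => γ ⟨j, j.2.trans i.2⟩))
      (lev d C n t ℓ M i (μ i))}

theorem L0c_nonneg : 0 ≤ L0c d C n := by
  unfold L0c
  refine Real.logb_nonneg (by norm_num) ?_
  have := one_le_SV (d := d) ((d + 1) * (C * (n + 1) ^ (d / 2)))
  linarith

/-- The bound for the number of code sequences. -/
noncomputable def N2 (d C n t ℓ M : ℕ) : ℝ :=
  16 ^ M * (Real.exp d ^ 3) ^ M *
    ∏ i : Fin M, ((C : ℝ) * (t + 1) ^ (d / 2) *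
      (1 + L0c d C n + 2 * t * ℓ / ((M : ℝ) - i)) ^ d)

theorem N2_nonneg (d C n t ℓ M : ℕ) : 0 ≤ N2 d C n t ℓ M := by
  unfold N2
  refine mul_nonneg (by positivity) (Finset.prod_nonneg (fun i _ => ?_))
  have h1 : (0 : ℝ) < (M : ℝ) - i := by
    have : (i : ℕ) < M := i.2
    have : ((i : ℕ) : ℝ) < M := by exact_mod_cast this
    linarith
  have := L0c_nonneg (d := d) (C := C) (n := n)
  positivity

theorem card_Cod (ℓ M : ℕ) : ((Cod D ℓ M).ncard : ℝ) ≤ N2 d C n t ℓ M := by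
  classical
  set T := (Fintype.piFinset (fun _ : Fin M => range (3 * M + 1))).filter
      (fun μ => ∑ i, μ i ≤ 3 * M) with hT
  have hMi : ∀ i : Fin M, (0 : ℝ) < (M : ℝ) - i := by
    intro i
    have : (i : ℕ) < M := i.2
    have : ((i : ℕ) : ℝ) < M := by exact_mod_cast this
    linarith
  have hL := L0c_nonneg (d := d) (C := C) (n := n)
  set Fb : (Fin M → ℕ) → Set (Fin M → Gam d n) := fun μ =>
    {γ | ∀ i : Fin M, γ i ∈ D.G (wt2 D.cr (fun j : Fin i => γ ⟨j, j.2.trans i.2⟩))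
      (lev d C n t ℓ M i (μ i))} with hFb
  have hfib : ∀ μ, (Fb μ).ncard ≤ ∏ i, (C * (t + 1) ^ (d / 2) * (lev d C n t ℓ M i (μ i) + 1) ^ d) := by
    intro μ
    exact card_seq M (fun i p => D.G (wt2 D.cr p) (lev d C n t ℓ M i (μ i)))
      (fun i => C * (t + 1) ^ (d / 2) * (lev d C n t ℓ M i (μ i) + 1) ^ d)
      (fun i p => D.cardG _ _)
  have hsub : Cod D ℓ M ⊆ ((T.biUnion (fun μ => (Set.toFinite (Fb μ)).toFinset) :
      Finset (Fin M → Gam d n)) : Set (Fin M → Gam d n)) := by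
    rintro γ ⟨μ, hμ, hγ⟩
    rw [Finset.mem_coe, Finset.mem_biUnion]
    refine ⟨μ, ?_, (Set.Finite.mem_toFinset _).mpr hγ⟩
    rw [hT, Finset.mem_filter, Fintype.mem_piFinset]
    refine ⟨fun i => ?_, hμ⟩
    rw [Finset.mem_range]
    have := Finset.single_le_sum (f := μ) (fun i _ => Nat.zero_le _) (Finset.mem_univ i)
    omega
  have h1 : ((Cod D ℓ M).ncard : ℝ) ≤
      ∑ μ ∈ T, ∏ i, ((C : ℝ) * (t + 1) ^ (d / 2) * ((lev d C n t ℓ M i (μ i) : ℝ) + 1) ^ d) := by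
    have h2 : (Cod D ℓ M).ncard ≤ (T.biUnion (fun μ => (Set.toFinite (Fb μ)).toFinset)).card := by
      rw [← Set.ncard_coe_finset]
      exact Set.ncard_le_ncard hsub (Finset.finite_toSet _)
    refine (Nat.cast_le.mpr h2).trans ((Nat.cast_le.mpr Finset.card_biUnion_le).trans ?_)
    push_cast
    refine Finset.sum_le_sum (fun μ _ => ?_)
    rw [← Set.ncard_eq_toFinset_card]
    exact_mod_cast hfib μ
  refine h1.trans ?_
  unfold N2
  refine sum_mu M (fun i k => (C : ℝ) * (t + 1) ^ (d / 2) * ((lev d C n t ℓ M i k : ℝ) + 1) ^ d)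
    (fun i => (C : ℝ) * (t + 1) ^ (d / 2) *
      (1 + L0c d C n + 2 * t * ℓ / ((M : ℝ) - i)) ^ d) (fun i k => by positivity) (fun i => ?_)
    (Real.exp d) (Real.one_le_exp (by positivity)) (fun i k => ?_)
  · have := hMi i
    positivity
  · have h3 := hMi i
    have h4 : (lev d C n t ℓ M i k : ℝ) ≤ L0c d C n + 2 * t * ℓ * k / ((M : ℝ) - i) :=
      Nat.floor_le (by positivity)
    have h5 : (lev d C n t ℓ M i k : ℝ) + 1 ≤
        (1 + L0c d C n + 2 * t * ℓ / ((M : ℝ) - i)) * (1 + k) := by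
      have e1 : 2 * (t : ℝ) * ℓ * k / ((M : ℝ) - i) = 2 * t * ℓ / ((M : ℝ) - i) * k := by
        ring
      rw [e1] at h4
      have h6 : 0 ≤ 2 * (t : ℝ) * ℓ / ((M : ℝ) - i) := by positivity
      have h7 : (0 : ℝ) ≤ k := by positivity
      nlinarith [mul_nonneg hL h7]
    have h8 : ((1 : ℝ) + k) ^ d ≤ Real.exp d ^ k := by
      have h9 : (1 : ℝ) + k ≤ Real.exp k := by
        have := Real.add_one_le_exp (k : ℝ)
        linarith
      calc ((1 : ℝ) + k) ^ d ≤ Real.exp k ^ d := pow_le_pow_left₀ (by positivity) h9 d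
        _ = Real.exp d ^ k := by
          rw [← Real.exp_nat_mul, ← Real.exp_nat_mul, mul_comm]
    calc (C : ℝ) * (t + 1) ^ (d / 2) * ((lev d C n t ℓ M i k : ℝ) + 1) ^ d ≤
        (C : ℝ) * (t + 1) ^ (d / 2) *
          ((1 + L0c d C n + 2 * t * ℓ / ((M : ℝ) - i)) * (1 + k)) ^ d := by gcongr
      _ = (C : ℝ) * (t + 1) ^ (d / 2) * (1 + L0c d C n + 2 * t * ℓ / ((M : ℝ) - i)) ^ d *
          (1 + k) ^ d := by rw [mul_pow]; ring
      _ ≤ _ := mul_le_mul_of_nonneg_left h8 (by positivity)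

end

end Pool.Agent.H7.UB
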