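import Pool.Agent.H7.UB.Est

/-! # MAIN, part 5: the number of face families -/

set_option autoImplicit false
set_option linter.unusedSectionVars false

namespace Pool.Agent.H7.UB

open Finset Matrix

theorem finite_U (d n : ℕ) : Finite (U d n) := by
  have h0 : Finite (L0 d n) := inferInstance
  have h1 : Finite (L1 d n) := @Finite.instProd _ _ (@Pi.finite _ _ _ (fun _ => h0)) _
  have h1' : Finite (L1 d n ⊕ Fin (d + 1)) := @Finite.instSum _ _ h1 _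
  have h2 : Finite (L2 d n) := @Finite.instProd _ _ (@Pi.finite _ _ _ (fun _ => h1')) _
  have h3 : Finite (L3 d n) := @Pi.finite _ _ _ (fun _ => h2)
  have h2' : Finite (L2' d n) := @Pi.finite _ _ _ (fun _ => h1)
  exact @Finite.instSum _ _ h0 (@Finite.instSum _ _ h1 (@Finite.instSum _ _ h2
    (@Finite.instSum _ _ h3 (@Finite.instSum _ _ h2' _))))

instance instFiniteChi (d n : ℕ) : Finite ((Fin (d + 1) → U d n) → SignType) :=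
  have : Finite (U d n) := finite_U d n
  have : Finite (Fin (d + 1) → U d n) := Pi.finite
  Pi.finite

theorem N3_nonneg (d C C₃ n M κ : ℕ) : 0 ≤ N3 d C C₃ n M κ := by
  unfold N3
  positivity

theorem N1_nonneg (d C₁ n : ℕ) : 0 ≤ N1 d C₁ n := by
  unfold N1
  positivity

/-- The number of face families with given codes. -/
theorem card_fib (d : ℕ) (hd : 1 ≤ d) : ∃ C₃ : ℕ, ∀ (n t C : ℕ) (r : ℝ)
    (X₀ : Fin n → Fin (d + 1) → ℝ) (D : CData d n t C r X₀) (M ℓ κ : ℕ) (_ : 1 ≤ M)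
    (_ : Fintype.card {p // p ∈ Lam D.Θ} * (1 + (d + 1 : ℝ) ^ 2 / r) ^ M ≤ 2 ^ κ)
    (γ : Fin M → Gam d n),
    ({F : Set (Set (QQ d n M)) | ∃ XS XM μ, Adm D ℓ XS XM γ μ ∧ F = FF (conf XS XM)}.ncard : ℝ) ≤
      N3 d C C₃ n M (κ + ℓ) := by
  classical
  obtain ⟨C₃, h3⟩ := list_count d hd
  refine ⟨C₃, fun n t C r X₀ D M ℓ κ hM hκ γ => ?_⟩
  set T := {F : Set (Set (QQ d n M)) | ∃ XS XM μ, Adm D ℓ XS XM γ μ ∧ F = FF (conf XS XM)} with hT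
  by_cases hne : T.Nonempty
  swap
  · rw [Set.not_nonempty_iff_eq_empty.mp hne, Set.ncard_empty]
    push_cast
    exact N3_nonneg _ _ _ _ _ _
  have hK : ∀ τ : {Δ // Δ ∈ D.Θ}, (Kf D γ τ).card ≤ (d + 1) * (κ + ℓ) := by
    obtain ⟨F, XS, XM, μ, hF, _⟩ := hne
    exact fun τ => card_Kf D hF hκ τ
  have h4 := h3 n M hM {Δ // Δ ∈ D.Θ} (fun τ => τ.1) (Kf D γ) _ hK
  set V := {s : (Σ τ : {Δ // Δ ∈ D.Θ}, (Fin (d + 1) → Fin (d + 1) ⊕ {q // q ∈ Kf D γ τ})) →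
      SignType |
      ∃ (XS : Fin n → Fin (d + 1) → ℝ) (XM : Fin M → Fin (d + 1) → ℝ),
        (∀ i, ∑ l, XS i l = 1) ∧ (∀ i, ∑ l, XM i l = 1) ∧
        s = fun p => sg (lmat XS XM (p.1.1) (Kf D γ p.1) p.2).det} with hV
  have h5 : T.ncard ≤ V.ncard := by
    have hex : ∀ F : Set (Set (QQ d n M)), ∃ s : (Σ τ : {Δ // Δ ∈ D.Θ},
        (Fin (d + 1) → Fin (d + 1) ⊕ {q // q ∈ Kf D γ τ})) → SignType, F ∈ T →
        ∃ XS XM μ, Adm D ℓ XS XM γ μ ∧ F = FF (conf XS XM) ∧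
          s = fun p => sg (lmat XS XM (p.1.1) (Kf D γ p.1) p.2).det := by
      intro F
      by_cases hF : F ∈ T
      · obtain ⟨XS, XM, μ, h6, h7⟩ := hF
        exact ⟨_, fun _ => ⟨XS, XM, μ, h6, h7, rfl⟩⟩
      · exact ⟨fun _ => 0, fun h => absurd h hF⟩
    choose S hS using hex
    refine Set.ncard_le_ncard_of_injOn S ?_ ?_ (Set.toFinite _)
    · intro F hF
      obtain ⟨XS, XM, μ, h6, _, h8⟩ := hS F hF
      exact ⟨XS, XM, h6.sumS, h6.sumM, h8⟩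
    · intro F hF F' hF' hSS
      obtain ⟨XS, XM, μ, h6, h7, h8⟩ := hS F hF
      obtain ⟨XS', XM', μ', h6', h7', h8'⟩ := hS F' hF'
      rw [h7, h7']
      rw [h8, h8'] at hSS
      refine Set.Subset.antisymm ?_ ?_
      · exact FF_subset_of D h6 h6' (fun τ f => congrFun hSS ⟨τ, f⟩)
      · exact FF_subset_of D h6' h6 (fun τ f => (congrFun hSS ⟨τ, f⟩).symm)
  refine (Nat.cast_le.mpr h5).trans (h4.trans ?_)
  unfold N3
  have h9 : (Fintype.card {Δ // Δ ∈ D.Θ} : ℝ) ≤ ((C * (n + 1) ^ (d / 2) : ℕ) : ℝ) := by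
    rw [Fintype.card_coe]
    exact_mod_cast D.card
  gcongr

/-- The number of face families of a class. -/
theorem card_class (d : ℕ) (hd : 1 ≤ d) : ∃ C₃ : ℕ, ∀ (n t C : ℕ) (r : ℝ)
    (X₀ : Fin n → Fin (d + 1) → ℝ) (D : CData d n t C r X₀) (M ℓ κ : ℕ) (_ : 1 ≤ M)
    (_ : Fintype.card {p // p ∈ Lam D.Θ} * (1 + (d + 1 : ℝ) ^ 2 / r) ^ M ≤ 2 ^ κ),
    ({F : Set (Set (QQ d n M)) | ∃ XS XM γ μ, Adm D ℓ XS XM γ μ ∧ F = FF (conf XS XM)}.ncard : ℝ) ≤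
      N2 d C n t ℓ M * N3 d C C₃ n M (κ + ℓ) := by
  obtain ⟨C₃, h3⟩ := card_fib d hd
  refine ⟨C₃, fun n t C r X₀ D M ℓ κ hM hκ => ?_⟩
  refine ncard_le_mul _ (Cod D ℓ M)
    (fun γ => {F : Set (Set (QQ d n M)) | ∃ XS XM μ, Adm D ℓ XS XM γ μ ∧ F = FF (conf XS XM)})
    ?_ _ _ (card_Cod D ℓ M) ?_ (N3_nonneg _ _ _ _ _ _)
  · rintro F ⟨XS, XM, γ, μ, h, hF⟩
    exact ⟨γ, ⟨μ, h.mu, h.code⟩, XS, XM, μ, h, hF⟩
  · intro γ _
    exact h3 n t C r X₀ D M ℓ κ hM hκ γ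

/-- The classes and the number of all face families. -/
theorem card_all (d : ℕ) (hd : 1 ≤ d) : ∃ C C₁ C₃ : ℕ, ∀ (n t : ℕ) (r : ℝ) (_ : 0 < r)
    (_ : SV d ((d + 1) * (C * (n + 1) ^ (d / 2))) ^ 2 * Real.exp (-(t / r)) < 1 / 2),
    ∃ (X₀ : ((Fin (d + 1) → U d n) → SignType) → Fin n → Fin (d + 1) → ℝ)
      (D : ∀ χ, CData d n t C r (X₀ χ)),
      (∀ X : Fin n → Fin (d + 1) → ℝ, (∀ s, ∑ i, X s i = 1) → chi (X₀ (chi X)) = chi X) ∧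
      ∀ (M ℓ κ : ℕ) (_ : 1 ≤ M)
        (_ : (((d + 1) * (C * (n + 1) ^ (d / 2)) : ℕ) : ℝ) * (1 + (d + 1 : ℝ) ^ 2 / r) ^ M ≤
          2 ^ κ),
        ({F : Set (Set (QQ d n M)) | ∃ XS XM γ μ, Adm (D (chi XS)) ℓ XS XM γ μ ∧
          F = FF (conf XS XM)}.ncard : ℝ) ≤
          N1 d C₁ n * (N2 d C n t ℓ M * N3 d C C₃ n M (κ + ℓ)) := by
  classical
  obtain ⟨C, hC⟩ := exists_cdata d hd
  obtain ⟨C₁, hC1⟩ := card_chi d
  obtain ⟨C₃, hC3⟩ := card_class d hd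
  refine ⟨C, C₁, C₃, fun n t r hr hnet => ?_⟩
  have hX : ∀ χ : (Fin (d + 1) → U d n) → SignType, ∃ X₀ : Fin n → Fin (d + 1) → ℝ,
      (∀ s, ∑ i, X₀ s i = 1) ∧
      ((∃ X : Fin n → Fin (d + 1) → ℝ, (∀ s, ∑ i, X s i = 1) ∧ χ = chi X) → chi X₀ = χ) := by
    intro χ
    by_cases h : ∃ X : Fin n → Fin (d + 1) → ℝ, (∀ s, ∑ i, X s i = 1) ∧ χ = chi X
    · obtain ⟨X, h1, h2⟩ := h
      exact ⟨X, h1, fun _ => h2.symm⟩
    · exact ⟨fun _ => Pi.single 0 1, fun s => by simp, fun h' => absurd h' h⟩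
  choose X₀ hX1 hX2 using hX
  refine ⟨X₀, fun χ => (hC n t r hr hnet (X₀ χ) (hX1 χ)).some, fun X hX => hX2 _ ⟨X, hX, rfl⟩,
    fun M ℓ κ hM hκ => ?_⟩
  refine ncard_le_mul _
    {χ | ∃ X : Fin n → Fin (d + 1) → ℝ, (∀ s, ∑ i, X s i = 1) ∧ χ = chi X}
    (fun χ => {F : Set (Set (QQ d n M)) | ∃ XS XM γ μ,
      Adm ((hC n t r hr hnet (X₀ χ) (hX1 χ)).some) ℓ XS XM γ μ ∧ F = FF (conf XS XM)})
    ?_ _ _ (hC1 n) ?_ (mul_nonneg (N2_nonneg _ _ _ _ _ _) (N3_nonneg _ _ _ _ _ _))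
  · rintro F ⟨XS, XM, γ, μ, h, hF⟩
    exact ⟨chi XS, ⟨XS, h.sumS, rfl⟩, XS, XM, γ, μ, h, hF⟩
  · intro χ _
    refine hC3 n t C r (X₀ χ) _ M ℓ κ hM ?_
    refine le_trans ?_ hκ
    refine mul_le_mul_of_nonneg_right ?_ (by positivity)
    rw [Fintype.card_coe]
    have h1 := card_Lam ((hC n t r hr hnet (X₀ χ) (hX1 χ)).some.Θ)
    have h2 := (hC n t r hr hnet (X₀ χ) (hX1 χ)).some.card
    exact_mod_cast h1.trans (Nat.mul_le_mul_left _ h2)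

end Pool.Agent.H7.UB
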