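import Mathlib

/-!
# MP_18b2cf_co, upper bound: definitions

Vectors are functions `Fin (d+1) → R`; `cross u` is the generalised cross product of `d` vectors of
`R^(d+1)`, so that `cross u ⬝ᵥ x = det (x, u)`.
-/

set_option autoImplicit false

namespace Pool.Agent.H7.UB

open Finset Matrix

/-- Sign of a real number. -/
noncomputable abbrev sg (a : ℝ) : SignType := SignType.sign a

/-- Generalised cross product. -/
def cross {R : Type*} [CommRing R] {d : ℕ} (u : Fin d → Fin (d + 1) → R) : Fin (d + 1) → R :=
  fun j => Matrix.det (Matrix.of (Fin.cons (Pi.single j 1) u : Fin (d + 1) → Fin (d + 1) → R))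

/-- Signed vector. -/
def sgn {R : Type*} [CommRing R] {d : ℕ} (b : Bool) (u : Fin d → R) : Fin d → R :=
  if b then u else -u

/-- The vector with descriptor `p`: a signed cross product of members of `y` and `β`. -/
def cvec {R : Type*} [CommRing R] {d : ℕ} {I J : Type} (y : I → Fin (d + 1) → R)
    (β : J → Fin (d + 1) → R) (p : (Fin d → I ⊕ J) × Bool) : Fin (d + 1) → R :=
  sgn p.2 (cross (fun a => Sum.elim y β (p.1 a)))

/-- The faces of a family of vectors: zero sets of the functionals which are nonnegative on it. -/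
def FF {k : ℕ} {Q : Type} (X : Q → Fin k → ℝ) : Set (Set Q) :=
  {T | ∃ h : Fin k → ℝ, (∀ q, 0 ≤ h ⬝ᵥ X q) ∧ T = {q | h ⬝ᵥ X q = 0}}

end Pool.Agent.H7.UB
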