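import Pool.Agent.H7.UB.Defs

/-! Derivatives of polynomial functions, used in A1 and A2. -/

set_option autoImplicit false
set_option linter.unusedSectionVars false
set_option linter.unusedSimpArgs false

namespace Pool.Agent.H7.UB

open Finset

variable {σ : Type} [Fintype σ] [DecidableEq σ]

/-- The differential of a polynomial function as a continuous linear map. -/
noncomputable def pD (p : MvPolynomial σ ℝ) (x : σ → ℝ) : (σ → ℝ) →L[ℝ] ℝ :=
  ∑ j, MvPolynomial.eval x (MvPolynomial.pderiv j p) • ContinuousLinearMap.proj (R := ℝ) j

theorem pD_apply (p : MvPolynomial σ ℝ) (x v : σ → ℝ) :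
    pD p x v = ∑ j, MvPolynomial.eval x (MvPolynomial.pderiv j p) * v j := by
  simp [pD]

theorem hasStrictFDerivAt_eval (p : MvPolynomial σ ℝ) (x : σ → ℝ) :
    HasStrictFDerivAt (fun x => MvPolynomial.eval x p) (pD p x) x := by
  induction p using MvPolynomial.induction_on with
  | C a =>
    have h : pD (MvPolynomial.C a : MvPolynomial σ ℝ) x = 0 := by
      ext v; simp [pD]
    simp only [MvPolynomial.eval_C, h]
    exact hasStrictFDerivAt_const _ _
  | add p q hp hq =>
    have h : pD (p + q) x = pD p x + pD q x := by
      ext v; simp [pD_apply, Finset.sum_add_distrib, add_mul]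
    simp only [map_add, h]
    exact hp.add hq
  | mul_X p i hp =>
    have h : pD (p * MvPolynomial.X i) x =
        MvPolynomial.eval x p • ContinuousLinearMap.proj (R := ℝ) i + x i • pD p x := by
      refine ContinuousLinearMap.ext (fun v => ?_)
      rw [pD_apply, add_apply, smul_apply,
        smul_apply, pD_apply, ContinuousLinearMap.proj_apply,
        smul_eq_mul, smul_eq_mul, Finset.mul_sum]
      simp only [Derivation.leibniz, MvPolynomial.pderiv_X, map_add, smul_eq_mul, map_mul,
        MvPolynomial.eval_X, add_mul, Finset.sum_add_distrib]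
      congr 1
      · rw [Finset.sum_eq_single i]
        · simp
        · intro j _ hj
          simp [Pi.single_apply, Ne.symm hj]
        · simp
      · refine Finset.sum_congr rfl (fun j _ => ?_)
        ring
    simp only [map_mul, MvPolynomial.eval_X, h]
    exact hp.mul (ContinuousLinearMap.proj (R := ℝ) (φ := fun _ : σ => ℝ) i).hasStrictFDerivAt

theorem hasFDerivAt_eval (p : MvPolynomial σ ℝ) (x : σ → ℝ) :
    HasFDerivAt (fun x => MvPolynomial.eval x p) (pD p x) x :=
  (hasStrictFDerivAt_eval p x).hasFDerivAt

theorem continuous_eval' (p : MvPolynomial σ ℝ) :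
    Continuous (fun x : σ → ℝ => MvPolynomial.eval x p) :=
  MvPolynomial.continuous_eval p

/-- The partial derivative vanishes if the variable does not occur. -/
theorem pderiv_eq_zero {p : MvPolynomial σ ℝ} {j : σ} (h : j ∉ p.vars) :
    MvPolynomial.pderiv j p = 0 :=
  MvPolynomial.pderiv_eq_zero_of_notMem_vars h

/-- Degree of the derivative. -/
theorem totalDegree_pderiv_le (p : MvPolynomial σ ℝ) (j : σ) :
    (MvPolynomial.pderiv j p).totalDegree ≤ p.totalDegree := by
  unfold MvPolynomial.totalDegree
  refine Finset.sup_le (fun m hm => ?_)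
  rw [MvPolynomial.mem_support_iff, MvPolynomial.coeff_pderiv] at hm
  have h1 : m + Finsupp.single j 1 ∈ p.support := by
    rw [MvPolynomial.mem_support_iff]
    intro h
    exact hm (by rw [h, zero_mul])
  refine le_trans ?_ (Finset.le_sup (f := fun s : σ →₀ ℕ => s.sum fun _ e => e) h1)
  rw [Finsupp.sum_add_index' (by simp) (by simp)]
  exact Nat.le_add_right _ _

end Pool.Agent.H7.UB
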