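import Mathlib

/-! The final estimate: real asymptotics. -/

set_option autoImplicit false

namespace Pool.Agent.H7.UB.EstAux

open Finset Filter Topology Asymptotics

lemma ev_const_le_rpow (ε : ℝ) (hε : 0 < ε) (K : ℝ) : ∀ᶠ x : ℝ in atTop, K ≤ x ^ ε :=
  (tendsto_rpow_atTop hε).eventually_ge_atTop K

lemma ev_log (α : ℝ) (hα : 0 < α) (K : ℝ) : ∀ᶠ x : ℝ in atTop, K * Real.log x + K ≤ x ^ α := by
  have h1 : (fun x : ℝ => K * Real.log x) =o[atTop] fun x => x ^ α :=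
    (isLittleO_log_rpow_atTop hα).const_mul_left K
  have h2 : (fun _ : ℝ => K) =o[atTop] fun x : ℝ => x ^ α := by
    rw [isLittleO_const_left]
    right
    exact tendsto_norm_atTop_atTop.comp (tendsto_rpow_atTop hα)
  have h3 := (h1.add h2).bound (zero_lt_one)
  filter_upwards [h3, eventually_ge_atTop (0 : ℝ)] with x hx h0
  rw [one_mul, Real.norm_eq_abs, Real.norm_eq_abs, abs_of_nonneg (Real.rpow_nonneg h0 α)] at hx
  exact (le_abs_self _).trans hx

lemma ev_rpow (α β : ℝ) (h : α < β) (hβ : 0 < β) (K δ : ℝ) (hδ : 0 < δ) :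
    ∀ᶠ x : ℝ in atTop, K * x ^ α + K ≤ δ * x ^ β := by
  have h1 := ev_const_le_rpow (β - α) (by linarith) (2 * |K| / δ)
  have h2 := ev_const_le_rpow β hβ (2 * |K| / δ)
  filter_upwards [h1, h2, eventually_gt_atTop (0 : ℝ)] with x h3 h4 h0
  have h5 : x ^ β = x ^ (β - α) * x ^ α := by
    rw [← Real.rpow_add h0]; congr 1; ring
  have h6 : 0 < x ^ α := Real.rpow_pos_of_pos h0 α
  rw [div_le_iff₀ hδ] at h3 h4
  have h7 : 2 * |K| * x ^ α ≤ x ^ β * δ := by
    rw [h5]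
    calc 2 * |K| * x ^ α ≤ x ^ (β - α) * δ * x ^ α := mul_le_mul_of_nonneg_right h3 h6.le
      _ = _ := by ring
  have h8 : K ≤ |K| := le_abs_self K
  have h9 : K * x ^ α ≤ |K| * x ^ α := mul_le_mul_of_nonneg_right h8 h6.le
  nlinarith

/-- lower bound for factorials -/
lemma factorial_ge (M : ℕ) : (M : ℝ) ^ M ≤ (M.factorial : ℝ) * Real.exp 1 ^ M := by
  have h := Real.pow_div_factorial_le_exp (x := (M : ℝ)) (Nat.cast_nonneg M) M
  rw [div_le_iff₀ (by positivity)] at h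
  calc (M : ℝ) ^ M ≤ Real.exp M * M.factorial := h
    _ = (M.factorial : ℝ) * Real.exp 1 ^ M := by
      rw [← Real.exp_nat_mul, mul_one]; ring

end Pool.Agent.H7.UB.EstAux
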