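import Pool.Agent.H7.UB.Count2
import Pool.Agent.H7.UB.EstAux

/-! The final estimate. -/

set_option autoImplicit false

namespace Pool.Agent.H7.UB

open Finset Matrix Filter Topology

/-- The bound for the number of classes. -/
noncomputable def N1 (d C₁ n : ℕ) : ℝ := ((C₁ : ℝ) * (n + 1) ^ C₁) ^ (d * n)

/-- The bound for the number of lists. -/
noncomputable def N3 (d C C₃ n M κ : ℕ) : ℝ :=
  ((C₃ : ℝ) * ((C * (n + 1) ^ (d / 2) : ℕ) * ((((d + 1) * κ : ℕ) : ℝ) + 1) ^ C₃ + 1)) ^ (d * n) *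
  ((C₃ : ℝ) * ((C * (n + 1) ^ (d / 2) : ℕ) * ((((d + 1) * κ : ℕ) : ℝ) + 1) ^ C₃ / M + 1)) ^ (d * M)

namespace EstAux

lemma pow_bound {x b e E : ℝ} {k : ℕ} (hx : 1 ≤ x) (hb : 0 ≤ b) (h : b ≤ x ^ e)
    (hE : e * k ≤ E) : b ^ k ≤ x ^ E := by
  calc b ^ k ≤ (x ^ e) ^ k := pow_le_pow_left₀ hb h k
    _ = x ^ (e * k) := by rw [Real.rpow_mul (by linarith), Real.rpow_natCast]
    _ ≤ x ^ E := Real.rpow_le_rpow_of_exponent_le hx hE

lemma prod_sub (M : ℕ) : ∏ i : Fin M, ((M : ℝ) - (i : ℕ)) = (M.factorial : ℝ) := by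
  rw [Fin.prod_univ_eq_prod_range (fun i => (M : ℝ) - (i : ℕ)) M, ← Nat.descFactorial_self,
    Nat.descFactorial_eq_prod_range]
  push_cast
  refine Finset.prod_congr rfl fun i hi => ?_
  rw [Finset.mem_range] at hi
  rw [Nat.cast_sub hi.le]

lemma prod_bound (M ℓ v : ℕ) (L0 : ℝ) (h0 : 0 ≤ 1 + L0) (h1 : 1 + L0 ≤ ℓ)
    (hv : (v : ℝ) ≤ 2 * M) :
    ∏ i : Fin M, (1 + L0 + 2 * v * ℓ / ((M : ℝ) - (i : ℕ))) ≤ (5 * ℓ * Real.exp 1) ^ M := by
  have hpos : ∀ i : Fin M, 0 < (M : ℝ) - (i : ℕ) := fun i => by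
    have : ((i : ℕ) : ℝ) < M := by exact_mod_cast i.2
    linarith
  have h2 : ∏ i : Fin M, (1 + L0 + 2 * v * ℓ / ((M : ℝ) - (i : ℕ))) ≤
      ∏ i : Fin M, ((5 * ℓ) * M / ((M : ℝ) - (i : ℕ))) := by
    refine Finset.prod_le_prod (fun i _ => ?_) (fun i _ => ?_)
    · have := hpos i
      positivity
    · have h3 := hpos i
      rw [le_div_iff₀ h3, add_mul, div_mul_cancel₀ _ h3.ne']
      have h4 : (M : ℝ) - (i : ℕ) ≤ M := by
        have : (0 : ℝ) ≤ ((i : ℕ) : ℝ) := Nat.cast_nonneg _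
        linarith
      have h5 : (1 + L0) * ((M : ℝ) - (i : ℕ)) ≤ ℓ * M :=
        mul_le_mul h1 h4 h3.le (Nat.cast_nonneg _)
      have h6 : (2 : ℝ) * v * ℓ ≤ 4 * M * ℓ := by
        have : (0 : ℝ) ≤ ℓ := Nat.cast_nonneg _
        nlinarith
      nlinarith
  refine h2.trans ?_
  rw [Finset.prod_div_distrib, prod_sub, Finset.prod_const, Finset.card_univ, Fintype.card_fin,
    div_le_iff₀ (by positivity)]
  have h3 := factorial_ge M
  calc (5 * (ℓ : ℝ) * M) ^ M = (5 * ℓ) ^ M * (M : ℝ) ^ M := by rw [mul_pow]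
    _ ≤ (5 * ℓ) ^ M * ((M.factorial : ℝ) * Real.exp 1 ^ M) :=
        mul_le_mul_of_nonneg_left h3 (by positivity)
    _ = _ := by rw [mul_pow (5 * (ℓ : ℝ))]; ring

end EstAux

open EstAux

theorem N2_le (d C n v ℓ M : ℕ) (x e : ℝ) (_hx : x = v) (hx1 : 1 ≤ x) (h1 : 0 ≤ 1 + L0c d C n)
    (h2 : 1 + L0c d C n ≤ ℓ) (hv : (v : ℝ) ≤ 2 * M) (hMx : (M : ℝ) ≤ x) (he : 0 ≤ e)
    (h : 16 * Real.exp d ^ 3 * (C * (v + 1) ^ (d / 2)) * (5 * ℓ * Real.exp 1) ^ d ≤ x ^ e) :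
    N2 d C n v ℓ M ≤ x ^ (e * x) := by
  have h3 : N2 d C n v ℓ M ≤
      (16 * Real.exp d ^ 3 * (C * (v + 1) ^ (d / 2)) * (5 * ℓ * Real.exp 1) ^ d) ^ M := by
    unfold N2
    rw [Finset.prod_mul_distrib, Finset.prod_const, Finset.card_univ, Fintype.card_fin,
      Finset.prod_pow]
    have h4 := prod_bound M ℓ v (L0c d C n) h1 h2 hv
    have h5 : 0 ≤ ∏ i : Fin M, (1 + L0c d C n + 2 * v * ℓ / ((M : ℝ) - (i : ℕ))) := by
      refine Finset.prod_nonneg fun i _ => ?_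
      have : ((i : ℕ) : ℝ) < M := by exact_mod_cast i.2
      have : 0 < (M : ℝ) - (i : ℕ) := by linarith
      positivity
    calc _ ≤ 16 ^ M * (Real.exp d ^ 3) ^ M * (((C : ℝ) * (v + 1) ^ (d / 2)) ^ M *
          ((5 * ℓ * Real.exp 1) ^ M) ^ d) := by
            gcongr
      _ = _ := by
        have h6 : ((5 * (ℓ : ℝ) * Real.exp 1) ^ M) ^ d = ((5 * (ℓ : ℝ) * Real.exp 1) ^ d) ^ M := by
          rw [← pow_mul, ← pow_mul, mul_comm M d]
        rw [h6, ← mul_pow, ← mul_pow, ← mul_pow, ← mul_assoc]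
  refine h3.trans (pow_bound hx1 (by positivity) h ?_)
  exact mul_le_mul_of_nonneg_left hMx he

/-- the main inequality for a fixed `v` -/
theorem est_core (d : ℕ) (hd : 2 ≤ d) (C C₁ C₃ CA : ℕ) (n ℓ M v : ℕ) (x α ε a : ℝ) (hx : x = v)
    (hα : 0 < α) (hα4 : α ≤ 1 / 4) (hε : 0 < ε)
    (hea : (6 + d) * ε + 2 * α * d * (1 + C₃) ≤ a)
    (hx2 : 2 ≤ x) (hM1 : 1 ≤ M) (hMx : (M : ℝ) ≤ x) (hM2 : x ≤ 2 * M)
    (hM3 : x ≤ M + ε * x) (hn : (n : ℝ) + 1 ≤ x)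
    (hn2 : ((C₁ + C₃ + d / 2 + 10 : ℕ) * (d * n : ℕ) : ℝ) ≤ ε * x)
    (hCA : (CA : ℝ) + 2 ≤ ε * x)
    (hL0 : 0 ≤ 1 + L0c d C n) (hL1 : 1 + L0c d C n ≤ ℓ) (hl1 : 1 ≤ ℓ) (hl : (ℓ : ℝ) ≤ 2 * x ^ (2 * α))
    (hK : ((C : ℝ) + 1) ≤ x ∧ ((C₁ : ℝ) + 1) ≤ x ∧ ((C₃ : ℝ) + 1) ≤ x ∧ (CA : ℝ) ≤ x ∧
      (5 * (d + 1) : ℝ) * x ^ (2 * α) ≤ x)
    (hK2 : 16 * Real.exp d ^ 3 * C * 2 ^ (d / 2) * (10 * Real.exp 1) ^ d ≤ x ^ ε)
    (hK3 : (C₃ : ℝ) * (2 * C * (5 * (d + 1)) ^ C₃ + 1) ≤ x ^ ε)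
    (hK4 : 2 * Real.exp 1 ≤ x ^ ε) :
    2 * N1 d C₁ n * (N2 d C n v ℓ M * N3 d C C₃ n M (ℓ + ℓ)) * (CA * (v : ℝ) ^ CA) ≤
      M.factorial * (v : ℝ) ^ ((((d + 1) * (d / 2 - 1) : ℕ) + a) * v) := by
  obtain ⟨hKC, hKC1, hKC3, hKCA, hKd⟩ := hK
  have hx1 : 1 ≤ x := by linarith
  have hx0 : 0 < x := by linarith
  have hn0 : (0 : ℝ) ≤ n := Nat.cast_nonneg _
  have hk1 : 1 ≤ d / 2 := by omega
  set k := d / 2 with hk
  have hxa : 1 ≤ x ^ (2 * α) := Real.one_le_rpow hx1 (by positivity)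
  -- front factor
  have f0 : 2 * (CA * (v : ℝ) ^ CA) ≤ x ^ (ε * x) := by
    calc 2 * (CA * (v : ℝ) ^ CA) ≤ x * (x * x ^ CA) := by
          rw [← hx]
          gcongr
      _ = x ^ ((CA + 2 : ℕ) : ℝ) := by
          rw [Real.rpow_natCast]; ring
      _ ≤ _ := Real.rpow_le_rpow_of_exponent_le hx1 (by push_cast; exact hCA)
  -- N1
  have f1 : N1 d C₁ n ≤ x ^ (ε * x) := by
    unfold N1
    refine pow_bound (e := ((C₁ + 1 : ℕ) : ℝ)) hx1 (by positivity) ?_ ?_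
    · rw [Real.rpow_natCast, pow_succ']
      have : (C₁ : ℝ) ≤ x := by linarith
      gcongr
    · refine le_trans (mul_le_mul_of_nonneg_right ?_ (Nat.cast_nonneg _)) hn2
      exact_mod_cast (by omega : C₁ + 1 ≤ C₁ + C₃ + k + 10)
  -- N2
  have f2 : N2 d C n v ℓ M ≤ x ^ ((ε + k + 2 * α * d) * x) := by
    refine N2_le d C n v ℓ M x _ hx hx1 hL0 hL1 (by rw [← hx]; exact hM2) hMx (by positivity) ?_
    have h1 : ((v : ℝ) + 1) ^ k ≤ 2 ^ k * x ^ k := by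
      rw [← mul_pow, ← hx]
      exact pow_le_pow_left₀ (by linarith) (by linarith) k
    have h2 : (5 * (ℓ : ℝ) * Real.exp 1) ^ d ≤ (10 * Real.exp 1) ^ d * x ^ (2 * α * d) := by
      rw [Real.rpow_mul hx0.le, Real.rpow_natCast, ← mul_pow]
      refine pow_le_pow_left₀ (by positivity) ?_ d
      have : 0 < Real.exp 1 := Real.exp_pos 1
      nlinarith
    calc 16 * Real.exp d ^ 3 * (C * ((v : ℝ) + 1) ^ k) * (5 * ℓ * Real.exp 1) ^ d
        ≤ 16 * Real.exp d ^ 3 * (C * (2 ^ k * x ^ k)) * ((10 * Real.exp 1) ^ d * x ^ (2 * α * d)) := by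
          gcongr
      _ = (16 * Real.exp d ^ 3 * C * 2 ^ k * (10 * Real.exp 1) ^ d) * (x ^ k * x ^ (2 * α * d)) := by
          ring
      _ ≤ x ^ ε * (x ^ k * x ^ (2 * α * d)) := by
          gcongr
      _ = x ^ (ε + k + 2 * α * d) := by
          rw [← Real.rpow_natCast, ← Real.rpow_add hx0, ← Real.rpow_add hx0]
          congr 1; ring
  -- common bound
  have hP : ((((d + 1) * (ℓ + ℓ) : ℕ) : ℝ) + 1) ≤ (5 * (d + 1)) * x ^ (2 * α) := by
    push_cast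
    have h3 : ((d : ℝ) + 1) * (ℓ + ℓ) ≤ (d + 1) * (4 * x ^ (2 * α)) := by
      gcongr
      linarith
    have h4 : (1 : ℝ) ≤ (d + 1) * x ^ (2 * α) := by
      have : (0 : ℝ) ≤ d := Nat.cast_nonneg _
      nlinarith
    nlinarith
  have hP0 : (0 : ℝ) ≤ (((d + 1) * (ℓ + ℓ) : ℕ) : ℝ) + 1 := by positivity
  -- N3
  have f3 : N3 d C C₃ n M (ℓ + ℓ) ≤ x ^ (ε * x) * x ^ ((k - 1 + 2 * α * C₃ + ε) * d * x) := by
    unfold N3
    refine mul_le_mul ?_ ?_ (by positivity) (by positivity)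
    · refine pow_bound (e := ((C₃ + k + 3 : ℕ) : ℝ)) hx1 (by positivity) ?_ ?_
      · rw [Real.rpow_natCast]
        have h5 : ((((d + 1) * (ℓ + ℓ) : ℕ) : ℝ) + 1) ^ C₃ ≤ x ^ C₃ :=
          pow_le_pow_left₀ hP0 (hP.trans hKd) _
        have h6 : ((C * (n + 1) ^ k : ℕ) : ℝ) ≤ x * x ^ k := by
          push_cast
          have : (C : ℝ) ≤ x := by linarith
          gcongr
        have h7 : (1 : ℝ) ≤ x * x ^ k * x ^ C₃ := by
          have h8 : (1 : ℝ) ≤ x ^ k := one_le_pow₀ hx1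
          have h9 : (1 : ℝ) ≤ x ^ C₃ := one_le_pow₀ hx1
          have h10 : (1 : ℝ) ≤ x * x ^ k := one_le_mul_of_one_le_of_one_le hx1 h8
          exact one_le_mul_of_one_le_of_one_le h10 h9
        have hC3 : (C₃ : ℝ) ≤ x := by linarith
        calc (C₃ : ℝ) * (((C * (n + 1) ^ k : ℕ) : ℝ) * ((((d + 1) * (ℓ + ℓ) : ℕ) : ℝ) + 1) ^ C₃ + 1)
            ≤ x * ((x * x ^ k) * x ^ C₃ + (x * x ^ k) * x ^ C₃) := by
              gcongr
          _ = 2 * (x * (x * x ^ k * x ^ C₃)) := by ring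
          _ ≤ x * (x * (x * x ^ k * x ^ C₃)) := by
              gcongr
          _ = x ^ (C₃ + k + 3) := by ring
      · refine le_trans (mul_le_mul_of_nonneg_right ?_ (Nat.cast_nonneg _)) hn2
        exact_mod_cast (by omega : C₃ + k + 3 ≤ C₁ + C₃ + k + 10)
    · refine pow_bound (e := k - 1 + 2 * α * C₃ + ε) hx1 (by positivity) ?_ ?_
      · have h5 : ((((d + 1) * (ℓ + ℓ) : ℕ) : ℝ) + 1) ^ C₃ ≤
            (5 * (d + 1)) ^ C₃ * x ^ (2 * α * C₃) := by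
          rw [Real.rpow_mul hx0.le, Real.rpow_natCast, ← mul_pow]
          exact pow_le_pow_left₀ hP0 hP _
        have h6 : ((C * (n + 1) ^ k : ℕ) : ℝ) ≤ C * x ^ k := by
          push_cast
          gcongr
        have hM0 : (0 : ℝ) < M := by exact_mod_cast hM1
        have h7 : x ^ k ≤ (2 * M) * x ^ ((k : ℝ) - 1) := by
          rw [Real.rpow_sub_one hx0.ne', Real.rpow_natCast, mul_div_assoc', le_div_iff₀ hx0]
          nlinarith [pow_pos hx0 k]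
        have h8 : ((C * (n + 1) ^ k : ℕ) : ℝ) * ((((d + 1) * (ℓ + ℓ) : ℕ) : ℝ) + 1) ^ C₃ / M ≤
            2 * C * (5 * (d + 1)) ^ C₃ * x ^ ((k : ℝ) - 1 + 2 * α * C₃) := by
          rw [div_le_iff₀ hM0]
          calc ((C * (n + 1) ^ k : ℕ) : ℝ) * ((((d + 1) * (ℓ + ℓ) : ℕ) : ℝ) + 1) ^ C₃
              ≤ (C * ((2 * M) * x ^ ((k : ℝ) - 1))) * ((5 * (d + 1)) ^ C₃ * x ^ (2 * α * C₃)) := by
                refine mul_le_mul (h6.trans ?_) h5 (by positivity) (by positivity)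
                gcongr
            _ = 2 * C * (5 * (d + 1)) ^ C₃ * (x ^ ((k : ℝ) - 1) * x ^ (2 * α * C₃)) * M := by ring
            _ = _ := by rw [← Real.rpow_add hx0]
        have hk1' : (1 : ℝ) ≤ k := by exact_mod_cast hk1
        have h9 : (1 : ℝ) ≤ x ^ ((k : ℝ) - 1 + 2 * α * C₃) :=
          Real.one_le_rpow hx1 (by
            have : (0 : ℝ) ≤ 2 * α * C₃ := by positivity
            linarith)
        calc (C₃ : ℝ) * (((C * (n + 1) ^ k : ℕ) : ℝ) * ((((d + 1) * (ℓ + ℓ) : ℕ) : ℝ) + 1) ^ C₃ / M + 1)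
            ≤ C₃ * (2 * C * (5 * (d + 1)) ^ C₃ * x ^ ((k : ℝ) - 1 + 2 * α * C₃) +
                x ^ ((k : ℝ) - 1 + 2 * α * C₃)) := by
              gcongr
          _ = (C₃ * (2 * C * (5 * (d + 1)) ^ C₃ + 1)) * x ^ ((k : ℝ) - 1 + 2 * α * C₃) := by ring
          _ ≤ x ^ ε * x ^ ((k : ℝ) - 1 + 2 * α * C₃) := by
              gcongr
          _ = x ^ (k - 1 + 2 * α * C₃ + ε) := by
              rw [← Real.rpow_add hx0]; congr 1; ring
      · push_cast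
        have hk1' : (1 : ℝ) ≤ k := by exact_mod_cast hk1
        have h0 : 0 ≤ ((k : ℝ) - 1 + 2 * α * C₃ + ε) * d := by
          have : (0 : ℝ) ≤ 2 * α * C₃ := by positivity
          have h' : 0 ≤ (k : ℝ) - 1 + 2 * α * C₃ + ε := by linarith
          positivity
        calc ((k : ℝ) - 1 + 2 * α * C₃ + ε) * (d * M) = (((k : ℝ) - 1 + 2 * α * C₃ + ε) * d) * M := by ring
          _ ≤ _ := mul_le_mul_of_nonneg_left hMx h0
  -- factorial
  have f4 : x ^ (x - 2 * (ε * x)) ≤ M.factorial := by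
    have h1 := factorial_ge M
    have hM0 : (0 : ℝ) < M := by exact_mod_cast hM1
    have h2 : x ^ (M : ℝ) ≤ (M.factorial : ℝ) * x ^ (ε * x) := by
      have h3 : x ^ (M : ℝ) ≤ (2 : ℝ) ^ M * (M : ℝ) ^ M := by
        rw [Real.rpow_natCast, ← mul_pow]
        exact pow_le_pow_left₀ hx0.le hM2 M
      have h4 : (2 * Real.exp 1) ^ M ≤ x ^ (ε * x) :=
        pow_bound hx1 (by positivity) hK4 (mul_le_mul_of_nonneg_left hMx hε.le)
      calc x ^ (M : ℝ) ≤ (2 : ℝ) ^ M * ((M.factorial : ℝ) * Real.exp 1 ^ M) :=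
            h3.trans (mul_le_mul_of_nonneg_left h1 (by positivity))
        _ = M.factorial * (2 * Real.exp 1) ^ M := by rw [mul_pow]; ring
        _ ≤ _ := mul_le_mul_of_nonneg_left h4 (by positivity)
    calc x ^ (x - 2 * (ε * x)) = x ^ (x - ε * x) / x ^ (ε * x) := by
          rw [← Real.rpow_sub hx0]; congr 1; ring
      _ ≤ x ^ (M : ℝ) / x ^ (ε * x) := by
          exact div_le_div_of_nonneg_right (Real.rpow_le_rpow_of_exponent_le hx1 (by linarith))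
            (by positivity)
      _ ≤ M.factorial := by
          rw [div_le_iff₀ (by positivity)]
          exact h2
  have hN1 : 0 ≤ N1 d C₁ n := by unfold N1; positivity
  have hN2 : 0 ≤ N2 d C n v ℓ M := N2_nonneg d C n v ℓ M
  have hN3 : 0 ≤ N3 d C C₃ n M (ℓ + ℓ) := by unfold N3; positivity
  calc 2 * N1 d C₁ n * (N2 d C n v ℓ M * N3 d C C₃ n M (ℓ + ℓ)) * (CA * (v : ℝ) ^ CA)
      = (2 * (CA * (v : ℝ) ^ CA)) * (N1 d C₁ n * (N2 d C n v ℓ M * N3 d C C₃ n M (ℓ + ℓ))) := by ring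
    _ ≤ x ^ (ε * x) * (x ^ (ε * x) * (x ^ ((ε + k + 2 * α * d) * x) *
          (x ^ (ε * x) * x ^ ((k - 1 + 2 * α * C₃ + ε) * d * x)))) := by
        gcongr
    _ = x ^ ((ε + ε + (ε + k + 2 * α * d) + ε + (k - 1 + 2 * α * C₃ + ε) * d) * x) := by
        rw [← Real.rpow_add hx0, ← Real.rpow_add hx0, ← Real.rpow_add hx0, ← Real.rpow_add hx0]
        congr 1; ring
    _ ≤ x ^ ((x - 2 * (ε * x)) + (((d + 1) * (k - 1) : ℕ) + a) * x) := by
        refine Real.rpow_le_rpow_of_exponent_le hx1 ?_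
        have h1 : (((d + 1) * (k - 1) : ℕ) : ℝ) = (d + 1) * (k - 1) := by
          push_cast [Nat.cast_sub hk1]
          ring
        rw [h1]
        have h2 : (ε + ε + (ε + k + 2 * α * d) + ε + (k - 1 + 2 * α * C₃ + ε) * d) ≤
            1 - 2 * ε + ((d + 1) * (k - 1) + a) := by
          linarith
        calc _ ≤ (1 - 2 * ε + (((d : ℝ) + 1) * (k - 1) + a)) * x :=
              mul_le_mul_of_nonneg_right h2 hx0.le
          _ = _ := by ring
    _ = x ^ (x - 2 * (ε * x)) * x ^ ((((d + 1) * (k - 1) : ℕ) + a) * x) := Real.rpow_add hx0 _ _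
    _ ≤ M.factorial * x ^ ((((d + 1) * (k - 1) : ℕ) + a) * x) := by
        gcongr
    _ = _ := by rw [hx]

theorem SV_le (d N p : ℕ) (x : ℝ) (hx : 3 ≤ x) (he : Real.exp (d + 1) ≤ x)
    (h : (N : ℝ) + 1 ≤ x ^ p) : SV d N ≤ x ^ ((p + 1) * (d + 1) + 1) := by
  unfold SV
  have hxp : 0 < x ^ p := by positivity
  have h1 : (2 * (N : ℝ) + 3) ≤ x ^ (p + 1) := by
    have : (1 : ℝ) ≤ x ^ p := one_le_pow₀ (by linarith)
    rw [pow_succ]
    nlinarith
  calc Real.exp (d + 1) * (2 * (N : ℝ) + 3) ^ (d + 1) ≤ x * (x ^ (p + 1)) ^ (d + 1) := by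
        gcongr
    _ = _ := by rw [← pow_mul]; ring

/-- (EST) The choice of the parameters and the final estimate. -/
theorem est (d : ℕ) (hd : 2 ≤ d) (C C₁ C₃ CA : ℕ) (a : ℝ) (ha : 0 < a) :
    ∀ᶠ v : ℕ in atTop, ∃ (n ℓ M κ : ℕ) (r : ℝ), 0 < r ∧ 1 ≤ ℓ ∧ 1 ≤ M ∧ n + (d + 1) + M = v ∧
      SV d ((d + 1) * (C * (n + 1) ^ (d / 2))) ^ 2 * Real.exp (-((v : ℝ) / r)) < 1 / 2 ∧
      SV d v * Real.exp (-((n : ℝ) / ((v : ℝ) / ℓ))) < 1 / 2 ∧
      (((d + 1) * (C * (n + 1) ^ (d / 2)) : ℕ) : ℝ) * (1 + (d + 1 : ℝ) ^ 2 / r) ^ M ≤ 2 ^ κ ∧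
      2 * N1 d C₁ n * (N2 d C n v ℓ M * N3 d C C₃ n M (κ + ℓ)) * (CA * (v : ℝ) ^ CA) ≤
        M.factorial * (v : ℝ) ^ ((((d + 1) * (d / 2 - 1) : ℕ) + a) * v) := by
  set k := d / 2 with hk
  set ε : ℝ := a / (2 * (6 + d)) with hε'
  have hε : 0 < ε := by positivity
  set α : ℝ := min (1 / 4) (a / (4 * d * (1 + C₃))) with hα'
  have hd0 : (0 : ℝ) < d := by
    have : 0 < d := by omega
    exact_mod_cast this
  have hα : 0 < α := lt_min (by norm_num) (by positivity)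
  have hα4 : α ≤ 1 / 4 := min_le_left _ _
  have hαa : α ≤ a / (4 * d * (1 + C₃)) := min_le_right _ _
  have hea : (6 + (d : ℝ)) * ε + 2 * α * d * (1 + C₃) ≤ a := by
    have h1 : (6 + (d : ℝ)) * ε = a / 2 := by
      rw [hε']; field_simp
    have h2 : 2 * α * d * (1 + C₃) ≤ a / 2 := by
      rw [le_div_iff₀ (by positivity)] at hαa
      linarith
    linarith
  set p : ℕ := k + 3 with hp
  set K5 : ℕ := (p + 1) * (d + 1) + 1 with hK5
  have hev : ∀ᶠ x : ℝ in atTop, 0 ≤ x ∧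
      (((C₁ + C₃ + k + 10 : ℕ) * d + d + 2 : ℝ) * x ^ (1 - α) +
        ((C₁ + C₃ + k + 10 : ℕ) * d + d + 2 : ℝ) ≤ min ε (1 / 2) * x ^ (1 : ℝ)) ∧
      ((CA : ℝ) + 2) / ε ≤ x ∧
      (C + C₁ + C₃ + CA + d + 10 : ℝ) ≤ x ∧ Real.exp (d + 1) ≤ x ∧
      (5 * (d + 1) * x ^ (2 * α) + 5 * (d + 1) ≤ 1 * x ^ (1 : ℝ)) ∧
      (16 * Real.exp d ^ 3 * C * 2 ^ k * (10 * Real.exp 1) ^ d ≤ x ^ ε) ∧
      ((C₃ : ℝ) * (2 * C * (5 * (d + 1)) ^ C₃ + 1) ≤ x ^ ε) ∧
      (2 * Real.exp 1 ≤ x ^ ε) ∧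
      ((2 * K5 + 2 : ℝ) * Real.log x + (2 * K5 + 2) ≤ x ^ α) ∧
      (((d + 1) ^ 2 + 1 : ℝ) * x ^ α + ((d + 1) ^ 2 + 1) ≤ 1 / 2 * x ^ (2 * α)) := by
    refine (eventually_ge_atTop 0).and ((ev_rpow (1 - α) 1 (by linarith) one_pos _ _
      (lt_min hε (by norm_num))).and ((eventually_ge_atTop _).and ((eventually_ge_atTop _).and
      ((eventually_ge_atTop _).and ((ev_rpow (2 * α) 1 (by linarith) one_pos _ _ one_pos).and
      ((ev_const_le_rpow ε hε _).and ((ev_const_le_rpow ε hε _).and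
      ((ev_const_le_rpow ε hε _).and ((ev_log α hα _).and (ev_rpow α (2 * α) (by linarith)
      (by linarith) _ _ (by norm_num)))))))))))
  have hev2 := tendsto_natCast_atTop_atTop (R := ℝ) |>.eventually hev
  filter_upwards [hev2] with v hv
  set x : ℝ := (v : ℝ) with hx
  obtain ⟨hx0', hA, hB, hC, hD, hE, hF, hG, hH, hI, hJ⟩ := hv
  rw [Real.rpow_one] at hA hE
  have hC0 : (0 : ℝ) ≤ C := Nat.cast_nonneg _
  have hC10 : (0 : ℝ) ≤ C₁ := Nat.cast_nonneg _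
  have hC30 : (0 : ℝ) ≤ C₃ := Nat.cast_nonneg _
  have hCA0 : (0 : ℝ) ≤ CA := Nat.cast_nonneg _
  have hx10 : 10 ≤ x := by linarith
  have hx0 : 0 < x := by linarith
  have hx1 : 1 ≤ x := by linarith
  have hL : 0 ≤ Real.log x := Real.log_nonneg hx1
  set n : ℕ := ⌈x ^ (1 - α)⌉₊ with hn
  set ℓ : ℕ := ⌈x ^ (2 * α)⌉₊ with hℓ
  have hxa : 1 ≤ x ^ (2 * α) := Real.one_le_rpow hx1 (by positivity)
  have hn1 : x ^ (1 - α) ≤ n := Nat.le_ceil _
  have hn2 : (n : ℝ) ≤ x ^ (1 - α) + 1 := (Nat.ceil_lt_add_one (by positivity)).le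
  have hl1 : x ^ (2 * α) ≤ ℓ := Nat.le_ceil _
  have hl2 : (ℓ : ℝ) ≤ x ^ (2 * α) + 1 := (Nat.ceil_lt_add_one (by positivity)).le
  have hn0 : (0 : ℝ) ≤ n := Nat.cast_nonneg _
  have hy0 : 0 < x ^ (1 - α) := by positivity
  set K : ℝ := (C₁ + C₃ + k + 10 : ℕ) * d + d + 2 with hKdef
  have hmin1 : min ε (1 / 2) * x ≤ ε * x := mul_le_mul_of_nonneg_right (min_le_left _ _) hx0.le
  have hmin2 : min ε (1 / 2) * x ≤ 1 / 2 * x := mul_le_mul_of_nonneg_right (min_le_right _ _) hx0.le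
  have hKd' : (d : ℝ) + 2 ≤ K := by
    have : (0 : ℝ) ≤ (C₁ + C₃ + k + 10 : ℕ) * d := by positivity
    linarith
  have hnd : (n : ℝ) + (d + 1) ≤ min ε (1 / 2) * x := by
    refine le_trans ?_ hA
    have : x ^ (1 - α) ≤ K * x ^ (1 - α) := by
      have : 1 ≤ K := by linarith
      exact le_mul_of_one_le_left hy0.le this
    linarith
  have hnv : n + (d + 1) ≤ v := by
    have : ((n + (d + 1) : ℕ) : ℝ) ≤ (v : ℝ) := by
      push_cast
      rw [← hx]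
      linarith
    exact_mod_cast this
  set M : ℕ := v - (n + (d + 1)) with hM
  have hMv : n + (d + 1) + M = v := by omega
  have hMr : (M : ℝ) = x - (n + (d + 1)) := by
    have : ((n + (d + 1) + M : ℕ) : ℝ) = (v : ℝ) := by rw [hMv]
    push_cast at this
    rw [hx]; linarith
  have hM2 : x ≤ 2 * M := by rw [hMr]; linarith
  have hM1 : 1 ≤ M := by
    have : (0 : ℝ) < M := by linarith
    exact_mod_cast this
  have hMx : (M : ℝ) ≤ x := by rw [hMr]; linarith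
  have hM3 : x ≤ M + ε * x := by rw [hMr]; linarith
  have hnx : (n : ℝ) + 1 ≤ x := by linarith
  have hkx : ((C₁ + C₃ + k + 10 : ℕ) * (d * n : ℕ) : ℝ) ≤ ε * x := by
    refine le_trans ?_ (hA.trans hmin1)
    have h1 : ((C₁ + C₃ + k + 10 : ℕ) * (d * n : ℕ) : ℝ) = ((C₁ + C₃ + k + 10 : ℕ) * d : ℝ) * n := by
      push_cast; ring
    rw [h1]
    have h2 : ((C₁ + C₃ + k + 10 : ℕ) * d : ℝ) ≤ K := by rw [hKdef]; linarith
    have hK0 : 0 ≤ K := by linarith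
    calc ((C₁ + C₃ + k + 10 : ℕ) * d : ℝ) * n ≤ K * (x ^ (1 - α) + 1) := by gcongr
      _ = _ := by ring
  have hCA2 : (CA : ℝ) + 2 ≤ ε * x := by
    rw [div_le_iff₀ hε] at hB
    linarith
  -- N0
  have hN0 : (((d + 1) * (C * (n + 1) ^ k) : ℕ) : ℝ) ≤ x ^ (k + 2) := by
    push_cast
    have h1 : (d : ℝ) + 1 ≤ x := by linarith
    have h2 : (C : ℝ) ≤ x := by linarith
    calc ((d : ℝ) + 1) * (C * (n + 1) ^ k) ≤ x * (x * x ^ k) := by gcongr
      _ = _ := by ring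
  have hN0' : (((d + 1) * (C * (n + 1) ^ k) : ℕ) : ℝ) + 1 ≤ x ^ p := by
    have h1 : (1 : ℝ) ≤ x ^ (k + 2) := one_le_pow₀ hx1
    calc (((d + 1) * (C * (n + 1) ^ k) : ℕ) : ℝ) + 1 ≤ 2 * x ^ (k + 2) := by linarith
      _ ≤ x * x ^ (k + 2) := by gcongr; linarith
      _ = _ := by rw [hp]; ring
  have hv1 : ((v : ℕ) : ℝ) + 1 ≤ x ^ p := by
    rw [← hx]
    calc x + 1 ≤ x * x := by
          have := mul_le_mul_of_nonneg_right hx10 hx0.le
          linarith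
      _ = x ^ 2 := (sq x).symm
      _ ≤ x ^ p := pow_le_pow_right₀ hx1 (by omega)
  have hSV1 := SV_le d _ p x (by linarith) hD hN0'
  have hSV2 := SV_le d _ p x (by linarith) hD hv1
  rw [← hK5] at hSV1 hSV2
  have hexp : ∀ m : ℕ, x ^ m = Real.exp (m * Real.log x) := fun m => by
    rw [← Real.log_pow, Real.exp_log (by positivity)]
  have hxα : 0 < x ^ α := by positivity
  have hneg : Real.exp (-1) < 1 / 2 := by
    have := Real.exp_neg_one_lt_d9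
    linarith
  have hK50 : (0 : ℝ) ≤ K5 := Nat.cast_nonneg _
  have hKL : 0 ≤ (K5 : ℝ) * Real.log x := by positivity
  have hone : (1 : ℝ) ≤ SV d ((d + 1) * (C * (n + 1) ^ k)) := one_le_SV _
  have hL0c : L0c d C n ≤ 1 + 2 * (K5 * Real.log x) := by
    unfold L0c
    rw [Real.logb, div_le_iff₀ (Real.log_pos (by norm_num)), Real.log_mul (by norm_num)
      (by positivity)]
    have h1 : Real.log (SV d ((d + 1) * (C * (n + 1) ^ k))) ≤ K5 * Real.log x := by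
      rw [← Real.log_pow]
      exact Real.log_le_log (by positivity) hSV1
    have h2 : (1 : ℝ) / 2 ≤ Real.log 2 := by
      have := Real.log_two_gt_d9
      linarith
    have h3 : K5 * Real.log x ≤ 2 * (K5 * Real.log x) * Real.log 2 := by
      have := mul_le_mul_of_nonneg_left h2 hKL
      linarith
    calc Real.log 2 + Real.log (SV d ((d + 1) * (C * (n + 1) ^ k)))
        ≤ Real.log 2 + 2 * (K5 * Real.log x) * Real.log 2 := by linarith
      _ = _ := by ring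
  have hL0 : 0 ≤ 1 + L0c d C n := by
    unfold L0c
    have : 0 ≤ Real.logb 2 (2 * SV d ((d + 1) * (C * (n + 1) ^ k))) :=
      Real.logb_nonneg (by norm_num) (by linarith)
    linarith
  have hαle : x ^ α ≤ x ^ (2 * α) := Real.rpow_le_rpow_of_exponent_le hx1 (by linarith)
  have hL1 : 1 + L0c d C n ≤ ℓ := by
    have : (2 * K5 + 2 : ℝ) * Real.log x = 2 * (K5 * Real.log x) + 2 * Real.log x := by ring
    linarith
  have hℓ1 : 1 ≤ ℓ := by
    have : (0 : ℝ) < ℓ := by linarith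
    exact_mod_cast this
  refine ⟨n, ℓ, M, ℓ, x ^ (1 - α), hy0, hℓ1, hM1, hMv, ?_, ?_, ?_, ?_⟩
  · -- condition 1
    have h1 : x / x ^ (1 - α) = x ^ α := by
      rw [div_eq_iff hy0.ne', ← Real.rpow_add hx0]
      simp
    rw [h1]
    calc SV d ((d + 1) * (C * (n + 1) ^ k)) ^ 2 * Real.exp (-(x ^ α))
        ≤ (x ^ K5) ^ 2 * Real.exp (-(x ^ α)) := by gcongr
      _ = Real.exp (2 * (K5 * Real.log x) - x ^ α) := by
          rw [hexp K5, ← Real.exp_nat_mul, ← Real.exp_add]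
          congr 1
      _ ≤ Real.exp (-1) := by
          refine Real.exp_le_exp.2 ?_
          have : (2 * K5 + 2 : ℝ) * Real.log x = 2 * (K5 * Real.log x) + 2 * Real.log x := by ring
          linarith
      _ < 1 / 2 := hneg
  · -- condition 2
    have h1 : x ^ α ≤ (n : ℝ) / (x / ℓ) := by
      have hl0 : (0 : ℝ) < ℓ := by linarith
      rw [div_div_eq_mul_div, le_div_iff₀ hx0]
      calc x ^ α * x = x ^ (1 - α) * x ^ (2 * α) := by
            rw [← Real.rpow_add_one hx0.ne', ← Real.rpow_add hx0]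
            congr 1; ring
        _ ≤ n * ℓ := by gcongr
    calc SV d v * Real.exp (-((n : ℝ) / (x / ℓ)))
        ≤ x ^ K5 * Real.exp (-(x ^ α)) := by
          gcongr
      _ = Real.exp ((K5 * Real.log x) - x ^ α) := by
          rw [hexp K5, ← Real.exp_add]
          congr 1
      _ ≤ Real.exp (-1) := by
          refine Real.exp_le_exp.2 ?_
          have : (2 * K5 + 2 : ℝ) * Real.log x = 2 * (K5 * Real.log x) + 2 * Real.log x := by ring
          linarith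
      _ < 1 / 2 := hneg
  · -- condition 3
    have h1 : (1 + ((d : ℝ) + 1) ^ 2 / x ^ (1 - α)) ^ M ≤ Real.exp (((d : ℝ) + 1) ^ 2 * x ^ α) := by
      calc (1 + ((d : ℝ) + 1) ^ 2 / x ^ (1 - α)) ^ M
          ≤ Real.exp (((d : ℝ) + 1) ^ 2 / x ^ (1 - α)) ^ M := by
            refine pow_le_pow_left₀ (by positivity) ?_ M
            rw [add_comm]
            exact Real.add_one_le_exp _
        _ = Real.exp (M * (((d : ℝ) + 1) ^ 2 / x ^ (1 - α))) := by rw [← Real.exp_nat_mul]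
        _ ≤ Real.exp (x * (((d : ℝ) + 1) ^ 2 / x ^ (1 - α))) := by gcongr
        _ = _ := by
          congr 1
          have h1 : x = x ^ α * x ^ (1 - α) := by
            rw [← Real.rpow_add hx0]
            simp
          rw [mul_div_assoc', div_eq_iff hy0.ne']
          nth_rewrite 1 [h1]
          ring
    have h2 : (2 : ℝ) ^ ℓ = Real.exp (ℓ * Real.log 2) := by
      rw [← Real.log_pow, Real.exp_log (by positivity)]
    have h3 : (1 : ℝ) / 2 ≤ Real.log 2 := by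
      have := Real.log_two_gt_d9
      linarith
    calc (((d + 1) * (C * (n + 1) ^ k) : ℕ) : ℝ) * (1 + ((d : ℝ) + 1) ^ 2 / x ^ (1 - α)) ^ M
        ≤ x ^ (k + 2) * Real.exp (((d : ℝ) + 1) ^ 2 * x ^ α) := by gcongr
      _ = Real.exp ((k + 2 : ℕ) * Real.log x + ((d : ℝ) + 1) ^ 2 * x ^ α) := by
          rw [hexp, ← Real.exp_add]
      _ ≤ Real.exp (ℓ * Real.log 2) := by
          refine Real.exp_le_exp.2 ?_
          have h4 : ((k + 2 : ℕ) : ℝ) * Real.log x ≤ x ^ α := by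
            have h5 : ((k + 2 : ℕ) : ℝ) ≤ 2 * K5 + 2 := by
              have h9 : p + 1 ≤ (p + 1) * (d + 1) := Nat.le_mul_of_pos_right _ (Nat.succ_pos d)
              have : k + 2 ≤ 2 * K5 + 2 := by omega
              exact_mod_cast this
            have h6 := mul_le_mul_of_nonneg_right h5 hL
            linarith
          have h7 : (1 : ℝ) / 2 * x ^ (2 * α) ≤ ℓ * Real.log 2 := by
            rw [mul_comm (ℓ : ℝ)]
            exact mul_le_mul h3 hl1 (by positivity) (by positivity)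
          have h8 : (0 : ℝ) ≤ ((d : ℝ) + 1) ^ 2 + 1 := by positivity
          linarith
      _ = 2 ^ ℓ := h2.symm
  · exact est_core d hd C C₁ C₃ CA n ℓ M v x α ε a hx hα hα4 hε hea (by linarith) hM1 hMx hM2 hM3
      hnx hkx hCA2 hL0 hL1 hℓ1 (by linarith)
      ⟨by linarith, by linarith, by linarith, by linarith, by linarith⟩ hF hG hH

end Pool.Agent.H7.UB
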