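import Pool.Agent.H7.UB.Class2
import Pool.Agent.H7.UB.CDefs

/-! # MAIN, part 6: the sample -/

set_option autoImplicit false
set_option linter.unusedSectionVars false

namespace Pool.Agent.H7.UB

open Finset Matrix

/-- Labelling with prescribed labels of the basis and with a given small set of sample points. -/
theorem exists_labelling {v n k M : ℕ} (hv : n + k + M = v) (b : Fin k → Fin v)
    (hb : Function.Injective b) (R : Fin n → Fin v) :
    ∃ f : (Fin k ⊕ Fin n ⊕ Fin M) ≃ Fin v, (∀ l, f (Sum.inl l) = b l) ∧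
      ∀ s, (∃ l, R s = f (Sum.inl l)) ∨ ∃ s', R s = f (Sum.inr (Sum.inl s')) := by
  classical
  -- the sample set, enlarged to have exactly `n + k` elements
  set B : Finset (Fin v) := univ.image b with hB
  have hBcard : B.card = k := by
    rw [hB, Finset.card_image_of_injective _ hb, Finset.card_univ, Fintype.card_fin]
  set S₀ : Finset (Fin v) := B ∪ univ.image R with hS₀
  have hS₀card : S₀.card ≤ k + n := by
    refine (Finset.card_union_le _ _).trans ?_
    rw [hBcard]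
    have := Finset.card_image_le (s := (univ : Finset (Fin n))) (f := R)
    rw [Finset.card_univ, Fintype.card_fin] at this
    omega
  obtain ⟨S, hS₀S, hScard⟩ := Finset.exists_superset_card_eq (s := S₀) (n := k + n) hS₀card (by
    rw [Fintype.card_fin]; omega)
  have hBS : B ⊆ S := Finset.subset_union_left.trans hS₀S
  have h1 : (S \ B).card = n := by
    rw [Finset.card_sdiff_of_subset hBS, hScard, hBcard]
    omega
  have h2 : (Sᶜ).card = M := by
    rw [Finset.card_compl, hScard, Fintype.card_fin]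
    omega
  let e1 : Fin n ≃ {q // q ∈ S \ B} := (Finset.equivFinOfCardEq h1).symm
  let e2 : Fin M ≃ {q // q ∈ Sᶜ} := (Finset.equivFinOfCardEq h2).symm
  let g : (Fin k ⊕ Fin n ⊕ Fin M) → Fin v := Sum.elim b (Sum.elim (fun s => (e1 s).1)
    (fun i => (e2 i).1))
  have hg : Function.Injective g := by
    have hb' : ∀ l, b l ∈ B := fun l => Finset.mem_image_of_mem _ (Finset.mem_univ _)
    have h3 : ∀ s, (e1 s).1 ∈ S ∧ (e1 s).1 ∉ B := fun s => Finset.mem_sdiff.mp (e1 s).2
    have h4 : ∀ i, (e2 i).1 ∉ S := fun i => Finset.mem_compl.mp (e2 i).2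
    intro x y hxy
    rcases x with l | s | i <;> rcases y with l' | s' | i'
    · exact congrArg Sum.inl (hb hxy)
    · exact absurd (show (e1 s').1 ∈ B from (show b l = (e1 s').1 from hxy) ▸ hb' l) (h3 s').2
    · exact absurd (show (e2 i').1 ∈ S from (show b l = (e2 i').1 from hxy) ▸ hBS (hb' l)) (h4 i')
    · exact absurd (show (e1 s).1 ∈ B from (show (e1 s).1 = b l' from hxy) ▸ hb' l') (h3 s).2
    · have h5 : e1 s = e1 s' := Subtype.ext hxy
      rw [e1.injective h5]
    · exact absurd (show (e2 i').1 ∈ S from (show (e1 s).1 = (e2 i').1 from hxy) ▸ (h3 s).1) (h4 i')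
    · exact absurd (show (e2 i).1 ∈ S from (show (e2 i).1 = b l' from hxy) ▸ hBS (hb' l')) (h4 i)
    · exact absurd (show (e2 i).1 ∈ S from (show (e2 i).1 = (e1 s').1 from hxy) ▸ (h3 s').1) (h4 i)
    · have h5 : e2 i = e2 i' := Subtype.ext hxy
      rw [e2.injective h5]
  have hcard : Fintype.card (Fin k ⊕ Fin n ⊕ Fin M) = Fintype.card (Fin v) := by
    simp only [Fintype.card_sum, Fintype.card_fin]
    omega
  have hbij : Function.Bijective g := (Fintype.bijective_iff_injective_and_card g).mpr ⟨hg, hcard⟩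
  refine ⟨Equiv.ofBijective g hbij, fun l => rfl, fun s => ?_⟩
  by_cases hs : R s ∈ B
  · left
    rw [hB, Finset.mem_image] at hs
    obtain ⟨l, _, hl⟩ := hs
    exact ⟨l, hl.symm⟩
  · right
    have h5 : R s ∈ S \ B := Finset.mem_sdiff.mpr ⟨hS₀S (Finset.mem_union_right _
      (Finset.mem_image_of_mem _ (Finset.mem_univ _))), hs⟩
    refine ⟨e1.symm ⟨R s, h5⟩, ?_⟩
    show R s = (e1 (e1.symm ⟨R s, h5⟩)).1
    rw [Equiv.apply_symm_apply]

theorem exists_sample {d : ℕ} (v n ℓ M : ℕ) (hℓ : 1 ≤ ℓ) (hv : n + (d + 1) + M = v)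
    (hs : SV d v * Real.exp (-((n : ℝ) / ((v : ℝ) / ℓ))) < 1 / 2)
    (X : Fin v → Fin (d + 1) → ℝ) (hX : NF X) :
    ∃ f : (Fin (d + 1) ⊕ Fin n ⊕ Fin M) ≃ Fin v, (∀ l, X (f (Sum.inl l)) = stdb l) ∧
      ∀ h : Fin (d + 1) → ℝ, (∀ l, 0 ≤ X (f (Sum.inl l)) ⬝ᵥ h) →
        (∀ s, 0 ≤ X (f (Sum.inr (Sum.inl s))) ⬝ᵥ h) →
        (univ.filter (fun q => X q ⬝ᵥ h < 0)).card ≤ ℓ := by
  classical
  have hv0 : 0 < v := by omega
  have : Nonempty (Fin v) := ⟨⟨0, hv0⟩⟩
  set 𝒮' : Set (Fin v → SignType) :=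
    {s : Fin v → SignType | ∃ x : Fin (d + 1) → ℝ, s = fun p => sg (X p ⬝ᵥ x)} with h𝒮'
  have hfin : 𝒮'.Finite := Set.toFinite _
  set 𝒮 : Finset (Fin v → SignType) := hfin.toFinset with h𝒮
  have hmem : ∀ x : Fin (d + 1) → ℝ, (fun p => sg (X p ⬝ᵥ x)) ∈ 𝒮 := by
    intro x
    rw [h𝒮, Set.Finite.mem_toFinset]
    exact ⟨x, rfl⟩
  have hcard : (𝒮.card : ℝ) ≤ SV d v := by
    have := card_sign_vectors X
    rw [Set.ncard_eq_toFinset_card _ hfin, Fintype.card_fin] at this
    exact this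
  set H : Finset (Finset (Fin v)) := 𝒮.image (fun s => univ.filter (fun p => s p = -1)) with hH
  have hHcard : (H.card : ℝ) ≤ SV d v :=
    le_trans (by exact_mod_cast Finset.card_image_le) hcard
  have hneg : ∀ x : Fin (d + 1) → ℝ, univ.filter (fun p => X p ⬝ᵥ x < 0) ∈ H := by
    intro x
    rw [hH, Finset.mem_image]
    refine ⟨_, hmem x, ?_⟩
    ext p
    simp only [Finset.mem_filter, Finset.mem_univ, true_and, sg, sign_eq_neg_one_iff]
  have hℓ' : (0 : ℝ) < ℓ := by exact_mod_cast hℓ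
  have hv' : (0 : ℝ) < v := by exact_mod_cast hv0
  obtain ⟨R, hR, _⟩ := net (Λ := Fin v) (fun _ => 1) (fun _ => one_pos) H {∅} ⟨∅, by simp⟩
    ((v : ℝ) / ℓ) (by positivity) n (lt_of_le_of_lt
        (mul_le_mul_of_nonneg_right hHcard (Real.exp_pos _).le) hs)
  choose b hb using hX.basis
  have hbinj : Function.Injective b := by
    intro l l' hll
    have h1 : (Pi.single l 1 : Fin (d + 1) → ℝ) = Pi.single l' 1 := by
      rw [← hb l, ← hb l', hll]
    by_contra hne
    have h2 := congrFun h1 l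
    rw [Pi.single_eq_same, Pi.single_eq_of_ne hne] at h2
    exact one_ne_zero h2
  obtain ⟨f, hf1, hf2⟩ := exists_labelling (k := d + 1) hv b hbinj R
  refine ⟨f, fun l => by rw [hf1, hb]; rfl, fun h h1 h2 => ?_⟩
  by_contra hc
  push Not at hc
  have hsum : (∑ _l : Fin v, (1 : ℝ)) / ((v : ℝ) / ℓ) <
      ∑ _l ∈ univ.filter (fun p => X p ⬝ᵥ h < 0), (1 : ℝ) := by
    rw [Finset.sum_const, Finset.sum_const, Finset.card_univ, Fintype.card_fin, nsmul_eq_mul,
      nsmul_eq_mul, mul_one, mul_one]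
    have : (v : ℝ) / ((v : ℝ) / ℓ) = ℓ := by field_simp
    rw [this]
    exact_mod_cast hc
  obtain ⟨i, hi⟩ := hR _ (hneg h) hsum
  rw [Finset.mem_filter] at hi
  rcases hf2 i with ⟨l, hl⟩ | ⟨s, hs⟩
  · have := h1 l
    rw [← hl] at this
    exact absurd this (not_le.mpr hi.2)
  · have := h2 s
    rw [← hs] at this
    exact absurd this (not_le.mpr hi.2)

end Pool.Agent.H7.UB
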