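import Pool.Agent.H7.UB.Count3
import Pool.Agent.H7.UB.Sample

/-! # MAIN, part 7: at least half of the orders are good -/

set_option autoImplicit false
set_option linter.unusedSectionVars false

namespace Pool.Agent.H7.UB

open Finset Matrix

/-- The family of all face families. -/
def AA {d n t C : ℕ} {r : ℝ} {X₀ : ((Fin (d + 1) → U d n) → SignType) → Fin n → Fin (d + 1) → ℝ}
    (D : ∀ χ, CData d n t C r (X₀ χ)) (M ℓ : ℕ) : Set (Set (Set (QQ d n M))) :=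
  {F | ∃ XS XM γ μ, Adm (D (chi XS)) ℓ XS XM γ μ ∧ F = FF (conf XS XM)}

theorem good_orders {d n t C : ℕ} {r : ℝ} (hr : 0 < r)
    {X₀ : ((Fin (d + 1) → U d n) → SignType) → Fin n → Fin (d + 1) → ℝ}
    (D : ∀ χ, CData d n t C r (X₀ χ))
    (hX₀ : ∀ X : Fin n → Fin (d + 1) → ℝ, (∀ s, ∑ i, X s i = 1) → chi (X₀ (chi X)) = chi X)
    (v ℓ M : ℕ) (hℓ : 1 ≤ ℓ) (hv : n + (d + 1) + M = v)
    (hs : SV d v * Real.exp (-((n : ℝ) / ((v : ℝ) / ℓ))) < 1 / 2)
    (X : Fin v → Fin (d + 1) → ℝ) (hX : NF X) :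
    (M.factorial + 1) / 2 ≤ {f : QQ d n M ≃ Fin v | FF (fun q => X (f q)) ∈ AA D M ℓ}.ncard := by
  classical
  obtain ⟨f₀, hf1, hf2⟩ := exists_sample v n ℓ M hℓ hv hs X hX
  set XS : Fin n → Fin (d + 1) → ℝ := fun s => X (f₀ (Sum.inr (Sum.inl s))) with hXS
  set XM : Fin M → Fin (d + 1) → ℝ := fun i => X (f₀ (Sum.inr (Sum.inr i))) with hXM
  have hsumS : ∀ s, ∑ i, XS s i = 1 := fun s => hX.sum _
  have hsumM : ∀ s, ∑ i, XM s i = 1 := fun s => hX.sum _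
  have hchi := hX₀ XS hsumS
  set E := D (chi XS) with hE
  have hne : Nonempty {p // p ∈ Lam E.Θ} := by
    obtain ⟨Δ, hΔ⟩ := E.ne
    exact ⟨⟨Δ 0, mem_Lam hΔ 0⟩⟩
  have hpos := E.pos XS hsumS hchi.symm
  have hnegX : ∀ p : {p // p ∈ Lam E.Θ}, (univ.filter (fun q => X q ⬝ᵥ v1 XS p.1 < 0)).card ≤ ℓ := by
    intro p
    refine hf2 (v1 XS p.1) (fun l => ?_) (fun s => ?_)
    · rw [dotProduct_comm, hf1]
      exact hpos p.1 p.2 (Sum.inr l)
    · rw [dotProduct_comm]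
      exact hpos p.1 p.2 (Sum.inl s)
  have hneg : ∀ (π : Equiv.Perm (Fin M)) (p : {p // p ∈ Lam E.Θ}),
      (univ.filter (fun i => v1 XS p.1 ⬝ᵥ XM (π i) < 0)).card ≤ ℓ := by
    intro π p
    refine le_trans ?_ (hnegX p)
    refine Finset.card_le_card_of_injOn (fun i => f₀ (Sum.inr (Sum.inr (π i)))) ?_ ?_
    · intro i hi
      rw [Finset.mem_coe, Finset.mem_filter] at hi ⊢
      refine ⟨Finset.mem_univ _, ?_⟩
      rw [dotProduct_comm]
      exact hi.2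
    · intro i _ j _ hij
      exact π.injective (Sum.inr_injective (Sum.inr_injective (f₀.injective hij)))
  have hhalf := process_half (Λ := {p // p ∈ Lam E.Θ}) (M := M) (t := t)
    (fun q => univ.filter (fun p : {p // p ∈ Lam E.Θ} => v1 XS p.1 ⬝ᵥ XM q < 0)) E.cr ℓ hℓ
    (fun p => by
      have h := hneg (Equiv.refl _) p
      have e : (univ.filter (fun q => p ∈ univ.filter (fun p : {p // p ∈ Lam E.Θ} =>
          v1 XS p.1 ⬝ᵥ XM q < 0))) =
          univ.filter (fun i => v1 XS p.1 ⬝ᵥ XM ((Equiv.refl (Fin M)) i) < 0) := by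
        ext i
        rw [Finset.mem_filter, Finset.mem_filter, Finset.mem_filter]
        exact ⟨fun h => ⟨h.1, h.2.2⟩, fun h => ⟨h.1, Finset.mem_univ _, h.2⟩⟩
      rw [e]
      exact h) E.R E.G
    (fun q γ => ∀ p, p ∉ E.cr γ → sg (v1 XS p.1 ⬝ᵥ XM q) = E.ps γ p)
    (L0c d C n) ((d + 1 : ℝ) ^ 2 / r) (by positivity) L0c_nonneg
    (fun w hw q => by
      have h := (E.loc XS hsumS hchi.symm (XM q) (hsumM q) (fun i => hX.abs _ i) w hw).1
      have e : (univ.filter (fun i => E.R w i ∈ univ.filter (fun p : {p // p ∈ Lam E.Θ} => v1 XS p.1 ⬝ᵥ XM q < 0))) =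
          univ.filter (fun i => v1 XS (E.R w i).1 ⬝ᵥ XM q < 0) := by
        ext i; simp
      rw [e]
      exact h)
    (fun w hw j γ hγ => E.cross w hw j γ hγ)
    (fun w hw j q hj => by
      have h := (E.loc XS hsumS hchi.symm (XM q) (hsumM q) (fun i => hX.abs _ i) w hw).2 j
      have e : (univ.filter (fun i => E.R w i ∈ univ.filter (fun p : {p // p ∈ Lam E.Θ} => v1 XS p.1 ⬝ᵥ XM q < 0))) =
          univ.filter (fun i => v1 XS (E.R w i).1 ⬝ᵥ XM q < 0) := by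
        ext i; simp
      rw [e] at hj
      exact h hj)
  refine le_trans ?_ (Set.ncard_le_ncard_of_injOn
    (s := {π : Equiv.Perm (Fin M) | ∃ (γ : Fin M → Gam d n) (μ : Fin M → ℕ),
      ∑ i, μ i ≤ 3 * M ∧
      (∀ i : Fin M, γ i ∈ E.G (wt2 E.cr (fun j : Fin i => γ ⟨j, j.2.trans i.2⟩))
        ⌊L0c d C n + 2 * t * ℓ * μ i / ((M : ℝ) - i)⌋₊) ∧
      (∀ i, ∀ p, p ∉ E.cr (γ i) → sg (v1 XS p.1 ⬝ᵥ XM (π i)) = E.ps (γ i) p) ∧
      ∀ y, (2 : ℝ) ^ (univ.filter (fun i => y ∈ E.cr (γ i))).card ≤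
        Fintype.card {p // p ∈ Lam E.Θ} * (1 + (d + 1 : ℝ) ^ 2 / r) ^ M})
    (fun π => (Equiv.sumCongr (Equiv.refl (Fin (d + 1))) (Equiv.sumCongr (Equiv.refl (Fin n)) π)).trans
      f₀) ?_ ?_ (Set.toFinite _))
  · omega
  · rintro π ⟨γ, μ, h1, h2, h3, h4⟩
    refine ⟨XS, fun i => XM (π i), γ, μ, ⟨hchi.symm, hsumS, fun i => hsumM _, h1, h2, h3, h4,
      fun p => hneg π p⟩, ?_⟩
    congr 1
    funext q
    rcases q with l | s | i
    · exact hf1 l
    · rfl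
    · rfl
  · intro π _ π' _ hππ
    refine Equiv.ext (fun i => ?_)
    have h := congrArg (fun e : QQ d n M ≃ Fin v => e (Sum.inr (Sum.inr i))) hππ
    simp only [Equiv.trans_apply, Equiv.sumCongr_apply, Sum.map_inr] at h
    exact Sum.inr_injective (Sum.inr_injective (f₀.injective h))

end Pool.Agent.H7.UB
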