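import Pool.Agent.H7.UB.CDefs
import Pool.Agent.H4.Pol.Faces

/-! Module Q: polytopes and configurations in normal form. -/

set_option autoImplicit false

namespace Pool.Agent.H7.UB

open Finset Matrix Module

open Pool.Agent.H4.Pol in
/-- The lifted vector. -/
def h47_lift {d : ℕ} (y : E d) : ℝ × E d := (1, y)

/-- A finite spanning family contains a basis in which all its members have coordinates of
absolute value at most `1`. -/
theorem h47_exists_basis {ι W : Type} [Finite ι] [Nonempty ι] [AddCommGroup W] [Module ℝ W]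
    [FiniteDimensional ℝ W] {n : ℕ} (hn : finrank ℝ W = n) (u : ι → W)
    (hu : Submodule.span ℝ (Set.range u) = ⊤) :
    ∃ (a : Fin n → ι) (b : Basis (Fin n) ℝ W), (∀ i, b i = u (a i)) ∧
      ∀ q i, |b.repr (u q) i| ≤ 1 := by
  classical
  let e : Basis (Fin n) ℝ W := finBasisOfFinrankEq ℝ W hn
  obtain ⟨a, ha⟩ := Finite.exists_max (fun a : Fin n → ι => |e.det (fun i => u (a i))|)
  -- some subfamily is a basis
  obtain ⟨κ, c, hc, hsp, hli⟩ := exists_linearIndependent' ℝ u
  have bκ : Basis κ ℝ W := Basis.mk hli (by rw [hsp, hu])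
  have : Finite κ := Finite.of_injective c hc
  have : Fintype κ := Fintype.ofFinite κ
  have hcard : Fintype.card κ = n := by rw [← hn]; exact (finrank_eq_card_basis bκ).symm
  let σ : Fin n ≃ κ := (Fintype.equivFinOfCardEq hcard).symm
  have hli2 : LinearIndependent ℝ (fun i => u (c (σ i))) := hli.comp σ σ.injective
  have hne0 : e.det (fun i => u (c (σ i))) ≠ 0 := by
    have h1 : (⊤ : Submodule ℝ W) ≤ Submodule.span ℝ (Set.range (fun i => u (c (σ i)))) := by
      have : Set.range (fun i => u (c (σ i))) = Set.range (u ∘ c) := by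
        have := σ.surjective.range_comp (u ∘ c)
        exact this
      rw [this, hsp, hu]
    have h2 := (Basis.is_basis_iff_det e (v := fun i => u (c (σ i)))).1 ⟨hli2, top_le_iff.1 h1⟩
    exact h2.ne_zero
  have hne : e.det (fun i => u (a i)) ≠ 0 := by
    have h1 := ha (fun i => c (σ i))
    have h2 : 0 < |e.det (fun i => u (c (σ i)))| := abs_pos.2 hne0
    exact abs_pos.1 (h2.trans_le h1)
  obtain ⟨hliA, hspA⟩ := (Basis.is_basis_iff_det e (v := fun i => u (a i))).2 (isUnit_iff_ne_zero.2 hne)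
  refine ⟨a, Basis.mk hliA hspA.ge, fun i => by rw [Basis.mk_apply], ?_⟩
  intro q i
  have h1 := Basis.det_smul_mk_coord_eq_det_update e hliA hspA.ge i
  have h2 := congrArg (fun f => f (u q)) h1
  have h3 : e.det (fun i => u (a i)) * (Basis.mk hliA hspA.ge).repr (u q) i =
      e.det (fun j => u (Function.update a i q j)) := by
    have h4 : (fun j => u (Function.update a i q j)) = Function.update (fun i => u (a i)) i (u q) := by
      funext j
      by_cases hj : j = i
      · subst hj; simp
      · simp [hj]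
    rw [h4]
    exact h2
  have h5 := ha (Function.update a i q)
  rw [← h3, abs_mul] at h5
  have h6 : 0 < |e.det (fun i => u (a i))| := abs_pos.2 hne
  exact (mul_le_iff_le_one_right h6).1 h5

open Pool.Agent.H4.Pol in
/-- Linear functionals and faces. -/
theorem h47_FF_eq_GS {d : ℕ} {Q : Type} [Fintype Q] (V : Q → E d)
    (b : Basis (Fin (d + 1)) ℝ (ℝ × E d)) :
    FF (fun q i => b.repr (h47_lift (V q)) i) = GS V := by
  have key : ∀ (h : Fin (d + 1) → ℝ) (y : E d),
      h ⬝ᵥ (fun i => b.repr (h47_lift y) i) = b.constr ℝ h (h47_lift y) := by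
    intro h y
    rw [Basis.constr_apply_fintype]
    simp only [dotProduct, smul_eq_mul, Basis.equivFun_apply]
    exact Finset.sum_congr rfl fun i _ => mul_comm _ _
  ext T
  constructor
  · rintro ⟨h, h0, hT⟩
    by_cases hne : T = ∅
    · rw [hne]; exact Set.mem_insert _ _
    · refine Set.mem_insert_of_mem _ ?_
      let φ := b.constr ℝ h
      refine ⟨-(φ.comp (LinearMap.inr ℝ ℝ (E d))), φ (1, 0), fun j => ?_, ?_,
        Set.nonempty_iff_ne_empty.2 hne⟩
      · have h1 := h0 j
        rw [key] at h1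
        have h2 : h47_lift (V j) = ((1, 0) : ℝ × E d) + (0, V j) := by simp [h47_lift]
        rw [h2, map_add] at h1
        simp only [LinearMap.neg_apply, LinearMap.comp_apply, LinearMap.inr_apply]
        change 0 ≤ φ (1, 0) + φ (0, V j) at h1
        linarith
      · rw [hT]
        ext j
        simp only [Set.mem_ofPred_eq, key]
        have h2 : h47_lift (V j) = ((1, 0) : ℝ × E d) + (0, V j) := by simp [h47_lift]
        rw [h2, map_add]
        simp only [LinearMap.neg_apply, LinearMap.comp_apply, LinearMap.inr_apply]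
        change φ (1, 0) + φ (0, V j) = 0 ↔ -φ (0, V j) = φ (1, 0)
        constructor <;> intro h <;> linarith
  · intro hT
    rcases hT with rfl | ⟨l, c, hc, hT, hne⟩
    · let φ : ℝ × E d →ₗ[ℝ] ℝ := LinearMap.fst ℝ ℝ (E d)
      have hφ : φ = b.constr ℝ (fun i => φ (b i)) := (Basis.constr_self b ℝ φ).symm
      refine ⟨fun i => φ (b i), fun q => ?_, ?_⟩
      · rw [key, ← hφ]
        change (0 : ℝ) ≤ 1
        norm_num
      · ext q
        simp only [Set.mem_empty_iff_false, Set.mem_ofPred_eq, false_iff, key, ← hφ]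
        change ¬ ((1 : ℝ) = 0)
        norm_num
    · let φ : ℝ × E d →ₗ[ℝ] ℝ := c • LinearMap.fst ℝ ℝ (E d) - l.comp (LinearMap.snd ℝ ℝ (E d))
      have hφ : φ = b.constr ℝ (fun i => φ (b i)) := (Basis.constr_self b ℝ φ).symm
      have hval : ∀ y : E d, φ (h47_lift y) = c - l y := by
        intro y
        simp [φ, h47_lift]
      refine ⟨fun i => φ (b i), fun q => ?_, ?_⟩
      · rw [key, ← hφ, hval]
        have := hc q
        linarith
      · rw [hT]
        ext q
        simp only [Set.mem_ofPred_eq, key, ← hφ, hval]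
        constructor <;> intro h <;> linarith

open Pool.Agent.H4.Pol in
/-- The lifted vertices of a polytope span. -/
theorem h47_span {d v : ℕ} (V : Fin v → E d)
    (hint : (interior (convexHull ℝ (Set.range V))).Nonempty) :
    Nonempty (Fin v) ∧ Submodule.span ℝ (Set.range (fun q => h47_lift (V q))) = ⊤ := by
  have hne : Nonempty (Fin v) := by
    rcases isEmpty_or_nonempty (Fin v) with h | h
    · obtain ⟨x, hx⟩ := hint
      have h1 : x ∈ convexHull ℝ (Set.range V) := interior_subset hx
      rw [Set.range_eq_empty, convexHull_empty] at h1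
      exact absurd h1 (Set.notMem_empty x)
    · exact h
  refine ⟨hne, ?_⟩
  by_contra hlt
  obtain ⟨φ, hφ0, hφ⟩ := Submodule.exists_le_ker_of_lt_top _ (lt_top_iff_ne_top.2 hlt)
  apply hφ0
  have h1 : ∀ q, φ (1, V q) = 0 := fun q => by
    have := hφ (Submodule.subset_span ⟨q, rfl⟩)
    exact this
  have hsplit : ∀ y : E d, φ (1, y) = φ (1, 0) + φ (0, y) := by
    intro y
    rw [← map_add]; simp
  rw [interior_convexHull_nonempty_iff_affineSpan_eq_top] at hint
  have hv : vectorSpan ℝ (Set.range V) = ⊤ :=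
    AffineSubspace.vectorSpan_eq_top_of_affineSpan_eq_top ℝ (E d) (E d) hint
  have hker : vectorSpan ℝ (Set.range V) ≤ LinearMap.ker (φ.comp (LinearMap.inr ℝ ℝ (E d))) := by
    rw [vectorSpan_def, Submodule.span_le]
    rintro _ ⟨_, ⟨i, rfl⟩, _, ⟨j, rfl⟩, rfl⟩
    simp only [SetLike.mem_coe, LinearMap.mem_ker, vsub_eq_sub, map_sub, LinearMap.comp_apply,
      LinearMap.inr_apply]
    have hi := h1 i
    have hj := h1 j
    rw [hsplit] at hi hj
    linarith
  have hz : ∀ y : E d, φ (0, y) = 0 := by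
    intro y
    have : y ∈ vectorSpan ℝ (Set.range V) := by rw [hv]; trivial
    exact hker this
  obtain ⟨q0⟩ := hne
  have h10 : φ (1, 0) = 0 := by
    have := h1 q0
    rw [hsplit, hz, add_zero] at this
    exact this
  refine LinearMap.ext fun p => ?_
  obtain ⟨r, y⟩ := p
  have : ((r, y) : ℝ × E d) = r • ((1, 0) : ℝ × E d) + (0, y) := by simp
  rw [this, map_add, map_smul, h10, hz]
  simp

open Pool.Agent.H4.Pol in
/-- Normal form of the vertices of a polytope. -/
theorem h47_exists_NF {d v : ℕ} (V : Fin v → E d)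
    (hint : (interior (convexHull ℝ (Set.range V))).Nonempty) :
    ∃ b : Basis (Fin (d + 1)) ℝ (ℝ × E d), (∀ i, (b i).1 = 1) ∧
      NF (fun q i => b.repr (h47_lift (V q)) i) := by
  obtain ⟨hne, hsp⟩ := h47_span V hint
  have hn : finrank ℝ (ℝ × E d) = d + 1 := by
    rw [Module.finrank_prod]; simp [add_comm]
  obtain ⟨a, b, hb, habs⟩ := h47_exists_basis hn (fun q => h47_lift (V q)) hsp
  have hb1 : ∀ i, (b i).1 = 1 := fun i => by rw [hb]; rfl
  refine ⟨b, hb1, ⟨fun q => ?_, habs, fun i => ⟨a i, ?_⟩⟩⟩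
  · have h1 := b.sum_repr (h47_lift (V q))
    have h2 := congrArg Prod.fst h1
    rw [Prod.fst_sum] at h2
    simp only [Prod.smul_fst, hb1, smul_eq_mul, mul_one] at h2
    exact h2
  · funext j
    rw [← hb i, b.repr_self, Finsupp.single_apply, Pi.single_apply]
    simp [eq_comm]

open Pool.Agent.H4.Pol in
/-- Polytopes have injective families of vertices, each of which is exposed. -/
theorem h47_exists_family {d v : ℕ} (P : Polytope d v) :
    ∃ V : Fin v → E d, P.1 = convexHull ℝ (Set.range V) ∧ Exp V := by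
  obtain ⟨P, ⟨⟨S, hS, hPS⟩, hint⟩, hcard⟩ := P
  have hfin : (P.extremePoints ℝ).Finite := by
    apply hS.subset
    rw [hPS]
    exact extremePoints_convexHull_subset
  have hcomp : IsCompact P := by
    rw [hPS]; exact hS.isCompact_convexHull ℝ
  have hconv : Convex ℝ P := by rw [hPS]; exact convex_convexHull ℝ S
  have hP : P = convexHull ℝ (P.extremePoints ℝ) := by
    have h1 := closure_convexHull_extremePoints hcomp hconv
    rw [(hfin.isClosed_convexHull ℝ).closure_eq] at h1
    exact h1.symm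
  have hcard' : Nat.card (P.extremePoints ℝ) = v := hcard
  have : Finite (P.extremePoints ℝ) := hfin
  have e : Fin v ≃ P.extremePoints ℝ := (Finite.equivFinOfCardEq hcard').symm
  have hrange : Set.range (fun i => (e i).1) = P.extremePoints ℝ := by
    ext x
    constructor
    · rintro ⟨i, rfl⟩; exact (e i).2
    · intro hx
      exact ⟨e.symm ⟨x, hx⟩, by simp⟩
  refine ⟨fun i => (e i).1, ?_, ?_⟩
  · rw [hrange]; exact hP
  · intro q
    have hinj : Function.Injective (fun i => (e i).1) :=
      Subtype.val_injective.comp e.injective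
    let K : Set (E d) := convexHull ℝ ((fun i => (e i).1) '' {j | j ≠ q})
    have hKfin : ((fun i => (e i).1) '' {j : Fin v | j ≠ q}).Finite := Set.toFinite _
    have hKP : K ⊆ P := by
      refine convexHull_min ?_ hconv
      rintro _ ⟨j, -, rfl⟩
      exact extremePoints_subset (e j).2
    have hq : (e q).1 ∉ K := by
      intro hqK
      have h1 := inter_extremePoints_subset_extremePoints_of_subset hKP ⟨hqK, (e q).2⟩
      obtain ⟨j, hj, hjq⟩ := extremePoints_convexHull_subset h1
      exact hj (hinj hjq)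
    obtain ⟨l, u, hl1, hl2⟩ := geometric_hahn_banach_closed_point
      (convex_convexHull ℝ _) (hKfin.isClosed_convexHull ℝ) hq
    refine ⟨l.toLinearMap, fun j hj => ?_⟩
    exact (hl1 _ (subset_convexHull ℝ _ ⟨j, hj, rfl⟩)).trans hl2

theorem h47_FF_comp {k : ℕ} {Q Q' : Type} (X : Q → Fin k → ℝ) (g : Q' ≃ Q) :
    FF (fun q => X (g q)) = (fun T => g ⁻¹' T) '' FF X := by
  ext T
  constructor
  · rintro ⟨h, h0, hT⟩
    refine ⟨{q | h ⬝ᵥ X q = 0}, ⟨h, fun q => ?_, rfl⟩, ?_⟩
    · have := h0 (g.symm q)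
      simpa using this
    · rw [hT]; rfl
  · rintro ⟨_, ⟨h, h0, rfl⟩, rfl⟩
    exact ⟨h, fun q => h0 (g q), rfl⟩

/-- (Q) Polytopes and configurations in normal form, with labels and automorphisms. -/
theorem numTypes_mul_le (d v : ℕ) (_hd : 1 ≤ d) {Q : Type} (A : Set (Set (Set Q)))
    (hA : A.Finite) (Gd Au : ℕ)
    (hG : ∀ X : Fin v → Fin (d + 1) → ℝ, NF X → (∀ q, {q} ∈ FF X) →
      Gd ≤ {f : Q ≃ Fin v | FF (fun q => X (f q)) ∈ A}.ncard)
    (hAu : ∀ X : Fin v → Fin (d + 1) → ℝ, NF X → (∀ q, {q} ∈ FF X) →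
      {π : Equiv.Perm (Fin v) | FF (fun q => X (π q)) = FF X}.ncard ≤ Au) :
    Pool.Agent.H4.Pol.numTypes d v * Gd ≤ A.ncard * Au := by
  classical
  open Pool.Agent.H4.Pol in
  have hex : ∀ P : Polytope d v, ∃ (V : Fin v → E d) (X : Fin v → Fin (d + 1) → ℝ),
      P.1 = convexHull ℝ (Set.range V) ∧ NF X ∧ (∀ q, {q} ∈ FF X) ∧
        ∀ (Q : Type) [Fintype Q] (f : Q ≃ Fin v), FF (fun q => X (f q)) = GS (fun q => V (f q)) := by
    intro P
    obtain ⟨V, hV, hE⟩ := h47_exists_family P
    have hint : (interior (convexHull ℝ (Set.range V))).Nonempty := by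
      rw [← hV]; exact P.2.1.2
    obtain ⟨b, hb, hNF⟩ := h47_exists_NF V hint
    refine ⟨V, _, hV, hNF, ?_, ?_⟩
    · intro q
      rw [h47_FF_eq_GS V b]
      exact Set.mem_insert_of_mem _ (hE.singleton_mem q)
    · intro Q _ f
      exact h47_FF_eq_GS (fun q => V (f q)) b
  choose V X hV hNF hsing hGS using hex
  unfold Pool.Agent.H4.Pol.numTypes
  let 𝒬 := Quotient (Pool.Agent.H4.Pol.combSetoid d v)
  have : Fintype 𝒬 := Fintype.ofFinite _
  have : Fintype (Q ≃ Fin v) := Fintype.ofFinite _
  let Y : 𝒬 → Fin v → Fin (d + 1) → ℝ := fun T => X T.out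
  let S : 𝒬 → Finset (Q ≃ Fin v) := fun T => univ.filter (fun f => FF (fun q => Y T (f q)) ∈ A)
  have hS : ∀ T, Gd ≤ (S T).card := by
    intro T
    refine (hG (Y T) (hNF _) (hsing _)).trans (le_of_eq ?_)
    rw [Set.ncard_eq_toFinset_card']
    congr 1
    ext f
    simp [S]
  let D : Finset (Σ _ : 𝒬, (Q ≃ Fin v)) := univ.sigma S
  have hD1 : Fintype.card 𝒬 * Gd ≤ D.card := by
    rw [Finset.card_sigma]
    calc Fintype.card 𝒬 * Gd = ∑ _T : 𝒬, Gd := by simp
      _ ≤ _ := Finset.sum_le_sum fun T _ => hS T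
  let φ : (Σ _ : 𝒬, (Q ≃ Fin v)) → Set (Set Q) := fun p => FF (fun q => Y p.1 (p.2 q))
  have hmap : ∀ p ∈ D, φ p ∈ hA.toFinset := by
    intro p hp
    rw [Set.Finite.mem_toFinset]
    have := (Finset.mem_sigma.1 hp).2
    exact (Finset.mem_filter.1 this).2
  have hfib : ∀ F ∈ hA.toFinset, (D.filter (fun p => φ p = F)).card ≤ Au := by
    intro F _
    rcases (D.filter (fun p => φ p = F)).eq_empty_or_nonempty with he | ⟨p0, hp0⟩
    · rw [he]; simp
    obtain ⟨T0, f0⟩ := p0
    have : Fintype Q := Fintype.ofEquiv (Fin v) f0.symm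
    have hF0 : φ ⟨T0, f0⟩ = F := (Finset.mem_filter.1 hp0).2
    have hsame : ∀ p ∈ D.filter (fun p => φ p = F), p.1 = T0 := by
      rintro ⟨T, f⟩ hp
      have hF : φ ⟨T, f⟩ = φ ⟨T0, f0⟩ := by rw [hF0]; exact (Finset.mem_filter.1 hp).2
      change FF (fun q => X T.out (f q)) = FF (fun q => X T0.out (f0 q)) at hF
      rw [hGS _ Q f, hGS _ Q f0] at hF
      have h2 := Pool.Agent.H4.Pol.nonempty_iso_of_GS_eq hF
      have h3 : ∀ (P : Pool.Agent.H4.Pol.Polytope d v) (f : Q ≃ Fin v),
          convexHull ℝ (Set.range (fun i => V P (f i))) = P.1 := by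
        intro P f
        rw [hV P]
        congr 1
        exact f.surjective.range_comp (V P)
      rw [h3, h3] at h2
      change T = T0
      rw [← T.out_eq, ← T0.out_eq]
      exact Quotient.sound h2
    let g : (Σ _ : 𝒬, (Q ≃ Fin v)) → Equiv.Perm (Fin v) := fun p => f0.symm.trans p.2
    have h4 := Finset.card_le_card_of_injOn
      (s := D.filter (fun p => φ p = F))
      (t := univ.filter (fun π : Equiv.Perm (Fin v) => FF (fun q => Y T0 (π q)) = FF (Y T0)))
      g (by
        rintro ⟨T, f⟩ hp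
        have hT : T = T0 := hsame _ hp
        subst hT
        have hF : φ ⟨T, f⟩ = φ ⟨T, f0⟩ := by rw [hF0]; exact (Finset.mem_filter.1 hp).2
        simp only [Finset.coe_filter, Finset.mem_univ, true_and, Set.mem_ofPred_eq]
        have e1 : FF (fun q => Y T (g ⟨T, f⟩ q)) =
            (fun S => f0.symm ⁻¹' S) '' FF (fun q => Y T (f q)) :=
          h47_FF_comp (fun q => Y T (f q)) f0.symm
        have e2 : FF (fun q => Y T (f0 (f0.symm q))) =
            (fun S => f0.symm ⁻¹' S) '' FF (fun q => Y T (f0 q)) :=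
          h47_FF_comp (fun q => Y T (f0 q)) f0.symm
        have e3 : FF (fun q => Y T (f q)) = FF (fun q => Y T (f0 q)) := hF
        rw [e1, e3, ← e2]
        simp) (by
        rintro ⟨T, f⟩ hp ⟨T', f'⟩ hp' hgg
        have hT : T = T0 := hsame _ hp
        have hT' : T' = T0 := hsame _ hp'
        subst hT
        subst hT'
        have h5 : f0.symm.trans f = f0.symm.trans f' := hgg
        have h6 : f = f' := by
          ext1 x
          have := congrArg (fun π => π (f0 x)) h5
          simpa using this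
        rw [h6])
    refine h4.trans ?_
    refine le_trans (le_of_eq ?_) (hAu (Y T0) (hNF _) (hsing _))
    rw [Set.ncard_eq_toFinset_card']
    congr 1
    ext π
    simp
  have h7 := Finset.card_le_mul_card_image_of_maps_to hmap Au hfib
  rw [Nat.card_eq_fintype_card]
  calc Fintype.card 𝒬 * Gd ≤ D.card := hD1
    _ ≤ Au * hA.toFinset.card := h7
    _ = A.ncard * Au := by rw [Set.ncard_eq_toFinset_card A hA, mul_comm]

end Pool.Agent.H7.UB
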