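import Pool.Agent.H7.UB.Defs

/-! The universe of vectors attached to a sample, and its chirotope. -/

set_option autoImplicit false

namespace Pool.Agent.H7.UB

open Finset Matrix

/-- Labels: the points of the sample and the standard basis. -/
abbrev L0 (d n : ℕ) := Fin n ⊕ Fin (d + 1)
/-- Labels of signed cross products of vectors of `L0`. -/
abbrev L1 (d n : ℕ) := (Fin d → L0 d n) × Bool
/-- Labels of signed cross products of vectors of `L1` and the box. -/
abbrev L2 (d n : ℕ) := (Fin d → L1 d n ⊕ Fin (d + 1)) × Bool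
/-- Labels of cross products of vectors of `L2`. -/
abbrev L3 (d n : ℕ) := Fin d → L2 d n
/-- Labels of cross products of vectors of `L1`. -/
abbrev L2' (d n : ℕ) := Fin d → L1 d n
/-- All labels. -/
abbrev U (d n : ℕ) := L0 d n ⊕ L1 d n ⊕ L2 d n ⊕ L3 d n ⊕ L2' d n ⊕ Fin (d + 1)

variable {R : Type*} [CommRing R] {d n : ℕ}

/-- Standard basis. -/
def stdb (l : Fin (d + 1)) : Fin (d + 1) → R := Pi.single l 1
/-- The box functionals. -/
def box (l : Fin (d + 1)) : Fin (d + 1) → R := fun i => (Pi.single l 1 : Fin (d + 1) → R) i + 1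

def v0 (X : Fin n → Fin (d + 1) → R) : L0 d n → Fin (d + 1) → R := Sum.elim X stdb
def v1 (X : Fin n → Fin (d + 1) → R) (p : L1 d n) : Fin (d + 1) → R := cvec X stdb p
def v2 (X : Fin n → Fin (d + 1) → R) (p : L2 d n) : Fin (d + 1) → R := cvec (v1 X) box p
def v3 (X : Fin n → Fin (d + 1) → R) (p : L3 d n) : Fin (d + 1) → R := cross (fun a => v2 X (p a))
def v2' (X : Fin n → Fin (d + 1) → R) (p : L2' d n) : Fin (d + 1) → R :=
  cross (fun a => v1 X (p a))

/-- All vectors. -/
def vU (X : Fin n → Fin (d + 1) → R) : U d n → Fin (d + 1) → R :=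
  Sum.elim (v0 X) (Sum.elim (v1 X) (Sum.elim (v2 X) (Sum.elim (v3 X) (Sum.elim (v2' X) box))))

/-- The chirotope of the universe. -/
noncomputable def chi (X : Fin n → Fin (d + 1) → ℝ) : (Fin (d + 1) → U d n) → SignType :=
  fun f => sg (Matrix.det (Matrix.of (fun i => vU X (f i))))

end Pool.Agent.H7.UB
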