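import Pool.Agent.H7.UB.Good
import Pool.Agent.H7.UB.NumTypes
import Pool.Agent.H4.Aut.Main

/-! # MAIN, part 8: the upper bound -/

set_option autoImplicit false
set_option linter.unusedSectionVars false

namespace Pool.Agent.H7.UB

open Finset Matrix Filter Topology
open Pool.Agent.H4.Pol (numTypes)

/-- The upper bound for the number of combinatorial types. -/
theorem upper_pow (d : ℕ) (hd : 4 ≤ d) (a : ℝ) (ha : 0 < a) :
    ∀ᶠ v : ℕ in atTop, (numTypes d v : ℝ) ≤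
      (v : ℝ) ^ ((((d + 1) * (d / 2 - 1) : ℕ) + a) * v) := by
  classical
  obtain ⟨C, C₁, C₃, hall⟩ := card_all d (by omega)
  obtain ⟨CA, hCA⟩ := Pool.Agent.H4.Aut.aut_le d (by omega)
  filter_upwards [est d (by omega) C C₁ C₃ CA a ha] with v hv
  obtain ⟨n, ℓ, M, κ, r, hr, hℓ, hM, hv1, h1, h2, h3, h4⟩ := hv
  obtain ⟨X₀, D, hX₀, hcard⟩ := hall n v r hr h1
  have hA := hcard M ℓ κ hM h3
  have h5 := numTypes_mul_le d v (by omega) (AA D M ℓ) (Set.toFinite _) ((M.factorial + 1) / 2)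
    (CA * v ^ CA) (fun X hX _ => good_orders hr D hX₀ v ℓ M hℓ hv1 h2 X hX)
    (fun X hX hX' => hCA v X hX hX')
  have h6 : (numTypes d v : ℝ) * (((M.factorial + 1) / 2 : ℕ) : ℝ) ≤
      ((AA D M ℓ).ncard : ℝ) * (CA * (v : ℝ) ^ CA) := by exact_mod_cast h5
  have h7 : (M.factorial : ℝ) / 2 ≤ (((M.factorial + 1) / 2 : ℕ) : ℝ) := by
    have : M.factorial ≤ 2 * ((M.factorial + 1) / 2) := by omega
    have h8 : (M.factorial : ℝ) ≤ 2 * (((M.factorial + 1) / 2 : ℕ) : ℝ) := by exact_mod_cast this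
    linarith
  have h9 : (numTypes d v : ℝ) * ((M.factorial : ℝ) / 2) ≤
      (N1 d C₁ n * (N2 d C n v ℓ M * N3 d C C₃ n M (κ + ℓ))) * (CA * (v : ℝ) ^ CA) := by
    calc (numTypes d v : ℝ) * ((M.factorial : ℝ) / 2) ≤
        (numTypes d v : ℝ) * (((M.factorial + 1) / 2 : ℕ) : ℝ) :=
          mul_le_mul_of_nonneg_left h7 (Nat.cast_nonneg _)
      _ ≤ _ := h6
      _ ≤ _ := mul_le_mul_of_nonneg_right hA (by positivity)
  have h10 : (M.factorial : ℝ) * (numTypes d v : ℝ) ≤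
      M.factorial * (v : ℝ) ^ ((((d + 1) * (d / 2 - 1) : ℕ) + a) * v) := by
    refine le_trans ?_ h4
    nlinarith [h9]
  exact le_of_mul_le_mul_left h10 (by exact_mod_cast Nat.factorial_pos M)

/-- Upper and lower bound give the limit. -/
theorem tendsto_of_bounds (d : ℕ) (hd : 4 ≤ d)
    (hlow : ∀ c : ℝ, c < ((d : ℝ) + 1) * (((d / 2 : ℕ) : ℝ) - 1) →
      ∀ᶠ v : ℕ in atTop, c ≤ Real.log (numTypes d v) / (v * Real.log v)) :
    Tendsto (fun v : ℕ => Real.log (numTypes d v) / (v * Real.log v)) atTop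
      (𝓝 (((d : ℝ) + 1) * (((d / 2 : ℕ) : ℝ) - 1))) := by
  have hB : (((d + 1) * (d / 2 - 1) : ℕ) : ℝ) = ((d : ℝ) + 1) * (((d / 2 : ℕ) : ℝ) - 1) := by
    have : 1 ≤ d / 2 := by omega
    push_cast [Nat.cast_sub this]
    ring
  rw [tendsto_order]
  refine ⟨fun c hc => ?_, fun c hc => ?_⟩
  · obtain ⟨c', h1, h2⟩ := exists_between hc
    filter_upwards [hlow c' h2] with v hv
    linarith
  · obtain ⟨c', h1, h2⟩ := exists_between hc
    have h0 : (0 : ℝ) ≤ ((d : ℝ) + 1) * (((d / 2 : ℕ) : ℝ) - 1) := by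
      rw [← hB]
      exact Nat.cast_nonneg _
    filter_upwards [upper_pow d hd (c' - ((d : ℝ) + 1) * (((d / 2 : ℕ) : ℝ) - 1)) (by linarith),
      eventually_ge_atTop 2] with v hv hv2
    have hv2' : (2 : ℝ) ≤ (v : ℝ) := by exact_mod_cast hv2
    have hlog : 0 < Real.log (v : ℝ) := Real.log_pos (by linarith)
    rw [hB, add_sub_cancel] at hv
    refine lt_of_le_of_lt ?_ h2
    rw [div_le_iff₀ (by positivity)]
    rcases Nat.eq_zero_or_pos (numTypes d v) with h3 | h3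
    · rw [h3, Nat.cast_zero, Real.log_zero]
      have : 0 ≤ c' := by linarith
      positivity
    · have hpos : (0 : ℝ) < (numTypes d v : ℝ) := by exact_mod_cast h3
      have hle := Real.log_le_log hpos hv
      rw [Real.log_rpow (by linarith)] at hle
      linarith

end Pool.Agent.H7.UB
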